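import Mathlib

/-!
Homeomorphisms supported in a set, proper arcs, and families of homeomorphisms.
-/

namespace Pool.Agent.MP_4a6971_al.H83

open Set Topology

variable {Z : Type} [TopologicalSpace Z]

/-- `h` is the identity outside the interior of `K`. -/
def Supp (h : Z ≃ₜ Z) (K : Set Z) : Prop := ∀ z, z ∉ interior K → h z = z

/-- `γ` restricted to `[0,1]` is an arc in `K` that meets the frontier of `K` exactly in its ends. -/
structure PArc (K : Set Z) (γ : ℝ → Z) : Prop where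
  cont : ContinuousOn γ (Icc 0 1)
  inj : InjOn γ (Icc 0 1)
  m0 : γ 0 ∈ K
  n0 : γ 0 ∉ interior K
  m1 : γ 1 ∈ K
  n1 : γ 1 ∉ interior K
  mid : ∀ t ∈ Ioo (0 : ℝ) 1, γ t ∈ interior K

/-- At the time `t₀` the arc `γ` passes from one side of the set `D` to the other. -/
def Cross (γ : ℝ → Z) (D : Set Z) (t₀ : ℝ) : Prop :=
  ∃ N ∈ 𝓝 (γ t₀), ∀ S ⊆ N \ D, IsPreconnected S →
    ∀ t ∈ Ico (0 : ℝ) t₀, ∀ t' ∈ Ioc t₀ 1, γ t ∈ S → γ t' ∉ S

/-- A two-coloured finite system of proper arcs: arcs of the same colour have the same image or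
disjoint interiors and different pairs of ends; arcs of different colours meet at most once, and
cross if they meet in interior points. -/
structure TwoCol {ι : Type} (K : Set Z) (γ : ι → ℝ → Z) (col : ι → ZMod 2) : Prop where
  arc : ∀ i, PArc K (γ i)
  same : ∀ i j, col i = col j → γ i '' Icc 0 1 = γ j '' Icc 0 1 ∨
    ((∀ t ∈ Ioo (0 : ℝ) 1, ∀ t' ∈ Ioo (0 : ℝ) 1, γ i t ≠ γ j t') ∧
      ({γ i 0, γ i 1} : Set Z) ≠ {γ j 0, γ j 1})
  once : ∀ i j, col i ≠ col j → (γ i '' Icc 0 1 ∩ γ j '' Icc 0 1).Subsingleton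
  cross : ∀ i j, col i ≠ col j → ∀ t ∈ Ioo (0 : ℝ) 1, γ i t ∈ γ j '' Icc 0 1 →
    Cross (γ i) (γ j '' Icc 0 1) t

theorem Supp.refl (K : Set Z) : Supp (1 : Z ≃ₜ Z) K := fun _ _ => rfl

theorem Supp.mono {h : Z ≃ₜ Z} {K L : Set Z} (a : Supp h K) (b : K ⊆ L) : Supp h L :=
  fun z hz => a z fun c => hz (interior_mono b c)

theorem Supp.mul {h h' : Z ≃ₜ Z} {K : Set Z} (a : Supp h K) (b : Supp h' K) : Supp (h * h') K :=
  fun z hz => by
    change h (h' z) = z
    rw [b z hz, a z hz]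

theorem Supp.inv {h : Z ≃ₜ Z} {K : Set Z} (a : Supp h K) : Supp h⁻¹ K := fun z hz => by
  change h.symm z = z
  rw [h.symm_apply_eq, a z hz]

theorem Supp.mem_interior {h : Z ≃ₜ Z} {K : Set Z} (a : Supp h K) {z : Z} :
    h z ∈ interior K ↔ z ∈ interior K := by
  refine ⟨fun b => by_contra fun c => c (a z c ▸ b), fun b => by_contra fun c => c ?_⟩
  rwa [h.injective (a _ c)]

theorem Supp.mem {h : Z ≃ₜ Z} {K : Set Z} (a : Supp h K) {z : Z} : h z ∈ K ↔ z ∈ K := by
  by_cases b : z ∈ interior K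
  · exact iff_of_true (interior_subset (a.mem_interior.2 b)) (interior_subset b)
  · rw [a z b]

theorem PArc.mem {K : Set Z} {γ : ℝ → Z} (h : PArc K γ) {t : ℝ} (ht : t ∈ Icc (0 : ℝ) 1) :
    γ t ∈ K := by
  rcases ht.1.eq_or_lt with rfl | a
  · exact h.m0
  rcases ht.2.eq_or_lt with rfl | b
  · exact h.m1
  exact interior_subset (h.mid t ⟨a, b⟩)

theorem PArc.ne {K : Set Z} {γ : ℝ → Z} (h : PArc K γ) : γ 0 ≠ γ 1 := fun e =>
  zero_ne_one (h.inj (by simp) (by simp) e)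

theorem PArc.map {K : Set Z} {γ : ℝ → Z} (h : PArc K γ) {f : Z ≃ₜ Z} (a : Supp f K) :
    PArc K fun t => f (γ t) where
  cont := f.continuous.comp_continuousOn h.cont
  inj := f.injective.comp_injOn h.inj
  m0 := a.mem.2 h.m0
  n0 := fun b => h.n0 (a.mem_interior.1 b)
  m1 := a.mem.2 h.m1
  n1 := fun b => h.n1 (a.mem_interior.1 b)
  mid := fun t ht => a.mem_interior.2 (h.mid t ht)

end Pool.Agent.MP_4a6971_al.H83

/-!
Cone extension, the Alexander trick, sliding a point, and polygonal arcs in the plane.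
-/

namespace Pool.Agent.MP_4a6971_al.H83

open Set Topology Metric

/-- A continuous bijection of `ℂ` that is the identity outside a compact set is a homeomorphism.
Hint: `isHomeomorph_iff_continuous_isClosedMap_bijective`; for closed `C`,
`f '' C = f '' (C ∩ K) ∪ (C ∩ closure Kᶜ)`. -/
theorem homeo_of_supp {Z : Type} [TopologicalSpace Z] [T2Space Z] {f : Z → Z} (hc : Continuous f)
    (hb : Function.Bijective f) {K : Set Z} (hK : IsCompact K) (h : ∀ z, z ∉ K → f z = z) :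
    ∃ F : Z ≃ₜ Z, ∀ z, F z = f z := by
  have h1 : EqOn f id (closure Kᶜ) := EqOn.closure (fun z hz => h z hz) hc continuous_id
  have h2 : IsClosedMap f := fun C hC => by
    have e : f '' C = f '' (K ∩ C) ∪ (C ∩ closure Kᶜ) := by
      refine Subset.antisymm ?_ (union_subset (image_mono inter_subset_right)
        fun z hz => ⟨z, hz.1, h1 hz.2⟩)
      rintro _ ⟨z, hz, rfl⟩
      by_cases a : z ∈ K
      · exact Or.inl ⟨z, ⟨a, hz⟩, rfl⟩
      · rw [h z a]
        exact Or.inr ⟨hz, subset_closure a⟩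
    rw [e]
    exact ((hK.inter_right hC).image hc).isClosed.union (hC.inter isClosed_closure)
  exact ⟨(isHomeomorph_iff_continuous_isClosedMap_bijective.2 ⟨hc, h2, hb⟩).homeomorph f,
    fun _ => rfl⟩

theorem Cone1_unit {z : ℂ} (hz : z ≠ 0) : ‖z‖⁻¹ • z ∈ sphere (0 : ℂ) 1 := by
  rw [mem_sphere_zero_iff_norm, norm_smul, norm_inv, norm_norm,
    inv_mul_cancel₀ (norm_ne_zero_iff.2 hz)]

theorem Cone1_ball {b : ℂ → ℂ} (hb : ContinuousOn b (sphere 0 1))
    (hbij : BijOn b (sphere 0 1) (sphere 0 1)) :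
    ∃ h : ℂ ≃ₜ ℂ, (∀ z, ‖h z‖ = ‖z‖) ∧ EqOn h b (sphere 0 1) := by
  let f : ℂ → ℂ := fun z => ‖z‖ • b (‖z‖⁻¹ • z)
  have hn : ∀ z, ‖f z‖ = ‖z‖ := fun z => by
    by_cases hz : z = 0
    · simp [f, hz]
    · simp only [f]
      rw [norm_smul, norm_norm, mem_sphere_zero_iff_norm.1 (hbij.mapsTo (Cone1_unit hz)), mul_one]
  have hc : Continuous f := continuous_iff_continuousAt.2 fun z => by
    by_cases hz : z = 0
    · subst hz
      have e : f 0 = 0 := norm_eq_zero.1 ((hn 0).trans norm_zero)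
      rw [ContinuousAt, e, tendsto_zero_iff_norm_tendsto_zero]
      simp only [hn]
      exact tendsto_norm_zero
    · have h1 : ContinuousOn (fun z : ℂ => b (‖z‖⁻¹ • z)) {0}ᶜ :=
        hb.comp ((continuous_norm.continuousOn.inv₀ fun w hw => norm_ne_zero_iff.2 hw).smul
          continuousOn_id) fun w hw => Cone1_unit hw
      exact continuous_norm.continuousAt.smul
        (h1.continuousAt (isOpen_compl_singleton.mem_nhds hz))
  have hi : Function.Injective f := fun z w e => by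
    have e1 : ‖z‖ = ‖w‖ := by rw [← hn z, e, hn w]
    by_cases hz : z = 0
    · rw [hz, norm_zero] at e1
      rw [hz, norm_eq_zero.1 e1.symm]
    · have h0 := norm_ne_zero_iff.2 hz
      have hw : w ≠ 0 := norm_ne_zero_iff.1 (e1 ▸ h0)
      have e2 : ‖z‖ • b (‖z‖⁻¹ • z) = ‖z‖ • b (‖w‖⁻¹ • w) := e.trans (by simp only [f, e1])
      have e3 := hbij.injOn (Cone1_unit hz) (Cone1_unit hw) (smul_right_injective _ h0 e2)
      rw [← e1] at e3
      exact smul_right_injective _ (inv_ne_zero h0) e3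
  have hs : Function.Surjective f := fun w => by
    by_cases hw : w = 0
    · exact ⟨0, by simp [f, hw]⟩
    · obtain ⟨u, hu, e⟩ := hbij.surjOn (Cone1_unit hw)
      have h0 := norm_ne_zero_iff.2 hw
      have e1 : ‖‖w‖ • u‖ = ‖w‖ := by
        rw [norm_smul, norm_norm, mem_sphere_zero_iff_norm.1 hu, mul_one]
      refine ⟨‖w‖ • u, ?_⟩
      simp only [f]
      rw [e1, inv_smul_smul₀ h0, e, smul_inv_smul₀ h0]
  have hp : IsProperMap f := isProperMap_iff_tendsto_cocompact.2 ⟨hc, by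
    have h1 : Filter.Tendsto f (Filter.cocompact ℂ) (Bornology.cobounded ℂ) := by
      rw [← tendsto_norm_atTop_iff_cobounded]
      simp only [hn]
      exact tendsto_norm_cocompact_atTop
    rwa [Metric.cobounded_eq_cocompact] at h1⟩
  refine ⟨(isHomeomorph_iff_continuous_isClosedMap_bijective.2
    ⟨hc, hp.isClosedMap, hi, hs⟩).homeomorph f, hn, fun z hz => ?_⟩
  change ‖z‖ • b (‖z‖⁻¹ • z) = b z
  rw [mem_sphere_zero_iff_norm.1 hz, inv_one, one_smul, one_smul]

theorem Cone1_image {h : ℂ ≃ₜ ℂ} (hn : ∀ z, ‖h z‖ = ‖z‖) {S : Set ℂ}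
    (hS : ∀ z w, ‖z‖ = ‖w‖ → z ∈ S → w ∈ S) : h '' S = S := by
  refine Subset.antisymm ?_ fun w hw => ⟨h.symm w, hS _ _ ?_ hw, h.apply_symm_apply w⟩
  · rintro _ ⟨z, hz, rfl⟩
    exact hS _ _ (hn z).symm hz
  · rw [← hn (h.symm w), h.apply_symm_apply]

/-- Cone extension. Hint: first `K = L = closedBall 0 1` (`z ↦ ‖z‖ • b (z / ‖z‖)`, inverse of the
same form from the continuous inverse of `b` on the compact sphere); then conjugate with
`exists_homeomorph_image_interior_closure_frontier_eq_unitBall`. -/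
theorem exists_cone {K L : Set ℂ} (hK : IsCompact K) (hKc : Convex ℝ K)
    (hKn : (interior K).Nonempty) (hL : IsCompact L) (hLc : Convex ℝ L)
    (hLn : (interior L).Nonempty) {b : ℂ → ℂ} (hb : ContinuousOn b (frontier K))
    (hbij : BijOn b (frontier K) (frontier L)) :
    ∃ h : ℂ ≃ₜ ℂ, h '' K = L ∧ h '' interior K = interior L ∧ EqOn h b (frontier K) := by
  obtain ⟨φ, φ1, φ2, φ3⟩ :=
    exists_homeomorph_image_interior_closure_frontier_eq_unitBall hKc hKn hK.isBounded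
  obtain ⟨ψ, ψ1, ψ2, ψ3⟩ :=
    exists_homeomorph_image_interior_closure_frontier_eq_unitBall hLc hLn hL.isBounded
  rw [hK.isClosed.closure_eq] at φ2
  rw [hL.isClosed.closure_eq] at ψ2
  have b1 : BijOn φ.symm (sphere 0 1) (frontier K) := by
    rw [← φ3]
    exact (φ.injective.injOn.bijOn_image (s := frontier K)).symm
      ⟨fun z _ => φ.apply_symm_apply z, fun z _ => φ.symm_apply_apply z⟩
  have b2 : BijOn ψ (frontier L) (sphere 0 1) := ψ3 ▸ ψ.injective.injOn.bijOn_image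
  obtain ⟨g, gn, gb⟩ := Cone1_ball (b := fun z => ψ (b (φ.symm z)))
    (ψ.continuous.comp_continuousOn (hb.comp φ.symm.continuous.continuousOn b1.mapsTo))
    (b2.comp (hbij.comp b1))
  have key : ∀ {A B S : Set ℂ}, φ '' A = S → ψ '' B = S →
      (∀ z w, ‖z‖ = ‖w‖ → z ∈ S → w ∈ S) → (φ.trans (g.trans ψ.symm)) '' A = B := by
    intro A B S hA hB hS
    have e : (φ.trans (g.trans ψ.symm)) '' A = ψ.symm '' (g '' (φ '' A)) := by
      rw [image_image, image_image]
      rfl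
    rw [e, hA, Cone1_image gn hS, ← hB, image_image]
    simp
  refine ⟨φ.trans (g.trans ψ.symm), key φ2 ψ2 fun z w e hz => ?_, key φ1 ψ1 fun z w e hz => ?_,
    fun z hz => ?_⟩
  · rwa [mem_closedBall_zero_iff, ← e, ← mem_closedBall_zero_iff]
  · rwa [mem_ball_zero_iff, ← e, ← mem_ball_zero_iff]
  · change ψ.symm (g (φ z)) = b z
    rw [gb (φ3 ▸ mem_image_of_mem φ hz)]
    simp

theorem Cone1_cont {d : ℂ → ℂ} (hd : Continuous d) {M : ℝ} (hM : ∀ w, ‖d w‖ ≤ M) (c : ℂ) :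
    Continuous fun p : ℝ × ℂ => p.1 • d (c + p.1⁻¹ • (p.2 - c)) := by
  refine continuous_iff_continuousAt.2 fun p => ?_
  by_cases hp : p.1 = 0
  · rw [ContinuousAt, hp, zero_smul]
    refine squeeze_zero_norm (a := fun q : ℝ × ℂ => ‖q.1‖ * M) (fun q => ?_) ?_
    · rw [norm_smul]
      exact mul_le_mul_of_nonneg_left (hM _) (norm_nonneg _)
    · have h1 : Continuous fun q : ℝ × ℂ => ‖q.1‖ * M := by fun_prop
      have h2 := h1.tendsto p
      rwa [hp, norm_zero, zero_mul] at h2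
  · exact continuousAt_fst.smul (hd.continuousAt.comp (continuousAt_const.add
      ((continuousAt_fst.inv₀ hp).smul (continuousAt_snd.sub continuousAt_const))))

/-- Alexander trick. Hint: if `K` is empty `h = 1`. Otherwise take `c ∈ K`,
`τ = max 0 (min t 1)`, `H t z = c + τ • (h (c + τ⁻¹ • (z - c)) - c)` for `τ > 0` and `H t = 1` for
`τ = 0`; `‖H t z - z‖ ≤ τ * diam K`. -/
theorem alexander {K : Set ℂ} (hK : IsCompact K) (hKc : Convex ℝ K) {h : ℂ ≃ₜ ℂ} (hs : Supp h K) :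
    ∃ H : ℝ → ℂ ≃ₜ ℂ, Continuous (fun p : ℝ × ℂ => H p.1 p.2) ∧ (∀ t, Supp (H t) K) ∧
      H 0 = 1 ∧ H 1 = h := by
  rcases K.eq_empty_or_nonempty with rfl | ⟨c, hc⟩
  · exact ⟨fun _ => 1, continuous_snd, fun _ => Supp.refl _, rfl,
      Homeomorph.ext fun z => (hs z (by simp)).symm⟩
  have hM : ∀ w, ‖h w - w‖ ≤ diam K := fun w => by
    by_cases hw : w ∈ K
    · rw [← dist_eq_norm]
      exact dist_le_diam_of_mem hK.isBounded (hs.mem.2 hw) hw
    · rw [hs w fun a => hw (interior_subset a), sub_self, norm_zero]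
      exact diam_nonneg
  have ex : ∀ τ : ℝ, ∃ G : ℂ ≃ₜ ℂ, ∀ z,
      G z = z + τ • (h (c + τ⁻¹ • (z - c)) - (c + τ⁻¹ • (z - c))) := fun τ => by
    by_cases hτ : τ = 0
    · exact ⟨1, fun z => by rw [hτ, zero_smul, add_zero]; rfl⟩
    · refine ⟨(Homeomorph.subRight c).trans ((Homeomorph.smulOfNeZero τ⁻¹ (inv_ne_zero hτ)).trans
        ((Homeomorph.addLeft c).trans (h.trans ((Homeomorph.subRight c).trans
          ((Homeomorph.smulOfNeZero τ hτ).trans (Homeomorph.addLeft c)))))), fun z => ?_⟩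
      change c + τ • (h (c + τ⁻¹ • (z - c)) - c) = _
      rw [← sub_sub, smul_sub τ (_ - c), smul_inv_smul₀ hτ]
      abel
  choose G hG using ex
  refine ⟨fun t => G (max 0 (min t 1)), ?_, fun t z hz => ?_, Homeomorph.ext fun z => ?_,
    Homeomorph.ext fun z => ?_⟩
  · simp only [hG]
    exact continuous_snd.add ((Cone1_cont (d := fun w => h w - w) (by fun_prop) hM c).comp
      (f := fun p : ℝ × ℂ => (max 0 (min p.1 1), p.2)) (by fun_prop))
  · have h0 : 0 ≤ max 0 (min t 1) := le_max_left _ _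
    have h1 : max 0 (min t 1) ≤ 1 := max_le zero_le_one (min_le_right _ _)
    rw [hG]
    generalize max 0 (min t 1) = τ at h0 h1
    rcases h0.eq_or_lt with rfl | h2
    · rw [zero_smul, add_zero]
    · rw [hs _ fun a => hz ?_, sub_self, smul_zero, add_zero]
      have h3 := hKc.combo_interior_self_mem_interior a hc h2 (sub_nonneg.2 h1) (by ring)
      rwa [smul_add, smul_inv_smul₀ h2.ne', sub_smul, one_smul,
        show τ • c + (z - c) + (c - τ • c) = z by abel] at h3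
  · rw [hG]
    simp
  · rw [hG]
    simp

end Pool.Agent.MP_4a6971_al.H83

/-!
Cone extension, the Alexander trick, sliding a point, and polygonal arcs in the plane.
-/

namespace Pool.Agent.MP_4a6971_al.H83

open Set Topology Metric

theorem Cone_step {K : Set ℂ} (hK : IsCompact K) (v : ℂ) {c : ℝ} (hc : |c| * ‖v‖ < 1) :
    ∃ h : ℂ ≃ₜ ℂ, ∀ z, h z = z + (c * infDist z (interior K)ᶜ) • v := by
  have hl : ∀ z w : ℂ, ‖(c * infDist z (interior K)ᶜ) • v - (c * infDist w (interior K)ᶜ) • v‖ ≤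
      |c| * ‖v‖ * ‖z - w‖ := fun z w => by
    have := (lipschitz_infDist_pt (interior K)ᶜ).dist_le_mul z w
    rw [NNReal.coe_one, one_mul, Real.dist_eq, dist_eq_norm] at this
    rw [← sub_smul, ← mul_sub, norm_smul, Real.norm_eq_abs, abs_mul, mul_right_comm]
    gcongr
  refine homeo_of_supp (continuous_id.add
    ((continuous_const.mul (continuous_infDist_pt _)).smul continuous_const)) ⟨?_, fun y => ?_⟩ hK
    fun z hz => ?_
  · intro z w h
    have h1 := hl w z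
    have h2 : (c * infDist w (interior K)ᶜ) • v - (c * infDist z (interior K)ᶜ) • v = z - w := by
      linear_combination -h
    rw [h2, norm_sub_rev w] at h1
    by_contra h3
    have h4 : 0 < ‖z - w‖ := norm_pos_iff.2 (sub_ne_zero.2 h3)
    nlinarith
  · have h1 : ContractingWith ⟨|c| * ‖v‖, by positivity⟩
        fun z => y - (c * infDist z (interior K)ᶜ) • v :=
      ⟨hc, LipschitzWith.of_dist_le_mul fun z w => by
        rw [dist_sub_left, dist_eq_norm, dist_eq_norm]; exact hl z w⟩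
    exact ⟨_, eq_sub_iff_add_eq.1 h1.fixedPoint_isFixedPt.symm⟩
  · rw [infDist_zero_of_mem (s := (interior K)ᶜ) (fun h => hz (interior_subset h)), mul_zero, zero_smul, add_zero]

/-- Sliding `p` to `q`. Hint: `φ z = min 1 (infDist z (interior K)ᶜ / δ)` with `δ` the distance
from `segment ℝ p q` to the complement; `z ↦ z + (φ z / n) • (q - p)` is a homeomorphism for large
`n` (identity plus a contraction: `ApproximatesLinearOn.toHomeomorph`, or monotone on each line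
parallel to `q - p`); take its `n`-th power. -/
theorem slide {K : Set ℂ} (hK : IsCompact K) (hKc : Convex ℝ K) {p q : ℂ} (hp : p ∈ interior K)
    (hq : q ∈ interior K) :
    ∃ h : ℂ ≃ₜ ℂ, Supp h K ∧ h p = q ∧ ∀ z, ∃ s : ℝ, h z = z + s • (q - p) := by
  have hne : ((interior K)ᶜ).Nonempty := by
    by_contra h
    rw [not_nonempty_iff_eq_empty, compl_empty_iff, interior_eq_univ] at h
    exact noncompact_univ ℂ (h ▸ hK)
  have key := (isPreconnected_Icc (a := (0 : ℝ)) (b := 1)).induction₂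
    (fun t t' => ∃ h : ℂ ≃ₜ ℂ, Supp h K ∧ h (p + t • (q - p)) = p + t' • (q - p) ∧
      ∀ z, ∃ s : ℝ, h z = z + s • (q - p)) (fun t ht => ?_) ?_ ?_
    (left_mem_Icc.2 zero_le_one) (right_mem_Icc.2 zero_le_one)
  · simpa using key
  · have h1 : 0 < infDist (p + t • (q - p)) (interior K)ᶜ :=
      (isOpen_interior.isClosed_compl.notMem_iff_infDist_pos hne).1
        (not_not.2 (hKc.interior.add_smul_sub_mem hp hq ht))
    have h2 : Continuous fun t' : ℝ =>
        |(t' - t) / infDist (p + t • (q - p)) (interior K)ᶜ| * ‖q - p‖ := by fun_prop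
    filter_upwards [nhdsWithin_le_nhds (h2.continuousAt.eventually_lt (x₀ := t) continuousAt_const
      (by simp : _ < (1 : ℝ)))] with t' h3
    obtain ⟨h, e⟩ := Cone_step hK (q - p) h3
    refine ⟨h, fun z hz => ?_, ?_, fun z => ⟨_, e z⟩⟩
    · rw [e, infDist_zero_of_mem (x := z) (s := (interior K)ᶜ) hz, mul_zero, zero_smul, add_zero]
    · rw [e, div_mul_cancel₀ _ h1.ne', add_assoc, ← add_smul, add_sub_cancel]
  · rintro t t' t'' - - - ⟨h, a1, a2, a3⟩ ⟨h', b1, b2, b3⟩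
    refine ⟨h' * h, b1.mul a1, ?_, fun z => ?_⟩
    · change h' (h _) = _
      rw [a2, b2]
    · obtain ⟨s, e⟩ := a3 z
      obtain ⟨s', e'⟩ := b3 (h z)
      refine ⟨s + s', ?_⟩
      change h' (h _) = _
      rw [e', e, add_smul, add_assoc]
  · rintro t t' - - ⟨h, a1, a2, a3⟩
    refine ⟨h⁻¹, a1.inv, h.symm_apply_eq.2 a2.symm, fun z => ?_⟩
    obtain ⟨s, e⟩ := a3 (h.symm z)
    rw [h.apply_symm_apply] at e
    refine ⟨-s, ?_⟩
    change h.symm z = _
    rw [neg_smul, ← sub_eq_add_neg, eq_sub_iff_add_eq, ← e]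

/-- A polygonal arc from `a` to `y` in `A`. -/
structure Cone_Arc (A : Set ℂ) (a y : ℂ) (γ : ℝ → ℂ) : Prop where
  cont : ContinuousOn γ (Icc 0 1)
  inj : InjOn γ (Icc 0 1)
  e0 : γ 0 = a
  e1 : γ 1 = y
  cov : ∃ s : Finset (ℂ × ℂ), (∀ e ∈ s, segment ℝ e.1 e.2 ⊆ A) ∧
    ∀ t ∈ Icc (0 : ℝ) 1, ∃ e ∈ s, γ t ∈ segment ℝ e.1 e.2

theorem Cone_seg (w z : ℂ) {t : ℝ} (h0 : 0 ≤ t) (h1 : t ≤ 1) : w + t • (z - w) ∈ segment ℝ w z := by
  rw [segment_eq_image']
  exact ⟨t, ⟨h0, h1⟩, rfl⟩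

theorem Cone_line {A : Set ℂ} {a z : ℂ} (h : z ≠ a) (hA : segment ℝ a z ⊆ A) :
    Cone_Arc A a z fun t => a + t • (z - a) where
  cont := by fun_prop
  inj := fun _ _ _ _ e => smul_left_injective ℝ (sub_ne_zero.2 h) (add_left_cancel e)
  e0 := by simp
  e1 := by simp
  cov := ⟨{(a, z)}, by simpa using hA, fun t ht => ⟨(a, z), by simp, Cone_seg a z ht.1 ht.2⟩⟩

theorem Cone_cut {A : Set ℂ} {a y : ℂ} {γ : ℝ → ℂ} (h : Cone_Arc A a y γ) {r : ℝ} (h0 : 0 < r)
    (h1 : r ≤ 1) : Cone_Arc A a (γ r) fun t => γ (r * t) := by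
  have m : MapsTo (fun t => r * t) (Icc (0 : ℝ) 1) (Icc 0 1) := fun t ht =>
    ⟨mul_nonneg h0.le ht.1, mul_le_one₀ h1 ht.1 ht.2⟩
  obtain ⟨s, a1, a2⟩ := h.cov
  exact ⟨h.cont.comp (by fun_prop) m, fun t ht t' ht' e =>
    mul_left_cancel₀ h0.ne' (h.inj (m ht) (m ht') e), by simp [h.e0], by simp,
    s, a1, fun t ht => a2 _ (m ht)⟩

theorem Cone_cat {A : Set ℂ} {a w z : ℂ} {γ : ℝ → ℂ} (h : Cone_Arc A a w γ) (hz : z ≠ w)
    (hA : segment ℝ w z ⊆ A) (hd : ∀ t ∈ Ico (0 : ℝ) 1, γ t ∉ segment ℝ w z) :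
    Cone_Arc A a z fun t => γ (min (2 * t) 1) + max (2 * t - 1) 0 • (z - w) := by
  have m : MapsTo (fun t : ℝ => min (2 * t) 1) (Icc (0 : ℝ) 1) (Icc 0 1) := fun t ht =>
    ⟨le_min (by linarith [ht.1]) zero_le_one, min_le_right _ _⟩
  have p1 : ∀ t : ℝ, 2 * t < 1 → γ (min (2 * t) 1) + max (2 * t - 1) 0 • (z - w) = γ (2 * t) :=
    fun t ht => by rw [min_eq_left ht.le, max_eq_right (by linarith), zero_smul, add_zero]
  have p2 : ∀ t : ℝ, 1 ≤ 2 * t →
      γ (min (2 * t) 1) + max (2 * t - 1) 0 • (z - w) = w + (2 * t - 1) • (z - w) :=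
    fun t ht => by rw [min_eq_right ht, max_eq_left (by linarith), h.e1]
  obtain ⟨s, a1, a2⟩ := h.cov
  refine ⟨(h.cont.comp (by fun_prop) m).add (by fun_prop), fun t ht t' ht' e => ?_,
    by simp [h.e0], ?_, insert (w, z) s, ?_, fun t ht => ?_⟩
  · rcases lt_or_ge (2 * t) 1 with c | c <;> rcases lt_or_ge (2 * t') 1 with c' | c'
    · simp only [p1 t c, p1 t' c'] at e
      linarith [h.inj ⟨by linarith [ht.1], c.le⟩ ⟨by linarith [ht'.1], c'.le⟩ e]
    · simp only [p1 t c, p2 t' c'] at e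
      exact (hd _ ⟨by linarith [ht.1], c⟩
        (e ▸ Cone_seg w z (by linarith) (by linarith [ht'.2]))).elim
    · simp only [p2 t c, p1 t' c'] at e
      exact (hd _ ⟨by linarith [ht'.1], c'⟩
        (e ▸ Cone_seg w z (by linarith) (by linarith [ht.2]))).elim
    · simp only [p2 t c, p2 t' c'] at e
      linarith [smul_left_injective ℝ (sub_ne_zero.2 hz) (add_left_cancel e)]
  · rw [p2 1 (by norm_num)]
    norm_num
  · intro e he
    rcases Finset.mem_insert.1 he with rfl | he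
    exacts [hA, a1 e he]
  · rcases lt_or_ge (2 * t) 1 with c | c
    · obtain ⟨e, he, h'⟩ := a2 (2 * t) ⟨by linarith [ht.1], c.le⟩
      exact ⟨e, Finset.mem_insert_of_mem he, by rwa [p1 t c]⟩
    · refine ⟨(w, z), Finset.mem_insert_self _ _, ?_⟩
      rw [p2 t c]
      exact Cone_seg w z (by linarith) (by linarith [ht.2])

theorem Cone_reach {A : Set ℂ} {a y z : ℂ} (h : y = a ∨ ∃ γ, Cone_Arc A a y γ)
    (hA : segment ℝ y z ⊆ A) : z = a ∨ ∃ γ, Cone_Arc A a z γ := by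
  refine or_iff_not_imp_left.2 fun hz => ?_
  rcases h with rfl | ⟨γ, h⟩
  · exact ⟨_, Cone_line hz hA⟩
  have hc : IsCompact (Icc (0 : ℝ) 1 ∩ γ ⁻¹' segment ℝ y z) :=
    isCompact_Icc.of_isClosed_subset (h.cont.preimage_isClosed_of_isClosed isClosed_Icc
      (by rw [segment_eq_image']; exact (isCompact_Icc.image (by fun_prop)).isClosed))
      inter_subset_left
  obtain ⟨r, ⟨hr, hw⟩, hm⟩ := hc.exists_isLeast
    ⟨1, right_mem_Icc.2 zero_le_one, by rw [mem_preimage, h.e1]; exact left_mem_segment _ _ _⟩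
  have hs : segment ℝ (γ r) z ⊆ segment ℝ y z :=
    (convex_segment y z).segment_subset hw (right_mem_segment _ _ _)
  rcases hr.1.eq_or_lt with rfl | h0
  · exact ⟨_, Cone_line hz (h.e0 ▸ hs.trans hA)⟩
  by_cases e : z = γ r
  · exact ⟨_, e ▸ Cone_cut h h0 hr.2⟩
  refine ⟨_, Cone_cat (Cone_cut h h0 hr.2) e (hs.trans hA) fun t ht c => ?_⟩
  have h1 : r * t < r := mul_lt_of_lt_one_right h0 ht.2
  exact h1.not_ge (hm ⟨⟨mul_nonneg h0.le ht.1, h1.le.trans hr.2⟩, hs c⟩)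

/-- Polygonal arcs. Hint: call `y` reachable if `y = a` or there is an arc from `a` to `y` inside
`O ∪ {a, b}` covered by finitely many segments contained in `O ∪ {a, b}`. If `y` is reachable and
`segment ℝ y z ⊆ O ∪ {a, b}` then `z` is reachable (follow the arc up to the FIRST time it meets
the segment, then go straight to `z`). The reachable points of `O` form an open and closed subset
of `O` containing `a'`. -/
theorem poly_arc {O : Set ℂ} (hO : IsOpen O) (hc : IsPreconnected O) {a b a' b' : ℂ} (hab : a ≠ b)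
    (ha' : a' ∈ O) (hb' : b' ∈ O) (ha : segment ℝ a a' \ {a} ⊆ O) (hb : segment ℝ b b' \ {b} ⊆ O) :
    ∃ γ : ℝ → ℂ, ContinuousOn γ (Icc 0 1) ∧ InjOn γ (Icc 0 1) ∧ γ 0 = a ∧ γ 1 = b ∧
      (∀ t ∈ Ioo (0 : ℝ) 1, γ t ∈ O) ∧ ∃ s : Finset (ℂ × ℂ),
        (∀ e ∈ s, segment ℝ e.1 e.2 ⊆ O ∪ {a, b}) ∧
        ∀ t ∈ Icc (0 : ℝ) 1, ∃ e ∈ s, γ t ∈ segment ℝ e.1 e.2 := by
  have h1 : segment ℝ a a' ⊆ O ∪ {a, b} := fun z hz => by
    by_cases e : z = a
    exacts [Or.inr (Or.inl e), Or.inl (ha ⟨hz, e⟩)]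
  have h2 : segment ℝ b' b ⊆ O ∪ {a, b} := fun z hz => by
    by_cases e : z = b
    exacts [Or.inr (Or.inr e), Or.inl (hb ⟨segment_symm ℝ b' b ▸ hz, e⟩)]
  have h3 := hc.induction₂' (fun y z => (y = a ∨ ∃ γ, Cone_Arc (O ∪ {a, b}) a y γ) →
    z = a ∨ ∃ γ, Cone_Arc (O ∪ {a, b}) a z γ) (fun y hy => ?_)
    (fun _ _ _ _ _ _ f g h => g (f h)) ha' hb'
  · obtain e | ⟨γ, h⟩ := Cone_reach (h3 (Cone_reach (Or.inl rfl) h1)) h2
    · exact (hab e.symm).elim
    refine ⟨γ, h.cont, h.inj, h.e0, h.e1, fun t ht => ?_, h.cov⟩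
    obtain ⟨s, a1, a2⟩ := h.cov
    have ht' := Ioo_subset_Icc_self ht
    obtain ⟨e, he, h'⟩ := a2 t ht'
    rcases a1 e he h' with c | c | c
    · exact c
    · exact (ht.1.ne' (h.inj ht' (left_mem_Icc.2 zero_le_one) (c.trans h.e0.symm))).elim
    · exact (ht.2.ne (h.inj ht' (right_mem_Icc.2 zero_le_one) (Eq.trans c h.e1.symm))).elim
  · obtain ⟨r, hr, hb⟩ := Metric.isOpen_iff.1 hO y hy
    filter_upwards [nhdsWithin_le_nhds (ball_mem_nhds y hr)] with z hz
    exact ⟨fun h => Cone_reach h ((((convex_ball y r).segment_subset (mem_ball_self hr) hz).trans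
      hb).trans subset_union_left), fun h => Cone_reach h ((((convex_ball y r).segment_subset hz
      (mem_ball_self hr)).trans hb).trans subset_union_left)⟩

end Pool.Agent.MP_4a6971_al.H83
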