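import Pool.Agent.MP_4a6971_al.H83.Conf
import Pool.Agent.MP_4a6971_al.H83.Conv

/-!
The two sides of a proper arc of the unit disc are Jordan domains.
-/

namespace Pool.Agent.MP_4a6971_al.H83

open Set Topology Metric Complex

/-- `Ω ∪ J` is a closed topological disc with interior `Ω` and boundary curve `J`. -/
def IsDisc (Ω J : Set ℂ) : Prop :=
  ∃ Ψ : ℂ → ℂ, ContinuousOn Ψ (closedBall 0 1) ∧ InjOn Ψ (closedBall 0 1) ∧
    Ψ '' ball 0 1 = Ω ∧ Ψ '' sphere 0 1 = J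

/-- Finite covers by small continua. -/
def Theta1_S (Θ : Set ℂ) : Prop :=
  ∀ ε > 0, ∃ 𝒦 : Set (Set ℂ), 𝒦.Finite ∧ Θ ⊆ ⋃₀ 𝒦 ∧ ∀ K ∈ 𝒦, K ⊆ Θ ∧ IsCompact K ∧
    IsPreconnected K ∧ ∀ x ∈ K, ∀ y ∈ K, dist x y < ε

theorem Theta1_S_union {Θ Θ' : Set ℂ} (h : Theta1_S Θ) (h' : Theta1_S Θ') :
    Theta1_S (Θ ∪ Θ') := by
  intro ε hε
  obtain ⟨𝒦, a, b, c⟩ := h ε hε
  obtain ⟨𝒦', a', b', c'⟩ := h' ε hε
  refine ⟨𝒦 ∪ 𝒦', a.union a', ?_, ?_⟩
  · rw [sUnion_union]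
    exact union_subset_union b b'
  · rintro K (hK | hK)
    · exact ⟨(c K hK).1.trans subset_union_left, (c K hK).2⟩
    · exact ⟨(c' K hK).1.trans subset_union_right, (c' K hK).2⟩

theorem Theta1_S_path {f : ℝ → ℂ} {a b : ℝ} (hf : ContinuousOn f (Icc a b)) :
    Theta1_S (f '' Icc a b) := by
  intro ε hε
  have h1 : ∀ t : ℝ, ∃ η > 0, t ∈ Icc a b → ∀ s ∈ Icc a b, dist s t ≤ η →
      dist (f s) (f t) < ε / 2 := by
    intro t
    by_cases ht : t ∈ Icc a b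
    · obtain ⟨η, h0, hη⟩ := Metric.continuousWithinAt_iff.1 (hf t ht) (ε / 2) (half_pos hε)
      exact ⟨η / 2, half_pos h0, fun _ s hs hd => hη hs (by linarith)⟩
    · exact ⟨1, one_pos, fun h => absurd h ht⟩
  choose η h0 hη using h1
  obtain ⟨T, hT, hc⟩ := (isCompact_Icc (a := a) (b := b)).elim_nhds_subcover
    (fun t => closedBall t (η t)) (fun t _ => closedBall_mem_nhds t (h0 t))
  refine ⟨(fun t => f '' (Icc a b ∩ closedBall t (η t))) '' (T : Set ℝ),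
    T.finite_toSet.image _, ?_, ?_⟩
  · rintro _ ⟨s, hs, rfl⟩
    obtain ⟨t, ht, hst⟩ := mem_iUnion₂.1 (hc hs)
    exact ⟨_, ⟨t, ht, rfl⟩, s, ⟨hs, hst⟩, rfl⟩
  · rintro _ ⟨t, ht, rfl⟩
    refine ⟨image_mono inter_subset_left,
      (isCompact_Icc.inter_right isClosed_closedBall).image_of_continuousOn
        (hf.mono inter_subset_left),
      ((convex_Icc a b).inter (convex_closedBall t (η t))).isPreconnected.image _
        (hf.mono inter_subset_left), ?_⟩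
    rintro _ ⟨s, hs, rfl⟩ _ ⟨s', hs', rfl⟩
    have e1 := hη t (hT t ht) s hs.1 hs.2
    have e2 := hη t (hT t ht) s' hs'.1 hs'.2
    have e3 := dist_triangle_right (f s) (f s') (f t)
    linarith

theorem Theta1_S_sphere : Theta1_S (sphere (0 : ℂ) 1) := by
  have h : (fun t : ℝ => exp (t * I)) '' Icc (-Real.pi) Real.pi = sphere (0 : ℂ) 1 := by
    refine Subset.antisymm ?_ fun w hw => ?_
    · rintro _ ⟨t, -, rfl⟩
      simp [norm_exp_ofReal_mul_I]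
    · refine ⟨arg w, ⟨(neg_pi_lt_arg w).le, arg_le_pi w⟩, ?_⟩
      have e := norm_mul_exp_arg_mul_I w
      rw [mem_sphere_zero_iff_norm.1 hw] at e
      simpa using e
  rw [← h]
  exact Theta1_S_path (by fun_prop)

theorem Theta1_ulc {Θ : Set ℂ} (h : Theta1_S Θ) : ∀ ε > 0, ∃ δ > 0, ∀ p ∈ Θ, ∀ q ∈ Θ,
    dist p q < δ → ∃ B ⊆ Θ, IsCompact B ∧ IsPreconnected B ∧ p ∈ B ∧ q ∈ B ∧ B ⊆ ball p ε := by
  intro ε hε
  obtain ⟨𝒦, a, b, c⟩ := h (ε / 2) (half_pos hε)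
  have h1 : ∀ᶠ δ in 𝓝[>] (0 : ℝ), ∀ K ∈ 𝒦, ∀ L ∈ 𝒦, Disjoint K L → ∀ p ∈ K, ∀ q ∈ L,
      δ ≤ dist p q := by
    refine a.eventually_all.2 fun K hK => a.eventually_all.2 fun L hL => ?_
    by_cases hd : Disjoint K L
    · obtain ⟨r, hr, hr'⟩ := Metric.exists_pos_forall_lt_edist (c K hK).2.1
        (c L hL).2.1.isClosed hd
      have hr0 : (0 : ℝ) < r := hr
      filter_upwards [Ioo_mem_nhdsGT hr0] with δ hδ _ p hp q hq
      have e := hr' p hp q hq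
      rw [edist_nndist, ENNReal.coe_lt_coe] at e
      have e' : (r : ℝ) < dist p q := e
      linarith [hδ.2]
    · exact Filter.Eventually.of_forall fun _ h => absurd h hd
  obtain ⟨δ, h2, h0⟩ := (h1.and self_mem_nhdsWithin).exists
  refine ⟨δ, h0, fun p hp q hq hpq => ?_⟩
  obtain ⟨K, hK, hpK⟩ := b hp
  obtain ⟨L, hL, hqL⟩ := b hq
  have hd : ¬ Disjoint K L := fun hd => absurd (h2 K hK L hL hd p hpK q hqL) (not_le.2 hpq)
  obtain ⟨x, hxK, hxL⟩ := not_disjoint_iff.1 hd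
  refine ⟨K ∪ L, union_subset (c K hK).1 (c L hL).1, (c K hK).2.1.union (c L hL).2.1,
    IsPreconnected.union x hxK hxL (c K hK).2.2.1 (c L hL).2.2.1, Or.inl hpK, Or.inr hqL, ?_⟩
  rintro y (hy | hy)
  · have e := (c K hK).2.2.2 y hy p hpK
    rw [mem_ball]
    linarith
  · have e := (c L hL).2.2.2 y hy x hxL
    have e' := (c K hK).2.2.2 x hxK p hpK
    have e3 := dist_triangle y x p
    rw [mem_ball]
    linarith

/-- Outside the disc one escapes to infinity along a half-line that avoids a given point. -/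
theorem Theta1_ray {y p : ℂ} (hy : 1 ≤ ‖y‖) (hp : y ≠ p) (R : ℝ) :
    ∃ c : ℂ, R ≤ ‖c‖ ∧ JoinedIn ((ball (0 : ℂ) 1)ᶜ \ {p}) y c := by
  have hy0 : y ≠ 0 := by
    rintro rfl
    simp at hy
    linarith
  obtain ⟨s, hs, hsp⟩ : ∃ s : ℝ, |s| = |R| ∧ s * (p / y).im ≤ 0 := by
    rcases le_total 0 (p / y).im with h | h
    · exact ⟨-|R|, by simp, by nlinarith [abs_nonneg R]⟩
    · exact ⟨|R|, by simp, by nlinarith [abs_nonneg R]⟩
  have hn : ∀ u : ℝ, 1 ≤ ‖(1 + u * I : ℂ)‖ ∧ |u| ≤ ‖(1 + u * I : ℂ)‖ := fun u =>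
    ⟨by simpa using re_le_norm (1 + u * I : ℂ), by simpa using abs_im_le_norm (1 + u * I : ℂ)⟩
  refine ⟨y * (1 + s * I), ?_, JoinedIn.ofLine (f := fun t : ℝ => y * (1 + (t * s : ℝ) * I))
    (by fun_prop) (by simp) (by simp) ?_⟩
  · rw [norm_mul]
    have e := (hn s).2
    nlinarith [le_abs_self R, abs_nonneg R]
  · rintro _ ⟨t, ht, rfl⟩
    refine ⟨fun h => ?_, fun h => ?_⟩
    · rw [mem_ball_zero_iff, norm_mul] at h
      have e := (hn (t * s)).1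
      nlinarith
    · have e : p / y = 1 + (t * s : ℝ) * I := by
        rw [← mem_singleton_iff.1 h, mul_div_cancel_left₀ _ hy0]
      have e' : (p / y).im = t * s := by
        rw [e]
        simp
      rw [e'] at hsp
      have e0 : t * s = 0 := by
        rcases ht.1.eq_or_lt with h0 | h0
        · rw [← h0, zero_mul]
        · have : s * s ≤ 0 := by
            by_contra hc
            nlinarith [mul_pos h0 (not_le.1 hc)]
          rw [mul_self_eq_zero.1 (le_antisymm this (mul_self_nonneg s)), mul_zero]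
      apply hp
      rw [← mem_singleton_iff.1 h]
      simp only [e0]
      simp

/-- A point of the arc is joined to one of its ends, avoiding a given other point. -/
theorem Theta1_arc {γ : ℝ → ℂ} (h : PArc (closedBall (0 : ℂ) 1) γ) {x p : ℂ}
    (hx : x ∈ γ '' Icc 0 1) (hp : x ≠ p) :
    ∃ y : ℂ, 1 ≤ ‖y‖ ∧ JoinedIn (γ '' Icc 0 1 \ {p}) x y := by
  obtain ⟨t, ht, rfl⟩ := hx
  have hi : interior (closedBall (0 : ℂ) 1) = ball 0 1 := interior_closedBall 0 one_ne_zero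
  have n0 : 1 ≤ ‖γ 0‖ := by
    have := h.n0
    rwa [hi, mem_ball_zero_iff, not_lt] at this
  have n1 : 1 ≤ ‖γ 1‖ := by
    have := h.n1
    rwa [hi, mem_ball_zero_iff, not_lt] at this
  have key : ∀ e ∈ Icc (0 : ℝ) 1, p ∉ γ '' uIcc t e → JoinedIn (γ '' Icc 0 1 \ {p}) (γ t) (γ e) := by
    intro e he hpe
    have hs : uIcc t e ⊆ Icc 0 1 := uIcc_subset_Icc ht he
    have hpc : IsPathConnected (γ '' uIcc t e) :=
      ((convex_uIcc t e).isPathConnected ⟨t, left_mem_uIcc⟩).image' (h.cont.mono hs)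
    refine (hpc.joinedIn _ ⟨t, left_mem_uIcc, rfl⟩ _ ⟨e, right_mem_uIcc, rfl⟩).mono ?_
    intro w hw
    exact ⟨image_mono hs hw, fun e' => hpe (mem_singleton_iff.1 e' ▸ hw)⟩
  by_cases h0 : p ∈ γ '' uIcc t 0
  · refine ⟨γ 1, n1, key 1 (by simp) ?_⟩
    rintro ⟨s', hs', e'⟩
    obtain ⟨s, hs, e⟩ := h0
    rw [uIcc_of_ge ht.1] at hs
    rw [uIcc_of_le ht.2] at hs'
    have e2 : s = s' := h.inj ⟨hs.1, hs.2.trans ht.2⟩ ⟨ht.1.trans hs'.1, hs'.2⟩ (e.trans e'.symm)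
    have e3 : s = t := le_antisymm hs.2 (e2 ▸ hs'.1)
    exact hp (e3 ▸ e)
  · exact ⟨γ 0, n0, key 0 (by simp) h0⟩

theorem Theta1_out {γ : ℝ → ℂ} (h : PArc (closedBall (0 : ℂ) 1) γ) {x p : ℂ}
    (hx : x ∉ ball (0 : ℂ) 1 \ γ '' Icc 0 1) (hp : x ≠ p) (R : ℝ) :
    ∃ c : ℂ, R ≤ ‖c‖ ∧ JoinedIn ((ball (0 : ℂ) 1 \ γ '' Icc 0 1)ᶜ \ {p}) x c := by
  have m1 : (ball (0 : ℂ) 1)ᶜ \ {p} ⊆ (ball (0 : ℂ) 1 \ γ '' Icc 0 1)ᶜ \ {p} :=
    fun w hw => ⟨fun a => hw.1 a.1, hw.2⟩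
  have m2 : γ '' Icc 0 1 \ {p} ⊆ (ball (0 : ℂ) 1 \ γ '' Icc 0 1)ᶜ \ {p} :=
    fun w hw => ⟨fun a => a.2 hw.1, hw.2⟩
  by_cases ha : x ∈ γ '' Icc 0 1
  · obtain ⟨y, hy, hj⟩ := Theta1_arc h ha hp
    obtain ⟨c, hc, hj'⟩ := Theta1_ray hy (p := p) (fun e => hj.target_mem.2 e) R
    exact ⟨c, hc, (hj.mono m2).trans (hj'.mono m1)⟩
  · have hy : 1 ≤ ‖x‖ := by
      by_contra hc
      exact hx ⟨mem_ball_zero_iff.2 (not_le.1 hc), ha⟩
    obtain ⟨c, hc, hj'⟩ := Theta1_ray hy hp R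
    exact ⟨c, hc, hj'.mono m1⟩

theorem Theta1_closure {U : Set ℂ} (hU : IsOpen U) {z x : ℂ} (hx : x ∈ U)
    (hc : x ∈ closure (connectedComponentIn U z)) : x ∈ connectedComponentIn U z := by
  obtain ⟨w, hw1, hw2⟩ := mem_closure_iff.1 hc _ (hU.connectedComponentIn (x := x))
    (mem_connectedComponentIn hx)
  rw [connectedComponentIn_eq hw2, ← connectedComponentIn_eq hw1]
  exact mem_connectedComponentIn hx

/-- A point outside a component of an open set is joined outside it to the complement. -/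
theorem Theta1_near {U : Set ℂ} (hU : IsOpen U) (hne : Uᶜ.Nonempty) {z b : ℂ}
    (hb : b ∉ connectedComponentIn U z) :
    ∃ q, q ∉ U ∧ JoinedIn (connectedComponentIn U z)ᶜ b q := by
  by_cases hbU : b ∈ U
  swap
  · exact ⟨b, hbU, JoinedIn.refl hb⟩
  obtain ⟨q, hq, hd⟩ := hU.isClosed_compl.exists_infDist_eq_dist hne b
  refine ⟨q, hq, JoinedIn.of_segment_subset fun w hw hwG => ?_⟩
  have hs : ball b (dist b q) ⊆ connectedComponentIn U b := by
    refine (convex_ball b _).isPreconnected.subset_connectedComponentIn (mem_ball_self ?_) ?_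
    · exact dist_pos.2 fun e => hq (e ▸ hbU)
    · rw [← hd]
      exact ball_infDist_compl_subset
  have hwq : w ≠ q := fun e => hq (e ▸ connectedComponentIn_subset U z hwG)
  have hwb : w ∈ ball b (dist b q) := by
    have e := dist_add_dist_of_mem_segment hw
    have e' := dist_pos.2 hwq
    rw [mem_ball, dist_comm]
    linarith
  apply hb
  rw [connectedComponentIn_eq hwG, ← connectedComponentIn_eq (hs hwb)]
  exact mem_connectedComponentIn hbU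

open Pool.Agent.Lib.PlaneTop Pool.Agent.MP_4baaa2_an.H94 in
/-- Riemann map onto a bounded domain without the normalisation at `0`. -/
theorem Theta1_riemann {G : Set ℂ} (hG : IsOpen G) (hc : IsPreconnected G) {z : ℂ} (hz : z ∈ G)
    (hb : Bornology.IsBounded G) (hl : ∀ b ∉ G, HasLogOn (fun x => x - b) G) :
    ∃ ψ : ℂ → ℂ, DifferentiableOn ℂ ψ (ball 0 1) ∧ InjOn ψ (ball 0 1) ∧ ψ '' ball 0 1 = G ∧
      ∀ w ∈ ball (0 : ℂ) 1, deriv ψ w ≠ 0 := by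
  have e : (fun y => y + z) ⁻¹' G = (fun y => y - z) '' G := by
    ext y
    constructor
    · intro hy
      exact ⟨y + z, hy, by simp⟩
    · rintro ⟨x, hx, rfl⟩
      simpa using hx
  have hG' : IsOpen ((fun y => y + z) ⁻¹' G) := hG.preimage (by fun_prop)
  have hc' : IsPreconnected ((fun y => y + z) ⁻¹' G) := by
    rw [e]
    exact hc.image _ (by fun_prop)
  have hb' : Bornology.IsBounded ((fun y => y + z) ⁻¹' G) := by
    obtain ⟨R, hR⟩ := hb.exists_norm_le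
    refine isBounded_iff_forall_norm_le.2 ⟨R + ‖z‖, fun y hy => ?_⟩
    have e1 := hR _ hy
    have e2 := norm_sub_le (y + z) z
    rw [add_sub_cancel_right] at e2
    linarith
  obtain ⟨ψ, h1, h2, h3, -, h4, -⟩ := riemann_map hG' hc' (by simpa using hz) hb'
    fun g hg h0 => univ_log hG' hc' hb' (fun b hb => by
      refine ((hl (b + z) hb).comp (φ := fun y => y + z) (by fun_prop) fun y hy => hy).congr ?_
      intro y _
      ring) hg h0
  refine ⟨fun w => ψ w + z, h1.add_const z, fun a ha b hb hab => h2 ha hb (add_right_cancel hab),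
    ?_, fun w hw => ?_⟩
  · rw [← image_image (fun y => y + z) ψ, h3]
    exact image_preimage_eq G (add_right_surjective z)
  · rw [deriv_add_const]
    exact h4 w hw

/-- Every component of the open disc minus a proper arc is a Jordan domain.
Hint: `Θ = sphere ∪ arc`. Translate so that the point is `0`; `riemann_map` with `univ_log`
(for `b` outside the component `G`: if `1 ≤ ‖b‖` use convexity of the disc; if `b` is on the arc
join it to the circle along the arc, `HasLogOn.of_joinedIn`; if `b` is in another component join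
it inside that component and a segment to a nearest point of `Θ`). `car_cont`: `Θ` is uniformly
locally connected (uniform continuity of the inverse of the arc; at the two ends combine a piece
of the arc with a piece of the circle). `car_inj`: a point of `Θ \ {p}` is joined in `Θ \ {p}` to a
point of the circle, and then radially to infinity. -/
theorem comp_disc {γ : ℝ → ℂ} (h : PArc (closedBall (0 : ℂ) 1) γ) {z : ℂ}
    (hz : z ∈ ball (0 : ℂ) 1 \ γ '' Icc 0 1) :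
    IsDisc (connectedComponentIn (ball (0 : ℂ) 1 \ γ '' Icc 0 1) z)
      (frontier (connectedComponentIn (ball (0 : ℂ) 1 \ γ '' Icc 0 1) z)) := by
  have hA : IsCompact (γ '' Icc 0 1) := isCompact_Icc.image_of_continuousOn h.cont
  set U := ball (0 : ℂ) 1 \ γ '' Icc 0 1 with hUd
  have hU : IsOpen U := isOpen_ball.sdiff hA.isClosed
  set G := connectedComponentIn U z with hGd
  have hGU : G ⊆ U := connectedComponentIn_subset U z
  have hGb : G ⊆ ball 0 1 := fun w hw => (hGU hw).1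
  have hG : IsOpen G := hU.connectedComponentIn
  have hbd : Bornology.IsBounded G := isBounded_ball.subset hGb
  have hne : Uᶜ.Nonempty := ⟨1, fun a => by simpa using a.1⟩
  have hfr : ∀ x ∈ frontier G, x ∉ U := fun x hx hxU => by
    rw [hG.frontier_eq] at hx
    exact hx.2 (Theta1_closure hU hxU hx.1)
  obtain ⟨ψ, h1, h2, h3, h4⟩ := Theta1_riemann hG isPreconnected_connectedComponentIn
    (mem_connectedComponentIn hz) hbd fun b hb => by
      obtain ⟨q, hq, hj⟩ := Theta1_near hU hne hb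
      obtain ⟨c, hc, hj'⟩ := Theta1_out h hq (p := q + 1) (by simp) 1
      exact (Pool.Agent.MP_4baaa2_an.H94.far_log hGb hc).of_joinedIn
        (hj.trans (hj'.mono fun w hw a => hw.1 (hGU a))).symm
  obtain ⟨Ψ, hΨ, he⟩ := car_cont h1 h2 h4 (h3 ▸ hbd) (Θ := sphere 0 1 ∪ γ '' Icc 0 1)
    (by
      rw [h3]
      intro x hx
      by_cases ha : x ∈ γ '' Icc 0 1
      · exact Or.inr ha
      · left
        have e1 : x ∈ closedBall (0 : ℂ) 1 :=
          closure_minimal (hGb.trans ball_subset_closedBall) isClosed_closedBall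
            (frontier_subset_closure hx)
        have e2 : x ∉ ball (0 : ℂ) 1 := fun a => hfr x hx ⟨a, ha⟩
        rw [mem_closedBall_zero_iff] at e1
        rw [mem_ball_zero_iff, not_lt] at e2
        exact mem_sphere_zero_iff_norm.2 (le_antisymm e1 e2))
    (by
      rw [h3, disjoint_left]
      rintro x (hx | hx) hxG
      · have e := mem_ball_zero_iff.1 (hGb hxG)
        rw [mem_sphere_zero_iff_norm.1 hx] at e
        exact lt_irrefl _ e
      · exact (hGU hxG).2 hx)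
    (Theta1_ulc (Theta1_S_union Theta1_S_sphere (Theta1_S_path h.cont)))
  have k1 : DifferentiableOn ℂ Ψ (ball 0 1) := h1.congr he
  have k2 : InjOn Ψ (ball 0 1) := fun a ha b hb hab => h2 ha hb (by rw [← he ha, ← he hb, hab])
  have k3 : Ψ '' ball 0 1 = G := by rw [he.image_eq, h3]
  have k4 : ∀ w ∈ ball (0 : ℂ) 1, deriv Ψ w ≠ 0 := fun w hw => by
    rw [(he.eventuallyEq_of_mem (isOpen_ball.mem_nhds hw)).deriv_eq]
    exact h4 w hw
  refine ⟨Ψ, hΨ, car_inj hΨ k1 k2 k4 ?_, k3, by rw [car_sphere hΨ k1 k2 k4, k3]⟩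
  rw [k3]
  intro p x hx hp R
  obtain ⟨c, hc, hj⟩ := Theta1_out h (hfr x hx) hp R
  exact ⟨c, hc, hj.mono fun w hw => ⟨fun a => hw.1 (hGU a), hw.2⟩⟩

end Pool.Agent.MP_4a6971_al.H83

/-!
The two sides of a proper arc of the unit disc are Jordan domains.
-/

namespace Pool.Agent.MP_4a6971_al.H83

open Set Topology Metric Complex

/-- A continuous injection of an interval into the line is open at the centre. -/
theorem Theta_nhds {f : ℝ → ℝ} {a δ : ℝ} (hδ : 0 < δ) (c : ContinuousOn f (Icc (a - δ) (a + δ)))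
    (i : InjOn f (Icc (a - δ) (a + δ))) : f '' Icc (a - δ) (a + δ) ∈ 𝓝 (f a) := by
  have hle : a - δ ≤ a + δ := by linarith
  have m1 : a - δ ∈ Icc (a - δ) (a + δ) := ⟨le_rfl, hle⟩
  have m2 : a + δ ∈ Icc (a - δ) (a + δ) := ⟨hle, le_rfl⟩
  have m0 : a ∈ Icc (a - δ) (a + δ) := ⟨by linarith, by linarith⟩
  rcases c.strictMonoOn_of_injOn_Icc' hle i with h | h
  · exact Filter.mem_of_superset
      (Icc_mem_nhds (h m1 m0 (by linarith)) (h m0 m2 (by linarith))) (intermediate_value_Icc hle c)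
  · exact Filter.mem_of_superset
      (Icc_mem_nhds (h m0 m2 (by linarith)) (h m1 m0 (by linarith))) (intermediate_value_Icc' hle c)

/-- The inverse of an arc is continuous. -/
theorem Theta_inv {β : ℝ → ℂ} (c : ContinuousOn β (Icc 0 1)) (i : InjOn β (Icc 0 1)) :
    ContinuousOn (Function.invFunOn β (Icc 0 1)) (β '' Icc 0 1) := by
  rw [continuousOn_iff_isClosed]
  intro t ht
  refine ⟨β '' (t ∩ Icc 0 1), ?_, ?_⟩
  · exact ((isCompact_Icc.inter_left ht).image_of_continuousOn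
      (c.mono inter_subset_right)).isClosed
  · ext z
    constructor
    · rintro ⟨h1, s, hs, rfl⟩
      rw [mem_preimage, i.leftInvOn_invFunOn hs] at h1
      exact ⟨⟨s, ⟨h1, hs⟩, rfl⟩, s, hs, rfl⟩
    · rintro ⟨⟨s, ⟨h1, hs⟩, rfl⟩, -⟩
      refine ⟨?_, s, hs, rfl⟩
      rwa [mem_preimage, i.leftInvOn_invFunOn hs]

/-- A simple closed curve with period `2 π`. -/
structure Theta_Jor (c : ℝ → ℂ) : Prop where
  cont : Continuous c
  per : Function.Periodic c (2 * Real.pi)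
  inj : ∀ a b, |a - b| < 2 * Real.pi → c a = c b → a = b

theorem Theta_Jor.closed {c : ℝ → ℂ} (J : Theta_Jor c) : IsClosed (range c) :=
  (J.per.compact_of_continuous Real.two_pi_pos.ne' J.cont).isClosed

theorem Theta_loc {c β : ℝ → ℂ} (J : Theta_Jor c) (hc : ContinuousOn β (Icc 0 1))
    (hi : InjOn β (Icc 0 1)) {θ t : ℝ} (ht : t ∈ Icc (0 : ℝ) 1) (e : β t = c θ)
    (ev : ∀ᶠ s in 𝓝 θ, c s ∈ β '' Icc 0 1) : Icc 0 1 ∩ β ⁻¹' range c ∈ 𝓝 t := by
  obtain ⟨ε, hε, hb⟩ := Metric.eventually_nhds_iff.1 ev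
  have pi3 := Real.pi_gt_three
  set δ := min (ε / 2) 1 with hδ
  have δ0 : 0 < δ := lt_min (by linarith) one_pos
  have δ1 : δ ≤ 1 := min_le_right _ _
  have δ2 : δ ≤ ε / 2 := min_le_left _ _
  have hm : ∀ s ∈ Icc (θ - δ) (θ + δ), c s ∈ β '' Icc 0 1 := fun s hs => hb (by
    rw [Real.dist_eq, abs_lt]
    constructor <;> linarith [hs.1, hs.2])
  have hr : ∀ s ∈ Icc (θ - δ) (θ + δ), β (Function.invFunOn β (Icc 0 1) (c s)) = c s :=
    fun s hs => Function.invFunOn_eq (hm s hs)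
  have key := Theta_nhds (f := fun s => Function.invFunOn β (Icc 0 1) (c s)) (a := θ) δ0
    ((Theta_inv hc hi).comp J.cont.continuousOn hm) (fun a ha b hb' hab => by
      refine J.inj a b ?_ ?_
      · rw [abs_lt]
        constructor <;> linarith [ha.1, ha.2, hb'.1, hb'.2]
      · rw [← hr a ha, ← hr b hb']
        exact congrArg β hab)
  have e0 : Function.invFunOn β (Icc 0 1) (c θ) = t := by
    rw [← e]
    exact hi.leftInvOn_invFunOn ht
  rw [e0] at key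
  refine Filter.mem_of_superset key ?_
  rintro _ ⟨s, hs, rfl⟩
  exact ⟨Function.invFunOn_mem (hm s hs), s, (hr s hs).symm⟩

theorem Theta_not_arc {c β : ℝ → ℂ} (J : Theta_Jor c) (hc : ContinuousOn β (Icc 0 1))
    (hi : InjOn β (Icc 0 1)) (h : range c ⊆ β '' Icc 0 1) : False := by
  have h1 : IsClosed (Icc 0 1 ∩ β ⁻¹' range c) :=
    hc.preimage_isClosed_of_isClosed isClosed_Icc J.closed
  have h2 : IsOpen (Icc 0 1 ∩ β ⁻¹' range c) := by
    rw [isOpen_iff_mem_nhds]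
    rintro t ⟨ht, θ, e⟩
    exact Theta_loc J hc hi ht e.symm (Filter.Eventually.of_forall fun s => h ⟨s, rfl⟩)
  rcases isClopen_iff.1 ⟨h1, h2⟩ with e | e
  · obtain ⟨t, ht, e'⟩ := h ⟨0, rfl⟩
    have : t ∈ Icc 0 1 ∩ β ⁻¹' range c := ⟨ht, 0, e'.symm⟩
    rw [e] at this
    exact this
  · have : (2 : ℝ) ∈ Icc 0 1 ∩ β ⁻¹' range c := e ▸ mem_univ _
    linarith [this.1.2]

theorem Theta_edge {c β : ℝ → ℂ} (J : Theta_Jor c) (hc : ContinuousOn β (Icc 0 1))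
    (hi : InjOn β (Icc 0 1)) {K : Set ℂ} (hK : IsClosed K) (h : range c ⊆ β '' Icc 0 1 ∪ K)
    (hd : ∀ t ∈ Ioo (0 : ℝ) 1, β t ∉ K) (h0 : β 0 ∈ K) (h1 : β 1 ∈ K) :
    β '' Icc 0 1 ⊆ range c ∨ range c ⊆ K := by
  by_cases hex : ∃ t ∈ Ioo (0 : ℝ) 1, β t ∈ range c
  · left
    obtain ⟨t₀, ht₀, hr₀⟩ := hex
    have cl : IsClosed (Icc 0 1 ∩ β ⁻¹' range c) :=
      hc.preimage_isClosed_of_isClosed isClosed_Icc J.closed
    have op : ∀ t ∈ Ioo (0 : ℝ) 1, β t ∈ range c → t ∈ interior (Icc 0 1 ∩ β ⁻¹' range c) := by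
      rintro t ht ⟨θ, e⟩
      rw [mem_interior_iff_mem_nhds]
      refine Theta_loc J hc hi (Ioo_subset_Icc_self ht) e.symm ?_
      have : ∀ᶠ s in 𝓝 θ, c s ∈ Kᶜ :=
        J.cont.continuousAt.eventually_mem (hK.isOpen_compl.mem_nhds (e ▸ hd t ht))
      exact this.mono fun s hs => (h ⟨s, rfl⟩).resolve_right hs
    have sub : Ioo (0 : ℝ) 1 ⊆ interior (Icc 0 1 ∩ β ⁻¹' range c) :=
      isPreconnected_Ioo.subset_of_closure_inter_subset isOpen_interior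
        ⟨t₀, ht₀, op t₀ ht₀ hr₀⟩ fun t ht =>
          op t ht.2 (closure_minimal interior_subset cl ht.1).2
    have sub2 : Icc (0 : ℝ) 1 ⊆ Icc 0 1 ∩ β ⁻¹' range c := by
      have := closure_minimal (sub.trans interior_subset) cl
      rwa [closure_Ioo zero_ne_one] at this
    rintro _ ⟨t, ht, rfl⟩
    exact (sub2 ht).2
  · right
    intro z hz
    rcases h hz with ⟨t, ht, rfl⟩ | hz'
    · rcases ht.1.eq_or_lt with rfl | a
      · exact h0
      rcases ht.2.eq_or_lt with rfl | b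
      · exact h1
      exact absurd ⟨t, ⟨a, b⟩, hz⟩ hex
    · exact hz'

theorem Theta_three {c : ℝ → ℂ} (J : Theta_Jor c) {K₁ K₂ K₃ : Set ℂ} {A B x₁ x₂ x₃ : ℂ}
    (k₁ : IsClosed K₁) (k₂ : IsClosed K₂) (k₃ : IsClosed K₃) (h : range c ⊆ K₁ ∪ K₂ ∪ K₃)
    (d₁₂ : ∀ z ∈ K₁, z ∈ K₂ → z = A ∨ z = B) (d₁₃ : ∀ z ∈ K₁, z ∈ K₃ → z = A ∨ z = B)
    (d₂₃ : ∀ z ∈ K₂, z ∈ K₃ → z = A ∨ z = B) (hA : A ∈ range c) (hB : B ∈ range c) (hAB : A ≠ B)
    (m₁ : x₁ ∈ K₁) (m₂ : x₂ ∈ K₂) (m₃ : x₃ ∈ K₃) (r₁ : x₁ ∈ range c) (r₂ : x₂ ∈ range c)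
    (r₃ : x₃ ∈ range c) (n₁ : ¬(x₁ = A ∨ x₁ = B)) (n₂ : ¬(x₂ = A ∨ x₂ = B))
    (n₃ : ¬(x₃ = A ∨ x₃ = B)) : False := by
  obtain ⟨a, rfl⟩ := hA
  obtain ⟨b', rfl⟩ := hB
  obtain ⟨b, hb, eb⟩ := J.per.exists_mem_Ico Real.two_pi_pos b' a
  rw [eb] at hAB d₁₂ d₁₃ d₂₃ n₁ n₂ n₃
  have ab : a < b := lt_of_le_of_ne hb.1 fun e => hAB (by rw [e])
  have b2 := hb.2
  -- the two open halves of the curve
  have half : ∀ x ∈ range c, ¬(x = c a ∨ x = c b) →
      x ∈ c '' Ioo a b ∨ x ∈ c '' Ioo b (a + 2 * Real.pi) := by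
    rintro _ ⟨y', rfl⟩ hn
    obtain ⟨y, hy, ey⟩ := J.per.exists_mem_Ico Real.two_pi_pos y' a
    rw [ey] at hn ⊢
    have ya : a < y := lt_of_le_of_ne hy.1 fun e => hn (Or.inl (by rw [e]))
    rcases lt_trichotomy y b with l | l | l
    · exact Or.inl ⟨y, ⟨ya, l⟩, rfl⟩
    · exact absurd (Or.inr (by rw [l])) hn
    · exact Or.inr ⟨y, ⟨l, hy.2⟩, rfl⟩
  have av : ∀ y ∈ Ioo a (a + 2 * Real.pi), y ≠ b → ¬(c y = c a ∨ c y = c b) := by
    rintro y hy yb (e | e)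
    · have := J.inj y a (by rw [abs_lt]; constructor <;> linarith [hy.1, hy.2]) e
      exact hy.1.ne' this
    · exact yb (J.inj y b (by rw [abs_lt]; constructor <;> linarith [hy.1, hy.2]) e)
  have sep : ∀ S : Set ℂ, IsPreconnected S → S ⊆ range c → (∀ z ∈ S, ¬(z = c a ∨ z = c b)) →
      ¬(x₁ ∈ S ∧ x₂ ∈ S) ∧ ¬(x₁ ∈ S ∧ x₃ ∈ S) ∧ ¬(x₂ ∈ S ∧ x₃ ∈ S) := by
    intro S hS sub hav
    have P := isPreconnected_iff_subset_of_disjoint_closed.1 hS
    have p1 : S ⊆ K₁ ∨ S ⊆ K₂ ∪ K₃ := by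
      refine P _ _ k₁ (k₂.union k₃) (by rw [← union_assoc]; exact sub.trans h) ?_
      rw [eq_empty_iff_forall_notMem]
      rintro z ⟨hz, z1, z2 | z3⟩
      · exact hav z hz (d₁₂ z z1 z2)
      · exact hav z hz (d₁₃ z z1 z3)
    have p3 : S ⊆ K₁ ∪ K₂ ∨ S ⊆ K₃ := by
      refine P _ _ (k₁.union k₂) k₃ (sub.trans h) ?_
      rw [eq_empty_iff_forall_notMem]
      rintro z ⟨hz, z1 | z2, z3⟩
      · exact hav z hz (d₁₃ z z1 z3)
      · exact hav z hz (d₂₃ z z2 z3)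
    have q1 : x₁ ∈ S → S ⊆ K₁ := fun hx => p1.resolve_right fun s => by
      rcases s hx with z | z
      · exact n₁ (d₁₂ _ m₁ z)
      · exact n₁ (d₁₃ _ m₁ z)
    have q3 : x₃ ∈ S → S ⊆ K₃ := fun hx => p3.resolve_left fun s => by
      rcases s hx with z | z
      · exact n₃ (d₁₃ _ z m₃)
      · exact n₃ (d₂₃ _ z m₃)
    exact ⟨fun e => n₂ (d₁₂ _ (q1 e.1 e.2) m₂), fun e => n₃ (d₁₃ _ (q1 e.1 e.2) m₃),
      fun e => n₂ (d₂₃ _ m₂ (q3 e.2 e.1))⟩
  have s1 := sep (c '' Ioo a b) (isPreconnected_Ioo.image c J.cont.continuousOn)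
    (image_subset_range _ _) (by
      rintro _ ⟨y, hy, rfl⟩
      exact av y ⟨hy.1, hy.2.trans b2⟩ hy.2.ne)
  have s2 := sep (c '' Ioo b (a + 2 * Real.pi)) (isPreconnected_Ioo.image c J.cont.continuousOn)
    (image_subset_range _ _) (by
      rintro _ ⟨y, hy, rfl⟩
      exact av y ⟨ab.trans hy.1, hy.2⟩ hy.1.ne')
  have t1 := half x₁ r₁ n₁
  have t2 := half x₂ r₂ n₂
  have t3 := half x₃ r₃ n₃
  tauto

/-- Two arcs with the same ends and disjoint open edges meet only in the ends. -/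
theorem Theta_meet {β β' : ℝ → ℂ} (i : InjOn β (Icc 0 1)) (e0 : β' 0 = β 0) (e1 : β' 1 = β 1)
    (hd : ∀ t ∈ Ioo (0 : ℝ) 1, ∀ t' ∈ Ioo (0 : ℝ) 1, β t ≠ β' t') {t : ℝ}
    (ht : t ∈ Ioo (0 : ℝ) 1) : β t ∉ β' '' Icc 0 1 := by
  rintro ⟨s, hs, e⟩
  rcases hs.1.eq_or_lt with rfl | a
  · exact ht.1.ne (i (by simp) (Ioo_subset_Icc_self ht) (e0.symm.trans e))
  rcases hs.2.eq_or_lt with rfl | b
  · exact ht.2.ne' (i (by simp) (Ioo_subset_Icc_self ht) (e1.symm.trans e))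
  exact hd t ht s ⟨a, b⟩ e.symm

theorem Theta_ends {β : ℝ → ℂ} {K : Set ℂ} (hd : ∀ t ∈ Ioo (0 : ℝ) 1, β t ∉ K) :
    ∀ z ∈ β '' Icc 0 1, z ∈ K → z = β 0 ∨ z = β 1 := by
  rintro _ ⟨t, ht, rfl⟩ hz
  rcases ht.1.eq_or_lt with rfl | a
  · exact Or.inl rfl
  rcases ht.2.eq_or_lt with rfl | b
  · exact Or.inr rfl
  exact absurd hz (hd t ⟨a, b⟩)

/-- A simple closed curve inside a theta graph is the union of two of the edges. -/
theorem Theta_class {c γ α₁ α₂ : ℝ → ℂ} (J : Theta_Jor c) (c₀ : ContinuousOn γ (Icc 0 1))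
    (c₁ : ContinuousOn α₁ (Icc 0 1)) (c₂ : ContinuousOn α₂ (Icc 0 1)) (i₀ : InjOn γ (Icc 0 1))
    (i₁ : InjOn α₁ (Icc 0 1)) (i₂ : InjOn α₂ (Icc 0 1))
    (a₁ : α₁ 0 = γ 0) (b₁ : α₁ 1 = γ 1) (a₂ : α₂ 0 = γ 0) (b₂ : α₂ 1 = γ 1)
    (d₀₁ : ∀ t ∈ Ioo (0 : ℝ) 1, ∀ t' ∈ Ioo (0 : ℝ) 1, γ t ≠ α₁ t')
    (d₀₂ : ∀ t ∈ Ioo (0 : ℝ) 1, ∀ t' ∈ Ioo (0 : ℝ) 1, γ t ≠ α₂ t')
    (d₁₂ : ∀ t ∈ Ioo (0 : ℝ) 1, ∀ t' ∈ Ioo (0 : ℝ) 1, α₁ t ≠ α₂ t')
    (h : range c ⊆ γ '' Icc 0 1 ∪ α₁ '' Icc 0 1 ∪ α₂ '' Icc 0 1) :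
    range c = γ '' Icc 0 1 ∪ α₁ '' Icc 0 1 ∨ range c = γ '' Icc 0 1 ∪ α₂ '' Icc 0 1 ∨
      range c = α₁ '' Icc 0 1 ∪ α₂ '' Icc 0 1 := by
  have k₀ : IsClosed (γ '' Icc 0 1) := (isCompact_Icc.image_of_continuousOn c₀).isClosed
  have k₁ : IsClosed (α₁ '' Icc 0 1) := (isCompact_Icc.image_of_continuousOn c₁).isClosed
  have k₂ : IsClosed (α₂ '' Icc 0 1) := (isCompact_Icc.image_of_continuousOn c₂).isClosed
  have z0 : (0 : ℝ) ∈ Icc (0 : ℝ) 1 := by simp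
  have z1 : (1 : ℝ) ∈ Icc (0 : ℝ) 1 := by simp
  have hh : (1 / 2 : ℝ) ∈ Ioo (0 : ℝ) 1 := by constructor <;> norm_num
  have n01 := fun t ht => Theta_meet (t := t) i₀ a₁ b₁ d₀₁ ht
  have n02 := fun t ht => Theta_meet (t := t) i₀ a₂ b₂ d₀₂ ht
  have n10 := fun t ht => Theta_meet (t := t) i₁ a₁.symm b₁.symm
    (fun t ht t' ht' => (d₀₁ t' ht' t ht).symm) ht
  have n20 := fun t ht => Theta_meet (t := t) i₂ a₂.symm b₂.symm
    (fun t ht t' ht' => (d₀₂ t' ht' t ht).symm) ht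
  have n12 := fun t ht => Theta_meet (t := t) i₁ (a₂.trans a₁.symm) (b₂.trans b₁.symm) d₁₂ ht
  have n21 := fun t ht => Theta_meet (t := t) i₂ (a₁.trans a₂.symm) (b₁.trans b₂.symm)
    (fun t ht t' ht' => (d₁₂ t' ht' t ht).symm) ht
  have E0 := Theta_edge J c₀ i₀ (k₁.union k₂) (by rw [← union_assoc]; exact h)
    (fun t ht e => e.elim (n01 t ht) (n02 t ht)) (Or.inl ⟨0, z0, a₁⟩) (Or.inl ⟨1, z1, b₁⟩)
  have E1 := Theta_edge J c₁ i₁ (k₀.union k₂)
    (by rw [← union_assoc, union_comm (α₁ '' Icc 0 1)]; exact h)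
    (fun t ht e => e.elim (n10 t ht) (n12 t ht)) (Or.inl ⟨0, z0, a₁.symm⟩)
    (Or.inl ⟨1, z1, b₁.symm⟩)
  have E2 := Theta_edge J c₂ i₂ (k₀.union k₁) (by rw [union_comm]; exact h)
    (fun t ht e => e.elim (n20 t ht) (n21 t ht)) (Or.inl ⟨0, z0, a₂.symm⟩)
    (Or.inl ⟨1, z1, b₂.symm⟩)
  have e01 := Theta_ends n01
  have e02 := Theta_ends n02
  have e12 := Theta_ends n12
  rw [a₁, b₁] at e12
  have A1 : ∀ z, z = γ 0 ∨ z = γ 1 → z ∈ α₁ '' Icc 0 1 := by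
    rintro z (rfl | rfl)
    exacts [⟨0, z0, a₁⟩, ⟨1, z1, b₁⟩]
  have A2 : ∀ z, z = γ 0 ∨ z = γ 1 → z ∈ α₂ '' Icc 0 1 := by
    rintro z (rfl | rfl)
    exacts [⟨0, z0, a₂⟩, ⟨1, z1, b₂⟩]
  have A0 : ∀ z, z = γ 0 ∨ z = γ 1 → z ∈ γ '' Icc 0 1 := by
    rintro z (rfl | rfl)
    exacts [⟨0, z0, rfl⟩, ⟨1, z1, rfl⟩]
  rcases E0 with E0 | E0 <;> rcases E1 with E1 | E1 <;> rcases E2 with E2 | E2
  · exfalso
    refine Theta_three J k₀ k₁ k₂ h e01 e02 e12 (E0 ⟨0, z0, rfl⟩) (E0 ⟨1, z1, rfl⟩)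
      (fun e => zero_ne_one (i₀ z0 z1 e)) (x₁ := γ (1 / 2)) (x₂ := α₁ (1 / 2))
      (x₃ := α₂ (1 / 2)) ⟨_, Ioo_subset_Icc_self hh, rfl⟩ ⟨_, Ioo_subset_Icc_self hh, rfl⟩
      ⟨_, Ioo_subset_Icc_self hh, rfl⟩ (E0 ⟨_, Ioo_subset_Icc_self hh, rfl⟩)
      (E1 ⟨_, Ioo_subset_Icc_self hh, rfl⟩) (E2 ⟨_, Ioo_subset_Icc_self hh, rfl⟩)
      (fun e => n01 _ hh (A1 _ e)) (fun e => n10 _ hh (A0 _ e)) (fun e => n20 _ hh (A0 _ e))
  · exact Or.inl (E2.antisymm (union_subset E0 E1))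
  · exact Or.inr (Or.inl (E1.antisymm (union_subset E0 E2)))
  · exfalso
    refine Theta_not_arc J c₀ i₀ fun z hz => ?_
    rcases E1 hz with x | x
    · exact x
    rcases E2 hz with y | y
    · exact y
    exact A0 z (e12 z y x)
  · exact Or.inr (Or.inr (E0.antisymm (union_subset E1 E2)))
  · exfalso
    refine Theta_not_arc J c₁ i₁ fun z hz => ?_
    rcases E0 hz with x | x
    · exact x
    rcases E2 hz with y | y
    · exact A1 z (e02 z y x)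
    exact y
  · exfalso
    refine Theta_not_arc J c₂ i₂ fun z hz => ?_
    rcases E0 hz with x | x
    · rcases E1 hz with y | y
      · exact A2 z (e01 z y x)
      · exact y
    · exact x
  · exfalso
    refine Theta_not_arc J c₂ i₂ fun z hz => ?_
    rcases E0 hz with x | x
    · rcases E1 hz with y | y
      · exact A2 z (e01 z y x)
      · exact y
    · exact x

theorem Theta_jor {Ω Z : Set ℂ} (h : IsDisc Ω Z) : ∃ c, Theta_Jor c ∧ range c = Z := by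
  obtain ⟨Ψ, hc, hi, -, hZ⟩ := h
  have m : ∀ θ, circleMap 0 1 θ ∈ closedBall (0 : ℂ) 1 := fun θ =>
    circleMap_mem_closedBall 0 zero_le_one θ
  refine ⟨fun θ => Ψ (circleMap 0 1 θ), ⟨?_, fun θ => ?_, fun a b hab e => ?_⟩, ?_⟩
  · exact hc.comp_continuous (continuous_circleMap 0 1) m
  · simp only [periodic_circleMap 0 1 θ]
  · exact eq_of_circleMap_eq one_ne_zero hab (hi (m a) (m b) e)
  · rw [← hZ, ← abs_one (α := ℝ), ← range_circleMap, ← range_comp, abs_one]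
    rfl

/-- The frontier of a component of an open set misses the open set. -/
theorem Theta_front {U : Set ℂ} (hU : IsOpen U) (z : ℂ) {w : ℂ}
    (hw : w ∈ closure (connectedComponentIn U z)) (wU : w ∈ U) : w ∈ connectedComponentIn U z := by
  obtain ⟨y, y1, y2⟩ := mem_closure_iff.1 hw _ (hU.connectedComponentIn (x := w))
    (mem_connectedComponentIn wU)
  rw [connectedComponentIn_eq y2, ← connectedComponentIn_eq y1]
  exact mem_connectedComponentIn wU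

/-- Near a point of the circle off a closed set, the disc meets only one component. -/
theorem Theta_near {K : Set ℂ} (hK : IsClosed K) {x : ℂ} (hx : x ∈ sphere (0 : ℂ) 1)
    (xK : x ∉ K) : ∃ z ∈ ball (0 : ℂ) 1 \ K,
      x ∈ frontier (connectedComponentIn (ball (0 : ℂ) 1 \ K) z) ∧
      ∀ w, x ∈ frontier (connectedComponentIn (ball (0 : ℂ) 1 \ K) w) →
        connectedComponentIn (ball (0 : ℂ) 1 \ K) w =
          connectedComponentIn (ball (0 : ℂ) 1 \ K) z := by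
  obtain ⟨r, r0, hr⟩ := Metric.isOpen_iff.1 hK.isOpen_compl x xK
  have xc : x ∈ closure (ball (0 : ℂ) 1) := by
    rw [closure_ball _ one_ne_zero]
    exact sphere_subset_closedBall hx
  have xV : x ∈ closure (ball x r ∩ ball (0 : ℂ) 1) :=
    isOpen_ball.inter_closure ⟨mem_ball_self r0, xc⟩
  obtain ⟨z, hz⟩ := closure_nonempty_iff.1 ⟨x, xV⟩
  have VU : ball x r ∩ ball (0 : ℂ) 1 ⊆ ball (0 : ℂ) 1 \ K := fun y hy => ⟨hy.2, hr hy.1⟩
  have VC : ball x r ∩ ball (0 : ℂ) 1 ⊆ connectedComponentIn (ball (0 : ℂ) 1 \ K) z :=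
    ((convex_ball x r).inter (convex_ball 0 1)).isPreconnected.subset_connectedComponentIn hz VU
  refine ⟨z, VU hz, ⟨closure_mono VC xV, fun e => ?_⟩, fun w hw => ?_⟩
  · have := (connectedComponentIn_subset _ _ (interior_subset e)).1
    rw [mem_ball] at this
    exact this.ne hx
  · obtain ⟨y, y1, y2⟩ := mem_closure_iff.1 hw.1 _ isOpen_ball (mem_ball_self r0)
    rw [connectedComponentIn_eq y2,
      connectedComponentIn_eq (VC ⟨y1, (connectedComponentIn_subset _ _ y2).1⟩)]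

/-- The theta curve lemma. -/
theorem theta {γ α₁ α₂ : ℝ → ℂ} (h : PArc (closedBall (0 : ℂ) 1) γ)
    (c₁ : ContinuousOn α₁ (Icc 0 1)) (c₂ : ContinuousOn α₂ (Icc 0 1))
    (i₁ : InjOn α₁ (Icc 0 1)) (i₂ : InjOn α₂ (Icc 0 1))
    (a₁ : α₁ 0 = γ 0) (b₁ : α₁ 1 = γ 1) (a₂ : α₂ 0 = γ 0) (b₂ : α₂ 1 = γ 1)
    (hu : α₁ '' Icc 0 1 ∪ α₂ '' Icc 0 1 = sphere 0 1)
    (hd : ∀ t ∈ Ioo (0 : ℝ) 1, ∀ t' ∈ Ioo (0 : ℝ) 1, α₁ t ≠ α₂ t') :
    ∃ Ω₁ Ω₂ : Set ℂ, Disjoint Ω₁ Ω₂ ∧ Ω₁ ∪ Ω₂ = ball 0 1 \ γ '' Icc 0 1 ∧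
      IsDisc Ω₁ (γ '' Icc 0 1 ∪ α₁ '' Icc 0 1) ∧ IsDisc Ω₂ (γ '' Icc 0 1 ∪ α₂ '' Icc 0 1) := by
  have k₀ : IsClosed (γ '' Icc 0 1) := (isCompact_Icc.image_of_continuousOn h.cont).isClosed
  have hU : IsOpen (ball (0 : ℂ) 1 \ γ '' Icc 0 1) := isOpen_ball.sdiff k₀
  have hh : (1 / 2 : ℝ) ∈ Ioo (0 : ℝ) 1 := by constructor <;> norm_num
  have mid : ∀ t ∈ Ioo (0 : ℝ) 1, γ t ∈ ball (0 : ℂ) 1 := fun t ht => by
    have := h.mid t ht
    rwa [interior_closedBall _ one_ne_zero] at this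
  have s₁ : ∀ t ∈ Ioo (0 : ℝ) 1, α₁ t ∈ sphere (0 : ℂ) 1 := fun t ht =>
    hu ▸ Or.inl ⟨t, Ioo_subset_Icc_self ht, rfl⟩
  have s₂ : ∀ t ∈ Ioo (0 : ℝ) 1, α₂ t ∈ sphere (0 : ℂ) 1 := fun t ht =>
    hu ▸ Or.inr ⟨t, Ioo_subset_Icc_self ht, rfl⟩
  have d₀₁ : ∀ t ∈ Ioo (0 : ℝ) 1, ∀ t' ∈ Ioo (0 : ℝ) 1, γ t ≠ α₁ t' := fun t ht t' ht' e =>
    (mem_ball.1 (mid t ht)).ne (e ▸ s₁ t' ht')
  have d₀₂ : ∀ t ∈ Ioo (0 : ℝ) 1, ∀ t' ∈ Ioo (0 : ℝ) 1, γ t ≠ α₂ t' := fun t ht t' ht' e =>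
    (mem_ball.1 (mid t ht)).ne (e ▸ s₂ t' ht')
  have n10 : α₁ (1 / 2) ∉ γ '' Icc 0 1 := Theta_meet i₁ a₁.symm b₁.symm
    (fun t ht t' ht' => (d₀₁ t' ht' t ht).symm) hh
  have n20 : α₂ (1 / 2) ∉ γ '' Icc 0 1 := Theta_meet i₂ a₂.symm b₂.symm
    (fun t ht t' ht' => (d₀₂ t' ht' t ht).symm) hh
  have n12 : α₁ (1 / 2) ∉ α₂ '' Icc 0 1 :=
    Theta_meet i₁ (a₂.trans a₁.symm) (b₂.trans b₁.symm) hd hh
  have n21 : α₂ (1 / 2) ∉ α₁ '' Icc 0 1 := Theta_meet i₂ (a₁.trans a₂.symm) (b₁.trans b₂.symm)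
    (fun t ht t' ht' => (hd t' ht' t ht).symm) hh
  set U := ball (0 : ℂ) 1 \ γ '' Icc 0 1 with hUdef
  have cls : ∀ z ∈ U, frontier (connectedComponentIn U z) = γ '' Icc 0 1 ∪ α₁ '' Icc 0 1 ∨
      frontier (connectedComponentIn U z) = γ '' Icc 0 1 ∪ α₂ '' Icc 0 1 := by
    intro z hz
    obtain ⟨c, J, hc⟩ := Theta_jor (comp_disc h hz)
    have op : IsOpen (connectedComponentIn U z) := hU.connectedComponentIn
    have sub : frontier (connectedComponentIn U z) ⊆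
        γ '' Icc 0 1 ∪ α₁ '' Icc 0 1 ∪ α₂ '' Icc 0 1 := by
      intro w hw
      rw [op.frontier_eq] at hw
      rw [union_assoc, hu]
      by_contra hn
      rw [mem_union, not_or] at hn
      have w1 : w ∈ closedBall (0 : ℂ) 1 := closure_ball_subset_closedBall
        (closure_mono (fun y hy => (connectedComponentIn_subset _ _ hy).1) hw.1)
      exact hw.2 (Theta_front hU z hw.1 ⟨lt_of_le_of_ne w1 hn.2, hn.1⟩)
    rcases Theta_class J h.cont c₁ c₂ h.inj i₁ i₂ a₁ b₁ a₂ b₂ d₀₁ d₀₂ hd (hc ▸ sub) with e | e | e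
    · exact Or.inl (hc ▸ e)
    · exact Or.inr (hc ▸ e)
    · exfalso
      rw [hc, hu] at e
      have all : ball (0 : ℂ) 1 ⊆ connectedComponentIn U z := by
        refine (convex_ball (0 : ℂ) 1).isPreconnected.subset_of_closure_inter_subset op
          ⟨z, hz.1, mem_connectedComponentIn hz⟩ fun w hw => by_contra fun hn => ?_
        have : w ∈ frontier (connectedComponentIn U z) := by
          rw [op.frontier_eq]
          exact ⟨hw.1, hn⟩
        rw [e] at this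
        exact (mem_ball.1 hw.2).ne this
      exact (connectedComponentIn_subset _ _ (all (mid _ hh))).2
        ⟨_, Ioo_subset_Icc_self hh, rfl⟩
  obtain ⟨z₁, hz₁, f₁, u₁⟩ := Theta_near k₀ (s₁ _ hh) n10
  obtain ⟨z₂, hz₂, f₂, u₂⟩ := Theta_near k₀ (s₂ _ hh) n20
  have e₁ := (cls z₁ hz₁).resolve_right fun e => (e ▸ f₁ :).elim n10 n12
  have e₂ := (cls z₂ hz₂).resolve_left fun e => (e ▸ f₂ :).elim n20 n21
  refine ⟨connectedComponentIn U z₁, connectedComponentIn U z₂, ?_, ?_,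
    e₁ ▸ comp_disc h hz₁, e₂ ▸ comp_disc h hz₂⟩
  · rw [Set.disjoint_left]
    intro y y1 y2
    have e : connectedComponentIn U z₁ = connectedComponentIn U z₂ :=
      (connectedComponentIn_eq y1).trans (connectedComponentIn_eq y2).symm
    rw [e, e₂] at f₁
    exact f₁.elim n10 n12
  · refine (union_subset (connectedComponentIn_subset _ _)
      (connectedComponentIn_subset _ _)).antisymm fun z hz => ?_
    rcases cls z hz with e | e
    · left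
      rw [← u₁ z (e ▸ Or.inr ⟨_, Ioo_subset_Icc_self hh, rfl⟩)]
      exact mem_connectedComponentIn hz
    · right
      rw [← u₂ z (e ▸ Or.inr ⟨_, Ioo_subset_Icc_self hh, rfl⟩)]
      exact mem_connectedComponentIn hz

end Pool.Agent.MP_4a6971_al.H83

/-!
Two proper arcs of a convex body with the same ends are equivalent relative to the frontier.
-/

namespace Pool.Agent.MP_4a6971_al.H83

open Set Topology Metric Complex

theorem Arc_inv {X Y : Type} [TopologicalSpace X] [TopologicalSpace Y] [T2Space Y] [Nonempty X]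
    {f : X → Y} {s : Set X} (hs : IsCompact s) (hc : ContinuousOn f s) (hi : InjOn f s) :
    ContinuousOn (Function.invFunOn f s) (f '' s) := by
  refine continuousOn_iff_isClosed.2 fun t ht => ⟨f '' (s ∩ t),
    ((hs.inter_right ht).image_of_continuousOn (hc.mono inter_subset_left)).isClosed, ?_⟩
  ext y
  constructor
  · rintro ⟨h1, x, hx, rfl⟩
    rw [mem_preimage, hi.leftInvOn_invFunOn hx] at h1
    exact ⟨⟨x, ⟨hx, h1⟩, rfl⟩, x, hx, rfl⟩
  · rintro ⟨⟨x, hx, rfl⟩, h2⟩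
    exact ⟨by rw [mem_preimage, hi.leftInvOn_invFunOn hx.1]; exact hx.2, h2⟩

theorem Arc_inv_bij {X Y : Type} [Nonempty X] {f : X → Y} {s t : Set X} (hi : InjOn f s)
    (ht : t ⊆ s) : BijOn (Function.invFunOn f s) (f '' t) t := by
  refine ⟨?_, ?_, fun x hx => ⟨f x, ⟨x, hx, rfl⟩, hi.leftInvOn_invFunOn (ht hx)⟩⟩
  · rintro _ ⟨x, hx, rfl⟩
    rwa [hi.leftInvOn_invFunOn (ht hx)]
  · rintro _ ⟨x, hx, rfl⟩ _ ⟨y, hy, rfl⟩ e
    rw [hi.leftInvOn_invFunOn (ht hx), hi.leftInvOn_invFunOn (ht hy)] at e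
    rw [e]

theorem Arc_union {X Y : Type} {f : X → Y} {s s' : Set X} {t t' : Set Y} (h : BijOn f s t)
    (h' : BijOn f s' t') (hd : Disjoint t t') : BijOn f (s ∪ s') (t ∪ t') := by
  refine h.union h' ?_
  rintro x (hx | hx) y (hy | hy) e
  · exact h.injOn hx hy e
  · exact absurd (e ▸ h'.mapsTo hy) (disjoint_left.1 hd (h.mapsTo hx))
  · exact absurd (e ▸ h'.mapsTo hx) (disjoint_left.1 hd (h.mapsTo hy))
  · exact h'.injOn hx hy e

theorem Arc_closed {Ω J : Set ℂ} (h : IsDisc Ω J) : IsClosed (Ω ∪ J) := by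
  obtain ⟨Ψ, hc, -, rfl, rfl⟩ := h
  rw [← image_union, ball_union_sphere]
  exact ((isCompact_closedBall 0 1).image_of_continuousOn hc).isClosed

/-- Extension of a boundary bijection. Hint: conjugate to the unit circle and use `exists_cone`. -/
theorem IsDisc.extend {Ω J Ω' J' : Set ℂ} (h : IsDisc Ω J) (h' : IsDisc Ω' J') {β : ℂ → ℂ}
    (hc : ContinuousOn β J) (hb : BijOn β J J') :
    ∃ φ : ℂ → ℂ, ContinuousOn φ (Ω ∪ J) ∧ BijOn φ Ω Ω' ∧ EqOn φ β J := by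
  obtain ⟨Ψ, c, i, rfl, rfl⟩ := h
  obtain ⟨Ψ', c', i', rfl, rfl⟩ := h'
  have hS : frontier (closedBall (0 : ℂ) 1) = sphere 0 1 := frontier_closedBall 0 one_ne_zero
  have hB : interior (closedBall (0 : ℂ) 1) = ball 0 1 := interior_closedBall 0 one_ne_zero
  have hn : (interior (closedBall (0 : ℂ) 1)).Nonempty := by
    rw [hB]; exact nonempty_ball.2 one_pos
  have k := isCompact_closedBall (0 : ℂ) 1
  have b1 : BijOn Ψ (sphere 0 1) (Ψ '' sphere 0 1) :=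
    (i.mono sphere_subset_closedBall).bijOn_image
  obtain ⟨g, g1, g2, g3⟩ := exists_cone k (convex_closedBall 0 1) hn k (convex_closedBall 0 1) hn
    (b := Function.invFunOn Ψ' (closedBall 0 1) ∘ β ∘ Ψ)
    (by
      rw [hS]
      exact (Arc_inv k c' i').comp (hc.comp (c.mono sphere_subset_closedBall) b1.mapsTo)
        fun z hz => image_mono sphere_subset_closedBall (hb.mapsTo (b1.mapsTo hz)))
    (by
      rw [hS]
      exact (Arc_inv_bij i' sphere_subset_closedBall).comp (hb.comp b1))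
  rw [hB] at g2
  rw [hS] at g3
  refine ⟨Ψ' ∘ g ∘ Function.invFunOn Ψ (closedBall 0 1), ?_, ?_, ?_⟩
  · rw [← image_union, ball_union_sphere]
    refine c'.comp (g.continuous.comp_continuousOn (Arc_inv k c i)) fun z hz => ?_
    exact g1.subset (mem_image_of_mem g ((Arc_inv_bij i Subset.rfl).mapsTo hz))
  · refine (i'.mono ball_subset_closedBall).bijOn_image.comp
      (BijOn.comp ?_ (Arc_inv_bij i ball_subset_closedBall))
    conv => enter [3]; rw [← g2]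
    exact g.injective.injOn.bijOn_image
  · rintro _ ⟨z, hz, rfl⟩
    simp only [Function.comp]
    rw [i.leftInvOn_invFunOn (sphere_subset_closedBall hz), g3 hz]
    exact Function.invFunOn_eq
      (image_mono sphere_subset_closedBall (hb.mapsTo (b1.mapsTo hz)))

/-- The two arcs of the circle between two points. -/
theorem Arc_circle {p q : ℂ} (hp : p ∈ sphere (0 : ℂ) 1) (hq : q ∈ sphere (0 : ℂ) 1) (hne : p ≠ q) :
    ∃ α₁ α₂ : ℝ → ℂ, Continuous α₁ ∧ Continuous α₂ ∧ InjOn α₁ (Icc 0 1) ∧ InjOn α₂ (Icc 0 1) ∧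
      α₁ 0 = p ∧ α₁ 1 = q ∧ α₂ 0 = p ∧ α₂ 1 = q ∧ α₁ '' Icc 0 1 ∪ α₂ '' Icc 0 1 = sphere 0 1 ∧
      ∀ t ∈ Ioo (0 : ℝ) 1, ∀ t' ∈ Ioo (0 : ℝ) 1, α₁ t ≠ α₂ t' := by
  have hr : range (circleMap 0 1) = sphere 0 1 := by rw [range_circleMap, abs_one]
  have per := periodic_circleMap 0 1
  obtain ⟨a, rfl⟩ : p ∈ range (circleMap 0 1) := hr ▸ hp
  obtain ⟨b, ⟨h1, h2⟩, rfl⟩ : q ∈ circleMap 0 1 '' Ioc a (a + 2 * Real.pi) := by
    rw [per.image_Ioc Real.two_pi_pos, hr]; exact hq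
  have h3 : b < a + 2 * Real.pi := lt_of_le_of_ne h2 fun e => hne (by rw [e, per])
  have key : ∀ d : ℝ, d ≠ 0 → |d| < 2 * Real.pi →
      InjOn (fun t : ℝ => circleMap 0 1 (a + t * d)) (Icc 0 1) := fun d d0 d1 t ht t' ht' e => by
    have := eq_of_circleMap_eq one_ne_zero (by
      rw [show a + t * d - (a + t' * d) = (t - t') * d by ring, abs_mul]
      have : |t - t'| ≤ 1 := abs_le.2 ⟨by linarith [ht.1, ht'.2], by linarith [ht.2, ht'.1]⟩
      nlinarith [abs_nonneg d]) e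
    exact mul_right_cancel₀ d0 (add_left_cancel this)
  refine ⟨fun t => circleMap 0 1 (a + t * (b - a)),
    fun t => circleMap 0 1 (a + t * (b - 2 * Real.pi - a)),
    (continuous_circleMap 0 1).comp (by fun_prop), (continuous_circleMap 0 1).comp (by fun_prop),
    key _ (by linarith) (abs_lt.2 ⟨by linarith [Real.two_pi_pos], by linarith⟩),
    key _ (by linarith) (abs_lt.2 ⟨by linarith, by linarith [Real.two_pi_pos]⟩),
    by simp, by simp, by simp, ?_, ?_, ?_⟩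
  · have := per (b - 2 * Real.pi)
    simp only [sub_add_cancel] at this
    simp [this]
  · apply Subset.antisymm
    · rintro _ (⟨t, -, rfl⟩ | ⟨t, -, rfl⟩) <;> exact hr ▸ mem_range_self _
    · intro z hz
      obtain ⟨θ, ⟨k1, k2⟩, rfl⟩ : z ∈ circleMap 0 1 '' Ioc (b - 2 * Real.pi)
          (b - 2 * Real.pi + 2 * Real.pi) := by
        rw [per.image_Ioc Real.two_pi_pos, hr]; exact hz
      rcases le_total a θ with k | k
      · have d : 0 < b - a := by linarith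
        refine Or.inl ⟨(θ - a) / (b - a), ⟨div_nonneg (by linarith) d.le,
          (div_le_one d).2 (by linarith)⟩, ?_⟩
        simp only
        rw [div_mul_cancel₀ _ d.ne', add_sub_cancel]
      · have d : 0 < a + 2 * Real.pi - b := by linarith
        refine Or.inr ⟨(a - θ) / (a + 2 * Real.pi - b), ⟨div_nonneg (by linarith) d.le,
          (div_le_one d).2 (by linarith)⟩, ?_⟩
        simp only
        rw [show b - 2 * Real.pi - a = -(a + 2 * Real.pi - b) by ring, mul_neg,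
          div_mul_cancel₀ _ d.ne']
        congr 1
        ring
  · intro t ht t' ht' e
    have u1 : 0 < t * (b - a) := mul_pos ht.1 (by linarith)
    have u2 : t * (b - a) < b - a := mul_lt_of_lt_one_left (by linarith) ht.2
    have u3 : 0 < t' * (a + 2 * Real.pi - b) := mul_pos ht'.1 (by linarith)
    have u4 : t' * (a + 2 * Real.pi - b) < a + 2 * Real.pi - b :=
      mul_lt_of_lt_one_left (by linarith) ht'.2
    have := eq_of_circleMap_eq one_ne_zero (abs_lt.2 ⟨by linarith, by linarith⟩) e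
    linarith

theorem Arc_end {K : Set ℂ} {γ : ℝ → ℂ} (h : PArc K γ) {t : ℝ} (ht : t ∈ Icc (0 : ℝ) 1)
    (hn : γ t ∉ interior K) : t = 0 ∨ t = 1 := by
  by_contra c
  rw [not_or] at c
  exact hn (h.mid t ⟨lt_of_le_of_ne ht.1 (Ne.symm c.1), lt_of_le_of_ne ht.2 c.2⟩)

/-- The map that is `γ₂ ∘ γ₁⁻¹` on the arc and the identity outside the interior. -/
theorem Arc_beta {K : Set ℂ} {γ₁ γ₂ : ℝ → ℂ}
    (h₁ : PArc K γ₁) (h₂ : PArc K γ₂) (e0 : γ₁ 0 = γ₂ 0) (e1 : γ₁ 1 = γ₂ 1) :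
    ∃ β : ℂ → ℂ, (∀ t ∈ Icc (0 : ℝ) 1, β (γ₁ t) = γ₂ t) ∧ (∀ z, z ∉ interior K → β z = z) ∧
      ∀ S : Set ℂ, IsClosed S → S ⊆ (interior K)ᶜ → ContinuousOn β (γ₁ '' Icc 0 1 ∪ S) ∧
        BijOn β (γ₁ '' Icc 0 1 ∪ S) (γ₂ '' Icc 0 1 ∪ S) := by
  classical
  obtain ⟨β, hβ⟩ : ∃ β : ℂ → ℂ, β = fun z => if z ∈ γ₁ '' Icc 0 1 then
    γ₂ (Function.invFunOn γ₁ (Icc 0 1) z) else z := ⟨_, rfl⟩
  have b1 : ∀ t ∈ Icc (0 : ℝ) 1, β (γ₁ t) = γ₂ t := fun t ht => by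
    rw [hβ]
    simp only
    rw [if_pos (mem_image_of_mem _ ht), h₁.inj.leftInvOn_invFunOn ht]
  have b2 : ∀ z, z ∉ interior K → β z = z := fun z hz => by
    by_cases c : z ∈ γ₁ '' Icc 0 1
    · obtain ⟨t, ht, rfl⟩ := c
      rw [b1 t ht]
      rcases Arc_end h₁ ht hz with rfl | rfl
      exacts [e0.symm, e1.symm]
    · rw [hβ]; exact if_neg c
  refine ⟨β, b1, b2, fun S hS hSK => ⟨ContinuousOn.union_of_isClosed ?_ ?_
    (isCompact_Icc.image_of_continuousOn h₁.cont).isClosed hS, BijOn.union ?_ ?_ ?_⟩⟩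
  · refine (h₂.cont.comp (Arc_inv isCompact_Icc h₁.cont h₁.inj)
      (Arc_inv_bij h₁.inj Subset.rfl).mapsTo).congr fun z hz => ?_
    rw [hβ]; exact if_pos hz
  · exact continuousOn_id.congr fun z hz => b2 z (hSK hz)
  · refine (h₂.inj.bijOn_image.comp (Arc_inv_bij h₁.inj Subset.rfl)).congr fun z hz => ?_
    rw [hβ]; exact (if_pos hz).symm
  · exact (bijOn_id S).congr fun z hz => (b2 z (hSK hz)).symm
  · have mix : ∀ t ∈ Icc (0 : ℝ) 1, ∀ y ∈ S, β (γ₁ t) = β y → γ₁ t = y := fun t ht y hy e => by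
      rw [b1 t ht, b2 y (hSK hy)] at e
      rcases Arc_end h₂ ht (e ▸ hSK hy) with rfl | rfl
      exacts [e0.trans e, e1.trans e]
    rintro x (⟨t, ht, rfl⟩ | hx) y (⟨t', ht', rfl⟩ | hy) e
    · rw [b1 t ht, b1 t' ht'] at e
      rw [h₂.inj ht ht' e]
    · exact mix t ht y hy e
    · exact (mix t' ht' x hx e.symm).symm
    · rwa [b2 x (hSK hx), b2 y (hSK hy)] at e

theorem Arc_ball {γ₁ γ₂ : ℝ → ℂ} (h₁ : PArc (closedBall (0 : ℂ) 1) γ₁)
    (h₂ : PArc (closedBall (0 : ℂ) 1) γ₂) (e0 : γ₁ 0 = γ₂ 0) (e1 : γ₁ 1 = γ₂ 1) :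
    ∃ h : ℂ ≃ₜ ℂ, (∀ z, z ∉ ball (0 : ℂ) 1 → h z = z) ∧
      ∀ t ∈ Icc (0 : ℝ) 1, h (γ₁ t) = γ₂ t := by
  classical
  have hB : interior (closedBall (0 : ℂ) 1) = ball 0 1 := interior_closedBall 0 one_ne_zero
  have hs : ∀ z ∈ closedBall (0 : ℂ) 1, z ∉ interior (closedBall (0 : ℂ) 1) →
      z ∈ sphere (0 : ℂ) 1 := fun z h1 h2 => by
    rw [hB] at h2
    rw [← closedBall_sdiff_ball]
    exact ⟨h1, h2⟩
  obtain ⟨α₁, α₂, c₁, c₂, i₁, i₂, a₁, b₁, a₂, b₂, hu, hd⟩ :=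
    Arc_circle (hs _ h₁.m0 h₁.n0) (hs _ h₁.m1 h₁.n1) h₁.ne
  obtain ⟨Ω₁, Ω₂, d, u, D₁, D₂⟩ :=
    theta h₁ c₁.continuousOn c₂.continuousOn i₁ i₂ a₁ b₁ a₂ b₂ hu hd
  obtain ⟨Ω₁', Ω₂', d', u', D₁', D₂'⟩ := theta h₂ c₁.continuousOn c₂.continuousOn i₁ i₂
    (a₁.trans e0) (b₁.trans e1) (a₂.trans e0) (b₂.trans e1) hu hd
  obtain ⟨β, β1, β2, β3⟩ := Arc_beta h₁ h₂ e0 e1
  rw [hB] at β2 β3
  have s₁ : α₁ '' Icc 0 1 ⊆ (ball (0 : ℂ) 1)ᶜ := fun z hz =>
    disjoint_left.1 sphere_disjoint_ball (hu ▸ Or.inl hz)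
  have s₂ : α₂ '' Icc 0 1 ⊆ (ball (0 : ℂ) 1)ᶜ := fun z hz =>
    disjoint_left.1 sphere_disjoint_ball (hu ▸ Or.inr hz)
  obtain ⟨p1, p2⟩ := β3 _ (isCompact_Icc.image c₁).isClosed s₁
  obtain ⟨q1, q2⟩ := β3 _ (isCompact_Icc.image c₂).isClosed s₂
  obtain ⟨-, r2⟩ := β3 _ isOpen_ball.isClosed_compl Subset.rfl
  obtain ⟨φ₁, x1, x2, x3⟩ := D₁.extend D₁' p1 p2
  obtain ⟨φ₂, y1, y2, y3⟩ := D₂.extend D₂' q1 q2
  obtain ⟨f, hf⟩ : ∃ f : ℂ → ℂ, f = fun z => if z ∈ Ω₁ then φ₁ z else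
    if z ∈ Ω₂ then φ₂ z else β z := ⟨_, rfl⟩
  have f1 : EqOn f φ₁ Ω₁ := fun z hz => by rw [hf]; exact if_pos hz
  have f2 : EqOn f φ₂ Ω₂ := fun z hz => by
    rw [hf]
    simp only
    rw [if_neg (disjoint_right.1 d hz), if_pos hz]
  have f3 : EqOn f β (γ₁ '' Icc 0 1 ∪ (ball 0 1)ᶜ) := fun z hz => by
    have : z ∉ Ω₁ ∪ Ω₂ := by
      rw [u]
      rintro ⟨k1, k2⟩
      exact hz.elim k2 fun k => k k1
    rw [hf]
    simp only
    rw [if_neg fun k => this (Or.inl k), if_neg fun k => this (Or.inr k)]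
  have f4 : ∀ z, z ∉ ball (0 : ℂ) 1 → f z = z := fun z hz => (f3 (Or.inr hz)).trans (β2 z hz)
  have cov : ∀ (A : Set ℂ), (ball (0 : ℂ) 1 \ A) ∪ (A ∪ (ball 0 1)ᶜ) = univ := fun A => by
    ext z
    simp only [mem_union, mem_sdiff, mem_compl_iff, mem_univ]
    tauto
  have fc : Continuous f := by
    have k1 : ContinuousOn f (Ω₁ ∪ (γ₁ '' Icc 0 1 ∪ α₁ '' Icc 0 1)) :=
      x1.congr (f1.union ((f3.mono (union_subset_union_right _ s₁)).trans x3.symm))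
    have k2 : ContinuousOn f (Ω₂ ∪ (γ₁ '' Icc 0 1 ∪ α₂ '' Icc 0 1)) :=
      y1.congr (f2.union ((f3.mono (union_subset_union_right _ s₂)).trans y3.symm))
    have k3 : ContinuousOn f (ball (0 : ℂ) 1)ᶜ := continuousOn_id.congr f4
    have := (k1.union_of_isClosed k2 (Arc_closed D₁) (Arc_closed D₂)).union_of_isClosed k3
      ((Arc_closed D₁).union (Arc_closed D₂)) isOpen_ball.isClosed_compl
    rw [← continuousOn_univ]
    refine this.mono ?_
    rw [← cov (γ₁ '' Icc 0 1), ← u]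
    rintro z ((k | k) | k | k)
    exacts [Or.inl (Or.inl (Or.inl k)), Or.inl (Or.inr (Or.inl k)),
      Or.inl (Or.inl (Or.inr (Or.inl k))), Or.inr k]
  have fb : Function.Bijective f := by
    have := Arc_union (Arc_union (x2.congr f1.symm) (y2.congr f2.symm) d') (r2.congr f3.symm) (by
      rw [u', disjoint_left]
      rintro z ⟨k1, k2⟩ k
      exact k.elim k2 fun k => k k1)
    rwa [u, u', cov, cov, bijOn_univ] at this
  obtain ⟨F, hF⟩ := homeo_of_supp fc fb (isCompact_closedBall (0 : ℂ) 1)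
    fun z hz => f4 z fun k => hz (ball_subset_closedBall k)
  exact ⟨F, fun z hz => (hF z).trans (f4 z hz), fun t ht =>
    (hF _).trans ((f3 (Or.inl (mem_image_of_mem _ ht))).trans (β1 t ht))⟩

/-- The relative Schoenflies theorem. Hint: reduce to the unit disc with
`exists_homeomorph_image_interior_closure_frontier_eq_unitBall`; parametrise the two arcs of the
circle by angles; `theta` for both arcs, `IsDisc.extend` on both sides with the boundary map that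
is the identity on the circle and `γ₂ ∘ γ₁⁻¹` on the arc; paste over three closed sets;
`homeo_of_supp`. -/
theorem arc_lemma {K : Set ℂ} (hK : IsCompact K) (hKc : Convex ℝ K) {γ₁ γ₂ : ℝ → ℂ}
    (h₁ : PArc K γ₁) (h₂ : PArc K γ₂) (e0 : γ₁ 0 = γ₂ 0) (e1 : γ₁ 1 = γ₂ 1) :
    ∃ h : ℂ ≃ₜ ℂ, Supp h K ∧ ∀ t ∈ Icc (0 : ℝ) 1, h (γ₁ t) = γ₂ t := by
  obtain ⟨g, g1, g2, -⟩ := exists_homeomorph_image_interior_closure_frontier_eq_unitBall hKc
    ⟨_, h₁.mid (1 / 2) ⟨by norm_num, by norm_num⟩⟩ hK.isBounded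
  rw [hK.isClosed.closure_eq] at g2
  have hB : interior (closedBall (0 : ℂ) 1) = ball 0 1 := interior_closedBall 0 one_ne_zero
  have m1 : ∀ z, g z ∈ ball (0 : ℂ) 1 ↔ z ∈ interior K := fun z => by
    rw [← g1]; exact g.injective.mem_set_image
  have m2 : ∀ z, g z ∈ closedBall (0 : ℂ) 1 ↔ z ∈ K := fun z => by
    rw [← g2]; exact g.injective.mem_set_image
  have tr : ∀ γ : ℝ → ℂ, PArc K γ → PArc (closedBall (0 : ℂ) 1) fun t => g (γ t) := fun γ h =>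
    { cont := g.continuous.comp_continuousOn h.cont
      inj := g.injective.comp_injOn h.inj
      m0 := (m2 _).2 h.m0
      n0 := by rw [hB, m1]; exact h.n0
      m1 := (m2 _).2 h.m1
      n1 := by rw [hB, m1]; exact h.n1
      mid := fun t ht => by rw [hB, m1]; exact h.mid t ht }
  obtain ⟨F, F1, F2⟩ := Arc_ball (tr _ h₁) (tr _ h₂) (congrArg g e0) (congrArg g e1)
  refine ⟨(g.trans F).trans g.symm, fun z hz => ?_, fun t ht => ?_⟩
  · change g.symm (F (g z)) = z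
    rw [F1 _ (mt (m1 z).1 hz), g.symm_apply_apply]
  · change g.symm (F (g (γ₁ t))) = γ₂ t
    rw [F2 t ht, g.symm_apply_apply]

end Pool.Agent.MP_4a6971_al.H83
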