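import Pool.Agent.MP_4a6971_al.Mg.H66_CurveDefs
import Pool.Agent.MP_4a6971_al.Mg.H66_Final

/-!
Multitwists with arbitrary multiplicities.
-/

namespace Pool.Agent.MP_4a6971_al.H83

open H66

variable {g : ℕ}

/-- Multiplicities supported on the sides of colour `p`. -/
def cut0 (p : ZMod 2) (n : I g → ℤ) (i : I g) : ℤ := if par i = p then n i else 0

/-- The twisted reflection. -/
def tB (p : ZMod 2) (n : I g → ℤ) (ε : ℤˣ) (i : I g) : W g := tr i ^ ((ε : ℤ) * cut0 p n i) * s i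

theorem cut0_succ (p : ZMod 2) (n : I g → ℤ) (i : I g) :
    cut0 p n i = 0 ∨ cut0 p n (i + 1) = 0 := by
  have : ∀ a b : ZMod 2, a = b → a + 1 ≠ b := by decide
  by_cases h : par i = p
  · exact Or.inr (by rw [cut0, par_succ, if_neg (this _ _ h)])
  · exact Or.inl (by rw [cut0, if_neg h])

/-- The action on signed elements defining the twisting cocycle. -/
def twB (p : ZMod 2) (n : I g → ℤ) : W g →* Function.End (ℤˣ × W g) :=
  liftW (fun i q => (-q.1, tB p n q.1 i * q.2))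
    (fun i => by
      funext q
      change (- -q.1, tB p n (-q.1) i * (tB p n q.1 i * q.2)) = q
      simp only [tB, neg_neg, Units.val_neg, neg_mul, mul_assoc]
      rw [← mul_assoc (s i), s_zpow, mul_assoc, s_s, ← mul_assoc, ← zpow_add]
      simp)
    fun i => by
      funext q
      change (- -q.1, tB p n (-q.1) i * (tB p n q.1 (i + 1) * q.2)) =
        (- -q.1, tB p n (-q.1) (i + 1) * (tB p n q.1 i * q.2))
      congr 1
      rw [← mul_assoc, ← mul_assoc]
      congr 1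
      simp only [tB, Units.val_neg, neg_mul]
      rcases cut0_succ p n i with h | h <;> rw [h] <;>
        simp only [mul_zero, neg_zero, zpow_zero, one_mul]
      · rw [← mul_assoc, s_zpow_of (s_tr'' i), mul_assoc, mul_assoc, s_comm]
      · rw [← mul_assoc, s_zpow_of (s_tr' i), mul_assoc, mul_assoc, s_comm]

/-- The twisting cocycle. -/
def thB (p : ZMod 2) (n : I g → ℤ) (ε : ℤˣ) (w : W g) : W g := (twB p n w (ε, 1)).2

variable {p : ZMod 2} {n m : I g → ℤ}

theorem twB_apply (w : W g) (ε : ℤˣ) (x : W g) :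
    twB p n w (ε, x) = (sg g w * ε, thB p n ε w * x) := by
  induction w using W_ind_left generalizing x with
  | one =>
    rw [thB, map_one, map_one, one_mul]
    exact congrArg (Prod.mk ε) (one_mul x).symm
  | step i w ih =>
    have e : ∀ x, twB p n (s i * w) (ε, x) =
        (sg g (s i * w) * ε, tB p n (sg g w * ε) i * thB p n ε w * x) := fun x => by
      rw [map_mul, twB, liftW_s, ← twB]
      change (-(twB p n w (ε, x)).1, tB p n (twB p n w (ε, x)).1 i * (twB p n w (ε, x)).2) = _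
      rw [ih]
      simp [mul_assoc]
    rw [e x, show thB p n ε (s i * w) = (twB p n (s i * w) (ε, 1)).2 from rfl, e 1, mul_one]

theorem thB_mul (ε : ℤˣ) (w v : W g) :
    thB p n ε (w * v) = thB p n (sg g v * ε) w * thB p n ε v := by
  rw [thB, map_mul]
  change (twB p n w (twB p n v (ε, 1))).2 = _
  rw [twB_apply, twB_apply, mul_one]

theorem thB_one (ε : ℤˣ) : thB p n ε (1 : W g) = 1 := by rw [thB, map_one]; rfl

theorem thB_s (ε : ℤˣ) (i : I g) : thB p n ε (s i) = tB p n ε i := by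
  rw [thB, twB, liftW_s]
  exact mul_one _

theorem cls_thB (ε : ℤˣ) (w : W g) : cls g (thB p n ε w) = cls g w := by
  induction w using W_ind_left with
  | one => rw [thB_one]
  | step i w ih =>
    rw [thB_mul, thB_s, map_mul, map_mul, ih, tB, map_mul,
      map_zpow, show cls g (tr i) = 1 from tr_mem i, one_zpow, one_mul]

theorem sg_thB (ε : ℤˣ) (w : W g) : sg g (thB p n ε w) = sg g w := by rw [sg_eq, sg_eq, cls_thB]

/-- The multitwist as an endomorphism. -/
def twHomB (p : ZMod 2) (n : I g → ℤ) (ε : ℤˣ) : Gam g →* Gam g :=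
  MonoidHom.mk' (fun x => ⟨thB p n ε x, (cls_thB ε _).trans x.2⟩) fun x y =>
    Subtype.ext (by simp [thB_mul, sg_gam])

theorem thB_tr (ε : ℤˣ) (i : I g) :
    thB p n ε (tr i) = tB p n (-ε) (i - 1) * tB p n ε (i + 1) := by
  rw [tr, thB_mul, thB_s, thB_s]
  simp

theorem thB_tr_of (ε : ℤˣ) {i : I g} (h : par i = p) : thB p n ε (tr i) = tr i := by
  have : ∀ a : ZMod 2, a + 1 ≠ a ∧ a - 1 ≠ a := by decide
  rw [thB_tr, tB, tB, cut0, cut0, map_sub, map_add, map_one, h, if_neg (this p).1,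
    if_neg (this p).2]
  simp [tr]

theorem thB_thB (ε : ℤˣ) (w : W g) : thB p m ε (thB p n ε w) = thB p (m + n) ε w := by
  induction w using W_ind_left with
  | one => simp [thB_one]
  | step i w ih =>
    rw [thB_mul, thB_mul, thB_mul, ih, sg_thB, thB_s, thB_s]
    congr 1
    generalize sg g w * ε = δ
    rw [tB, thB_mul, thB_s, tB, tB, ← mul_assoc]
    congr 1
    by_cases h : par i = p
    · have := congrArg Subtype.val ((twHomB p m (sg g (s i) * δ)).map_zpow (tc i) (δ * cut0 p n i))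
      change thB p m _ (tr i ^ _) = thB p m _ (tr i) ^ _ at this
      rw [this, thB_tr_of _ h, ← zpow_add]
      simp only [cut0, if_pos h, Pi.add_apply]
      congr 1
      ring
    · simp [cut0, if_neg h, thB_one]

theorem thB_zero (ε : ℤˣ) (w : W g) : thB p 0 ε w = w := by
  induction w using W_ind_left with
  | one => exact thB_one _
  | step i w ih => rw [thB_mul, ih, thB_s, tB, cut0]; simp

/-- The multitwist. -/
def twG (p : ZMod 2) (n : I g → ℤ) (ε : ℤˣ) : MulAut (Gam g) :=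
  MonoidHom.toMulEquiv (twHomB p n ε) (twHomB p (-n) ε)
    (MonoidHom.ext fun x => Subtype.ext (by
      change thB p (-n) ε (thB p n ε (x : W g)) = (x : W g)
      rw [thB_thB, neg_add_cancel, thB_zero]))
    (MonoidHom.ext fun x => Subtype.ext (by
      change thB p n ε (thB p (-n) ε (x : W g)) = (x : W g)
      rw [thB_thB, add_neg_cancel, thB_zero]))

theorem twG_coe (ε : ℤˣ) (x : Gam g) : (twG p n ε x : W g) = thB p n ε x := rfl

theorem twG_const (N : ℤ) (ε : ℤˣ) : (twG p (fun _ => N) ε : MulAut (Gam g)) = tw p N ε := rfl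

end Pool.Agent.MP_4a6971_al.H83

/-!
The image in the symplectic group contains an element with finite centraliser.
-/

namespace Pool.Agent.MP_4a6971_al.H83

open H66

variable {g : ℕ}

/-- The Dehn twist along the curve `i`. -/
def dt (i : I g) : MulAut (Gam g) := twG (par i) (Pi.single i 1) 1

/-- The sign by which `s k` acts on the homology class of the curve `i`. -/
def Alg1_ψ (i k : I g) : ℤ := if par k = par i then 1 else -1

theorem Alg1_ψ_self (i : I g) : Alg1_ψ i i = 1 := if_pos rfl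

theorem Alg1_ψ_succ (i k : I g) : Alg1_ψ i (k + 1) = -Alg1_ψ i k := by
  rw [Alg1_ψ, Alg1_ψ, par_succ]
  generalize par k = a
  generalize par i = b
  revert a b
  decide

/-- The matrix representation whose upper right entry is the intersection cocycle. -/
def Alg1_M (i : I g) : W g →* Matrix (Fin 2) (Fin 2) ℤ :=
  liftW (fun k => !![Alg1_ψ i k, if k = i then 1 else 0; 0, -1])
    (fun k => by
      have h : Alg1_ψ i k * Alg1_ψ i k = 1 := by rw [Alg1_ψ]; split_ifs <;> rfl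
      rw [Matrix.mul_fin_two, Matrix.one_fin_two, h]
      by_cases e : k = i
      · simp [e, Alg1_ψ_self]
      · simp [e])
    fun k => by
      rw [Matrix.mul_fin_two, Matrix.mul_fin_two, Alg1_ψ_succ]
      by_cases e : k = i
      · subst e
        rw [if_neg (succ_ne k)]
        simp [Alg1_ψ_self]
      · by_cases e' : k + 1 = i
        · have := Alg1_ψ_succ i k
          rw [e', Alg1_ψ_self, eq_comm, neg_eq_iff_eq_neg] at this
          simp [e, e', this]
        · simp [e, e']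

theorem Alg1_M_s (i k : I g) :
    Alg1_M i (s k) = !![Alg1_ψ i k, if k = i then 1 else 0; 0, -1] := liftW_s _ _ _ k

theorem Alg1_M_eq (i : I g) (w : W g) : Alg1_M i w 1 0 = 0 ∧ Alg1_M i w 1 1 = sg g w ∧
    Alg1_M i w 0 0 =
      if par i * (cls g w).toAdd.1 + (1 + par i) * (cls g w).toAdd.2 = 0 then 1 else -1 := by
  induction w using W_ind_left with
  | one => simp
  | step k w ih =>
    obtain ⟨h1, h2, h3⟩ := ih
    rw [map_mul, map_mul, map_mul, Alg1_M_s, cls_s, toAdd_mul, toAdd_ofAdd, Prod.fst_add,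
      Prod.snd_add]
    simp only [Matrix.mul_apply, Fin.sum_univ_two, h1, h2, h3]
    refine ⟨by simp, by simp, ?_⟩
    simp only [Matrix.of_apply, Matrix.cons_val', Matrix.cons_val_zero, Matrix.cons_val_fin_one,
      mul_zero, add_zero, Alg1_ψ]
    generalize par k = a
    generalize par i = b
    generalize (cls g w).toAdd.1 = c
    generalize (cls g w).toAdd.2 = d
    revert a b c d
    decide

theorem Alg1_M_mul (i : I g) (w v : W g) :
    Alg1_M i (w * v) 0 1 = Alg1_M i w 0 0 * Alg1_M i v 0 1 + Alg1_M i w 0 1 * sg g v := by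
  rw [map_mul, Matrix.mul_apply, Fin.sum_univ_two, (Alg1_M_eq i v).2.1]

/-- The intersection number with the curve `i`. -/
def Alg1_ι (i : I g) : Gam g →* Multiplicative ℤ :=
  MonoidHom.mk' (fun x => Multiplicative.ofAdd (Alg1_M i x 0 1)) fun x y => by
    rw [Subgroup.coe_mul, Alg1_M_mul, (Alg1_M_eq i x).2.2, show cls g x = 1 from x.2, sg_gam,
      ← ofAdd_add]
    simp [add_comm]

theorem Alg1_cj {A : Type} [CommGroup A] (χ : Gam g →* A) (i k : I g) :
    χ (cj (s k) (tc i)) = χ (tc i) ^ Alg1_ψ i k := by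
  have key : ∀ l : I g, par k = par l → χ (cj (s k) (tc i)) = χ (cj (s l) (tc i)) := fun l h => by
    have hm : s k * s l ∈ (cls g).ker := by
      rw [MonoidHom.mem_ker, map_mul, cls_s, cls_s, h, ← ofAdd_add]
      generalize par l = a
      revert a
      decide
    have e : s k = ((⟨_, hm⟩ : Gam g) : W g) * s l := by simp [mul_assoc]
    rw [e, cj_mul, cj_gam, map_mul, map_mul, map_inv, mul_inv_cancel_comm]
  rw [Alg1_ψ]
  split_ifs with h
  · rw [key i h, cj_s, zpow_one]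
  · have : ∀ a b : ZMod 2, a ≠ b → a = b + 1 := by decide
    rw [key (i + 1) (by rw [par_succ]; exact this _ _ h), cj_s', map_inv, zpow_neg_one]

/-- The twisting cocycle as an element of the surface group. -/
def Alg1_D (i : I g) (ε : ℤˣ) (w : W g) : Gam g :=
  ⟨thB (par i) (Pi.single i 1) ε w * w⁻¹, by simp [MonoidHom.mem_ker, cls_thB]⟩

theorem Alg1_D_s (i k : I g) (ε : ℤˣ) (v : W g) : Alg1_D i ε (s k * v) =
    tc i ^ (((sg g v * ε : ℤˣ) : ℤ) * if k = i then 1 else 0) * cj (s k) (Alg1_D i ε v) := by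
  refine Subtype.ext ?_
  have e : tr k ^ (((sg g v * ε : ℤˣ) : ℤ) * cut0 (par i) (Pi.single i 1) k) =
      tr i ^ (((sg g v * ε : ℤˣ) : ℤ) * if k = i then 1 else 0) := by
    by_cases h : k = i
    · simp [h, cut0]
    · simp [h, cut0]
  rw [Subgroup.coe_mul, cj_coe, Subgroup.coe_zpow]
  simp only [Alg1_D, tc, thB_mul, thB_s, tB, e, mul_inv_rev, mul_assoc]

theorem Alg1_χD {A : Type} [CommGroup A] (i : I g) (ε : ℤˣ) (w : W g) (χ : Gam g →* A) :
    χ (Alg1_D i ε w) = χ (tc i) ^ ((ε : ℤ) * Alg1_M i w 0 1) := by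
  induction w using W_ind_left generalizing χ with
  | one =>
    have : Alg1_D i ε 1 = 1 := Subtype.ext (by simp [Alg1_D, thB_one])
    simp [this]
  | step k v ih =>
    have h : χ (cj (s k) (Alg1_D i ε v)) = χ (cj (s k) (tc i)) ^ ((ε : ℤ) * Alg1_M i v 0 1) :=
      ih (χ.comp (cj (s k)).toMonoidHom)
    rw [Alg1_D_s, map_mul, map_zpow, h, Alg1_cj, ← zpow_mul, ← zpow_add, Alg1_M_mul, Alg1_M_s]
    congr 1
    simp only [Matrix.of_apply, Matrix.cons_val', Matrix.cons_val_zero, Matrix.cons_val_one,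
      Matrix.cons_val_fin_one, Units.val_mul]
    ring

/-- Dehn twists act on homology as transvections. Hint: `liftW` of the integer matrices
`s k ↦ !![ψ k, if k = i then 1 else 0; 0, -1]`, `ψ k = 1` if `par k = par i` and `-1` otherwise,
gives `a : W g → ℤ` (upper right entry) with `a (w v) = ψ w * a v + sg v * a w`; on `Gam g` it is a
homomorphism. By induction on `w`, `D ε w = thB ε w * w⁻¹ ∈ Gam g` has
`χ (D ε w) = χ (tc i) ^ (ε * a w)`, using `D ε (w v) = D (sg v * ε) w * cj w (D ε v)` for ALL `χ`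
at once, and `χ (cj (s k) (tc i)) = χ (tc i) ^ ψ k` (`cj_s`, `cj_s'`, `cj_gam`: `s k` differs from
`s i` or `s (i+1)` by an element of `Gam g`). -/
theorem exists_iota (hg : 2 ≤ g) : ∃ ι : I g → Gam g →* Multiplicative ℤ,
    (∀ i j, (ι i (tc j)).toAdd = if i = j + 1 then 1 else if j = i + 1 then -1 else 0) ∧
    ∀ (A : Type) [CommGroup A] (χ : Gam g →* A) i γ,
      χ (dt i γ) = χ γ * χ (tc i) ^ (ι i γ).toAdd := by
  refine ⟨Alg1_ι, fun i j => ?_, fun A _ χ i γ => ?_⟩
  · change Alg1_M i (s (j - 1) * s (j + 1)) 0 1 = _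
    have h2 : (2 : I g) ≠ 0 := fun h => by
      have := (ZMod.natCast_eq_zero_iff 2 (2 * g + 2)).1 (by exact_mod_cast h)
      have := Nat.le_of_dvd two_pos this
      omega
    rw [Alg1_M_mul, Alg1_M_s, Alg1_M_s, sg_s]
    simp only [Matrix.of_apply, Matrix.cons_val', Matrix.cons_val_zero, Matrix.cons_val_one,
      Matrix.cons_val_fin_one]
    by_cases h : i = j + 1
    · have h3 : j - 1 ≠ i := fun e => h2 (by linear_combination -e - h)
      have h4 := Alg1_ψ_succ i (j - 1)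
      have h5 := Alg1_ψ_succ i j
      rw [sub_add_cancel] at h4
      rw [← h, Alg1_ψ_self, h4, neg_neg] at h5
      rw [if_pos h, if_pos h.symm, if_neg h3, ← h5]
      simp
    · rw [if_neg h, if_neg (Ne.symm h)]
      simp only [sub_eq_iff_eq_add]
      split_ifs <;> simp
  · have e : dt i γ = Alg1_D i 1 γ * γ := Subtype.ext (by simp [dt, twG_coe, Alg1_D])
    rw [e, map_mul, Alg1_χD, mul_comm]
    simp [Alg1_ι]

end Pool.Agent.MP_4a6971_al.H83

/-!
The image in the symplectic group contains an element with finite centraliser.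
-/

namespace Pool.Agent.MP_4a6971_al.H83

open H66

variable {g : ℕ}

section

open Matrix

/-- The symplectic form. -/
def Alg_om (x y : Fin g ⊕ Fin g → ℤ) : ℤ := x ⬝ᵥ Matrix.J (Fin g) ℤ *ᵥ y

theorem Alg_om_skew (x y : Fin g ⊕ Fin g → ℤ) : Alg_om x y = -Alg_om y x := by
  rw [Alg_om, Alg_om, dotProduct_mulVec, ← mulVec_transpose, Matrix.J_transpose, neg_mulVec,
    neg_dotProduct, dotProduct_comm]

theorem Alg_om_self (x : Fin g ⊕ Fin g → ℤ) : Alg_om x x = 0 := by
  have := Alg_om_skew x x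
  omega

theorem Alg_om_right (x y z : Fin g ⊕ Fin g → ℤ) (a : ℤ) :
    Alg_om x (y + a • z) = Alg_om x y + a * Alg_om x z := by
  simp only [Alg_om, mulVec_add, mulVec_smul, dotProduct_add, dotProduct_smul, smul_eq_mul]

theorem Alg_om_left (x y z : Fin g ⊕ Fin g → ℤ) (a : ℤ) :
    Alg_om (y + a • z) x = Alg_om y x + a * Alg_om z x := by
  simp only [Alg_om, add_dotProduct, smul_dotProduct, smul_eq_mul]

theorem Alg_om_nondeg {c : Fin g ⊕ Fin g → ℤ} (h : ∀ x, Alg_om x c = 0) : c = 0 := by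
  have h1 : Matrix.J (Fin g) ℤ *ᵥ c = 0 := by
    funext q
    have := h (Pi.single q 1)
    rwa [Alg_om, single_one_dotProduct] at this
  have h2 : (Matrix.J (Fin g) ℤ * Matrix.J (Fin g) ℤ) *ᵥ c = 0 := by
    rw [← mulVec_mulVec, h1, mulVec_zero]
  rwa [Matrix.J_squared, neg_mulVec, one_mulVec, neg_eq_zero] at h2

theorem Alg_mult (hg : 2 ≤ g) (φ : MulAut (SurfaceGroup g)) :
    ∃ ε : ℤ, ε * ε = 1 ∧ ∀ x y, Alg_om (mat φ *ᵥ x) (mat φ *ᵥ y) = ε * Alg_om x y := by
  obtain ⟨c, hc⟩ := exists_mult φ⁻¹ ⟨0, by omega⟩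
  have e1 : mat φ * mat φ⁻¹ = 1 := by rw [← mat_mul, mul_inv_cancel, mat_one]
  have e2 : (mat φ)ᵀ * (mat φ⁻¹)ᵀ = 1 := by
    rw [← transpose_mul, ← mat_mul, inv_mul_cancel, mat_one, transpose_one]
  have e3 : ((mat φ)ᵀ * Matrix.J (Fin g) ℤ * mat φ) * (c • Matrix.J (Fin g) ℤ) = -1 := by
    rw [← hc]
    calc _ = (mat φ)ᵀ * (Matrix.J (Fin g) ℤ * (mat φ * mat φ⁻¹) * Matrix.J (Fin g) ℤ) *
          (mat φ⁻¹)ᵀ := by simp only [Matrix.mul_assoc]
      _ = -1 := by
        rw [e1, Matrix.mul_one, Matrix.J_squared, Matrix.mul_neg, Matrix.mul_one, Matrix.neg_mul,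
          e2]
  have e4 : c • ((mat φ)ᵀ * Matrix.J (Fin g) ℤ * mat φ) = Matrix.J (Fin g) ℤ := by
    have := congrArg (· * Matrix.J (Fin g) ℤ) e3
    simp only [Matrix.mul_smul, Matrix.smul_mul] at this
    rw [Matrix.mul_assoc _ (Matrix.J (Fin g) ℤ) (Matrix.J (Fin g) ℤ), Matrix.J_squared,
      Matrix.mul_neg, Matrix.mul_one, Matrix.neg_mul, Matrix.one_mul, smul_neg] at this
    exact neg_injective this
  have e5 : c * c = 1 := by
    have := congrFun (congrFun e4 (Sum.inr ⟨0, by omega⟩)) (Sum.inl ⟨0, by omega⟩)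
    rw [Matrix.smul_apply, smul_eq_mul] at this
    have h1 : Matrix.J (Fin g) ℤ (Sum.inr ⟨0, by omega⟩) (Sum.inl ⟨0, by omega⟩) = 1 := by
      simp [Matrix.J]
    rw [h1] at this
    rcases Int.eq_one_or_neg_one_of_mul_eq_one this with h | h <;> simp [h]
  refine ⟨c, e5, fun x y => ?_⟩
  have e6 : (mat φ)ᵀ * Matrix.J (Fin g) ℤ * mat φ = c • Matrix.J (Fin g) ℤ := by
    have := congrArg (c • ·) e4
    simpa only [smul_smul, e5, one_smul] using this
  rw [Alg_om, Alg_om, dot_mulVec_mulVec, e6, smul_mulVec, dotProduct_smul, smul_eq_mul]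

/-- The action on homology. -/
theorem Alg_rep (hg : 2 ≤ g) :
    ∃ (ρ : MulAut (Gam g) →* Matrix (Fin g ⊕ Fin g) (Fin g ⊕ Fin g) ℤ)
      (χ : Gam g →* Multiplicative (Fin g ⊕ Fin g → ℤ)),
      (∀ q, ∃ γ, (χ γ).toAdd = Pi.single q 1) ∧
      (∀ φ γ, (χ (φ γ)).toAdd = ρ φ *ᵥ (χ γ).toAdd) ∧
      (∀ φ, ∃ ε : ℤ, ε * ε = 1 ∧ ∀ x y, Alg_om (ρ φ *ᵥ x) (ρ φ *ᵥ y) = ε * Alg_om x y) ∧
      ∀ ψ : Gam g →* Multiplicative ℤ, ∃ l : Fin g ⊕ Fin g → ℤ,
        ∀ γ, (ψ γ).toAdd = l ⬝ᵥ (χ γ).toAdd := by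
  obtain ⟨e⟩ := surface_iso g
  let m : MulAut (SurfaceGroup g) →* Matrix (Fin g ⊕ Fin g) (Fin g ⊕ Fin g) ℤ :=
    ⟨⟨mat, mat_one⟩, mat_mul⟩
  refine ⟨m.comp (MulAut.congr e.symm).toMonoidHom, (homologyHom g).comp e.symm.toMonoidHom,
    fun q => ⟨e (gen q), ?_⟩, fun φ γ => ?_, fun φ => Alg_mult hg _, fun ψ => ?_⟩
  · change hv (e.symm (e (gen q))) = _
    rw [e.symm_apply_apply, hv_gen]
  · change hv (e.symm (φ γ)) = mat (MulAut.congr e.symm φ) *ᵥ hv (e.symm γ)
    rw [← hv_apply]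
    simp [MulAut.congr]
  · refine ⟨fun q => (ψ (e (gen q))).toAdd, fun γ => ?_⟩
    obtain ⟨x, rfl⟩ := e.surjective γ
    change _ = _ ⬝ᵥ hv (e.symm (e x))
    rw [e.symm_apply_apply]
    induction x using surf_ind with
    | of i => rw [hv_gen, dotProduct_single_one]
    | one => simp
    | mul x y a b => rw [map_mul, map_mul, toAdd_mul, a, b, hv_mul, dotProduct_add]
    | inv x a => rw [map_inv, map_inv, toAdd_inv, a, hv_inv, dotProduct_neg]

theorem Alg_ext {n : Type} [Fintype n] [DecidableEq n] {A B : Matrix n n ℤ}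
    (h : ∀ q, A *ᵥ Pi.single q 1 = B *ᵥ Pi.single q 1) : A = B := by
  ext p q
  have := congrFun (h q) p
  simpa only [mulVec_single_one, Matrix.col_apply] using this

/-- A transvection preserving the form up to sign is a symplectic transvection. -/
theorem Alg_trans {l c : Fin g ⊕ Fin g → ℤ} {ε : ℤ} (h0 : l ⬝ᵥ c = 0) (hc : c ≠ 0)
    (h : ∀ x y, Alg_om (x + (l ⬝ᵥ x) • c) (y + (l ⬝ᵥ y) • c) = ε * Alg_om x y) (x y) :
    (l ⬝ᵥ y) * Alg_om x c = (l ⬝ᵥ x) * Alg_om y c := by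
  have h1 : ε = 1 := by
    by_contra hne
    refine hc (Alg_om_nondeg fun z => ?_)
    have := h z c
    rw [h0, zero_smul, add_zero, Alg_om_left, Alg_om_self, mul_zero, add_zero] at this
    have h2 : (ε - 1) * Alg_om z c = 0 := by linear_combination -this
    exact (mul_eq_zero.1 h2).resolve_left (sub_ne_zero.2 hne)
  have := h x y
  rw [Alg_om_left, Alg_om_right, Alg_om_right, Alg_om_self, h1, Alg_om_skew c y] at this
  linear_combination this

/-- The form `ω y (δ y)` is definite. -/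
theorem Alg_form (D T : ℕ → Matrix (Fin g ⊕ Fin g) (Fin g ⊕ Fin g) ℤ)
    (l c : ℕ → Fin g ⊕ Fin g → ℤ) (lam : ℤ) (N : ℕ) (hD0 : D 0 = 1)
    (hD : ∀ k, D (k + 1) = T k * D k)
    (hT : ∀ k x, T k *ᵥ x = x + (l k ⬝ᵥ x) • c k)
    (hom : ∀ k x, Alg_om x (c k) = lam * (l k ⬝ᵥ x))
    (hA : ∀ i j, j < i → i < N → l i ⬝ᵥ c j = if i = j + 1 then 1 else 0)
    (y : Fin g ⊕ Fin g → ℤ) (k : ℕ) :
    k ≤ N → ∃ a : ℤ, (∀ j, k ≤ j → j < N → l j ⬝ᵥ (D k *ᵥ y) = l j ⬝ᵥ y + if j = k then a else 0) ∧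
      2 * Alg_om y (D k *ᵥ y) = lam * (a ^ 2 + ∑ m ∈ Finset.range k, (l m ⬝ᵥ y) ^ 2) := by
  induction k with
  | zero =>
    intro _
    refine ⟨0, fun j _ _ => ?_, ?_⟩
    · simp [hD0]
    · simp [hD0, Alg_om_self]
  | succ k ih =>
    intro hk
    obtain ⟨a, h1, h2⟩ := ih (by omega)
    have h3 := h1 k le_rfl (by omega)
    rw [if_pos rfl] at h3
    refine ⟨l k ⬝ᵥ y + a, fun j hj hj' => ?_, ?_⟩
    · rw [hD, ← mulVec_mulVec, hT, h3, dotProduct_add, h1 j (by omega) hj', if_neg (by omega),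
        dotProduct_smul, hA j k (by omega) hj']
      split_ifs <;> simp
    · rw [hD, ← mulVec_mulVec, hT, h3, Alg_om_right, hom, Finset.sum_range_succ]
      linear_combination h2

/-- The functionals of a chain of length `2 g` separate points. -/
theorem Alg_inj (l c : ℕ → Fin g ⊕ Fin g → ℤ)
    (hA : ∀ i j, i < g + g → j < g + g →
      l i ⬝ᵥ c j = if i = j + 1 then 1 else if j = i + 1 then -1 else 0)
    (y : Fin g ⊕ Fin g → ℤ) (hy : ∀ k < g + g, l k ⬝ᵥ y = 0) : y = 0 := by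
  let σ : Fin g ⊕ Fin g ≃ Fin (g + g) := finSumFinEquiv
  let L : Matrix (Fin g ⊕ Fin g) (Fin g ⊕ Fin g) ℤ := Matrix.of fun p q => l (σ p) q
  let C : Matrix (Fin g ⊕ Fin g) (Fin g ⊕ Fin g) ℤ := Matrix.of fun p q => c (σ q) p
  have hLC : ∀ p q, (L * C) p q = l (σ p) ⬝ᵥ c (σ q) := fun p q => rfl
  have h1 : (L * C).det ≠ 0 := by
    rw [Ne, ← Matrix.exists_mulVec_eq_zero_iff]
    rintro ⟨v, hv0, hv⟩
    let a : ℕ → ℤ := fun k => if h : k < g + g then v (σ.symm ⟨k, h⟩) else 0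
    have ha : ∀ q, v q = a (σ q) := fun q => by simp [a]
    have hs : ∀ m : ℕ, ∑ q : Fin (g + g), (if (q : ℕ) = m then a q else 0) = a m := fun m => by
      by_cases hm : m < g + g
      · rw [Finset.sum_eq_single ⟨m, hm⟩, if_pos rfl]
        · intro b _ hb
          exact if_neg fun h => hb (Fin.ext h)
        · simp
      · rw [Finset.sum_eq_zero fun (q : Fin (g + g)) _ =>
          if_neg fun h : (q : ℕ) = m => hm (h ▸ q.2)]
        simp [a, hm]
    have he : ∀ k (hk : k < g + g), ∑ q : Fin (g + g),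
        (if k = q + 1 then 1 else if (q : ℕ) = k + 1 then -1 else 0) * a q = 0 := fun k hk => by
      have := congrFun hv (σ.symm ⟨k, hk⟩)
      rw [Matrix.mulVec, dotProduct, Pi.zero_apply] at this
      refine Eq.trans ?_ this
      rw [← σ.sum_comp]
      refine Finset.sum_congr rfl fun q _ => ?_
      rw [hLC, ha, σ.apply_symm_apply, hA _ _ hk (σ q).2]
    have e0 : a 1 = 0 := by
      by_cases hg : 0 < g + g
      · rw [← hs 1, ← neg_eq_zero, ← Finset.sum_neg_distrib]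
        refine Eq.trans (Finset.sum_congr rfl fun q _ => ?_) (he 0 hg)
        rw [if_neg (show ¬ 0 = (q : ℕ) + 1 by omega)]
        split_ifs <;> omega
      · have : ¬ 1 < g + g := by omega
        simp [a, this]
    have e1 : ∀ k, k + 1 < g + g → a (k + 2) = a k := fun k hk => by
      rw [← hs (k + 2), ← hs k, ← sub_eq_zero, ← neg_eq_zero, ← Finset.sum_sub_distrib,
        ← Finset.sum_neg_distrib]
      refine Eq.trans (Finset.sum_congr rfl fun q _ => ?_) (he (k + 1) hk)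
      split_ifs <;> omega
    have e2 : ∀ m, m < g → a (2 * m + 1) = 0 := fun m => by
      induction m with
      | zero => exact fun _ => e0
      | succ m ih =>
        intro hm
        rw [show 2 * (m + 1) + 1 = 2 * m + 1 + 2 by ring, e1 _ (by omega), ih (by omega)]
    have e3 : ∀ m, m ≤ g → a (2 * m) = a 0 := fun m => by
      induction m with
      | zero => exact fun _ => rfl
      | succ m ih =>
        intro hm
        rw [show 2 * (m + 1) = 2 * m + 2 by ring, e1 _ (by omega), ih (by omega)]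
    have e4 : a 0 = 0 := by
      rw [← e3 g le_rfl]
      have : ¬ 2 * g < g + g := by omega
      simp [a, this]
    refine hv0 (funext fun q => ?_)
    rw [ha, Pi.zero_apply]
    have hq := (σ q).2
    obtain ⟨m, hm | hm⟩ := Nat.even_or_odd' (σ q : ℕ)
    · rw [hm, e3 m (by omega), e4]
    · rw [hm, e2 m (by omega)]
  by_contra hne
  have h2 : L.det = 0 := Matrix.exists_mulVec_eq_zero_iff.1 ⟨y, hne, funext fun p => hy _ (σ p).2⟩
  rw [Matrix.det_mul, h2, zero_mul] at h1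
  exact h1 rfl

/-- Finitely many matrices commute with `D` and preserve the form up to sign. -/
theorem Alg_fin (D : Matrix (Fin g ⊕ Fin g) (Fin g ⊕ Fin g) ℤ) (l : ℕ → Fin g ⊕ Fin g → ℤ)
    (N : ℕ) (lam : ℤ) (hl : lam ≠ 0) (hinj : ∀ y, (∀ k < N, l k ⬝ᵥ y = 0) → y = 0)
    (hD : ∀ y, ∃ a : ℤ,
      2 * Alg_om y (D *ᵥ y) = lam * (a ^ 2 + ∑ m ∈ Finset.range N, (l m ⬝ᵥ y) ^ 2)) :
    {M : Matrix (Fin g ⊕ Fin g) (Fin g ⊕ Fin g) ℤ | M * D = D * M ∧
      ∃ ε : ℤ, ε * ε = 1 ∧ ∀ x y, Alg_om (M *ᵥ x) (M *ᵥ y) = ε * Alg_om x y}.Finite := by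
  let b : Fin g ⊕ Fin g → ℤ := fun q => |2 * Alg_om (Pi.single q 1) (D *ᵥ Pi.single q 1)|
  have hf : {F : Fin N → Fin g ⊕ Fin g → ℤ | ∀ k, F k ∈ {v : Fin g ⊕ Fin g → ℤ |
      ∀ q, v q ∈ Set.Icc (-b q) (b q)}}.Finite :=
    Set.Finite.pi' fun _ => Set.Finite.pi' fun _ => Set.finite_Icc _ _
  refine Set.Finite.of_finite_image
    (f := fun M (k : Fin N) q => l k ⬝ᵥ (M *ᵥ Pi.single q 1)) (hf.subset ?_) ?_
  · rintro _ ⟨M, ⟨hM, ε, hε, hω⟩, rfl⟩ k q
    obtain ⟨a, ha⟩ := hD (M *ᵥ Pi.single q 1)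
    change l k ⬝ᵥ (M *ᵥ Pi.single q 1) ∈ Set.Icc (-b q) (b q)
    rw [mulVec_mulVec, ← hM, ← mulVec_mulVec, hω] at ha
    have h1 : (l k ⬝ᵥ (M *ᵥ Pi.single q 1)) ^ 2 ≤
        ∑ m ∈ Finset.range N, (l m ⬝ᵥ (M *ᵥ Pi.single q 1)) ^ 2 :=
      Finset.single_le_sum (f := fun m => (l m ⬝ᵥ (M *ᵥ Pi.single q 1)) ^ 2)
        (fun _ _ => sq_nonneg _) (Finset.mem_range.2 k.2)
    have h2 : |ε| = 1 := by
      rcases Int.eq_one_or_neg_one_of_mul_eq_one hε with h | h <;> simp [h]
    have h3 : b q = |lam| * (a ^ 2 + ∑ m ∈ Finset.range N, (l m ⬝ᵥ (M *ᵥ Pi.single q 1)) ^ 2) := by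
      have := congrArg abs ha
      rw [mul_left_comm, abs_mul, h2, one_mul, abs_mul lam,
        abs_of_nonneg (a := a ^ 2 + _) (by positivity)] at this
      exact this
    have h4 : 1 ≤ |lam| := Int.one_le_abs hl
    generalize l k ⬝ᵥ (M *ᵥ Pi.single q 1) = t at h1 ⊢
    generalize ∑ m ∈ Finset.range N, (l m ⬝ᵥ (M *ᵥ Pi.single q 1)) ^ 2 = S at h1 h3
    have h5 : t ^ 2 ≤ b q := by
      rw [h3]
      nlinarith [sq_nonneg a, sq_nonneg t]
    have h6 : |t| ≤ t ^ 2 := by
      rw [← sq_abs]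
      rcases (abs_nonneg t).eq_or_lt with h | h
      · rw [← h]; norm_num
      · nlinarith
    exact abs_le.1 (h6.trans h5)
  · intro M _ M' _ h
    refine Alg_ext fun q => sub_eq_zero.1 (hinj _ fun k hk => ?_)
    have := congrFun (congrFun h ⟨k, hk⟩) q
    rw [dotProduct_sub]
    exact sub_eq_zero.2 this

theorem Alg_cast {i j : ℕ} (hi : i < 2 * g + 2) (hj : j < 2 * g + 2) :
    (i : I g) = (j : I g) ↔ i = j := by
  constructor
  · intro h
    have := congrArg ZMod.val h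
    rwa [Iso.val_cast hi, Iso.val_cast hj] at this
  · rintro rfl
    rfl

theorem Alg_braid {K : Type} [Group K] (P : Subgroup K) {a b : K} (h : a * b * a = b * a * b)
    (h1 : (a * b * a) * (a * b * a) ∈ P) (h2 : (a * b) * (a * b) ∈ P) : a * b ∈ P := by
  have : a * b = (a * b * a) * (a * b * a) * ((a * b) * (a * b))⁻¹ := by
    nth_rewrite 2 [h]
    group
  rw [this]
  exact P.mul_mem h1 (P.inv_mem h2)

end

open Matrix in
/-- The quotient is the image in the integer matrix group. The special element is the product of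
the transvections along a chain of `2 g` curves: it is a product of squares by the braid relation,
and a matrix commuting with it preserves a definite form. -/
theorem exists_quot' (hg : 2 ≤ g) {G : Type} [Group G] (j : G →* Out (Gam g))
    (H : Subgroup (MulAut (Gam g))) (h1 : ∀ i, dt i ∈ H)
    (h2 : ∀ φ ∈ H, (QuotientGroup.mk (φ * φ) : Out (Gam g)) ∈ j.range) :
    ∃ (Q : Type) (_ : Group Q) (π : G →* Q) (J : Q), Infinite Q ∧ Function.Surjective π ∧
      (Subgroup.centralizer {J} : Set Q).Finite ∧ ∀ x φ, j x = QuotientGroup.mk φ →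
        (∀ (χ : Gam g →* Multiplicative (Fin g ⊕ Fin g → ℤ)) γ, χ (φ γ) = χ γ) → π x = 1 := by
  obtain ⟨ρ, χ, hχ, hρ, hω, hψ⟩ := Alg_rep hg
  obtain ⟨ι, hι, hdt⟩ := exists_iota hg
  choose l hl using fun i => hψ (ι i)
  let c : I g → Fin g ⊕ Fin g → ℤ := fun i => (χ (tc i)).toAdd
  have hlc : ∀ i k, l i ⬝ᵥ c k = if i = k + 1 then 1 else if k = i + 1 then -1 else 0 :=
    fun i k => (hl i _).symm.trans (hι i k)
  have hone : ∀ φ, (∀ γ, χ (φ γ) = χ γ) → ρ φ = 1 := fun φ h => Alg_ext fun q => by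
    obtain ⟨γ, hγ⟩ := hχ q
    rw [← hγ, ← hρ, h, one_mulVec]
  have hT : ∀ i x, ρ (dt i) *ᵥ x = x + (l i ⬝ᵥ x) • c i := fun i x => by
    have : ρ (dt i) = 1 + vecMulVec (c i) (l i) := Alg_ext fun q => by
      obtain ⟨γ, hγ⟩ := hχ q
      rw [← hγ, ← hρ, hdt, toAdd_mul, toAdd_zpow, hl, add_mulVec, one_mulVec, vecMulVec_mulVec,
        op_smul_eq_smul]
    rw [this, add_mulVec, one_mulVec, vecMulVec_mulVec, op_smul_eq_smul]
  have hne : ∀ i : I g, i ≠ i + 1 + 1 := fun i h => by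
    have h3 : ((0 : ℕ) : I g) = ((2 : ℕ) : I g) := by
      push_cast
      linear_combination h
    have := (Alg_cast (by omega) (by omega)).1 h3
    omega
  have h00 : ∀ i, l i ⬝ᵥ c i = 0 := fun i => by
    rw [hlc, if_neg (succ_ne i).symm, if_neg (succ_ne i).symm]
  have h10 : ∀ i, l (i + 1) ⬝ᵥ c i = 1 := fun i => by rw [hlc, if_pos rfl]
  have h01 : ∀ i, l i ⬝ᵥ c (i + 1) = -1 := fun i => by rw [hlc, if_neg (hne i), if_pos rfl]
  have hc0 : ∀ i, c i ≠ 0 := fun i h => by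
    have := h10 i
    rw [h, dotProduct_zero] at this
    exact zero_ne_one this
  have htr : ∀ i x, Alg_om x (c i) = Alg_om (c i) (c (i + 1)) * (l i ⬝ᵥ x) := fun i x => by
    obtain ⟨ε, -, hε⟩ := hω (dt i)
    simp only [hT] at hε
    have := Alg_trans (h00 i) (hc0 i) hε x (c (i + 1))
    rw [h01, Alg_om_skew (c (i + 1))] at this
    linear_combination -this
  have hlam : ∀ k : ℕ, Alg_om (c k) (c (k + 1)) = Alg_om (c 0) (c (0 + 1)) := fun k => by
    induction k with
    | zero => rw [Nat.cast_zero]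
    | succ k ih => rw [← ih, Nat.cast_succ, htr ((k : I g) + 1) (c k), h10, mul_one]
  have hlam0 : Alg_om (c 0) (c (0 + 1)) ≠ 0 := fun h =>
    hc0 0 (Alg_om_nondeg fun x => by rw [htr, h, zero_mul])
  have hA : ∀ i k : ℕ, i < g + g → k < g + g →
      l i ⬝ᵥ c k = if i = k + 1 then 1 else if k = i + 1 then -1 else 0 := fun i k hi hk => by
    rw [hlc, ← Nat.cast_succ, ← Nat.cast_succ]
    simp only [Alg_cast (show i < 2 * g + 2 by omega) (show k.succ < 2 * g + 2 by omega),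
      Alg_cast (show k < 2 * g + 2 by omega) (show i.succ < 2 * g + 2 by omega)]
  let ρu := ρ.toHomUnits
  have hρu : ∀ φ, (ρu φ : Matrix (Fin g ⊕ Fin g) (Fin g ⊕ Fin g) ℤ) = ρ φ := fun _ => rfl
  let ρo : Out (Gam g) →* (Matrix (Fin g ⊕ Fin g) (Fin g ⊕ Fin g) ℤ)ˣ :=
    QuotientGroup.lift _ ρu (by
      rintro _ ⟨x, rfl⟩
      refine Units.ext (hone _ fun γ => ?_)
      simp)
  have hρo : ∀ φ, ρo (QuotientGroup.mk φ) = ρu φ := fun _ => rfl
  let π := ρo.comp j
  have hsq : ∀ φ ∈ H, ρu φ * ρu φ ∈ π.range := fun φ hφ => by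
    obtain ⟨x, hx⟩ := h2 φ hφ
    exact ⟨x, by rw [← map_mul, ← hρo, ← hx]; rfl⟩
  have hpair : ∀ i : I g, ρu (dt (i + 1)) * ρu (dt i) ∈ π.range := fun i => by
    refine Alg_braid _ (Units.ext (Alg_ext fun q => ?_)) ?_ ?_
    · simp only [Units.val_mul, hρu, ← mulVec_mulVec, hT, dotProduct_add, dotProduct_smul, h00,
        h10, h01, smul_eq_mul]
      module
    · simpa only [map_mul] using hsq _ (H.mul_mem (H.mul_mem (h1 (i + 1)) (h1 i)) (h1 (i + 1)))
    · simpa only [map_mul] using hsq _ (H.mul_mem (h1 (i + 1)) (h1 i))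
  obtain ⟨D, hD0, hD⟩ : ∃ D : ℕ → (Matrix (Fin g ⊕ Fin g) (Fin g ⊕ Fin g) ℤ)ˣ, D 0 = 1 ∧
      ∀ k : ℕ, D (k + 1) = ρu (dt k) * D k :=
    ⟨fun k => Nat.rec 1 (fun m d => ρu (dt m) * d) k, rfl, fun _ => rfl⟩
  have hDm : ∀ m, D (m + m) ∈ π.range := fun m => by
    induction m with
    | zero => exact hD0 ▸ one_mem _
    | succ m ih =>
      rw [show m + 1 + (m + 1) = m + m + 1 + 1 by ring, hD, hD, ← mul_assoc, Nat.cast_succ]
      exact mul_mem (hpair _) ih
  refine ⟨π.range, inferInstance, π.rangeRestrict, ⟨D (g + g), hDm g⟩, ?_,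
    π.rangeRestrict_surjective, ?_, fun x φ hx h => ?_⟩
  · have hp : ∀ m : ℕ, ρ (dt 0 ^ m * dt 0 ^ m) *ᵥ c (0 + 1) = c (0 + 1) + (-(2 * m : ℤ)) • c 0 := by
      have : ∀ m : ℕ, ρ (dt 0 ^ m) *ᵥ c (0 + 1) = c (0 + 1) + (-(m : ℤ)) • c 0 := fun m => by
        induction m with
        | zero => simp
        | succ m ih =>
          rw [pow_succ', map_mul, ← mulVec_mulVec, ih, hT, dotProduct_add, dotProduct_smul, h00,
            h01]
          push_cast
          module
      intro m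
      rw [← pow_add, this]
      push_cast
      module
    refine Infinite.of_injective (fun m : ℕ => (⟨ρu (dt 0 ^ m) * ρu (dt 0 ^ m),
      hsq _ (H.pow_mem (h1 0) m)⟩ : π.range)) fun m n h => ?_
    have e1 : ρ (dt 0 ^ m * dt 0 ^ m) = ρ (dt 0 ^ n * dt 0 ^ n) := by
      rw [map_mul, map_mul]
      exact congrArg (fun u : π.range => (u.1 : Matrix (Fin g ⊕ Fin g) (Fin g ⊕ Fin g) ℤ)) h
    have e2 := hp m
    rw [e1, hp] at e2
    have e3 := congrArg (l (0 + 1) ⬝ᵥ ·) e2
    simp only [dotProduct_add, dotProduct_smul, h10, smul_eq_mul] at e3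
    omega
  · have hform := fun y => Alg_form
      (fun k => (D k : Matrix (Fin g ⊕ Fin g) (Fin g ⊕ Fin g) ℤ)) (fun k => ρ (dt k))
      (fun k => l k) (fun k => c k) (Alg_om (c 0) (c (0 + 1))) (g + g) (congrArg Units.val hD0)
      (fun k => congrArg Units.val (hD k)) (fun k => hT k)
      (fun k x => (htr k x).trans (by rw [hlam]))
      (fun i k hk hi => by rw [hA i k hi (by omega), if_neg (show k ≠ i + 1 by omega)])
      y (g + g) le_rfl
    have hf := Alg_fin (D (g + g) : Matrix (Fin g ⊕ Fin g) (Fin g ⊕ Fin g) ℤ) (fun k => l k) (g + g)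
      _ hlam0 (Alg_inj (fun k => l k) (fun k => c k) hA) fun y => (hform y).imp fun a ha => ha.2
    refine (hf.preimage
      (f := fun u : π.range => (u.1 : Matrix (Fin g ⊕ Fin g) (Fin g ⊕ Fin g) ℤ))
      (Units.val_injective.comp Subtype.val_injective).injOn).subset fun u hu => ⟨?_, ?_⟩
    · rw [SetLike.mem_coe, Subgroup.mem_centralizer_singleton_iff] at hu
      exact congrArg (fun u : π.range => (u.1 : Matrix (Fin g ⊕ Fin g) (Fin g ⊕ Fin g) ℤ)) hu
    · obtain ⟨_, x, rfl⟩ := u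
      obtain ⟨φ, hφ⟩ := QuotientGroup.mk_surjective (j x)
      have : π x = ρu φ := by rw [← hρo, hφ]; rfl
      change ∃ ε : ℤ, ε * ε = 1 ∧ ∀ y z, Alg_om ((π x).1 *ᵥ y) ((π x).1 *ᵥ z) = ε * Alg_om y z
      rw [this]
      exact hω φ
  · refine Subtype.ext (Units.ext ?_)
    have : π x = ρu φ := by rw [← hρo, ← hx]; rfl
    change (π x).1 = 1
    rw [this]
    exact hone φ (h χ)

end Pool.Agent.MP_4a6971_al.H83
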