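import Pool.Agent.MP_4a6971_al.H83.Klein

/-!
Geometry of the tiling: vertices, sides, thin rectangles and corner boxes.
-/

namespace Pool.Agent.MP_4a6971_al.H83

open Set Topology H66

variable {g : ℕ} (Y : Poly g)

open Classical in
/-- The vertex on the sides `i` and `j`. -/
noncomputable def vt (i j : I g) : X :=
  if h : ∃ v : X, bf (Y.e i) v = 0 ∧ bf (Y.e j) v = 0 then h.choose else oX

/-- The side `i` of the chamber. -/
def side (i : I g) : Set X := seg (vt Y i (i - 1)) (vt Y i (i + 1))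

/-- The corner box. -/
def Cb (i j : I g) (η : ℝ) : Set X := {x | |bf (Y.e i) x| ≤ η ∧ |bf (Y.e j) x| ≤ η}

/-- Representatives for the two orbits of edges of type `i`. -/
def uu (i : I g) (b : Bool) : W g := if b then s (i + 1) else 1

/-- `η` is small for the tiling. -/
structure Thin (η : ℝ) : Prop where
  pos : 0 < η
  near : ∀ x ∈ Chm Y, ∀ w i, |bf (nr Y w i) x| ≤ η → nr Y w i = Y.e i ∨ nr Y w i = -Y.e i
  two : ∀ x ∈ Chm Y, ∀ i j, i ≠ j → ¬ Adj i j → η < bf (Y.e i) x ∨ η < bf (Y.e j) x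

variable {Y} {η : ℝ} {i j : I g}

theorem Adj.symm (h : Adj i j) : Adj j i := Or.symm h

theorem adj_succ (i : I g) : Adj i (i + 1) := Or.inl rfl

theorem adj_pred (i : I g) : Adj i (i - 1) := Or.inr (by simp)

theorem Adj.eq (h : Adj i j) : j = i + 1 ∨ j = i - 1 := h.imp id fun a => by simp [a]

theorem Adj.bf (h : Adj i j) : Bf (Y.e i) (Y.e j) = 0 := by
  rcases h with rfl | rfl
  · exact Y.adj i
  · rw [Bf_comm, Y.adj]

theorem Adj.par_ne (h : Adj i j) : par i ≠ par j := by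
  have : ∀ a : ZMod 2, a ≠ a + 1 := by decide
  rcases h with rfl | rfl <;> rw [par_succ]
  · exact this _
  · exact (this _).symm

theorem Adj.s_comm (h : Adj i j) : s i * s j = s j * s i := by
  rcases h with rfl | rfl
  · exact H66.s_comm i
  · exact (H66.s_comm j).symm

theorem vt_spec (h : Adj i j) : bf (Y.e i) (vt Y i j) = 0 ∧ bf (Y.e j) (vt Y i j) = 0 := by
  have := exists_corner (Y.unit i) (Y.unit j) h.bf
  rw [vt, dif_pos this]
  exact this.choose_spec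

theorem vt_unique (h : Adj i j) {x : X} (h1 : bf (Y.e i) x = 0) (h2 : bf (Y.e j) x = 0) :
    x = vt Y i j := by
  have h0 := h.bf (Y := Y)
  refine two_lines (Y.unit i) (Y.unit j) (fun e => ?_) (fun e => ?_) ⟨h1, h2⟩ (vt_spec h)
  · rw [e, Y.unit] at h0
    exact one_ne_zero h0
  · rw [e, Bf_neg_right, Y.unit] at h0
    exact one_ne_zero (neg_eq_zero.1 h0)

theorem vt_comm (h : Adj i j) : vt Y i j = vt Y j i := by
  exact vt_unique h.symm (vt_spec h).2 (vt_spec h).1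

theorem vt_pos (h : Adj i j) {k : I g} (h1 : k ≠ i) (h2 : k ≠ j) : 0 < bf (Y.e k) (vt Y i j) := by
  have key : ∀ l, k ≠ l → bf (Y.e l) (vt Y i j) = 0 → ¬ Adj l k → 0 < bf (Y.e k) (vt Y i j) :=
    fun l a b c => by
      have := Y.add_pos a (not_or.1 c).1 (not_or.1 c).2 (vt Y i j).2.fut
      rwa [show Bf (Y.e l) (vt Y i j).1 = 0 from b, zero_add] at this
  by_cases a : Adj i k
  · refine key j h2 (vt_spec h).2 fun b => ?_
    rcases h with h | h <;> rcases a with a | a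
    · exact h2 (a.trans h.symm)
    · rcases b with b | b
      · exact Y.three_ne (by linear_combination -h - a - b)
      · exact Poly.one_ne (g := g) (by linear_combination b - h - a)
    · rcases b with b | b
      · exact h1 (b.trans h.symm)
      · exact Y.three_ne (by linear_combination -h - a - b)
    · exact h2 (by linear_combination h - a)
  · exact key i h1 (vt_spec h).1 a

theorem vt_ne (i : I g) : vt Y i (i - 1) ≠ vt Y i (i + 1) := by
  intro e
  have := vt_pos (Y := Y) (adj_pred i) (succ_ne i) fun a => Y.two_ne (by linear_combination a)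
  rw [e, (vt_spec (adj_succ i)).2] at this
  exact this.false

theorem bf_s (i : I g) (N : V) (x : X) :
    bf N (Y.ρ (s i) • x) = bf N x - 2 * bf (Y.e i) x * Bf N (Y.e i) := by
  simp only [bf, coe_smul, Y.ρ_s, Bf_sub_right, Bf_smul_right]

theorem s_smul_of {x : X} (h : bf (Y.e i) x = 0) : Y.ρ (s i) • x = x := by
  exact Subtype.ext (Y.ρ_s_of h)

theorem isCompact_Chm : IsCompact (Chm Y) := by
  obtain ⟨R, h⟩ := Y.bdd
  refine (isCompact_Dsc oX R).of_isClosed_subset ?_ fun x hx => h x.1 x.2 hx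
  rw [Chm, ofPred_forall]
  exact isClosed_iInter fun i => isClosed_le continuous_const (continuous_bf _)

theorem cvx_Chm : Cvx (Chm Y) := by
  exact fun a ha b hb _ hy i => cvx_half _ a (ha i) b (hb i) hy

theorem interior_Chm : interior (Chm Y) = {x | ∀ i, 0 < bf (Y.e i) x} := by
  refine Subset.antisymm (fun x hx i => pos_of_interior (fun e => ?_)
    (interior_mono (s := Chm Y) (fun y hy => hy i) hx))
    (interior_maximal (fun x hx i => (hx i).le) ?_)
  · have := Y.unit i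
    rw [e] at this
    simp [Bf] at this
  · rw [ofPred_forall]
    exact isOpen_iInter_of_finite fun i => isOpen_lt continuous_const (continuous_bf _)

theorem oX_mem : oX ∈ interior (Chm Y) := by
  rw [interior_Chm]
  exact fun i => Y.h_pos.trans_eq (Y.cen i).symm

theorem cover (x : X) : ∃ w, Y.ρ w • x ∈ Chm Y := by
  exact (Y.cover x.2).imp fun _ h => h.2

/-- Hint: `Poly.stab_ind`. -/
theorem chm_fix {x : X} {w : W g} (h : x ∈ Chm Y) (h' : Y.ρ w • x ∈ Chm Y) :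
    Y.ρ w • x = x ∧ w ∈ Subgroup.closure {v | ∃ k, bf (Y.e k) x = 0 ∧ v = s k} := by
  refine Y.stab_ind (p := fun w => Y.ρ w • x = x ∧
    w ∈ Subgroup.closure {v | ∃ k, bf (Y.e k) x = 0 ∧ v = s k}) (P := x.1) ⟨x.2, h⟩
    ⟨by rw [map_one, one_smul], one_mem _⟩ (fun v k a b => ⟨?_,
      mul_mem b.2 (Subgroup.subset_closure ⟨k, a, rfl⟩)⟩) w ⟨x.2.smul _, h'⟩
  rw [map_mul, mul_smul, s_smul_of a, b.1]

theorem chm_disj {x : X} {w : W g} (h : x ∈ interior (Chm Y)) (h' : Y.ρ w • x ∈ Chm Y) : w = 1 := by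
  have h1 := interior_Chm.le h
  exact Y.stab_ind (p := fun w => w = 1) (P := x.1) ⟨x.2, interior_subset h⟩ rfl
    (fun _ k a _ => ((h1 k).ne' a).elim) w ⟨x.2.smul _, h'⟩

theorem mem_side {x : X} :
    x ∈ side Y i ↔ bf (Y.e i) x = 0 ∧ 0 ≤ bf (Y.e (i - 1)) x ∧ 0 ≤ bf (Y.e (i + 1)) x := by
  have a := vt_spec (Y := Y) (adj_pred i)
  have b := vt_spec (Y := Y) (adj_succ i)
  have c := vt_pos (Y := Y) (adj_pred i) (succ_ne i) fun a => Y.two_ne (by linear_combination a)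
  have d := vt_pos (Y := Y) (adj_succ i) (k := i - 1)
    (fun a => Poly.one_ne (g := g) (by linear_combination -a))
    fun a => Y.two_ne (by linear_combination -a)
  refine ⟨fun h => ?_, fun h => mem_seg_of_cuts (Y.unit i) a.1 b.1 h.1 a.2 d b.2 c h.2.1 h.2.2⟩
  obtain ⟨p, q, hp, hq, -, -, h, -⟩ := seg_coef h
  rw [h, h, h, a.1, a.2, b.1, b.2]
  exact ⟨by simp, by positivity, by positivity⟩

theorem Geo1_vt_mem (h : Adj i j) : vt Y i j ∈ Chm Y := fun k => by
  rcases eq_or_ne k i with rfl | a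
  · exact (vt_spec h).1.ge
  rcases eq_or_ne k j with rfl | b
  · exact (vt_spec h).2.ge
  exact (vt_pos h a b).le

theorem side_subset (i : I g) : side Y i ⊆ Chm Y := by
  exact cvx_Chm _ (Geo1_vt_mem (adj_pred i)) _ (Geo1_vt_mem (adj_succ i))

theorem Geo1_cls (h : Adj i j) (w : W g) : ∃ γ : Gam g,
    w = γ ∨ w = γ * s i ∨ w = γ * s j ∨ w = γ * s j * s i := by
  have : ∀ (κ : Multiplicative (ZMod 2 × ZMod 2)) (a b : ZMod 2), a ≠ b → κ = 1 ∨
      κ * Multiplicative.ofAdd (1 + a, a) = 1 ∨ κ * Multiplicative.ofAdd (1 + b, b) = 1 ∨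
      κ * Multiplicative.ofAdd (1 + a, a) * Multiplicative.ofAdd (1 + b, b) = 1 := by
    decide
  rcases this (cls g w) _ _ h.par_ne with a | a | a | a
  · exact ⟨⟨w, a⟩, Or.inl rfl⟩
  · exact ⟨⟨w * s i, by rw [MonoidHom.mem_ker, map_mul, cls_s, a]⟩, by simp [mul_assoc]⟩
  · exact ⟨⟨w * s j, by rw [MonoidHom.mem_ker, map_mul, cls_s, a]⟩, by simp [mul_assoc]⟩
  · exact ⟨⟨w * s i * s j, by rw [MonoidHom.mem_ker, map_mul, map_mul, cls_s, cls_s, a]⟩,
      by simp [mul_assoc]⟩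

theorem Geo1_nr_s (w : W g) (i : I g) : nr Y (w * s i) i = -nr Y w i := by
  rw [nr, nr, map_mul, mul_smul, Y.ρ_s_e, smul_neg]

theorem Geo1_nr_adj (h : Adj i j) (w : W g) : nr Y (w * s i) j = nr Y w j := by
  rw [nr, nr, map_mul, mul_smul, Y.ρ_s_of h.bf]

/-- Hint: `cover`, `Poly.wall_through`; `cls` of `w⁻¹` is the class of one of `1, s i, s (i+1),
s (i+1) s i`, and `s i` fixes the side. -/
theorem wall_decomp {w : W g} {x : X} (h : bf (nr Y w i) x = 0) :
    ∃ (γ : Gam g) (b : Bool), ∃ y ∈ side Y i, x = Y.σ γ • Y.ρ (uu i b) • y ∧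
      (nr Y w i = nr Y (γ * uu i b) i ∨ nr Y w i = -nr Y (γ * uu i b) i) := by
  obtain ⟨u, hu⟩ := cover (Y := Y) x
  have h1 : Bf (Y.ρ (u * w) • Y.e i) (Y.ρ u • x.1) = 0 := by
    rw [map_mul, mul_smul, Bf_isom]
    exact h
  have h2 := Y.wall_through ⟨x.2.smul _, hu⟩ h1
  have h3 : bf (Y.e i) (Y.ρ u • x) = 0 := by
    rcases h2 with a | a <;> rw [a] at h1
    · exact h1
    · exact neg_eq_zero.1 ((Bf_neg_left _ _).symm.trans h1)
  have h4 : nr Y w i = nr Y u⁻¹ i ∨ nr Y w i = -nr Y u⁻¹ i := by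
    rw [map_mul, mul_smul] at h2
    rw [nr, nr, map_inv, ← smul_neg, eq_inv_smul_iff, eq_inv_smul_iff]
    exact h2
  have h5 : x = Y.ρ u⁻¹ • Y.ρ u • x := by rw [map_inv, inv_smul_smul]
  have h6 : Y.ρ u • x ∈ side Y i := mem_side.2 ⟨h3, hu _, hu _⟩
  generalize Y.ρ u • x = y at h3 h5 h6
  obtain ⟨γ, a | a | a | a⟩ := Geo1_cls (adj_succ i) u⁻¹ <;> rw [a] at h4 h5
  · exact ⟨γ, false, y, h6, by simpa [uu, Y.σ_apply] using h5, by simpa [uu] using h4⟩
  · rw [map_mul, mul_smul, s_smul_of h3] at h5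
    rw [Geo1_nr_s, neg_neg] at h4
    exact ⟨γ, false, y, h6, by simpa [uu, Y.σ_apply] using h5, by simpa [uu] using h4.symm⟩
  · rw [map_mul, mul_smul] at h5
    exact ⟨γ, true, y, h6, h5, h4⟩
  · rw [map_mul, mul_smul, s_smul_of h3, map_mul, mul_smul] at h5
    rw [Geo1_nr_s, neg_neg] at h4
    exact ⟨γ, true, y, h6, h5, h4.symm⟩

theorem walls_diff {w w' : W g} (h : i ≠ j) : nr Y w' j ≠ nr Y w i ∧ nr Y w' j ≠ -nr Y w i := by
  have e : ∀ (w : W g) (i : I g) (P : V),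
      Y.ρ (w * s i * w⁻¹) • P = P - (2 * Bf (nr Y w i) P) • nr Y w i := fun w i P => by
    rw [nr, map_mul, map_mul, map_inv, mul_smul, mul_smul, Y.ρ_s, smul_sub, smul_inv_smul,
      isom_smul, Bf_move]
  have key : w' * s j * w'⁻¹ ≠ w * s i * w⁻¹ := fun a =>
    h (eq_of_conj_s (w := w'⁻¹ * w) (by
      rw [show w'⁻¹ * w * s i * (w'⁻¹ * w)⁻¹ = w'⁻¹ * (w * s i * w⁻¹) * w' by group, ← a]
      group))
  refine ⟨fun a => key (Y.ρ_inj (isom_ext fun P => by rw [e, e, a])),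
    fun a => key (Y.ρ_inj (isom_ext fun P => ?_))⟩
  rw [e, e, a, Bf_neg_left, mul_neg, neg_smul_neg]

/-- Every vertex is in the orbit of a vertex of the chamber under the surface group. -/
theorem vt_decomp (h : Adj i j) (w : W g) : ∃ γ : Gam g, Y.ρ w • vt Y i j = Y.σ γ • vt Y i j ∧
    (nr Y w i = nr Y γ i ∨ nr Y w i = -nr Y γ i) ∧ (nr Y w j = nr Y γ j ∨ nr Y w j = -nr Y γ j) := by
  have a := s_smul_of (vt_spec (Y := Y) h).1
  have b := s_smul_of (vt_spec (Y := Y) h).2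
  obtain ⟨γ, rfl | rfl | rfl | rfl⟩ := Geo1_cls h w
  · exact ⟨γ, rfl, Or.inl rfl, Or.inl rfl⟩
  · exact ⟨γ, by rw [map_mul, mul_smul, a, Y.σ_apply], Or.inr (Geo1_nr_s _ _),
      Or.inl (Geo1_nr_adj h _)⟩
  · exact ⟨γ, by rw [map_mul, mul_smul, b, Y.σ_apply], Or.inl (Geo1_nr_adj h.symm _),
      Or.inr (Geo1_nr_s _ _)⟩
  · exact ⟨γ, by rw [map_mul, mul_smul, a, map_mul, mul_smul, b, Y.σ_apply],
      Or.inr (by rw [Geo1_nr_s, Geo1_nr_adj h.symm]), Or.inr (by rw [Geo1_nr_adj h, Geo1_nr_s])⟩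

end Pool.Agent.MP_4a6971_al.H83

/-!
Geometry of the tiling: vertices, sides, thin rectangles and corner boxes.
-/

namespace Pool.Agent.MP_4a6971_al.H83

open Set Topology H66

variable {g : ℕ} {Y : Poly g} {η : ℝ} {i j : I g}

theorem Geo2_nr_mul (v w : W g) (i : I g) : nr Y (v * w) i = Y.ρ v • nr Y w i := by
  rw [nr, nr, map_mul, mul_smul]

theorem Geo2_refl (w : W g) (i : I g) (P : V) :
    ch P (Y.ρ (w * s i * w⁻¹) • P) = ch P P + 2 * Bf (nr Y w i) P ^ 2 := by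
  rw [map_mul, map_mul, map_inv, mul_smul, mul_smul, Y.ρ_s, smul_sub, smul_inv_smul, isom_smul,
    ← Bf_move, nr, ch, ch, Bf_sub_right, Bf_smul_right, Bf_comm P (_ • Y.e i)]
  ring

theorem Geo2_refl' (w : W g) (i : I g) (x : X) :
    cd x (Y.ρ (w * s i * w⁻¹) • x) = 1 + 2 * bf (nr Y w i) x ^ 2 := by
  rw [← cd_self x]
  exact Geo2_refl w i x.1

theorem Geo2_ss (i : I g) {A : Type*} [MulAction Isom A] (x : A) :
    Y.ρ (s i) • Y.ρ (s i) • x = x := by
  rw [← mul_smul, ← map_mul, s_mul_s, map_one, one_smul]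

theorem exists_thin (Y : Poly g) : ∃ η, Thin Y η := by
  obtain ⟨R, hR⟩ := Y.bdd
  have hne : (Chm Y).Nonempty := ⟨oX, interior_subset oX_mem⟩
  have h1 : ∀ᶠ η in 𝓝[>] (0 : ℝ), ∀ t ∈ {w | ch o (Y.ρ w • o) ≤ 1 + 2 * (3 * R) ^ 2},
      (∀ x ∈ Chm Y, 1 < cd x (Y.ρ t • x)) → ∀ x ∈ Chm Y, 1 + 2 * η < cd x (Y.ρ t • x) := by
    rw [Filter.eventually_all_finite (Y.proper_o _)]
    intro t _
    have hc : Continuous fun x : X => cd x (Y.ρ t • x) :=
      Continuous.cd' continuous_id (continuous_const_smul _)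
    obtain ⟨q, q1, q2⟩ := isCompact_Chm.exists_isMinOn hne hc.continuousOn
    by_cases q3 : 1 < cd q (Y.ρ t • q)
    · filter_upwards [Ioo_mem_nhdsGT (half_pos (sub_pos.2 q3))] with η hη _ x hx
      have : cd q (Y.ρ t • q) ≤ cd x (Y.ρ t • x) := q2 hx
      linarith [hη.2]
    · exact Filter.Eventually.of_forall fun η h => absurd (h q q1) q3
  have h2 : ∀ᶠ η in 𝓝[>] (0 : ℝ), ∀ i j : I g, i ≠ j → ¬Adj i j → ∀ x ∈ Chm Y,
      2 * η < bf (Y.e i) x + bf (Y.e j) x := by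
    refine Filter.eventually_all.2 fun i => Filter.eventually_all.2 fun j =>
      Filter.eventually_all.2 fun hij => Filter.eventually_all.2 fun ha => ?_
    have hc : Continuous fun x : X => bf (Y.e i) x + bf (Y.e j) x := by fun_prop
    obtain ⟨q, -, q2⟩ := isCompact_Chm.exists_isMinOn hne hc.continuousOn
    have q3 : 0 < bf (Y.e i) q + bf (Y.e j) q :=
      Y.add_pos hij.symm (fun e => ha (Or.inl e)) (fun e => ha (Or.inr e)) q.2.fut
    filter_upwards [Ioo_mem_nhdsGT (half_pos q3)] with η hη x hx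
    have : bf (Y.e i) q + bf (Y.e j) q ≤ bf (Y.e i) x + bf (Y.e j) x := q2 hx
    linarith [hη.2]
  obtain ⟨η, ⟨a1, a2⟩, a3⟩ := ((h1.and h2).and (Ioc_mem_nhdsGT one_pos)).exists
  refine ⟨η, a3.1, fun x hx w i h => ?_, fun x hx i j hij ha => ?_⟩
  · have b1 : |Bf (nr Y w i) o| ≤ 3 * R := by
      refine (abs_Bf_le (nr_unit w i) H2_o x.2).trans ?_
      have c1 := hR x.1 x.2 hx
      have c2 := one_le_ch H2_o x.2
      have c3 : |Bf (nr Y w i) x.1| ≤ 1 := h.trans a3.2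
      rw [ch_comm]
      nlinarith
    have b2 : ch o (Y.ρ (w * s i * w⁻¹) • o) ≤ 1 + 2 * (3 * R) ^ 2 := by
      rw [Geo2_refl, show ch o o = 1 from cd_self oX, ← sq_abs]
      gcongr
    by_contra hc
    have b3 := a1 _ b2 (fun y hy => by
      rw [Geo2_refl']
      have : bf (nr Y w i) y ≠ 0 := fun e => hc (Y.wall_through ⟨y.2, hy⟩ e)
      linarith [sq_pos_of_ne_zero this]) x hx
    rw [Geo2_refl', ← sq_abs] at b3
    nlinarith [abs_nonneg (bf (nr Y w i) x), a3.1, a3.2]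
  · by_contra! hc
    linarith [a2 i j hij ha x hx, hc.1, hc.2]

theorem Thin.mono (h : Thin Y η) {η' : ℝ} (h0 : 0 < η') (h1 : η' ≤ η) : Thin Y η' :=
  ⟨h0, fun x hx w i a => h.near x hx w i (a.trans h1),
    fun x hx i j a b => (h.two x hx i j a b).imp h1.trans_lt h1.trans_lt⟩

theorem Geo2_two (h : Thin Y η) {x : X} (hx : x ∈ Chm Y) (h1 : |bf (Y.e i) x| ≤ η)
    (h2 : |bf (Y.e j) x| ≤ η) : j = i ∨ Adj i j := by
  by_contra! hc
  rcases h.two x hx i j hc.1.symm hc.2 with a | a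
  · exact absurd ((le_abs_self _).trans h1) (not_le.2 a)
  · exact absurd ((le_abs_self _).trans h2) (not_le.2 a)

theorem Geo2_abs {N E : V} (h : N = E ∨ N = -E) (x : X) : |bf N x| = |bf E x| := by
  rcases h with rfl | rfl
  · rfl
  · rw [bf_neg, abs_neg]

theorem Thin.same (h : Thin Y η) {w w' : W g} (hp : par i = par j) {x : X}
    (h1 : |bf (nr Y w i) x| ≤ η) (h2 : |bf (nr Y w' j) x| ≤ η) :
    i = j ∧ (nr Y w' j = nr Y w i ∨ nr Y w' j = -nr Y w i) := by
  obtain ⟨v, hv⟩ := cover (Y := Y) x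
  rw [← bf_smul (Y.ρ v), ← Geo2_nr_mul] at h1 h2
  have a1 := h.near _ hv _ _ h1
  have a2 := h.near _ hv _ _ h2
  rw [Geo2_abs a1] at h1
  rw [Geo2_abs a2] at h2
  obtain rfl : j = i := (Geo2_two h hv h1 h2).resolve_right fun a => a.par_ne hp
  refine ⟨rfl, ?_⟩
  rw [Geo2_nr_mul] at a1 a2
  rw [← smul_left_cancel_iff (Y.ρ v), ← smul_left_cancel_iff (Y.ρ v) (x := nr Y w' j), smul_neg]
  rcases a1 with a1 | a1 <;> rcases a2 with a2 | a2 <;> simp [a1, a2]

theorem s_mem_Rc {x : X} : Y.ρ (s i) • x ∈ Rc Y i η ↔ x ∈ Rc Y i η := by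
  simp only [Rc, Reg, mem_ofPred_eq, bf_s, Y.unit, (adj_pred i).symm.bf, (adj_succ i).symm.bf,
    mul_zero, sub_zero]
  rw [show bf (Y.e i) x - 2 * bf (Y.e i) x * 1 = -bf (Y.e i) x by ring, abs_neg]

theorem Geo2_rect (h : Thin Y η) {x : X} (hx : x ∈ Rc Y i η) (h0 : 0 ≤ bf (Y.e i) x) :
    x ∈ Chm Y := by
  by_contra hc
  have hv : vt Y i (i + 1) ∈ Chm Y := side_subset i (right_mem_seg _ _)
  have hv0 := (vt_spec (Y := Y) (adj_succ i)).1
  have hk : ∀ k, bf (Y.e k) x < 0 → k ≠ i ∧ ¬Adj i k := fun k a =>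
    ⟨by rintro rfl; exact absurd h0 (not_le.2 a), fun b => by
      rcases b.eq with rfl | rfl
      · exact absurd hx.2.2 (not_le.2 a)
      · exact absurd hx.2.1 (not_le.2 a)⟩
  generalize vt Y i (i + 1) = v at hv hv0
  obtain ⟨k, k1, k2⟩ := exists_min_image {k | bf (Y.e k) x < 0}
    (fun k => bf (Y.e k) v / (bf (Y.e k) v - bf (Y.e k) x)) (toFinite _)
    (by simpa [Chm, Set.Nonempty] using hc)
  replace k1 : bf (Y.e k) x < 0 := k1
  have d : 0 < bf (Y.e k) v - bf (Y.e k) x := by linarith [hv k]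
  have t0 : 0 ≤ bf (Y.e k) v / (bf (Y.e k) v - bf (Y.e k) x) := div_nonneg (hv k) d.le
  have t1 : bf (Y.e k) v / (bf (Y.e k) v - bf (Y.e k) x) ≤ 1 := (div_le_one d).2 (by linarith)
  have t2 := div_mul_cancel₀ (bf (Y.e k) v) d.ne'
  generalize bf (Y.e k) v / (bf (Y.e k) v - bf (Y.e k) x) = t at *
  obtain ⟨r, r0, r1, hr⟩ := bf_gp v x ⟨t0, t1⟩
  have hy : gp v x t ∈ Chm Y := fun l => by
    rw [hr]
    refine mul_nonneg r0.le ?_
    have l0 := hv l
    by_cases a : bf (Y.e l) x < 0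
    · have := (le_div_iff₀ (by linarith)).1 (k2 l a)
      linarith
    · exact add_nonneg (mul_nonneg (by linarith) l0) (mul_nonneg t0 (not_lt.1 a))
  have := h.pos
  rcases h.two _ hy i k (hk k k1).1.symm (hk k k1).2 with a | a <;> rw [hr] at a
  · have b := (le_abs_self _).trans hx.1
    rw [hv0, mul_zero, zero_add] at a
    have c : r * t ≤ 1 := mul_le_one₀ r1 t0 t1
    nlinarith
  · rw [show (1 - t) * bf (Y.e k) v + t * bf (Y.e k) x = 0 by linarith, mul_zero] at a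
    linarith

theorem Thin.rect (h : Thin Y η) {x : X} (hx : x ∈ Rc Y i η) :
    x ∈ Chm Y ∨ Y.ρ (s i) • x ∈ Chm Y := by
  rcases le_total 0 (bf (Y.e i) x) with a | a
  · exact Or.inl (Geo2_rect h hx a)
  · refine Or.inr (Geo2_rect h (s_mem_Rc.2 hx) ?_)
    rw [bf_s, Y.unit]
    linarith

theorem Thin.isCompact_Rc (h : Thin Y η) (i : I g) : IsCompact (Rc Y i η) :=
  (isCompact_Chm.union (isCompact_Chm.image (continuous_const_smul (Y.ρ (s i))))).of_isClosed_subset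
    (isClosed_Reg _ _ _ _) fun x hx => (h.rect hx).imp id fun a => ⟨_, a, Geo2_ss i x⟩

theorem interior_Rc (i : I g) (η : ℝ) : interior (Rc Y i η) =
    {x | |bf (Y.e i) x| < η ∧ 0 < bf (Y.e (i - 1)) x ∧ 0 < bf (Y.e (i + 1)) x} := by
  have : ∀ k, Y.e k ≠ 0 := fun k e => by
    have := Y.unit k
    rw [e] at this
    simp [Bf] at this
  exact interior_Reg (Y.unit i) (this _) (this _) η

theorem Thin.rect_near (h : Thin Y η) {x : X} (hx : x ∈ Rc Y i η) {w : W g}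
    (h1 : |bf (nr Y w j) x| ≤ η) :
    (j = i ∨ Adj i j) ∧ (nr Y w j = Y.e j ∨ nr Y w j = -Y.e j) := by
  rcases h.rect hx with a | a
  · have b := h.near _ a _ _ h1
    exact ⟨Geo2_two h a hx.1 (Geo2_abs b x ▸ h1), b⟩
  · rw [← bf_smul (Y.ρ (s i)), ← Geo2_nr_mul] at h1
    have b := h.near _ a _ _ h1
    have c := Geo2_two h a (s_mem_Rc.2 hx).1 (Geo2_abs b _ ▸ h1)
    refine ⟨c, ?_⟩
    rw [← Geo2_ss (Y := Y) i (nr Y w j), ← Geo2_nr_mul]
    rcases c with rfl | c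
    · rcases b with b | b <;> simp [b, Y.ρ_s_e]
    · rcases b with b | b <;> simp [b, Y.ρ_s_of c.bf]

theorem Thin.rect_disj (h : Thin Y η) (hp : par i = par j) {x : X} {w : W g}
    (h1 : x ∈ interior (Rc Y i η)) (h2 : Y.ρ w • x ∈ Rc Y j η) : i = j ∧ (w = 1 ∨ w = s i) := by
  have key : ∀ {x : X} {w : W g}, x ∈ interior (Rc Y i η) → Y.ρ w • x ∈ Rc Y j η → x ∈ Chm Y →
      Y.ρ w • x ∈ Chm Y → i = j ∧ (w = 1 ∨ w = s i) := by
    intro x w h1 h2 c1 c2
    obtain ⟨e, hw⟩ := chm_fix c1 c2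
    rw [e] at h2
    rw [interior_Rc] at h1
    refine ⟨((Geo2_two h c1 h1.1.le h2.1).resolve_right fun a => a.par_ne hp).symm, ?_⟩
    clear e c2
    induction hw using Subgroup.closure_induction with
    | mem v hv =>
      obtain ⟨k, hk, rfl⟩ := hv
      rcases Geo2_two (j := k) h c1 h1.1.le (by rw [hk, abs_zero]; exact h.pos.le) with a | a
      · exact Or.inr (by rw [a])
      · rcases a.eq with rfl | rfl
        · exact absurd hk h1.2.2.ne'
        · exact absurd hk h1.2.1.ne'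
    | one => exact Or.inl rfl
    | mul u v _ _ a b => rcases a with rfl | rfl <;> rcases b with rfl | rfl <;> simp
    | inv u _ a => rcases a with rfl | rfl <;> simp
  have key2 : ∀ {x : X} {w : W g}, x ∈ interior (Rc Y i η) → Y.ρ w • x ∈ Rc Y j η → x ∈ Chm Y →
      i = j ∧ (w = 1 ∨ w = s i) := by
    intro x w h1 h2 c1
    rcases h.rect h2 with c2 | c2
    · exact key h1 h2 c1 c2
    · have h3 := s_mem_Rc.2 h2
      rw [← mul_smul, ← map_mul] at c2 h3
      obtain ⟨rfl, a⟩ := key h1 h3 c1 c2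
      refine ⟨rfl, ?_⟩
      rw [← s_s i w]
      rcases a with a | a <;> simp [a]
  rcases h.rect (interior_subset h1) with c1 | c1
  · exact key2 h1 h2 c1
  · have h3 : Y.ρ (s i) • x ∈ interior (Rc Y i η) := by
      rw [interior_Rc] at h1 ⊢
      simp only [mem_ofPred_eq, bf_s, Y.unit, (adj_pred i).symm.bf, (adj_succ i).symm.bf,
        mul_zero, sub_zero]
      rwa [show bf (Y.e i) x - 2 * bf (Y.e i) x * 1 = -bf (Y.e i) x by ring, abs_neg]
    obtain ⟨e, a⟩ := key2 (w := w * s i) h3 (by rwa [map_mul, mul_smul, Geo2_ss]) c1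
    refine ⟨e, ?_⟩
    rw [← mul_one w, ← s_mul_s i, ← mul_assoc]
    rcases a with a | a <;> simp [a]

theorem Thin.rect_disj' (h : Thin Y η) (hp : par i = par j) {x : X} {γ : Gam g} {b b' : Bool}
    (h1 : (Y.ρ (uu i b))⁻¹ • x ∈ interior (Rc Y i η))
    (h2 : (Y.ρ (uu j b'))⁻¹ • Y.σ γ • x ∈ Rc Y j η) : γ = 1 ∧ i = j ∧ b = b' := by
  obtain ⟨rfl, a⟩ := h.rect_disj (w := (uu j b')⁻¹ * γ * uu i b) hp h1 (by
    rwa [map_mul, map_mul, map_inv, mul_smul, mul_smul, smul_inv_smul])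
  have c : cls g ((uu i b')⁻¹ * γ * uu i b) = (cls g (uu i b'))⁻¹ * cls g (uu i b) := by
    rw [map_mul, map_mul, map_inv, show cls g γ = 1 from γ.2, mul_one]
  rcases a with a | a
  · obtain rfl : b = b' := by
      rw [a, map_one] at c
      revert c
      cases b <;> cases b' <;> simp only [uu, cls_s, par_succ, if_true, map_one, reduceCtorEq,
        if_false] <;> generalize par i = z <;> revert z <;> decide
    exact ⟨Subtype.ext (by simpa [mul_assoc, inv_mul_eq_one] using a), rfl, rfl⟩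
  · exfalso
    rw [a] at c
    revert c
    cases b <;> cases b' <;> simp only [uu, cls_s, par_succ, if_true, map_one, reduceCtorEq,
      if_false] <;> generalize par i = z <;> revert z <;> decide

end Pool.Agent.MP_4a6971_al.H83

/-!
Geometry of the tiling: vertices, sides, thin rectangles and corner boxes.
-/

namespace Pool.Agent.MP_4a6971_al.H83

open Set Topology H66

variable {g : ℕ} {Y : Poly g} {η : ℝ} {i j : I g}

theorem Geo_mul {G : Type*} [Group G] {a b u v : G} (ha : a * a = 1) (hb : b * b = 1)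
    (hab : a * b = b * a) (hu : u = 1 ∨ u = a ∨ u = b ∨ u = a * b)
    (hv : v = 1 ∨ v = a ∨ v = b ∨ v = a * b) :
    u * v = 1 ∨ u * v = a ∨ u * v = b ∨ u * v = a * b := by
  have e1 : a * (a * b) = b := by rw [← mul_assoc, ha, one_mul]
  have e2 : b * (a * b) = a := by rw [hab, ← mul_assoc, hb, one_mul]
  have e3 : a * b * a = b := by rw [hab, mul_assoc, ha, mul_one]
  have e4 : a * b * b = a := by rw [mul_assoc, hb, mul_one]
  have e5 : a * b * (a * b) = 1 := by rw [← mul_assoc, e3, hb]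
  rcases hu with hu | hu | hu | hu <;> rcases hv with hv | hv | hv | hv <;> rw [hu, hv] <;>
    simp only [one_mul, mul_one, ha, hb, e1, e2, e3, e4, e5, ← hab, true_or, or_true]

theorem Geo_tri (hij : Adj i j) {k : I g} : ¬ Adj k i ∨ ¬ Adj k j := by
  by_contra! h
  have a := hij.par_ne
  have b := h.1.par_ne
  have c := h.2.par_ne
  generalize par i = x at *
  generalize par j = y at *
  generalize par k = z at *
  revert x y z
  decide

theorem Geo_ne (hij : Adj i j) : i ≠ j := fun h => hij.par_ne (by rw [h])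

theorem Geo_vt (hij : Adj i j) : vt Y i j ∈ Chm Y := fun k => by
  by_cases a : k = i
  · rw [a, (vt_spec hij).1]
  by_cases b : k = j
  · rw [b, (vt_spec hij).2]
  exact (vt_pos hij a b).le

theorem Geo_far (h : Thin Y η) (hij : Adj i j) {x : X} (hx : x ∈ Chm Y) (h1 : bf (Y.e i) x ≤ η)
    (h2 : bf (Y.e j) x ≤ η) {k : I g} (a : k ≠ i) (b : k ≠ j) : η < bf (Y.e k) x := by
  rcases Geo_tri (k := k) hij with c | c
  · exact (h.two x hx k i a c).resolve_right h1.not_gt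
  · exact (h.two x hx k j b c).resolve_right h2.not_gt

theorem Geo_quad (h : Thin Y η) (hij : Adj i j) {x : X} (a0 : 0 ≤ bf (Y.e i) x)
    (a1 : bf (Y.e i) x ≤ η) (b0 : 0 ≤ bf (Y.e j) x) (b1 : bf (Y.e j) x ≤ η) : x ∈ Chm Y := by
  have hη := h.pos
  have hs : ∀ y ∈ seg (vt Y i j) x, (0 ≤ bf (Y.e i) y ∧ bf (Y.e i) y ≤ η) ∧
      0 ≤ bf (Y.e j) y ∧ bf (Y.e j) y ≤ η := fun y hy => by
    obtain ⟨p, q, p0, q0, pq, -, e, -⟩ := seg_coef hy
    rw [e, e, (vt_spec hij).1, (vt_spec hij).2]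
    refine ⟨⟨by positivity, by nlinarith⟩, by positivity, by nlinarith⟩
  have hc : ∀ y ∈ seg (vt Y i j) x, (∀ k, k ≠ i → k ≠ j → 0 ≤ bf (Y.e k) y) → y ∈ Chm Y :=
    fun y hy c k => by
      by_cases a : k = i
      · rw [a]; exact (hs y hy).1.1
      by_cases b : k = j
      · rw [b]; exact (hs y hy).2.1
      exact c k a b
  have hU : IsOpen {y : X | ∀ k, k ≠ i → k ≠ j → 0 < bf (Y.e k) y} := by
    simp only [ofPred_forall]
    exact isOpen_iInter_of_finite fun k => isOpen_iInter_of_finite fun _ =>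
      isOpen_iInter_of_finite fun _ => isOpen_lt continuous_const (continuous_bf _)
  have hC : IsClosed {y : X | ∀ k, k ≠ i → k ≠ j → 0 ≤ bf (Y.e k) y} := by
    simp only [ofPred_forall]
    exact isClosed_iInter fun k => isClosed_iInter fun _ =>
      isClosed_iInter fun _ => isClosed_le continuous_const (continuous_bf _)
  have := (cvx_seg (vt Y i j) x).isPreconnected.subset_left_of_subset_union hU hC.isOpen_compl
    (disjoint_left.2 fun y c d => d fun k a b => (c k a b).le)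
    (fun y hy => by
      by_cases c : ∀ k, k ≠ i → k ≠ j → 0 ≤ bf (Y.e k) y
      · exact Or.inl fun k a b =>
          hη.trans (Geo_far h hij (hc y hy c) (hs y hy).1.2 (hs y hy).2.2 a b)
      · exact Or.inr c)
    ⟨_, left_mem_seg _ _, fun k a b => vt_pos hij a b⟩
  exact hc x (right_mem_seg _ _) fun k a b => (this (right_mem_seg _ _) k a b).le

theorem Geo_s1 (i : I g) (x : X) : bf (Y.e i) (Y.ρ (s i) • x) = -bf (Y.e i) x := by
  rw [bf_s, Y.unit]; ring

theorem Geo_s2 (hij : Adj i j) (x : X) : bf (Y.e i) (Y.ρ (s j) • x) = bf (Y.e i) x := by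
  rw [bf_s, hij.bf]; ring

theorem Thin.corner (h : Thin Y η) (hij : Adj i j) {x : X} (hx : x ∈ Cb Y i j η) :
    ∃ u, (u = 1 ∨ u = s i ∨ u = s j ∨ u = s i * s j) ∧ Y.ρ u • x ∈ Chm Y := by
  obtain ⟨a, b⟩ := hx
  rw [abs_le] at a b
  rcases le_total 0 (bf (Y.e i) x) with c | c <;> rcases le_total 0 (bf (Y.e j) x) with d | d
  · exact ⟨1, Or.inl rfl, by rw [map_one, one_smul]; exact Geo_quad h hij c a.2 d b.2⟩
  · refine ⟨s j, by simp, Geo_quad h hij ?_ ?_ ?_ ?_⟩ <;>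
      simp only [Geo_s1, Geo_s2 hij] <;> linarith
  · refine ⟨s i, by simp, Geo_quad h hij ?_ ?_ ?_ ?_⟩ <;>
      simp only [Geo_s1, Geo_s2 hij.symm] <;> linarith
  · refine ⟨s i * s j, by simp, Geo_quad h hij ?_ ?_ ?_ ?_⟩ <;>
      simp only [map_mul, mul_smul, Geo_s1, Geo_s2 hij, Geo_s2 hij.symm] <;> linarith

theorem Geo_e (hij : Adj i j) {u : W g} (hu : u = 1 ∨ u = s i ∨ u = s j ∨ u = s i * s j) {k : I g}
    (hk : k = i ∨ k = j) : Y.ρ u • Y.e k = Y.e k ∨ Y.ρ u • Y.e k = -Y.e k := by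
  have a := Y.ρ_s_e i
  have b := Y.ρ_s_e j
  have c : Y.ρ (s i) • Y.e j = Y.e j := Y.ρ_s_of hij.bf
  have d : Y.ρ (s j) • Y.e i = Y.e i := Y.ρ_s_of hij.symm.bf
  rcases hu with hu | hu | hu | hu <;> rcases hk with hk | hk <;> rw [hu, hk] <;>
    simp only [map_one, one_smul, map_mul, mul_smul, a, b, c, d, smul_neg, true_or, or_true]

theorem Geo_abs {u : W g} {k : I g} (h : Y.ρ u • Y.e k = Y.e k ∨ Y.ρ u • Y.e k = -Y.e k) (x : X) :
    |bf (Y.e k) (Y.ρ u • x)| = |bf (Y.e k) x| := by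
  rw [← bf_smul (Y.ρ u) (Y.e k) x]
  rcases h with h | h <;> rw [h]
  rw [bf_neg, abs_neg]

theorem Thin.corner_near (h : Thin Y η) (hij : Adj i j) {x : X} (hx : x ∈ Cb Y i j η) {w : W g}
    {k : I g} (h1 : |bf (nr Y w k) x| ≤ η) :
    (k = i ∨ k = j) ∧ (nr Y w k = Y.e k ∨ nr Y w k = -Y.e k) := by
  obtain ⟨u, hu, hc⟩ := h.corner hij hx
  have e : nr Y (u * w) k = Y.ρ u • nr Y w k := by rw [nr, nr, map_mul, mul_smul]
  have h2 : |bf (nr Y (u * w) k) (Y.ρ u • x)| ≤ η := by rwa [e, bf_smul]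
  have h3 := h.near _ hc _ _ h2
  have h4 : |bf (Y.e k) (Y.ρ u • x)| ≤ η := by
    rcases h3 with a | a <;> rw [a] at h2
    · exact h2
    · rwa [bf_neg, abs_neg] at h2
  have hk : k = i ∨ k = j := by
    by_contra! a
    refine ((le_abs_self _).trans h4).not_gt (Geo_far h hij hc ?_ ?_ a.1 a.2)
    · exact (le_abs_self _).trans ((Geo_abs (Geo_e hij hu (Or.inl rfl)) x).trans_le hx.1)
    · exact (le_abs_self _).trans ((Geo_abs (Geo_e hij hu (Or.inr rfl)) x).trans_le hx.2)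
  refine ⟨hk, ?_⟩
  rw [e] at h3
  rcases Geo_e (Y := Y) hij hu hk with a | a <;> rcases h3 with b | b
  · exact Or.inl (smul_left_cancel _ (b.trans a.symm))
  · exact Or.inr (smul_left_cancel (Y.ρ u) (by rw [b, smul_neg, a]))
  · exact Or.inr (smul_left_cancel (Y.ρ u) (by rw [b, smul_neg, a, neg_neg]))
  · exact Or.inl (smul_left_cancel _ (b.trans a.symm))

theorem Geo_move (w : W g) (k : I g) (x : X) : bf (nr Y w⁻¹ k) x = bf (Y.e k) (Y.ρ w • x) := by
  rw [← bf_smul (Y.ρ w), nr, map_inv, smul_inv_smul]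

theorem Thin.corner_disj (h : Thin Y η) (hij : Adj i j) {i' j' : I g} (hij' : Adj i' j') {x : X}
    {w : W g} (h1 : x ∈ Cb Y i j η) (h2 : Y.ρ w • x ∈ Cb Y i' j' η) :
    ((i = i' ∧ j = j') ∨ (i = j' ∧ j = i')) ∧ (w = 1 ∨ w = s i ∨ w = s j ∨ w = s i * s j) := by
  obtain ⟨a1, a2⟩ := h.corner_near hij h1 (w := w⁻¹) (k := i') (by rw [Geo_move]; exact h2.1)
  obtain ⟨b1, b2⟩ := h.corner_near hij h1 (w := w⁻¹) (k := j') (by rw [Geo_move]; exact h2.2)
  have n := Geo_ne hij'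
  have c : (i = i' ∧ j = j') ∨ (i = j' ∧ j = i') := by
    rcases a1 with a | a <;> rcases b1 with b | b
    · exact absurd (a.trans b.symm) n
    · exact Or.inl ⟨a.symm, b.symm⟩
    · exact Or.inr ⟨b.symm, a.symm⟩
    · exact absurd (a.trans b.symm) n
  refine ⟨c, ?_⟩
  have z : ∀ k, (nr Y w⁻¹ k = Y.e k ∨ nr Y w⁻¹ k = -Y.e k) → bf (Y.e k) (vt Y i j) = 0 →
      bf (Y.e k) (Y.ρ w • vt Y i j) = 0 := fun k a b => by
    rw [← Geo_move]
    rcases a with a | a <;> simp [a, b]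
  have v : Y.ρ w • vt Y i j = vt Y i j := by
    rcases c with ⟨rfl, rfl⟩ | ⟨rfl, rfl⟩
    · exact vt_unique hij (z _ a2 (vt_spec hij).1) (z _ b2 (vt_spec hij).2)
    · exact vt_unique hij (z _ b2 (vt_spec hij).1) (z _ a2 (vt_spec hij).2)
  have m := (chm_fix (Geo_vt hij) (by rw [v]; exact Geo_vt hij)).2
  clear v z a2 b2 h2
  induction m using Subgroup.closure_induction_left with
  | one => exact Or.inl rfl
  | mul_left u hu w _ ih =>
    obtain ⟨k, hk, rfl⟩ := hu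
    refine Geo_mul (s_mul_s i) (s_mul_s j) hij.s_comm ?_ ih
    by_cases a : k = i
    · simp [a]
    by_cases b : k = j
    · simp [b]
    exact absurd hk (vt_pos hij a b).ne'
  | inv_mul_cancel u hu w _ ih =>
    obtain ⟨k, hk, rfl⟩ := hu
    refine Geo_mul (s_mul_s i) (s_mul_s j) hij.s_comm ?_ ih
    rw [s_inv]
    by_cases a : k = i
    · simp [a]
    by_cases b : k = j
    · simp [b]
    exact absurd hk (vt_pos hij a b).ne'

theorem gam_eq_one (hij : Adj i j) {γ : Gam g}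
    (h : (γ : W g) = 1 ∨ (γ : W g) = s i ∨ (γ : W g) = s j ∨ (γ : W g) = s i * s j) : γ = 1 := by
  have e : cls g γ = 1 := γ.2
  have n := hij.par_ne
  have k : ∀ a : ZMod 2, Multiplicative.ofAdd (1 + a, a) ≠ 1 := by decide
  have k2 : ∀ a b : ZMod 2, a ≠ b →
      Multiplicative.ofAdd (1 + a, a) * Multiplicative.ofAdd (1 + b, b) ≠ 1 := by decide
  rcases h with h | h | h | h
  · exact Subtype.ext h
  · rw [h, cls_s] at e
    exact absurd e (k _)
  · rw [h, cls_s] at e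
    exact absurd e (k _)
  · rw [h, map_mul, cls_s, cls_s] at e
    exact absurd e (k2 _ _ n)

theorem Geo_frame (hij : Adj i j) (x : X) :
    cd (vt Y i j) x ^ 2 = 1 + bf (Y.e i) x ^ 2 + bf (Y.e j) x ^ 2 := by
  have := cd_frame (Y.unit i) (Y.unit j) hij.bf (vt_spec hij).1 (vt_spec hij).2 x x
  rw [cd_self] at this
  linarith

theorem isCompact_Cb (hij : Adj i j) (η : ℝ) : IsCompact (Cb Y i j η) := by
  refine (isCompact_Dsc (vt Y i j) (1 + η ^ 2 + η ^ 2)).of_isClosed_subset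
    ((isClosed_le (continuous_bf _).abs continuous_const).inter
      (isClosed_le (continuous_bf _).abs continuous_const)) fun x hx => ?_
  have a := Geo_frame (Y := Y) hij x
  have b := one_le_cd (vt Y i j) x
  have c := sq_le_sq' (abs_le.1 hx.1).1 (abs_le.1 hx.1).2
  have d := sq_le_sq' (abs_le.1 hx.2).1 (abs_le.1 hx.2).2
  change cd _ _ ≤ _
  nlinarith

theorem Dsc_subset_Cb (hij : Adj i j) (h : 0 ≤ η) : Dsc (vt Y i j) √(1 + η ^ 2) ⊆ Cb Y i j η := by
  intro x hx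
  have a := Geo_frame (Y := Y) hij x
  have b := one_le_cd (vt Y i j) x
  have c : cd (vt Y i j) x ^ 2 ≤ 1 + η ^ 2 :=
    (Real.le_sqrt (by linarith) (by positivity)).1 hx
  exact ⟨abs_le_of_sq_le_sq' (by nlinarith [sq_nonneg (bf (Y.e j) x)]) h |> abs_le.2,
    abs_le_of_sq_le_sq' (by nlinarith [sq_nonneg (bf (Y.e i) x)]) h |> abs_le.2⟩

/-- Hint: `Poly.systole`, `cd_near`, `Poly.cocompact`, compactness of a large disc. -/
theorem exists_discs (Y : Poly g) : ∃ (R' R : ℝ) (C : Finset X), R' < R ∧ 1 < R ∧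
    (∀ (c : X) (γ : Gam g) x, x ∈ Dsc c R → Y.σ γ • x ∈ Dsc c R → γ = 1) ∧
    ∀ x, ∃ γ : Gam g, ∃ c ∈ C, Y.σ γ • x ∈ Dsc c R' := by
  obtain ⟨ε, ε0, hε⟩ := Y.systole
  obtain ⟨δ, δ0, hδ⟩ := cd_near (by linarith : 1 + ε / 2 < 1 + ε)
  obtain ⟨M, hM⟩ := Y.cocompact
  have m0 : 0 < min δ (ε / 2) := lt_min δ0 (by linarith)
  obtain ⟨C, hC⟩ := (isCompact_Dsc oX M).elim_finite_subcover
    (fun c : X => {x | cd c x < 1 + min δ (ε / 2) / 2})
    (fun c => isOpen_lt (by fun_prop) continuous_const)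
    fun x _ => mem_iUnion.2 ⟨x, by
      change cd x x < _
      rw [cd_self]
      linarith⟩
  refine ⟨1 + min δ (ε / 2) / 2, 1 + min δ (ε / 2), C, by linarith, by linarith,
    fun c γ x a b => ?_, fun x => ?_⟩
  · by_contra n
    have p := hε γ γ.2 (fun e => n (Subtype.ext e)) x.1 x.2
    have a' : cd c x ≤ _ := a
    have b' : cd c (Y.σ γ • x) ≤ _ := b
    have q := hδ x c (Y.σ γ • x) (by rw [cd_comm]; linarith [min_le_right δ (ε / 2)])
      (by linarith [min_le_left δ (ε / 2)])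
    exact q.not_ge p
  · obtain ⟨γ, hγ⟩ := hM x.1 x.2
    have a : Y.σ γ⁻¹ • x ∈ Dsc oX M := by
      change cd _ _ ≤ _
      rw [← cd_smul (Y.σ γ), map_inv, smul_inv_smul, cd_comm]
      exact hγ.le
    obtain ⟨c, hc, b⟩ := mem_iUnion₂.1 (hC a)
    exact ⟨γ⁻¹, c, hc, show cd _ _ ≤ _ from le_of_lt b⟩

end Pool.Agent.MP_4a6971_al.H83
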