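import Pool.Agent.MP_4a6971_al.H83.Stmt
import Pool.Agent.MP_4a6971_al.H66.Cox

/-!
The hyperelliptic curve is made of four copies of a polygon with `2g+2` sides.
-/

namespace Pool.Agent.MP_4a6971_al.H83

open Set Topology Metric H66 Mcg

/-- The colour of a side. -/
def colr {g : ℕ} (i : I g) : Multiplicative (ZMod 2 × ZMod 2) := cls g (s i)

/-- A cyclic chain of arcs. -/
structure Cyc {g : ℕ} {Z : Type} [TopologicalSpace Z] (α : I g → ℝ → Z) : Prop where
  cont : ∀ i, ContinuousOn (α i) (Icc 0 1)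
  next : ∀ i, α i 1 = α (i + 1) 0
  fib : ∀ i j, ∀ t ∈ Icc (0 : ℝ) 1, ∀ t' ∈ Icc (0 : ℝ) 1, α i t = α j t' →
    (i = j ∧ t = t') ∨ (j = i + 1 ∧ t = 1 ∧ t' = 0) ∨ (i = j + 1 ∧ t = 0 ∧ t' = 1)

instance (g : ℕ) : CompactSpace (Surface g) := inferInstanceAs (CompactSpace (OnePoint _))

/-- Hint: the affine curve is closed in `ℂ × ℂ`, so locally compact. -/
instance (g : ℕ) : T2Space (Surface g) := by
  have hc : IsClosed {p : ℂ × ℂ | p.2 ^ 2 = ∏ k ∈ Finset.range (2 * g + 1), (p.1 - k)} :=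
    isClosed_eq (by fun_prop) (by fun_prop)
  have : LocallyCompactSpace
      {p : ℂ × ℂ // p.2 ^ 2 = ∏ k ∈ Finset.range (2 * g + 1), (p.1 - k)} :=
    hc.locallyCompactSpace
  exact inferInstanceAs (T2Space (OnePoint _))

/-- The affine curve. -/
abbrev Hyper_C (g : ℕ) : Type :=
  {p : ℂ × ℂ // p.2 ^ 2 = ∏ k ∈ Finset.range (2 * g + 1), (p.1 - k)}

theorem Hyper_z2 (e : ZMod 2) : e = 0 ∨ e = 1 := by
  revert e
  decide

/-- Conjugation, or the identity. -/
noncomputable def Hyper_cj (e : ZMod 2) (x : ℂ) : ℂ := if e = 0 then x else (starRingEnd ℂ) x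

/-- A sign. -/
noncomputable def Hyper_sg (e : ZMod 2) : ℂ := if e = 0 then 1 else -1

theorem Hyper_cj0 (x : ℂ) : Hyper_cj 0 x = x := if_pos rfl

theorem Hyper_cj1 (x : ℂ) : Hyper_cj 1 x = (starRingEnd ℂ) x := if_neg one_ne_zero

theorem Hyper_sg0 : Hyper_sg 0 = 1 := if_pos rfl

theorem Hyper_sg1 : Hyper_sg 1 = -1 := if_neg one_ne_zero

theorem Hyper_11 : (1 + 1 : ZMod 2) = 0 := by decide

theorem Hyper_cj_cont (e : ZMod 2) : Continuous (Hyper_cj e) := by
  rcases Hyper_z2 e with rfl | rfl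
  · have : Hyper_cj 0 = id := funext Hyper_cj0
    rw [this]
    exact continuous_id
  · have : Hyper_cj 1 = (starRingEnd ℂ) := funext Hyper_cj1
    rw [this]
    exact Complex.continuous_conj

/-- The symmetries of the affine curve. -/
noncomputable def Hyper_f (g : ℕ) (κ : ZMod 2 × ZMod 2) (p : Hyper_C g) : Hyper_C g :=
  ⟨(Hyper_cj (κ.1 + κ.2) p.1.1, Hyper_sg κ.1 * Hyper_cj (κ.1 + κ.2) p.1.2), by
    have h := p.2
    have h2 : Hyper_sg κ.1 ^ 2 = 1 := by
      rcases Hyper_z2 κ.1 with e | e <;> rw [e] <;> simp [Hyper_sg0, Hyper_sg1]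
    simp only [mul_pow, h2, one_mul]
    rcases Hyper_z2 (κ.1 + κ.2) with e | e <;> rw [e]
    · simpa only [Hyper_cj0] using h
    · simp only [Hyper_cj1]
      rw [← map_pow, h, map_prod]
      simp⟩

theorem Hyper_f_cont (g : ℕ) (κ : ZMod 2 × ZMod 2) : Continuous (Hyper_f g κ) := by
  refine Continuous.subtype_mk (Continuous.prodMk ?_ (continuous_const.mul ?_)) _
  · exact (Hyper_cj_cont _).comp (by fun_prop)
  · exact (Hyper_cj_cont _).comp (by fun_prop)

theorem Hyper_f_add (g : ℕ) (κ μ : ZMod 2 × ZMod 2) (p : Hyper_C g) :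
    Hyper_f g (κ + μ) p = Hyper_f g κ (Hyper_f g μ p) := by
  obtain ⟨a, b⟩ := κ
  obtain ⟨c, d⟩ := μ
  apply Subtype.ext
  rcases Hyper_z2 a with rfl | rfl <;> rcases Hyper_z2 b with rfl | rfl <;>
    rcases Hyper_z2 c with rfl | rfl <;> rcases Hyper_z2 d with rfl | rfl <;>
    simp [Hyper_f, Hyper_11, Hyper_cj0, Hyper_cj1, Hyper_sg0, Hyper_sg1]

theorem Hyper_f_zero (g : ℕ) (p : Hyper_C g) : Hyper_f g 0 p = p := by
  apply Subtype.ext
  simp [Hyper_f, Hyper_cj0, Hyper_sg0]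

theorem Hyper_two (κ : ZMod 2 × ZMod 2) : κ + κ = 0 := by
  revert κ
  decide

/-- The symmetries as homeomorphisms. -/
noncomputable def Hyper_tau (g : ℕ) (κ : ZMod 2 × ZMod 2) : Hyper_C g ≃ₜ Hyper_C g where
  toFun := Hyper_f g κ
  invFun := Hyper_f g κ
  left_inv := fun p => by rw [← Hyper_f_add, Hyper_two, Hyper_f_zero]
  right_inv := fun p => by rw [← Hyper_f_add, Hyper_two, Hyper_f_zero]
  continuous_toFun := Hyper_f_cont g κ
  continuous_invFun := Hyper_f_cont g κ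

/-- The point at infinity. -/
def Hyper_inf (g : ℕ) : Surface g := (OnePoint.infty : OnePoint (Hyper_C g))

/-- A finite point. -/
def Hyper_pt {g : ℕ} (p : Hyper_C g) : Surface g := (OnePoint.some p : OnePoint (Hyper_C g))

theorem Hyper_cases {g : ℕ} (y : Surface g) : y = Hyper_inf g ∨ ∃ p, y = Hyper_pt p := by
  induction y using OnePoint.rec with
  | infty => exact Or.inl rfl
  | coe p => exact Or.inr ⟨p, rfl⟩

theorem Hyper_pt_inj {g : ℕ} {p q : Hyper_C g} (h : Hyper_pt p = Hyper_pt q) : p = q :=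
  OnePoint.coe_injective h

theorem Hyper_pt_ne {g : ℕ} (p : Hyper_C g) : Hyper_pt p ≠ Hyper_inf g := OnePoint.coe_ne_infty p

/-- The symmetries of the closed surface. -/
noncomputable def Hyper_sig0 (g : ℕ) (κ : ZMod 2 × ZMod 2) : Surface g ≃ₜ Surface g :=
  (Hyper_tau g κ).onePointCongr

theorem Hyper_sig0_inf (g : ℕ) (κ : ZMod 2 × ZMod 2) :
    Hyper_sig0 g κ (Hyper_inf g) = Hyper_inf g := rfl

theorem Hyper_sig0_pt (g : ℕ) (κ : ZMod 2 × ZMod 2) (p : Hyper_C g) :
    Hyper_sig0 g κ (Hyper_pt p) = Hyper_pt (Hyper_f g κ p) := rfl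

/-- The action of the four-group. -/
noncomputable def Hyper_sig (g : ℕ) :
    Multiplicative (ZMod 2 × ZMod 2) →* (Surface g ≃ₜ Surface g) :=
  MonoidHom.mk' (fun κ => Hyper_sig0 g κ.toAdd) fun κ μ => by
    ext y
    rw [Homeomorph.mul_apply]
    rcases Hyper_cases y with rfl | ⟨p, rfl⟩
    · rfl
    · rw [Hyper_sig0_pt, Hyper_sig0_pt, Hyper_sig0_pt, toAdd_mul, Hyper_f_add]

theorem Hyper_sig_inf (g : ℕ) (κ : Multiplicative (ZMod 2 × ZMod 2)) :
    Hyper_sig g κ (Hyper_inf g) = Hyper_inf g := rfl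

theorem Hyper_sig_pt (g : ℕ) (κ : Multiplicative (ZMod 2 × ZMod 2)) (p : Hyper_C g) :
    Hyper_sig g κ (Hyper_pt p) = Hyper_pt (Hyper_f g κ.toAdd p) := rfl

/-- A square root that is continuous on the closed upper half plane. -/
noncomputable def Hyper_sq (w : ℂ) : ℂ :=
  Complex.I ^ ((2 : ℂ)⁻¹) * (-Complex.I * w) ^ ((2 : ℂ)⁻¹)

theorem Hyper_sq_sq (w : ℂ) : Hyper_sq w ^ 2 = w := by
  rw [Hyper_sq, mul_pow, Complex.cpow_ofNat_inv_pow, Complex.cpow_ofNat_inv_pow]
  linear_combination (-w) * Complex.I_sq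

theorem Hyper_sq_cont {w : ℂ} (h : 0 ≤ w.im) : ContinuousAt Hyper_sq w := by
  refine continuousAt_const.mul ?_
  have h1 : ContinuousAt (fun z : ℂ => z ^ ((2 : ℂ)⁻¹)) (-Complex.I * w) :=
    Complex.continuousAt_cpow_const_of_re_pos (Or.inl (by simpa using h)) (by norm_num)
  exact ContinuousAt.comp (f := fun w : ℂ => -Complex.I * w) h1 (by fun_prop)

/-- The branch of `y` over the closed upper half plane. -/
noncomputable def Hyper_r (g : ℕ) (x : ℂ) : Hyper_C g :=
  ⟨(x, ∏ k ∈ Finset.range (2 * g + 1), Hyper_sq (x - k)), by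
    simp only [← Finset.prod_pow, Hyper_sq_sq]⟩

theorem Hyper_r_cont (g : ℕ) {x : ℂ} (h : 0 ≤ x.im) : ContinuousAt (Hyper_r g) x := by
  refine (Topology.IsInducing.subtypeVal.continuousAt_iff).2 ?_
  refine ContinuousAt.prodMk continuousAt_id ?_
  refine tendsto_finsetProd _ ?_
  intro k _
  exact ContinuousAt.comp (f := fun x : ℂ => x - k) (Hyper_sq_cont (by simpa using h))
    (by fun_prop)

/-- The Cayley map from the disc to the upper half plane. -/
noncomputable def Hyper_cay (z : ℂ) : ℂ := Complex.I * (1 + z) / (1 - z)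

theorem Hyper_cay_im {z : ℂ} (h1 : z ≠ 1) :
    (Hyper_cay z).im = (1 - ‖z‖ ^ 2) / Complex.normSq (1 - z) := by
  have h : Complex.normSq (1 - z) ≠ 0 := by
    simpa [sub_eq_zero] using h1.symm
  rw [Hyper_cay, Complex.div_im, Complex.sq_norm, Complex.normSq_apply z]
  field_simp
  simp
  ring

theorem Hyper_cay_nonneg {z : ℂ} (hz : z ∈ closedBall (0 : ℂ) 1) (h1 : z ≠ 1) :
    0 ≤ (Hyper_cay z).im := by
  rw [Hyper_cay_im h1]
  have : ‖z‖ ≤ 1 := by simpa using hz
  exact div_nonneg (by nlinarith [norm_nonneg z]) (Complex.normSq_nonneg _)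

theorem Hyper_cay_inj {z w : ℂ} (hz : z ≠ 1) (hw : w ≠ 1) (h : Hyper_cay z = Hyper_cay w) :
    z = w := by
  have a : 1 - z ≠ 0 := sub_ne_zero.2 hz.symm
  have b : 1 - w ≠ 0 := sub_ne_zero.2 hw.symm
  rw [Hyper_cay, Hyper_cay, div_eq_div_iff a b] at h
  have : Complex.I * (2 * (z - w)) = 0 := by linear_combination h
  simpa [sub_eq_zero] using this

theorem Hyper_cay_frac {n d : ℝ} (hd : 0 < d) :
    ((n : ℂ) - Complex.I * d) / (n + Complex.I * d) ≠ 1 ∧
      Hyper_cay (((n : ℂ) - Complex.I * d) / (n + Complex.I * d)) = ((n / d : ℝ) : ℂ) := by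
  have a : (n : ℂ) + Complex.I * d ≠ 0 := fun e => by
    have := congrArg Complex.im e
    simp at this
    exact hd.ne' this
  have hd' : (d : ℂ) ≠ 0 := by exact_mod_cast hd.ne'
  have b : 1 - ((n : ℂ) - Complex.I * d) / (n + Complex.I * d) =
      2 * Complex.I * d / (n + Complex.I * d) := by
    field_simp
    ring
  have c : 1 + ((n : ℂ) - Complex.I * d) / (n + Complex.I * d) =
      2 * n / (n + Complex.I * d) := by
    field_simp
    ring
  refine ⟨fun e => ?_, ?_⟩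
  · rw [e, sub_self] at b
    exact div_ne_zero (mul_ne_zero (mul_ne_zero two_ne_zero Complex.I_ne_zero) hd') a b.symm
  · rw [Hyper_cay, b, c]
    have := Complex.I_ne_zero
    push_cast
    field_simp

theorem Hyper_cay_surj {x : ℂ} (hx : 0 ≤ x.im) :
    ∃ z ∈ closedBall (0 : ℂ) 1, z ≠ 1 ∧ Hyper_cay z = x := by
  have a : x + Complex.I ≠ 0 := fun e => by
    have := congrArg Complex.im e
    simp at this
    linarith
  have b : 1 - (x - Complex.I) / (x + Complex.I) = 2 * Complex.I / (x + Complex.I) := by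
    field_simp
    ring
  have c : 1 + (x - Complex.I) / (x + Complex.I) = 2 * x / (x + Complex.I) := by
    field_simp
    ring
  refine ⟨(x - Complex.I) / (x + Complex.I), ?_, fun e => ?_, ?_⟩
  · rw [mem_closedBall, dist_zero_right, norm_div, div_le_one (norm_pos_iff.2 a),
      ← sq_le_sq₀ (norm_nonneg _) (norm_nonneg _), Complex.sq_norm, Complex.sq_norm,
      Complex.normSq_apply, Complex.normSq_apply]
    simp
    nlinarith
  · rw [e, sub_self] at b
    exact div_ne_zero (mul_ne_zero two_ne_zero Complex.I_ne_zero) a b.symm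
  · rw [Hyper_cay, b, c]
    have := Complex.I_ne_zero
    field_simp

open Classical in
/-- The parametrisation of one polygon by the closed disc. -/
noncomputable def Hyper_Phi (g : ℕ) (z : ℂ) : Surface g :=
  if z = 1 then Hyper_inf g else Hyper_pt (Hyper_r g (Hyper_cay z))

theorem Hyper_Phi_one (g : ℕ) : Hyper_Phi g 1 = Hyper_inf g := if_pos rfl

theorem Hyper_Phi_ne (g : ℕ) {z : ℂ} (h : z ≠ 1) :
    Hyper_Phi g z = Hyper_pt (Hyper_r g (Hyper_cay z)) := if_neg h

theorem Hyper_Phi_cont (g : ℕ) : ContinuousOn (Hyper_Phi g) (closedBall 0 1) := by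
  intro z hz
  by_cases h1 : z = 1
  · subst h1
    rw [ContinuousWithinAt, Hyper_Phi_one]
    refine ((OnePoint.hasBasis_nhds_infty (X := Hyper_C g)).tendsto_right_iff).2 ?_
    rintro K ⟨-, hK⟩
    obtain ⟨R, hR⟩ := (hK.image (f := fun p : Hyper_C g => ‖p.1.1‖) (by fun_prop)).bddAbove
    have hpos : (0 : ℝ) < 1 / (|R| + 1) := by positivity
    refine Filter.Eventually.filter_mono nhdsWithin_le_nhds ?_
    filter_upwards [ball_mem_nhds (1 : ℂ) hpos] with w hw
    by_cases e : w = 1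
    · subst e
      rw [Hyper_Phi_one]
      exact Or.inr rfl
    · rw [Hyper_Phi_ne g e]
      refine Or.inl ⟨Hyper_r g (Hyper_cay w), fun hm => ?_, rfl⟩
      have h2 : ‖Hyper_cay w‖ ≤ R := hR ⟨_, hm, rfl⟩
      have h3 : 0 < ‖1 - w‖ := norm_pos_iff.2 (sub_ne_zero.2 (Ne.symm e))
      rw [mem_ball, dist_comm, dist_eq_norm, lt_div_iff₀ (by positivity)] at hw
      rw [Hyper_cay, norm_div, norm_mul, Complex.norm_I, one_mul, div_le_iff₀ h3] at h2
      have h4 : ‖(1 + w) + (1 - w)‖ ≤ ‖1 + w‖ + ‖1 - w‖ := norm_add_le _ _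
      have h5 : ‖(1 + w) + (1 - w)‖ = 2 := by
        rw [show (1 + w) + (1 - w) = (2 : ℂ) by ring]
        simp
      nlinarith [le_abs_self R, abs_nonneg R]
  · have h2 : ContinuousAt Hyper_cay z := by
      have a : 1 - z ≠ 0 := sub_ne_zero.2 (Ne.symm h1)
      exact ContinuousAt.div (by fun_prop) (by fun_prop) a
    have h3 : ContinuousAt (fun w => Hyper_pt (Hyper_r g (Hyper_cay w))) z :=
      (OnePoint.continuous_coe (X := Hyper_C g)).continuousAt.comp
        (ContinuousAt.comp (Hyper_r_cont g (Hyper_cay_nonneg hz h1)) h2)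
    refine (h3.congr ?_).continuousWithinAt
    filter_upwards [isOpen_ne.mem_nhds h1] with w hw
    exact (Hyper_Phi_ne g hw).symm

theorem Hyper_surj (g : ℕ) (y : Surface g) :
    ∃ κ, ∃ z ∈ closedBall (0 : ℂ) 1, Hyper_sig g κ (Hyper_Phi g z) = y := by
  have key : ∀ p : Hyper_C g, 0 ≤ p.1.1.im →
      ∃ κ, ∃ z ∈ closedBall (0 : ℂ) 1, Hyper_sig g κ (Hyper_Phi g z) = Hyper_pt p := by
    intro p hp
    obtain ⟨z, hz, h1, e⟩ := Hyper_cay_surj hp
    have h2 : (Hyper_r g p.1.1).1.2 ^ 2 = p.1.2 ^ 2 := (Hyper_r g p.1.1).2.trans p.2.symm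
    rcases sq_eq_sq_iff_eq_or_eq_neg.1 h2 with h | h
    · refine ⟨1, z, hz, ?_⟩
      rw [map_one, Hyper_Phi_ne g h1, e]
      exact congrArg Hyper_pt (Subtype.ext (Prod.ext rfl h))
    · refine ⟨Multiplicative.ofAdd (1, 1), z, hz, ?_⟩
      rw [Hyper_Phi_ne g h1, e, Hyper_sig_pt]
      refine congrArg Hyper_pt (Subtype.ext (Prod.ext ?_ ?_))
      · simp [Hyper_f, Hyper_11, Hyper_cj0, Hyper_r]
      · simp [Hyper_f, Hyper_11, Hyper_cj0, Hyper_sg1, h]
  rcases Hyper_cases y with rfl | ⟨p, rfl⟩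
  · exact ⟨1, 1, by simp, by rw [Hyper_Phi_one, Hyper_sig_inf]⟩
  · rcases le_total 0 p.1.1.im with hp | hp
    · exact key p hp
    · obtain ⟨κ, z, hz, e⟩ := key (Hyper_f g (0, 1) p) (by simpa [Hyper_f, Hyper_cj1] using hp)
      refine ⟨Multiplicative.ofAdd (0, 1) * κ, z, hz, ?_⟩
      rw [map_mul, Homeomorph.mul_apply, e, Hyper_sig_pt, toAdd_ofAdd, ← Hyper_f_add, Hyper_two,
        Hyper_f_zero]

/-- The second homogeneous coordinate of the boundary parametrisation. -/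
noncomputable def Hyper_d (g : ℕ) (u : ℝ) : ℝ := min 1 (min u (2 * g + 2 - u))

/-- The boundary parametrisation. -/
noncomputable def Hyper_b (g : ℕ) (u : ℝ) : ℂ :=
  (((u - 1 : ℝ) : ℂ) - Complex.I * Hyper_d g u) / (((u - 1 : ℝ) : ℂ) + Complex.I * Hyper_d g u)

theorem Hyper_d_mid (g : ℕ) {u : ℝ} (h1 : 1 ≤ u) (h2 : u ≤ 2 * g + 1) : Hyper_d g u = 1 :=
  min_eq_left (le_min h1 (by linarith))

theorem Hyper_d_lo (g : ℕ) {u : ℝ} (h1 : u ≤ 1) : Hyper_d g u = u := by
  have : (0 : ℝ) ≤ g := Nat.cast_nonneg g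
  rw [Hyper_d, min_eq_left (show u ≤ 2 * g + 2 - u by linarith), min_eq_right h1]

theorem Hyper_d_hi (g : ℕ) {u : ℝ} (h1 : 2 * g + 1 ≤ u) : Hyper_d g u = 2 * g + 2 - u := by
  have : (0 : ℝ) ≤ g := Nat.cast_nonneg g
  rw [Hyper_d, min_eq_right (show 2 * g + 2 - u ≤ u by linarith),
    min_eq_right (show 2 * g + 2 - u ≤ 1 by linarith)]

theorem Hyper_d_pos (g : ℕ) {u : ℝ} (h1 : 0 < u) (h2 : u < 2 * g + 2) : 0 < Hyper_d g u :=
  lt_min one_pos (lt_min h1 (by linarith))

theorem Hyper_den (g : ℕ) (u : ℝ) : ((u - 1 : ℝ) : ℂ) + Complex.I * Hyper_d g u ≠ 0 := by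
  intro e
  have a := congrArg Complex.re e
  have b := congrArg Complex.im e
  simp at a b
  have : (0 : ℝ) ≤ g := Nat.cast_nonneg g
  rw [Hyper_d_mid g (by linarith) (by linarith)] at b
  exact one_ne_zero b

theorem Hyper_b_cont (g : ℕ) : Continuous (Hyper_b g) := by
  have : Continuous (Hyper_d g) := by
    unfold Hyper_d
    fun_prop
  exact Continuous.div (by fun_prop) (by fun_prop) (Hyper_den g)

theorem Hyper_b_norm (g : ℕ) (u : ℝ) : ‖Hyper_b g u‖ = 1 := by
  rw [Hyper_b, norm_div, div_eq_one_iff_eq (norm_ne_zero_iff.2 (Hyper_den g u)),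
    ← sq_eq_sq₀ (norm_nonneg _) (norm_nonneg _), Complex.sq_norm, Complex.sq_norm,
    Complex.normSq_apply, Complex.normSq_apply]
  simp

theorem Hyper_b_zero (g : ℕ) : Hyper_b g 0 = 1 := by
  rw [Hyper_b, div_eq_one_iff_eq (Hyper_den g 0), Hyper_d_lo g zero_le_one]
  simp

theorem Hyper_b_top (g : ℕ) : Hyper_b g (2 * g + 2) = 1 := by
  rw [Hyper_b, div_eq_one_iff_eq (Hyper_den g _), Hyper_d_hi g (by linarith)]
  simp

theorem Hyper_b_cay (g : ℕ) {u : ℝ} (h1 : 0 < u) (h2 : u < 2 * g + 2) :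
    Hyper_b g u ≠ 1 ∧ Hyper_cay (Hyper_b g u) = (((u - 1) / Hyper_d g u : ℝ) : ℂ) :=
  Hyper_cay_frac (Hyper_d_pos g h1 h2)

theorem Hyper_b_inj (g : ℕ) {u v : ℝ} (hu : u ∈ Icc (0 : ℝ) (2 * g + 2))
    (hv : v ∈ Icc (0 : ℝ) (2 * g + 2)) (h : Hyper_b g u = Hyper_b g v) :
    u = v ∨ (u = 0 ∧ v = 2 * g + 2) ∨ (u = 2 * g + 2 ∧ v = 0) := by
  rw [Hyper_b, Hyper_b, div_eq_div_iff (Hyper_den g u) (Hyper_den g v)] at h
  have h1 := congrArg Complex.im h
  simp at h1
  have h2 : (u - 1) * Hyper_d g v = (v - 1) * Hyper_d g u := by linarith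
  have hg : (0 : ℝ) ≤ g := Nat.cast_nonneg g
  obtain ⟨u0, u1⟩ := hu
  obtain ⟨v0, v1⟩ := hv
  have key : ∀ u v : ℝ, 0 ≤ u → v ≤ 2 * g + 2 → u < v →
      (u - 1) * Hyper_d g v = (v - 1) * Hyper_d g u → u = 0 ∧ v = 2 * g + 2 := by
    intro u v u0 v1 huv h2
    rcases le_total u 1 with a | a
    · rw [Hyper_d_lo g a] at h2
      rcases le_total v 1 with b | b
      · rw [Hyper_d_lo g b] at h2
        nlinarith
      · rcases le_total v (2 * g + 1) with c | c
        · rw [Hyper_d_mid g b c] at h2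
          have e1 : u = 1 := by nlinarith [mul_nonneg (sub_nonneg.2 b) u0]
          rw [e1] at h2 huv
          linarith
        · rw [Hyper_d_hi g c] at h2
          have e1 : (1 - u) * (2 * g + 2 - v) = 0 := by
            nlinarith [mul_nonneg (sub_nonneg.2 b) u0,
              mul_nonneg (sub_nonneg.2 a) (sub_nonneg.2 v1)]
          have e2 : (v - 1) * u = 0 := by linarith
          rcases mul_eq_zero.1 e1 with e | e <;> rcases mul_eq_zero.1 e2 with f | f
          · linarith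
          · linarith
          · linarith
          · exact ⟨f, by linarith⟩
    · exfalso
      rcases le_total u (2 * g + 1) with a' | a'
      · rw [Hyper_d_mid g a a'] at h2
        have : Hyper_d g v ≤ 1 := min_le_left _ _
        nlinarith [mul_le_mul_of_nonneg_left this (sub_nonneg.2 a)]
      · rw [Hyper_d_hi g a', Hyper_d_hi g (by linarith)] at h2
        nlinarith [mul_pos (sub_pos.2 huv) (show (0 : ℝ) < 2 * g + 1 by linarith)]
  rcases lt_trichotomy u v with a | a | a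
  · exact Or.inr (Or.inl (key u v u0 v1 a h2))
  · exact Or.inl a
  · exact Or.inr (Or.inr (key v u v0 u1 a h2.symm).symm)

theorem Hyper_b_real (g : ℕ) (x : ℝ) :
    ∃ u : ℝ, 0 < u ∧ u < 2 * g + 2 ∧ (u - 1) / Hyper_d g u = x := by
  have hg : (0 : ℝ) ≤ g := Nat.cast_nonneg g
  rcases le_total x 0 with a | a
  · have h1 : 0 < 1 - x := by linarith
    have h2 : 1 / (1 - x) ≤ 1 := by
      rw [div_le_one h1]
      linarith
    refine ⟨1 / (1 - x), by positivity, by linarith, ?_⟩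
    rw [Hyper_d_lo g h2]
    field_simp
    ring
  · rcases le_total x (2 * g) with b | b
    · refine ⟨x + 1, by linarith, by linarith, ?_⟩
      rw [Hyper_d_mid g (by linarith) (by linarith)]
      ring
    · have h1 : 0 < 1 + x := by linarith
      have h2 : (2 * g + 1) / (1 + x) ≤ 1 := by
        rw [div_le_one h1]
        linarith
      have h3 : 0 < (2 * g + 1) / (1 + x) := by positivity
      refine ⟨2 * g + 2 - (2 * g + 1) / (1 + x), by linarith, by linarith, ?_⟩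
      rw [Hyper_d_hi g (by linarith), sub_sub_cancel, div_eq_iff h3.ne']
      field_simp
      ring

/-- The sides of the polygon. -/
noncomputable def Hyper_al (g : ℕ) (i : I g) (t : ℝ) : ℂ := Hyper_b g (i.val + t)

theorem Hyper_val_le {g : ℕ} (i : I g) : (i.val : ℝ) ≤ 2 * g + 1 := by
  have : i.val ≤ 2 * g + 1 := Nat.lt_succ_iff.1 (ZMod.val_lt i)
  exact_mod_cast this

theorem Hyper_succ_of {g : ℕ} {i j : I g} (h : j.val = i.val + 1 ∨ (i.val = 2 * g + 1 ∧ j.val = 0)) :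
    j = i + 1 := by
  rw [← ZMod.natCast_zmod_val i, ← ZMod.natCast_zmod_val j]
  rcases h with h | ⟨h, h'⟩
  · rw [h, Nat.cast_succ]
  · rw [h, h', ← Nat.cast_succ, Nat.cast_zero]
    exact (ZMod.natCast_self (2 * g + 2)).symm

theorem Hyper_cyc (g : ℕ) : Cyc (Hyper_al g) where
  cont := fun i => ((Hyper_b_cont g).comp (by fun_prop)).continuousOn
  next := fun i => by
    have hi := ZMod.val_lt i
    rcases Nat.lt_or_ge (i.val + 1) (2 * g + 2) with h | h
    · have e : ((i.val + 1 : ℕ) : I g) = i + 1 :=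
        Hyper_succ_of (Or.inl (ZMod.val_natCast_of_lt h))
      rw [Hyper_al, Hyper_al, ← e, ZMod.val_natCast_of_lt h]
      simp
    · have e0 : i.val = 2 * g + 1 := by omega
      have e : (0 : I g) = i + 1 := Hyper_succ_of (Or.inr ⟨e0, ZMod.val_zero⟩)
      rw [Hyper_al, Hyper_al, ← e, e0, ZMod.val_zero, Nat.cast_zero, add_zero, Hyper_b_zero,
        ← Hyper_b_top g]
      congr 1
      push_cast
      ring
  fib := by
    rintro i j t ⟨t0, t1⟩ t' ⟨s0, s1⟩ h
    have hi := Hyper_val_le i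
    have hj := Hyper_val_le j
    have i0 : (0 : ℝ) ≤ i.val := Nat.cast_nonneg _
    have j0 : (0 : ℝ) ≤ j.val := Nat.cast_nonneg _
    rcases Hyper_b_inj g ⟨by linarith, by linarith⟩ ⟨by linarith, by linarith⟩ h with
      e | ⟨e, e'⟩ | ⟨e, e'⟩
    · rcases lt_trichotomy i.val j.val with a | a | a
      · have a' : (i.val : ℝ) + 1 ≤ j.val := by exact_mod_cast a
        have b : (j.val : ℝ) = i.val + 1 := by linarith
        exact Or.inr (Or.inl ⟨Hyper_succ_of (Or.inl (by exact_mod_cast b)), by linarith,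
          by linarith⟩)
      · have a' : (i.val : ℝ) = j.val := by exact_mod_cast a
        exact Or.inl ⟨ZMod.val_injective _ a, by linarith⟩
      · have a' : (j.val : ℝ) + 1 ≤ i.val := by exact_mod_cast a
        have b : (i.val : ℝ) = j.val + 1 := by linarith
        exact Or.inr (Or.inr ⟨Hyper_succ_of (Or.inl (by exact_mod_cast b)), by linarith,
          by linarith⟩)
    · have a : (j.val : ℝ) = 2 * g + 1 := by linarith
      have b : (i.val : ℝ) = 0 := by linarith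
      exact Or.inr (Or.inr ⟨Hyper_succ_of (Or.inr ⟨by exact_mod_cast a, by exact_mod_cast b⟩),
        by linarith, by linarith⟩)
    · have a : (i.val : ℝ) = 2 * g + 1 := by linarith
      have b : (j.val : ℝ) = 0 := by linarith
      exact Or.inr (Or.inl ⟨Hyper_succ_of (Or.inr ⟨by exact_mod_cast a, by exact_mod_cast b⟩),
        by linarith, by linarith⟩)

theorem Hyper_side (g : ℕ) {z : ℂ} (hz : ‖z‖ = 1) :
    ∃ i : I g, ∃ t ∈ Icc (0 : ℝ) 1, Hyper_al g i t = z := by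
  have hg : (0 : ℝ) ≤ g := Nat.cast_nonneg g
  obtain ⟨u, u0, u1, e⟩ : ∃ u : ℝ, 0 ≤ u ∧ u < 2 * g + 2 ∧ Hyper_b g u = z := by
    by_cases h1 : z = 1
    · exact ⟨0, le_rfl, by linarith, by rw [Hyper_b_zero, h1]⟩
    · obtain ⟨u, u0, u1, e⟩ := Hyper_b_real g (Hyper_cay z).re
      refine ⟨u, u0.le, u1, Hyper_cay_inj (Hyper_b_cay g u0 u1).1 h1 ?_⟩
      rw [(Hyper_b_cay g u0 u1).2, e]
      apply Complex.ext
      · simp
      · simp [Hyper_cay_im h1, hz]
  have h1 : ⌊u⌋₊ < 2 * g + 2 := (Nat.floor_lt u0).2 (by exact_mod_cast u1)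
  refine ⟨(⌊u⌋₊ : ℕ), u - ⌊u⌋₊, ⟨sub_nonneg.2 (Nat.floor_le u0), ?_⟩, ?_⟩
  · linarith [Nat.lt_floor_add_one u]
  · rw [Hyper_al, ZMod.val_natCast_of_lt h1, ← e]
    congr 1
    ring

theorem Hyper_sign {x : ℝ} {k : ℕ} (n : ℕ)
    (h : ∀ j < n, (j < k → 0 ≤ x - (j : ℝ)) ∧ (k ≤ j → x - (j : ℝ) ≤ 0)) :
    0 ≤ (-1) ^ (n - k) * ∏ j ∈ Finset.range n, (x - (j : ℝ)) := by
  induction n with
  | zero => simp
  | succ n ih =>
    have ih' := ih fun j hj => h j (by omega)
    rw [Finset.prod_range_succ]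
    rcases Nat.lt_or_ge n k with a | a
    · rw [show n + 1 - k = n - k by omega, ← mul_assoc]
      exact mul_nonneg ih' ((h n (by omega)).1 a)
    · rw [show n + 1 - k = n - k + 1 by omega, pow_succ]
      nlinarith [mul_nonneg ih' (neg_nonneg.2 ((h n (by omega)).2 a))]

theorem Hyper_colr {g : ℕ} (i : I g) :
    colr i = Multiplicative.ofAdd (1 + (i.val : ZMod 2), (i.val : ZMod 2)) := by
  rw [colr, cls_s, par, ZMod.castHom_apply, ZMod.natCast_val]

theorem Hyper_fix (g : ℕ) (i : I g) (t : ℝ) (ht : t ∈ Icc (0 : ℝ) 1) :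
    Hyper_sig g (colr i) (Hyper_Phi g (Hyper_al g i t)) = Hyper_Phi g (Hyper_al g i t) := by
  by_cases h1 : Hyper_al g i t = 1
  · rw [h1, Hyper_Phi_one, Hyper_sig_inf]
  obtain ⟨t0, t1⟩ := ht
  have hi := Hyper_val_le i
  have hi' := ZMod.val_lt i
  have i0 : (0 : ℝ) ≤ i.val := Nat.cast_nonneg _
  have u0 : 0 < i.val + t := lt_of_le_of_ne (by linarith) fun e =>
    h1 (by rw [Hyper_al, ← e, Hyper_b_zero])
  have u1 : i.val + t < 2 * g + 2 := lt_of_le_of_ne (by linarith) fun e =>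
    h1 (by rw [Hyper_al, e, Hyper_b_top])
  have dp := Hyper_d_pos g u0 u1
  have d1 : Hyper_d g (i.val + t) ≤ 1 := min_le_left _ _
  rw [Hyper_Phi_ne g h1, Hyper_sig_pt, Hyper_al, (Hyper_b_cay g u0 u1).2]
  have hs := Hyper_sign (x := (i.val + t - 1) / Hyper_d g (i.val + t)) (k := i.val) (2 * g + 1)
    fun j hj => ⟨fun a => by
      have a' : (j : ℝ) + 1 ≤ i.val := by exact_mod_cast a
      have j0 : (0 : ℝ) ≤ j := Nat.cast_nonneg _
      rw [sub_nonneg, le_div_iff₀ dp]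
      nlinarith [mul_le_mul_of_nonneg_left d1 j0], fun a => by
      have a' : (i.val : ℝ) ≤ j := by exact_mod_cast a
      have j0 : (0 : ℝ) ≤ j := Nat.cast_nonneg _
      have j1 : (j : ℝ) + 1 ≤ 2 * g + 1 := by exact_mod_cast hj
      rw [sub_nonpos, div_le_iff₀ dp]
      rcases le_total (i.val + t : ℝ) 1 with b | b
      · nlinarith [mul_nonneg j0 dp.le]
      · rw [Hyper_d_mid g b (by linarith)]
        linarith⟩
  generalize (i.val + t - 1) / Hyper_d g (i.val + t) = x at hs ⊢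
  have hy : (Hyper_r g x).1.2 ^ 2 = ((∏ j ∈ Finset.range (2 * g + 1), (x - (j : ℝ)) : ℝ) : ℂ) := by
    rw [(Hyper_r g x).2]
    simp [Hyper_r]
  generalize ∏ j ∈ Finset.range (2 * g + 1), (x - (j : ℝ)) = P at hs hy
  have hx : (Hyper_r g x).1.1 = x := rfl
  generalize Hyper_r g x = p at hy hx ⊢
  have re := congrArg Complex.re hy
  have im := congrArg Complex.im hy
  simp only [sq, Complex.mul_re, Complex.mul_im, Complex.ofReal_re, Complex.ofReal_im] at re im
  have z0 : p.1.2.re * p.1.2.im = 0 := by linarith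
  refine congrArg Hyper_pt (Subtype.ext ?_)
  rw [Hyper_colr, toAdd_ofAdd]
  rcases Nat.even_or_odd i.val with e | e
  · have e2 : (i.val : ZMod 2) = 0 := (ZMod.natCast_eq_zero_iff_even).2 e
    have o : Odd (2 * g + 1 - i.val) := Nat.Odd.sub_even (by omega) ⟨g, rfl⟩ e
    rw [o.neg_one_pow] at hs
    have r0 : p.1.2.re = 0 := by
      rcases mul_eq_zero.1 z0 with a | a
      · exact a
      · rw [a] at re
        nlinarith
    rw [e2]
    refine Prod.ext ?_ ?_
    · simp [Hyper_f, Hyper_cj1, hx]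
    · apply Complex.ext <;> simp [Hyper_f, Hyper_cj1, Hyper_sg1, r0]
  · have e2 : (i.val : ZMod 2) = 1 := (ZMod.natCast_eq_one_iff_odd).2 e
    have o : Even (2 * g + 1 - i.val) := Nat.Odd.sub_odd ⟨g, rfl⟩ e
    rw [o.neg_one_pow] at hs
    have r0 : p.1.2.im = 0 := by
      rcases mul_eq_zero.1 z0 with a | a
      · rw [a] at re
        nlinarith
      · exact a
    rw [e2]
    refine Prod.ext ?_ ?_
    · simp [Hyper_f, Hyper_cj1, Hyper_11, hx]
    · apply Complex.ext <;> simp [Hyper_f, Hyper_cj1, Hyper_sg0, Hyper_11, r0]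

theorem Hyper_vertex (g : ℕ) (i : I g) (κ : Multiplicative (ZMod 2 × ZMod 2)) :
    κ ∈ Subgroup.closure {c | ∃ j, Hyper_al g i 1 ∈ Hyper_al g j '' Icc 0 1 ∧ c = colr j} := by
  have a : colr i ∈
      Subgroup.closure {c | ∃ j, Hyper_al g i 1 ∈ Hyper_al g j '' Icc 0 1 ∧ c = colr j} :=
    Subgroup.subset_closure ⟨i, ⟨1, by simp, rfl⟩, rfl⟩
  have b : colr (i + 1) ∈
      Subgroup.closure {c | ∃ j, Hyper_al g i 1 ∈ Hyper_al g j '' Icc 0 1 ∧ c = colr j} :=
    Subgroup.subset_closure ⟨i + 1, ⟨0, by simp, ((Hyper_cyc g).next i).symm⟩, rfl⟩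
  have key : ∀ (e : ZMod 2) (κ : Multiplicative (ZMod 2 × ZMod 2)), κ = 1 ∨
      κ = Multiplicative.ofAdd (1 + e, e) ∨ κ = Multiplicative.ofAdd (1 + (e + 1), e + 1) ∨
      κ = Multiplicative.ofAdd (1 + e, e) * Multiplicative.ofAdd (1 + (e + 1), e + 1) := by
    decide
  have e1 : colr i = Multiplicative.ofAdd (1 + par i, par i) := cls_s i
  have e2 : colr (i + 1) = Multiplicative.ofAdd (1 + (par i + 1), par i + 1) := by
    rw [colr, cls_s, map_add, map_one]
  rcases key (par i) κ with h | h | h | h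
  · rw [h]
    exact one_mem _
  · rwa [h, ← e1]
  · rwa [h, ← e2]
  · rw [h, ← e1, ← e2]
    exact mul_mem a b

theorem Hyper_branch (g : ℕ) {z : ℂ} (h1 : z ≠ 1)
    (h : Hyper_f g (1, 1) (Hyper_r g (Hyper_cay z)) = Hyper_r g (Hyper_cay z)) :
    ∃ i : I g, z = Hyper_al g i 1 := by
  have h2 := congrArg (fun p : Hyper_C g => p.1.2) h
  simp only [Hyper_f, Hyper_11, Hyper_cj0, Hyper_sg1] at h2
  have h3 : (Hyper_r g (Hyper_cay z)).1.2 = 0 := by linear_combination (-1 / 2 : ℂ) * h2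
  have h4 := (Hyper_r g (Hyper_cay z)).2
  rw [h3, zero_pow two_ne_zero, eq_comm, Finset.prod_eq_zero_iff] at h4
  obtain ⟨k, hk, e⟩ := h4
  have hk' : k < 2 * g + 1 := Finset.mem_range.1 hk
  have k0 : (0 : ℝ) ≤ k := Nat.cast_nonneg _
  have k1 : (k : ℝ) + 1 ≤ 2 * g + 1 := by exact_mod_cast hk'
  have hb := Hyper_b_cay g (u := k + 1) (by linarith) (by linarith)
  refine ⟨(k : ℕ), ?_⟩
  rw [Hyper_al, ZMod.val_natCast_of_lt (by omega)]
  refine Hyper_cay_inj h1 hb.1 ?_
  rw [hb.2, Hyper_d_mid g (by linarith) k1, show Hyper_cay z = k from sub_eq_zero.1 e]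
  simp

theorem Hyper_fibre (g : ℕ) (κ : Multiplicative (ZMod 2 × ZMod 2)) (z : ℂ)
    (hz : z ∈ closedBall (0 : ℂ) 1) (z' : ℂ) (hz' : z' ∈ closedBall (0 : ℂ) 1)
    (h : Hyper_sig g κ (Hyper_Phi g z) = Hyper_Phi g z') :
    z = z' ∧ κ ∈ Subgroup.closure {c | ∃ i, z ∈ Hyper_al g i '' Icc 0 1 ∧ c = colr i} := by
  by_cases h1 : z = 1
  · subst h1
    rw [Hyper_Phi_one, Hyper_sig_inf] at h
    refine ⟨?_, ?_⟩
    · by_contra e
      rw [Hyper_Phi_ne g (Ne.symm e)] at h
      exact Hyper_pt_ne _ h.symm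
    · have e : Hyper_al g (-1) 1 = 1 := by
        rw [(Hyper_cyc g).next, neg_add_cancel, Hyper_al, ZMod.val_zero, Nat.cast_zero, add_zero,
          Hyper_b_zero]
      have := Hyper_vertex g (-1) κ
      rwa [e] at this
  have h1' : z' ≠ 1 := fun e => by
    rw [e, Hyper_Phi_one, Hyper_Phi_ne g h1, Hyper_sig_pt] at h
    exact Hyper_pt_ne _ h
  have br : Hyper_sig g (Multiplicative.ofAdd (1, 1)) (Hyper_Phi g z) = Hyper_Phi g z →
      κ ∈ Subgroup.closure {c | ∃ i, z ∈ Hyper_al g i '' Icc 0 1 ∧ c = colr i} := fun e => by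
    rw [Hyper_Phi_ne g h1, Hyper_sig_pt] at e
    obtain ⟨i, hi⟩ := Hyper_branch g h1 (Hyper_pt_inj e)
    have := Hyper_vertex g i κ
    rwa [← hi] at this
  have h2 := h
  rw [Hyper_Phi_ne g h1, Hyper_Phi_ne g h1', Hyper_sig_pt] at h2
  have h3 : Hyper_cj (κ.toAdd.1 + κ.toAdd.2) (Hyper_cay z) = Hyper_cay z' :=
    congrArg (fun p : Hyper_C g => p.1.1) (Hyper_pt_inj h2)
  rcases Hyper_z2 (κ.toAdd.1 + κ.toAdd.2) with e | e
  · rw [e, Hyper_cj0] at h3
    have e' := Hyper_cay_inj h1 h1' h3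
    subst e'
    refine ⟨rfl, ?_⟩
    have key : ∀ κ : Multiplicative (ZMod 2 × ZMod 2), κ.toAdd.1 + κ.toAdd.2 = 0 →
        κ = 1 ∨ κ = Multiplicative.ofAdd (1, 1) := by decide
    rcases key κ e with a | a
    · rw [a]
      exact one_mem _
    · exact br (a ▸ h)
  · rw [e, Hyper_cj1] at h3
    have a := Hyper_cay_nonneg hz h1
    have b := Hyper_cay_nonneg hz' h1'
    have c := congrArg Complex.im h3
    rw [Complex.conj_im] at c
    have i0 : (Hyper_cay z).im = 0 := by linarith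
    rw [Complex.conj_eq_iff_im.2 i0] at h3
    have e' := Hyper_cay_inj h1 h1' h3
    subst e'
    refine ⟨rfl, ?_⟩
    have n1 : ‖z‖ = 1 := by
      have h : Complex.normSq (1 - z) ≠ 0 := by
        simpa [sub_eq_zero] using Ne.symm h1
      rw [Hyper_cay_im h1, div_eq_zero_iff, or_iff_left h, sub_eq_zero, eq_comm] at i0
      exact (pow_eq_one_iff_of_nonneg (norm_nonneg z) two_ne_zero).1 i0
    obtain ⟨i, t, ht, hi⟩ := Hyper_side g n1
    have hf := Hyper_fix g i t ht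
    rw [hi] at hf
    have key : ∀ (e : ZMod 2) (κ : Multiplicative (ZMod 2 × ZMod 2)),
        κ.toAdd.1 + κ.toAdd.2 = 1 → κ = Multiplicative.ofAdd (1 + e, e) ∨
        Multiplicative.ofAdd (1, 1) = κ * Multiplicative.ofAdd (1 + e, e) := by decide
    have e1 : colr i = Multiplicative.ofAdd (1 + par i, par i) := cls_s i
    rcases key (par i) κ e with a | a
    · rw [a, ← e1]
      exact Subgroup.subset_closure ⟨i, ⟨t, ht, hi⟩, rfl⟩
    · refine br ?_
      rw [a, ← e1, map_mul, Homeomorph.mul_apply, hf, h]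

/-- Hint: `σ (a, b)` sends `(x, y)` to `(conj^(a+b) x, (-1)^a conj^(a+b) y)` (`OnePoint.map`,
`Homeomorph.onePointCongr`): even sides, of colour `(1,0)`, are fixed by `(x̄, -ȳ)`, odd sides by
`(x̄, ȳ)`. `Φ ζ = ∞` for `ζ = 1` and `(x, r x)` with `x = I (1 + ζ) / (1 - ζ)` otherwise, where
`r x = ∏ k, √(x - k)` with a square root that is continuous on the closed upper half plane (for
instance `exp (iπ/4) * (-I * w) ^ (1/2)`, `continuousAt_cpow_const_of_re_pos`). The arcs are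
`α k t = (n - I d) / (n + I d)` with `(n, d) = (1 - t) • p k + t • p (k + 1)`, `p 0 = (-1, 0)`,
`p k = (k - 1, 1)` for `1 ≤ k ≤ 2g + 1`, `p (2g + 2) = (1, 0)`, `k = i.val`. -/
theorem exists_model (g : ℕ) :
    ∃ (σ : Multiplicative (ZMod 2 × ZMod 2) →* (Surface g ≃ₜ Surface g)) (Φ : ℂ → Surface g)
      (α : I g → ℝ → ℂ), ContinuousOn Φ (closedBall 0 1) ∧ Cyc α ∧
      (⋃ i, α i '' Icc 0 1) = sphere 0 1 ∧
      (∀ y, ∃ κ, ∃ z ∈ closedBall (0 : ℂ) 1, σ κ (Φ z) = y) ∧
      (∀ i, ∀ t ∈ Icc (0 : ℝ) 1, σ (colr i) (Φ (α i t)) = Φ (α i t)) ∧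
      ∀ κ, ∀ z ∈ closedBall (0 : ℂ) 1, ∀ z' ∈ closedBall (0 : ℂ) 1, σ κ (Φ z) = Φ z' →
        z = z' ∧ κ ∈ Subgroup.closure {c | ∃ i, z ∈ α i '' Icc 0 1 ∧ c = colr i} := by
  refine ⟨Hyper_sig g, Hyper_Phi g, Hyper_al g, Hyper_Phi_cont g, Hyper_cyc g, ?_, Hyper_surj g,
    Hyper_fix g, Hyper_fibre g⟩
  ext z
  simp only [mem_iUnion, mem_sphere_iff_norm, sub_zero]
  constructor
  · rintro ⟨i, t, -, rfl⟩
    exact Hyper_b_norm g _
  · intro hz
    obtain ⟨i, t, ht, e⟩ := Hyper_side g hz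
    exact ⟨i, t, ht, e⟩

end Pool.Agent.MP_4a6971_al.H83

/-!
Homeomorphisms of the base of a universal covering and outer automorphisms of the deck group.
-/

namespace Pool.Agent.MP_4a6971_al.H83

open Set Topology H66 Mcg

variable {G E B : Type} [Group G] [TopologicalSpace E] [TopologicalSpace B] [MulAction G E]

/-- `F` is a lift of `f` that induces `φ` on the deck group. -/
structure IsLift (π : E → B) (f : B ≃ₜ B) (F : E ≃ₜ E) (φ : MulAut G) : Prop where
  lift : ∀ x, π (F x) = f (π x)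
  act : ∀ (γ : G) x, F (γ • x) = φ γ • F x

variable {π : E → B}

theorem Lift_deck {A : Type} [TopologicalSpace A] [ConnectedSpace A]
    (h : IsQuotientCoveringMap π G) {u v : A → E} (hu : Continuous u) (hv : Continuous v)
    (e : ∀ a, π (u a) = π (v a)) : ∃ γ : G, ∀ a, u a = γ • v a := by
  have := h.toContinuousConstSMul
  obtain ⟨a⟩ : Nonempty A := inferInstance
  obtain ⟨γ, hγ⟩ := h.apply_eq_iff_mem_orbit.1 (e a)
  refine ⟨γ, congrFun (h.isCoveringMap.eq_of_comp_eq (g₂ := fun a => γ • v a) hu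
    (hv.const_smul γ) (funext fun a => ?_) a hγ.symm)⟩
  exact (e a).trans (h.map_smul γ).symm

theorem Lift_cancel (h : IsQuotientCoveringMap π G) {γ δ : G} (x : E) (e : γ • x = δ • x) :
    γ = δ :=
  have := h.isCancelSMul
  IsCancelSMul.right_cancel _ _ x e

theorem Lift_fun [ConnectedSpace E] (h : IsQuotientCoveringMap π G) {f : B → B} {F : E → E}
    (hF : Continuous F) (e : ∀ x, π (F x) = f (π x)) :
    ∃ φ : G → G, ∀ (γ : G) x, F (γ • x) = φ γ • F x := by
  have := h.toContinuousConstSMul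
  have : ∀ γ : G, ∃ δ : G, ∀ x, F (γ • x) = δ • F x := fun γ =>
    Lift_deck h (hF.comp (continuous_const_smul γ)) hF fun x => by rw [e, e, h.map_smul]
  choose φ hφ using this
  exact ⟨φ, hφ⟩

theorem Lift_act [ConnectedSpace E] (h : IsQuotientCoveringMap π G) (f : B ≃ₜ B) (F : E ≃ₜ E)
    (e : ∀ x, π (F x) = f (π x)) : ∃ φ : MulAut G, IsLift π f F φ := by
  obtain ⟨φ, hφ⟩ := Lift_fun h F.continuous e
  obtain ⟨ψ, hψ⟩ := Lift_fun h (f := f.symm) F.symm.continuous fun x => by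
    rw [f.eq_symm_apply, ← e, F.apply_symm_apply]
  obtain ⟨x⟩ : Nonempty E := inferInstance
  refine ⟨⟨⟨φ, ψ, fun γ => Lift_cancel h x ?_, fun γ => Lift_cancel h x ?_⟩,
    fun γ δ => Lift_cancel h (F x) ?_⟩, e, hφ⟩
  · have := hψ (φ γ) (F x)
    rwa [← hφ, F.symm_apply_apply, F.symm_apply_apply, eq_comm] at this
  · have := hφ (ψ γ) (F.symm x)
    rwa [← hψ, F.apply_symm_apply, F.apply_symm_apply, eq_comm] at this
  · change φ (γ * δ) • F x = (φ γ * φ δ) • F x
    rw [← hφ, mul_smul, mul_smul, hφ, hφ]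

theorem Lift_desc (h : IsQuotientCoveringMap π G) {F : E → E} (hF : Continuous F) {φ : G → G}
    (e : ∀ (γ : G) x, F (γ • x) = φ γ • F x) :
    ∃ f : B → B, Continuous f ∧ ∀ x, f (π x) = π (F x) := by
  have key : ∀ x, π (F (Function.surjInv h.surjective (π x))) = π (F x) := fun x => by
    obtain ⟨γ, hγ⟩ := h.apply_eq_iff_mem_orbit.1 (Function.surjInv_eq h.surjective (π x))
    rw [← hγ]
    exact (congrArg π (e γ x)).trans (h.map_smul _)
  refine ⟨fun b => π (F (Function.surjInv h.surjective b)), ?_, key⟩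
  rw [h.toIsQuotientMap.continuous_iff]
  exact (h.toIsQuotientMap.continuous.comp hF).congr fun x => (key x).symm

theorem Lift_mul {f f' : B ≃ₜ B} {F F' : E ≃ₜ E} {φ φ' : MulAut G} (a : IsLift π f F φ)
    (b : IsLift π f' F' φ') : IsLift π (f * f') (F * F') (φ * φ') :=
  ⟨fun x => (a.lift _).trans (congrArg f (b.lift x)),
    fun γ x => (congrArg F (b.act γ x)).trans (a.act _ _)⟩

theorem Lift_conj (γ : G) : (QuotientGroup.mk (MulAut.conj γ) : Out G) = 1 :=
  (QuotientGroup.eq_one_iff _).2 ⟨γ, rfl⟩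

theorem Lift_uniq [ConnectedSpace E] (h : IsQuotientCoveringMap π G) {f : B ≃ₜ B}
    {F F' : E ≃ₜ E} {φ φ' : MulAut G} (a : IsLift π f F φ) (b : IsLift π f F' φ') :
    (QuotientGroup.mk φ : Out G) = QuotientGroup.mk φ' := by
  obtain ⟨γ, hγ⟩ := Lift_deck h F.continuous F'.continuous fun x => (a.lift x).trans (b.lift x).symm
  obtain ⟨x⟩ : Nonempty E := inferInstance
  have : φ = MulAut.conj γ * φ' := by
    ext δ
    have e := a.act δ x
    rw [hγ, hγ, b.act, ← mul_smul, ← mul_smul] at e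
    rw [MulAut.mul_apply, MulAut.conj_apply, Lift_cancel h _ e, mul_inv_cancel_right]
  rw [this, QuotientGroup.mk_mul, Lift_conj, one_mul]

/-- Hint: `IsCoveringMap.existsUnique_continuousMap_lifts` for `f ∘ π` and `f⁻¹ ∘ π`, uniqueness
of lifts (`IsCoveringMap.eq_of_comp_eq`), `IsQuotientCoveringMap.isCancelSMul`. -/
theorem exists_isLift [SimplyConnectedSpace E] [LocallyPathConnectedSpace E]
    (h : IsQuotientCoveringMap π G) (f : B ≃ₜ B) : ∃ (F : E ≃ₜ E) (φ : MulAut G), IsLift π f F φ := by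
  obtain ⟨x⟩ : Nonempty E := inferInstance
  obtain ⟨y, hy⟩ := h.surjective (f (π x))
  have hπ := h.toIsQuotientMap.continuous
  obtain ⟨F, ⟨a, b⟩, -⟩ := h.isCoveringMap.existsUnique_continuousMap_lifts
    ⟨fun x => f (π x), f.continuous.comp hπ⟩ x y hy
  obtain ⟨F', ⟨a', b'⟩, -⟩ := h.isCoveringMap.existsUnique_continuousMap_lifts
    ⟨fun x => f.symm (π x), f.symm.continuous.comp hπ⟩ y x (by simp [hy])
  have c : ∀ z, π (F z) = f (π z) := congrFun b
  have c' : ∀ z, π (F' z) = f.symm (π z) := congrFun b'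
  have l : (fun z => F' (F z)) = id := h.isCoveringMap.eq_of_comp_eq
    (F'.continuous.comp F.continuous) continuous_id (funext fun z => by simp [c, c']) x
    (by simp [a, a'])
  have r : (fun z => F (F' z)) = id := h.isCoveringMap.eq_of_comp_eq
    (F.continuous.comp F'.continuous) continuous_id (funext fun z => by simp [c, c']) y
    (by simp [a, a'])
  exact ⟨⟨⟨F, F', congrFun l, congrFun r⟩, F.continuous, F'.continuous⟩, Lift_act h f _ c⟩

theorem exists_descend (h : IsQuotientCoveringMap π G) (F : E ≃ₜ E) (φ : MulAut G)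
    (hF : ∀ (γ : G) x, F (γ • x) = φ γ • F x) : ∃ f : B ≃ₜ B, IsLift π f F φ := by
  obtain ⟨f, a, b⟩ := Lift_desc h F.continuous hF
  obtain ⟨f', a', b'⟩ := Lift_desc h F.symm.continuous (φ := φ.symm) fun γ x => by
    rw [F.symm_apply_eq, hF, F.apply_symm_apply, φ.apply_symm_apply]
  refine ⟨⟨⟨f, f', fun z => ?_, fun z => ?_⟩, a, a'⟩, fun x => (b x).symm, hF⟩
  · obtain ⟨x, rfl⟩ := h.surjective z
    rw [b, b', F.symm_apply_apply]
  · obtain ⟨x, rfl⟩ := h.surjective z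
    rw [b', b, F.apply_symm_apply]

/-- Hint: two lifts differ by a deck transformation. If `f` is isotopic to the identity lift the
isotopy (`IsCoveringMap.liftHomotopy`) starting at the identity: it commutes with `G` and ends in a
lift of `f`. Conversely if `φ` is inner, a lift commutes with `G`, and an equivariant isotopy
descends (`IsQuotientCoveringMap.isOpenQuotientMap`, `IsOpenQuotientMap.prodMap`). -/
theorem exists_outHom [SimplyConnectedSpace E] [LocallyPathConnectedSpace E]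
    (h : IsQuotientCoveringMap π G)
    (hb : ∀ F : E ≃ₜ E, (∀ (γ : G) x, F (γ • x) = γ • F x) → ∃ H : ℝ → E ≃ₜ E,
      Continuous (fun p : ℝ × E => H p.1 p.2) ∧ (∀ t (γ : G) x, H t (γ • x) = γ • H t x) ∧
        H 0 = 1 ∧ H 1 = F) :
    ∃ J : (B ≃ₜ B) →* Out G, (∀ f F φ, IsLift π f F φ → J f = QuotientGroup.mk φ) ∧
      ∀ f, J f = 1 ↔ IsotopicToId f := by
  have := h.toContinuousConstSMul
  have hπ := h.toIsQuotientMap.continuous
  choose L Φ hL using exists_isLift h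
  refine ⟨MonoidHom.mk' (fun f => QuotientGroup.mk (Φ f)) fun f f' => ?_,
    fun f F φ a => Lift_uniq h (hL f) a, fun f => ⟨fun e => ?_, ?_⟩⟩
  · rw [← QuotientGroup.mk_mul]
    exact Lift_uniq h (hL _) (Lift_mul (hL f) (hL f'))
  · obtain ⟨γ, hγ⟩ := (QuotientGroup.eq_one_iff (Φ f)).1 e
    obtain ⟨H, a, b, c, d⟩ := hb ((L f).trans (Homeomorph.smul γ⁻¹)) fun δ x => by
      change γ⁻¹ • L f (δ • x) = δ • γ⁻¹ • L f x
      rw [(hL f).act, ← hγ, MulAut.conj_apply, mul_smul, mul_smul, inv_smul_smul]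
    choose k hk using fun t => exists_descend h (H t) 1 (b t)
    refine ⟨⟨fun p => k p.1 p.2, ?_⟩, fun t => (k t).isHomeomorph, fun z => ?_, fun z => ?_⟩
    · rw [← ((IsOpenQuotientMap.id (X := unitInterval)).prodMap
        h.isOpenQuotientMap).continuous_comp_iff]
      refine (hπ.comp (a.comp (continuous_subtype_val.prodMap continuous_id))).congr fun p => ?_
      exact (hk p.1).lift p.2
    · obtain ⟨x, rfl⟩ := h.surjective z
      change k 0 (π x) = π x
      rw [← (hk 0).lift, c]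
      rfl
    · obtain ⟨x, rfl⟩ := h.surjective z
      change k 1 (π x) = f (π x)
      rw [← (hk 1).lift, d, ← (hL f).lift]
      exact h.map_smul γ⁻¹
  · rintro ⟨H, -, b, c⟩
    let K : C(unitInterval × E, B) := ⟨fun p => H (p.1, π p.2), by fun_prop⟩
    have K0 : ∀ x, K (0, x) = π (ContinuousMap.id E x) := fun x => b _
    obtain ⟨M, m, m0⟩ : ∃ M : C(unitInterval × E, E), (∀ p, π (M p) = H (p.1, π p.2)) ∧
        ∀ x, M (0, x) = x :=
      ⟨h.isCoveringMap.liftHomotopy K _ K0, congrFun (h.isCoveringMap.liftHomotopy_lifts K _ K0),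
        h.isCoveringMap.liftHomotopy_zero K _ K0⟩
    have eqv : ∀ (δ : G) x, M (1, δ • x) = δ • M (1, x) := fun δ x =>
      congrFun (h.isCoveringMap.eq_of_comp_eq (g₁ := fun t => M (t, δ • x))
        (g₂ := fun t => δ • M (t, x)) (by fun_prop) (by fun_prop)
        (funext fun t => by simp [m, h.map_smul]) 0 (by simp [m0])) 1
    obtain ⟨γ, hγ⟩ := Lift_deck h (u := L f) (v := fun x => M (1, x)) (L f).continuous (by fun_prop)
      fun x => by rw [m, c, (hL f).lift]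
    obtain ⟨x⟩ : Nonempty E := inferInstance
    have : Φ f = MulAut.conj γ := by
      ext δ
      have e := (hL f).act δ x
      rw [hγ, hγ, eqv, ← mul_smul, ← mul_smul] at e
      rw [MulAut.conj_apply, Lift_cancel h _ e, mul_inv_cancel_right]
    change (QuotientGroup.mk (Φ f) : Out G) = 1
    rw [this, Lift_conj]

end Pool.Agent.MP_4a6971_al.H83
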