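import Pool.Agent.MP_4a6971_al.H83.Move
import Pool.Agent.MP_4a6971_al.H83.Geo
import Pool.Agent.MP_4a6971_al.H83.Alg
import Pool.Agent.MP_4a6971_al.H83.Hyper

/-!
Making the images of the walls polygonal.
-/

namespace Pool.Agent.MP_4a6971_al.H83

open Set Topology H66

variable {g : ℕ} {Y : Poly g}

/-- The point `F v` can be reached along a segment from the image of the interior of `K`. -/
def Acc (F : X ≃ₜ X) (K : Set X) (v : X) : Prop :=
  ∃ y ∈ F '' interior K, seg (F v) y \ {F v} ⊆ F '' interior K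

theorem Tame1_par {t₁ t₂ t : ℝ} (h : t₁ < t₂) (ht : t ∈ Icc t₁ t₂) :
    (t - t₁) / (t₂ - t₁) ∈ Icc (0 : ℝ) 1 :=
  ⟨div_nonneg (sub_nonneg.2 ht.1) (sub_pos.2 h).le,
    (div_le_one (sub_pos.2 h)).2 (sub_le_sub_right ht.2 _)⟩

/-- A short straight piece. -/
theorem straight_piece {K : Set X} (hK : IsCompact K) (hKc : Cvx K) {γ : ℝ → X} (h : PArc K γ)
    (F : X ≃ₜ X) {t₀ : ℝ} (ht : t₀ ∈ Ioo (0 : ℝ) 1) :
    ∃ f : X ≃ₜ X, Supp f K ∧ ∃ t₁ t₂ P Q, 0 < t₁ ∧ t₁ < t₀ ∧ t₀ < t₂ ∧ t₂ < 1 ∧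
      ∀ t ∈ Icc t₁ t₂, F (f (γ t)) = gp P Q ((t - t₁) / (t₂ - t₁)) := by
  classical
  obtain ⟨R, r1, r2⟩ := exists_Dsc_subset (c := F (γ t₀)) (U := F '' interior K)
    ((F.isOpenMap _ isOpen_interior).mem_nhds ⟨_, h.mid t₀ ht, rfl⟩)
  have hin : ∀ x, F x ∈ Dsc (F (γ t₀)) R → x ∈ interior K := fun x hx => by
    obtain ⟨y, a, b⟩ := r2 hx
    exact F.injective b ▸ a
  have hFc : ContinuousOn (fun t => F (γ t)) (Icc 0 1) := F.continuous.comp_continuousOn h.cont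
  have hA : IsCompact (Icc (0 : ℝ) 1 ∩ (fun t => F (γ t)) ⁻¹' Dsc (F (γ t₀)) R) :=
    isCompact_Icc.of_isClosed_subset (hFc.preimage_isClosed_of_isClosed isClosed_Icc
      (isCompact_Dsc _ _).isClosed) inter_subset_left
  have hN : Icc (0 : ℝ) 1 ∩ (fun t => F (γ t)) ⁻¹' Dsc (F (γ t₀)) R ∈ 𝓝 t₀ := by
    have a : Icc (0 : ℝ) 1 ∈ 𝓝 t₀ := Icc_mem_nhds ht.1 ht.2
    refine Filter.inter_mem a ((hFc.continuousAt a).preimage_mem_nhds
      (mem_interior_iff_mem_nhds.1 ?_))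
    rw [interior_Dsc]
    exact (cd_self _).trans_lt r1
  obtain ⟨t₁, a1, b1⟩ := hA.exists_isLeast ⟨t₀, mem_of_mem_nhds hN⟩
  obtain ⟨t₂, a2, b2⟩ := hA.exists_isGreatest ⟨t₀, mem_of_mem_nhds hN⟩
  have c1 : t₁ < t₀ := by
    obtain ⟨t, x, y⟩ := ((frequently_lt_nhds t₀).and_eventually hN).exists
    exact (b1 y).trans_lt x
  have c2 : t₀ < t₂ := by
    obtain ⟨t, x, y⟩ := ((frequently_gt_nhds t₀).and_eventually hN).exists
    exact x.trans_le (b2 y)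
  have c12 := c1.trans c2
  have d1 : 0 < t₁ := a1.1.1.lt_of_ne fun e => h.n0 (hin _ (e ▸ a1.2))
  have d2 : t₂ < 1 := a2.1.2.lt_of_ne fun e => h.n1 (hin _ (e ▸ a2.2))
  have hPQ : F (γ t₁) ≠ F (γ t₂) := fun e => c12.ne (h.inj a1.1 a2.1 (F.injective e))
  have hB : ∀ t ∈ Icc t₁ t₂, gp (F (γ t₁)) (F (γ t₂)) ((t - t₁) / (t₂ - t₁)) ∈
      Dsc (F (γ t₀)) R := fun t x =>
    cvx_Dsc _ _ _ a1.2 _ a2.2 (seg_eq _ _ ▸ ⟨_, Tame1_par c12 x, rfl⟩)
  obtain ⟨δ, e1, e2⟩ : ∃ δ : ℝ → X, (∀ t ∈ Icc t₁ t₂,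
      δ t = F.symm (gp (F (γ t₁)) (F (γ t₂)) ((t - t₁) / (t₂ - t₁)))) ∧
      ∀ t, t ∉ Ioo t₁ t₂ → δ t = γ t := by
    refine ⟨fun t => if t ∈ Ioo t₁ t₂ then
      F.symm (gp (F (γ t₁)) (F (γ t₂)) ((t - t₁) / (t₂ - t₁))) else γ t, fun t x => ?_,
      fun t x => if_neg x⟩
    dsimp only
    split_ifs with y
    · rfl
    rcases x.1.eq_or_lt with rfl | z
    · simp
    rcases x.2.eq_or_lt with rfl | z'
    · simp [div_self (sub_pos.2 c12).ne']
    · exact (y ⟨z, z'⟩).elim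
  have out : ∀ t ∈ Icc (0 : ℝ) 1, t ∉ Icc t₁ t₂ → ∀ t' ∈ Icc t₁ t₂, δ t ≠ δ t' :=
    fun t x y t' z e => by
      rw [e2 t fun a => y (Ioo_subset_Icc_self a), e1 t' z, eq_comm, F.symm_apply_eq] at e
      have : t ∈ Icc (0 : ℝ) 1 ∩ (fun t => F (γ t)) ⁻¹' Dsc (F (γ t₀)) R :=
        ⟨x, show F (γ t) ∈ _ from e ▸ hB t' z⟩
      exact y ⟨b1 this, b2 this⟩
  have z0 : δ 0 = γ 0 := e2 0 fun a => d1.not_gt a.1
  have z1 : δ 1 = γ 1 := e2 1 fun a => d2.not_gt a.2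
  have hδ : PArc K δ := by
    refine ⟨?_, fun t x t' y e => ?_, z0 ▸ h.m0, z0 ▸ h.n0, z1 ▸ h.m1, z1 ▸ h.n1, fun t x => ?_⟩
    · rw [← Icc_union_Icc_eq_Icc d1.le a1.1.2, ← Icc_union_Icc_eq_Icc c12.le d2.le]
      refine ContinuousOn.union_of_isClosed ?_ (ContinuousOn.union_of_isClosed ?_ ?_
        isClosed_Icc isClosed_Icc) isClosed_Icc (isClosed_Icc.union isClosed_Icc)
      · exact (h.cont.mono (Icc_subset_Icc_right a1.1.2)).congr fun t x =>
          e2 t fun a => a.1.not_ge x.2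
      · exact (F.symm.continuous.comp ((continuous_gp _ _).comp (by fun_prop))).continuousOn.congr
          e1
      · exact (h.cont.mono (Icc_subset_Icc_left a2.1.1)).congr fun t x =>
          e2 t fun a => a.2.not_ge x.1
    · by_cases p : t ∈ Icc t₁ t₂ <;> by_cases q : t' ∈ Icc t₁ t₂
      · rw [e1 t p, e1 t' q] at e
        have := gp_inj hPQ (Tame1_par c12 p) (Tame1_par c12 q) (F.symm.injective e)
        rwa [div_left_inj' (sub_pos.2 c12).ne', sub_left_inj] at this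
      · exact (out t' y q t p e.symm).elim
      · exact (out t x p t' q e).elim
      · rw [e2 t fun a => p (Ioo_subset_Icc_self a), e2 t' fun a => q (Ioo_subset_Icc_self a)] at e
        exact h.inj x y e
    · by_cases p : t ∈ Icc t₁ t₂
      · refine hin _ ?_
        rw [e1 t p, F.apply_symm_apply]
        exact hB t p
      · rw [e2 t fun a => p (Ioo_subset_Icc_self a)]
        exact h.mid t x
  obtain ⟨f, f1, f2⟩ := arcX hK hKc h hδ z0.symm z1.symm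
  refine ⟨f, f1, t₁, t₂, F (γ t₁), F (γ t₂), d1, c1, c2, d2, fun t x => ?_⟩
  rw [f2 t ⟨d1.le.trans x.1, x.2.trans d2.le⟩, e1 t x, F.apply_symm_apply]

theorem Tame1_acc {G : X ≃ₜ X} {δ : ℝ → X} {t₁ t₀ t₂ : ℝ} {P Q : X} (c1 : t₁ < t₀) (c2 : t₀ < t₂)
    (h : ∀ t ∈ Icc t₁ t₂, G (δ t) = gp P Q ((t - t₁) / (t₂ - t₁))) {K : Set X}
    (hK : (∀ t ∈ Ioc t₀ t₂, δ t ∈ interior K) ∨ ∀ t ∈ Ico t₁ t₀, δ t ∈ interior K) :
    Acc G K (δ t₀) := by
  have c := sub_pos.2 (c1.trans c2)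
  have m0 : t₀ ∈ Icc t₁ t₂ := ⟨c1.le, c2.le⟩
  have p0 := Tame1_par (c1.trans c2) m0
  have back : ∀ τ ∈ Icc (0 : ℝ) 1, t₁ + τ * (t₂ - t₁) ∈ Icc t₁ t₂ ∧
      G (δ (t₁ + τ * (t₂ - t₁))) = gp P Q τ := fun τ x => by
    have a : t₁ + τ * (t₂ - t₁) ∈ Icc t₁ t₂ := ⟨by nlinarith [x.1], by nlinarith [x.2]⟩
    refine ⟨a, ?_⟩
    rw [h _ a, add_sub_cancel_left, mul_div_cancel_right₀ _ c.ne']
  rcases hK with hK | hK
  · refine ⟨G (δ t₂), ⟨_, hK t₂ ⟨c2, le_rfl⟩, rfl⟩, ?_⟩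
    rintro z ⟨x, y⟩
    rw [h t₀ m0] at x y
    rw [h t₂ ⟨(c1.trans c2).le, le_rfl⟩, div_self c.ne', seg_gp _ _ p0.1 p0.2 le_rfl] at x
    obtain ⟨τ, x, rfl⟩ := x
    have lt : (t₀ - t₁) / (t₂ - t₁) < τ := x.1.lt_of_ne fun e => y (by rw [e]; rfl)
    obtain ⟨a, b⟩ := back τ ⟨p0.1.trans x.1, x.2⟩
    rw [div_lt_iff₀ c] at lt
    exact ⟨_, hK _ ⟨by linarith, a.2⟩, b⟩
  · refine ⟨G (δ t₁), ⟨_, hK t₁ ⟨le_rfl, c1⟩, rfl⟩, ?_⟩
    rintro z ⟨x, y⟩
    rw [h t₀ m0] at x y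
    rw [h t₁ ⟨le_rfl, (c1.trans c2).le⟩, sub_self, zero_div, seg_comm,
      seg_gp _ _ le_rfl p0.1 p0.2] at x
    obtain ⟨τ, x, rfl⟩ := x
    have lt : τ < (t₀ - t₁) / (t₂ - t₁) := x.2.lt_of_ne fun e => y (by rw [e]; rfl)
    obtain ⟨a, b⟩ := back τ ⟨x.1, x.2.trans p0.2⟩
    rw [lt_div_iff₀ c] at lt
    exact ⟨_, hK _ ⟨a.1, by linarith⟩, b⟩

theorem Tame1_nr (w : W g) (k : I g) (x : X) :
    bf (Y.e k) ((Y.ρ w)⁻¹ • x) = bf (nr Y w k) x := by
  rw [← bf_smul (Y.ρ w), smul_inv_smul, nr]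

theorem Tame1_int {η : ℝ} {w : W g} {i : I g} {x : X} (h : |bf (nr Y w i) x| < η)
    (h1 : 0 < bf (nr Y w (i - 1)) x) (h2 : 0 < bf (nr Y w (i + 1)) x) :
    x ∈ interior ((Y.ρ w • ·) '' Rc Y i η) := by
  refine (isOpenMap_smul (Y.ρ w)).image_interior_subset _ ⟨(Y.ρ w)⁻¹ • x, ?_, smul_inv_smul _ _⟩
  rw [interior_Rc]
  simpa only [mem_ofPred_eq, Tame1_nr] using ⟨h, h1, h2⟩

/-- The other neighbour. -/
theorem Tame1_other {i j : I g} (Y : Poly g) (hij : Adj i j) : ∃ k, Adj i k ∧ k ≠ i ∧ k ≠ j ∧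
    ∀ p : I g → Prop, p j → p k → p (i - 1) ∧ p (i + 1) := by
  have ne : i - 1 ≠ i + 1 := fun e => vt_ne (Y := Y) i (by rw [e])
  rcases hij.eq with rfl | rfl
  · exact ⟨i - 1, adj_pred i, fun e => (adj_pred i).par_ne (by rw [e]), ne, fun p a b => ⟨b, a⟩⟩
  · exact ⟨i + 1, adj_succ i, succ_ne i, ne.symm, fun p a b => ⟨a, b⟩⟩

theorem Tame1_wall {η : ℝ} (hη : Thin Y η) {w : W g} {i j : I g} (hij : Adj i j) {x : X}
    (h0 : bf (nr Y w i) x = 0) (h1 : 0 < bf (nr Y w j) x) (h2 : bf (nr Y w j) x ≤ η) :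
    x ∈ interior ((Y.ρ w • ·) '' Rc Y i η) := by
  obtain ⟨k, -, k2, k3, k4⟩ := Tame1_other Y hij
  rw [← Tame1_nr] at h0 h1 h2
  have hk : 0 < bf (Y.e k) ((Y.ρ w)⁻¹ • x) := by
    generalize (Y.ρ w)⁻¹ • x = y at h0 h1 h2
    have hC : y ∈ Cb Y i j η := ⟨by rw [h0, abs_zero]; exact hη.pos.le, by rwa [abs_of_pos h1]⟩
    have fl : bf (Y.e j) (Y.ρ (s j) • y) < 0 := by
      rw [bf_s, Y.unit]
      linarith
    have hy : y ∈ Chm Y := by
      obtain ⟨u, rfl | rfl | rfl | rfl, a⟩ := hη.corner hij hC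
      · simpa using a
      · rwa [s_smul_of h0] at a
      · exact (fl.not_ge (a j)).elim
      · have b := a j
        rw [map_mul, mul_smul, bf_s, hij.symm.bf] at b
        exact (fl.not_ge (by linarith)).elim
    refine (hy k).lt_of_ne fun e => ?_
    rcases (hη.corner_near hij hC (w := 1) (k := k)
      (by rw [nr_one, ← e, abs_zero]; exact hη.pos.le)).1 with a | a
    exacts [k2 a, k3 a]
  rw [Tame1_nr] at h0 h1 hk
  obtain ⟨a, b⟩ := k4 (fun l => 0 < bf (nr Y w l) x) h1 hk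
  exact Tame1_int (by rw [h0, abs_zero]; exact hη.pos) a b

/-- The diameter of the disc about a vertex. -/
theorem Tame1_diam {η : ℝ} (hη : 0 < η) {i j : I g} (hij : Adj i j) : ∃ δ : ℝ → X,
    PArc (Dsc (vt Y i j) √(1 + η ^ 2)) δ ∧ δ (1 / 2) = vt Y i j ∧ ∀ t ∈ Icc (0 : ℝ) 1,
      bf (Y.e i) (δ t) = 0 ∧ ∃ r, 0 < r ∧ r ≤ 1 ∧ bf (Y.e j) (δ t) = r * ((2 * t - 1) * η) := by
  obtain ⟨a, a1, a2⟩ := exists_of_frame (Y.unit i) (Y.unit j) hij.bf 0 (-η)
  obtain ⟨b, b1, b2⟩ := exists_of_frame (Y.unit i) (Y.unit j) hij.bf 0 η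
  have key : ∀ t ∈ Icc (0 : ℝ) 1, bf (Y.e i) (gp a b t) = 0 ∧
      ∃ r, 0 < r ∧ r ≤ 1 ∧ bf (Y.e j) (gp a b t) = r * ((2 * t - 1) * η) := fun t ht => by
    obtain ⟨r, r0, r1, e⟩ := bf_gp a b ht
    exact ⟨by simp [e, a1, b1], r, r0, r1, by rw [e, a2, b2]; ring⟩
  have hcd : ∀ x, bf (Y.e i) x = 0 → cd (vt Y i j) x = √(1 + bf (Y.e j) x ^ 2) := fun x e => by
    have c := cd_frame (Y.unit i) (Y.unit j) hij.bf (vt_spec hij).1 (vt_spec hij).2 x x
    rw [cd_self, e] at c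
    rw [eq_comm, Real.sqrt_eq_iff_mul_self_eq (by positivity)
      (zero_le_one.trans (one_le_cd _ _))]
    linarith
  have ca : cd (vt Y i j) a = √(1 + η ^ 2) := by rw [hcd a a1, a2, neg_sq]
  have cb : cd (vt Y i j) b = √(1 + η ^ 2) := by rw [hcd b b1, b2]
  refine ⟨gp a b, ⟨(continuous_gp _ _).continuousOn, gp_inj fun e => ?_, ?_, ?_, ?_, ?_,
    fun t ht => ?_⟩, ?_, key⟩
  · rw [e, b2] at a2
    linarith
  · rw [gp_zero]
    exact ca.le
  · rw [gp_zero, interior_Dsc]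
    exact ca.not_lt
  · rw [gp_one]
    exact cb.le
  · rw [gp_one, interior_Dsc]
    exact cb.not_lt
  · obtain ⟨e, r, r0, r1, e'⟩ := key t (Ioo_subset_Icc_self ht)
    rw [interior_Dsc, mem_ofPred_eq, hcd _ e, e']
    refine Real.sqrt_lt_sqrt (by positivity) ?_
    have u1 : (2 * t - 1) ^ 2 < 1 := by nlinarith [ht.1, ht.2]
    have u2 : r ^ 2 ≤ 1 := by nlinarith
    have u3 : r ^ 2 * (2 * t - 1) ^ 2 < 1 := by nlinarith [sq_nonneg (2 * t - 1)]
    nlinarith [mul_pos hη hη]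
  · obtain ⟨e, r, -, -, e'⟩ := key (1 / 2) ⟨by norm_num, by norm_num⟩
    exact vt_unique hij e (by rw [e']; ring)

/-- Straight pieces at all vertices. -/
theorem acc_first {η : ℝ} (hη : Thin Y η) (c : ZMod 2) {F : X ≃ₜ X} (hF : Comm Y F) :
    ∃ F', Red Y F F' ∧ ∀ w i j, par i = c → Adj i j →
      Acc F' ((Y.ρ w • ·) '' Rc Y i η) (Y.ρ w • vt Y i j) := by
  have h1 := fun p : {p : I g × I g // par p.1 = c ∧ Adj p.1 p.2} =>
    Tame1_diam (Y := Y) hη.pos p.2.2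
  choose δ d1 d2 d3 using h1
  have h2 := fun p => straight_piece (isCompact_Dsc _ _) (cvx_Dsc _ _) (d1 p) F
    (t₀ := 1 / 2) ⟨by norm_num, by norm_num⟩
  choose f f1 f2 using h2
  obtain ⟨H, H1, H2, -⟩ := move (Y := Y)
    (fun p : {p : I g × I g // par p.1 = c ∧ Adj p.1 p.2} => Dsc (vt Y p.1.1 p.1.2) √(1 + η ^ 2))
    (fun p => isCompact_Dsc _ _) (fun p => cvx_Dsc _ _)
    (fun p => ⟨_, (d1 p).mid (1 / 2) ⟨by norm_num, by norm_num⟩⟩)
    (fun γ p q x a b => by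
      obtain ⟨u, v⟩ := hη.corner_disj p.2.2 q.2.2 (w := γ)
        (Dsc_subset_Cb p.2.2 hη.pos.le (interior_subset a))
        (Dsc_subset_Cb q.2.2 hη.pos.le (interior_subset b))
      refine ⟨gam_eq_one p.2.2 v, Subtype.ext (Prod.ext_iff.2 (u.resolve_right fun e => ?_))⟩
      exact q.2.2.par_ne (by rw [← e.1, p.2.1, q.2.1])) f f1
  have hR := Red.right hF H1
  refine ⟨F * H, hR, fun w i j hi hij => ?_⟩
  obtain ⟨γ, g1, g2, g3⟩ := vt_decomp (Y := Y) hij w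
  obtain ⟨t₁, t₂, P, Q, a1, a2, a3, a4, a5⟩ := f2 ⟨(i, j), hi, hij⟩
  have e2 := d2 ⟨(i, j), hi, hij⟩
  have e3 := d3 ⟨(i, j), hi, hij⟩
  have e4 := fun t ht => H2 ⟨(i, j), hi, hij⟩ _ ((d1 ⟨(i, j), hi, hij⟩).mem (t := t) ht)
  dsimp only at e2 e3
  generalize δ ⟨(i, j), hi, hij⟩ = β at a5 e2 e3 e4
  have nb : ∀ k x, bf (nr Y γ k) (Y.σ γ • x) = bf (Y.e k) x := fun k x => bf_smul _ _ _
  have z : ∀ t ∈ Icc (0 : ℝ) 1, bf (nr Y w i) (Y.σ γ • β t) = 0 := fun t ht => by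
    rcases g2 with e | e <;> simp [e, nb, (e3 t ht).1]
  rw [g1, ← e2]
  refine Tame1_acc (δ := fun t => Y.σ γ • β t) (P := Y.σ γ • P) (Q := Y.σ γ • Q) a2 a3
    (fun t ht => ?_) (g3.imp (fun e t ht => ?_) fun e t ht => ?_)
  · rw [hR.1, ← smul_gp, ← a5 t ht, ← e4 t ⟨a1.le.trans ht.1, ht.2.trans a4.le⟩]
    rfl
  · have m : t ∈ Icc (0 : ℝ) 1 := ⟨by linarith [ht.1], ht.2.trans a4.le⟩
    obtain ⟨r, r0, r1, e'⟩ := (e3 t m).2
    have u : 0 < (2 * t - 1) * η := mul_pos (by linarith [ht.1]) hη.pos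
    refine Tame1_wall hη hij (z t m) ?_ ?_ <;> rw [e, nb, e']
    · positivity
    · nlinarith [m.2, hη.pos]
  · have m : t ∈ Icc (0 : ℝ) 1 := ⟨a1.le.trans ht.1, by linarith [ht.2]⟩
    obtain ⟨r, r0, r1, e'⟩ := (e3 t m).2
    have u : 0 < (1 - 2 * t) * η := mul_pos (by linarith [ht.2]) hη.pos
    refine Tame1_wall hη hij (z t m) ?_ ?_ <;> rw [e, bf_neg, nb, e']
    · nlinarith [mul_pos r0 u]
    · nlinarith [m.1, hη.pos]

theorem Tame1_near {N : V} (hN : Bf N N = 1) {x : X} (h : bf N x = 0) {U : Set X} (hU : U ∈ 𝓝 x) :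
    ∃ y ∈ U, 0 < bf N y := by
  by_contra! a
  have b : x ∈ interior {y | 0 ≤ bf (-N) y} :=
    mem_interior_iff_mem_nhds.2 (Filter.mem_of_superset hU fun y hy => by simpa using a y hy)
  have := pos_of_interior (N := -N) (fun e => by simp [neg_eq_zero.1 e, Bf] at hN) b
  simp [h] at this

theorem Tame1_off (t : Finset V) (ht : ∀ N ∈ t, Bf N N = 1) {U : Set X} (hU : IsOpen U)
    (hn : U.Nonempty) : ∃ y ∈ U, ∀ N ∈ t, bf N y ≠ 0 := by
  classical
  induction t using Finset.induction_on generalizing U with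
  | empty => exact hn.imp fun y hy => ⟨hy, by simp⟩
  | insert M t _ ih =>
    obtain ⟨y, a, b⟩ := ih (fun N h => ht N (Finset.mem_insert_of_mem h))
      (hU.inter (isOpen_ne_fun (continuous_bf M) continuous_const : IsOpen {y | bf M y ≠ 0})) (by
        obtain ⟨x, hx⟩ := hn
        by_cases e : bf M x = 0
        · obtain ⟨y, p, q⟩ := Tame1_near (ht M (Finset.mem_insert_self _ _)) e (hU.mem_nhds hx)
          exact ⟨y, p, q.ne'⟩
        · exact ⟨x, hx, e⟩)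
    exact ⟨y, a.1, Finset.forall_mem_insert .. |>.2 ⟨a.2, b⟩⟩

/-- Access from polygonal walls of the other colour. -/
theorem acc_second {η : ℝ} (hη : Thin Y η) {c : ZMod 2} {F : X ≃ₜ X} (hP : Pl (F '' Tc Y c))
    (w : W g) {i j : I g} (hj : par j = c) (hij : Adj i j) :
    Acc F ((Y.ρ w • ·) '' Rc Y i η) (Y.ρ w • vt Y i j) := by
  obtain ⟨k, -, k2, k3, k4⟩ := Tame1_other Y hij
  have nb : ∀ l, bf (nr Y w l) (Y.ρ w • vt Y i j) = bf (Y.e l) (vt Y i j) := fun l => bf_smul _ _ _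
  have vi := (nb i).trans (vt_spec hij).1
  have vj := (nb j).trans (vt_spec hij).2
  have vk := (vt_pos (Y := Y) hij k2 k3).trans_eq (nb k).symm
  generalize Y.ρ w • vt Y i j = v at vi vj vk
  obtain ⟨t, t1, t2⟩ := hP _ (isCompact_Dsc (F v) 2)
  have hU : ∀ᶠ y in 𝓝 (F v), (y ∈ Dsc (F v) 2 ∧ |bf (nr Y w i) (F.symm y)| < η ∧
      0 < bf (nr Y w k) (F.symm y)) ∧ ∀ N ∈ t, bf N (F v) ≠ 0 → bf N y ≠ 0 := by
    refine (Filter.Eventually.and (mem_interior_iff_mem_nhds.1 ?_) (Filter.Eventually.and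
      (ContinuousAt.eventually_lt (by fun_prop) continuousAt_const ?_)
      (ContinuousAt.eventually_lt continuousAt_const (by fun_prop) ?_))).and
      ((Filter.eventually_all_finset t).2 fun N _ => ?_)
    · change _ ∈ interior (Dsc _ _)
      rw [interior_Dsc]
      exact (cd_self _).trans_lt one_lt_two
    · simpa [vi] using hη.pos
    · simpa using vk
    · by_cases e : bf N (F v) = 0
      · exact Filter.Eventually.of_forall fun y a => (a e).elim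
      · exact ((continuous_bf N).continuousAt.eventually_ne e).mono fun y a _ => a
  obtain ⟨R, r1, r2⟩ := exists_Dsc_subset hU
  have cv : F v ∈ interior (Dsc (F v) R) := by
    rw [interior_Dsc]
    exact (cd_self _).trans_lt r1
  obtain ⟨y, ⟨y1, y2⟩, y3⟩ := Tame1_off t t1 (U := interior (Dsc (F v) R) ∩
      {y | 0 < bf (nr Y w j) (F.symm y)})
    (isOpen_interior.inter (isOpen_lt continuous_const (by fun_prop))) (by
      obtain ⟨x, p, q⟩ := Tame1_near (nr_unit w j) vj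
        (F.continuous.continuousAt.preimage_mem_nhds (isOpen_interior.mem_nhds cv))
      exact ⟨F x, p, by simpa using q⟩)
  have hB : ∀ τ ∈ Icc (0 : ℝ) 1, gp (F v) y τ ∈ Dsc (F v) R := fun τ x =>
    cvx_Dsc _ _ _ (interior_subset cv) _ (interior_subset y1) (seg_eq _ _ ▸ ⟨τ, x, rfl⟩)
  have nz : ∀ τ ∈ Ioc (0 : ℝ) 1, bf (nr Y w j) (F.symm (gp (F v) y τ)) ≠ 0 := fun τ x e => by
    have m := r2 (hB τ (Ioc_subset_Icc_self x))
    obtain ⟨N, n1, n2⟩ := t2 _ ⟨⟨_, ⟨w, j, hj, e⟩, F.apply_symm_apply _⟩, m.1.1⟩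
    obtain ⟨r, r0, -, e'⟩ := bf_gp (F v) y (Ioc_subset_Icc_self x)
    have n3 : bf N (F v) = 0 := by_contra fun a => m.2 N n1 a n2
    rw [e', n3, mul_zero, zero_add] at n2
    exact mul_ne_zero r0.ne' (mul_ne_zero x.1.ne' (y3 N n1)) n2
  have main : ∀ τ ∈ Ioc (0 : ℝ) 1,
      gp (F v) y τ ∈ F '' interior ((Y.ρ w • ·) '' Rc Y i η) := fun τ x => by
    have m := r2 (hB τ (Ioc_subset_Icc_self x))
    have p : 0 < bf (nr Y w j) (F.symm (gp (F v) y τ)) := by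
      by_contra! a
      have cc : Continuous fun τ => bf (nr Y w j) (F.symm (gp (F v) y τ)) :=
        (continuous_bf _).comp (F.symm.continuous.comp (continuous_gp _ _))
      obtain ⟨τ', b, e⟩ := intermediate_value_Icc x.2 cc.continuousOn
        (⟨a, by simpa using le_of_lt y2⟩ : (0 : ℝ) ∈ Icc _ _)
      exact nz τ' ⟨x.1.trans_le b.1, b.2⟩ e
    obtain ⟨a, b⟩ := k4 (fun l => 0 < bf (nr Y w l) (F.symm (gp (F v) y τ))) p m.1.2.2
    exact ⟨_, Tame1_int m.1.2.1 a b, F.apply_symm_apply _⟩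
  refine ⟨y, by simpa using main 1 ⟨one_pos, le_rfl⟩, ?_⟩
  rintro z ⟨a, b⟩
  rw [seg_eq] at a
  obtain ⟨τ, a, rfl⟩ := a
  exact main τ ⟨a.1.lt_of_ne fun e => b (by rw [← e]; exact gp_zero _ _), a.2⟩

end Pool.Agent.MP_4a6971_al.H83

/-!
Making the images of the walls polygonal.
-/

namespace Pool.Agent.MP_4a6971_al.H83

open Set Topology H66

variable {g : ℕ} {Y : Poly g}

theorem Tame_homeo {K : Set X} {γ : ℝ → X} (h : PArc K γ) (φ : X ≃ₜ X) :
    PArc (φ '' K) fun t => φ (γ t) where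
  cont := φ.continuous.comp_continuousOn h.cont
  inj := φ.injective.comp_injOn h.inj
  m0 := mem_image_of_mem φ h.m0
  n0 := by rw [← φ.image_interior, φ.injective.mem_set_image]; exact h.n0
  m1 := mem_image_of_mem φ h.m1
  n1 := by rw [← φ.image_interior, φ.injective.mem_set_image]; exact h.n1
  mid := fun t ht => by rw [← φ.image_interior]; exact mem_image_of_mem φ (h.mid t ht)

theorem Tame_mem (f : Isom) (S : Set X) (x : X) :
    x ∈ interior ((f • ·) '' S) ↔ f⁻¹ • x ∈ interior S := by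
  rw [show (f • ·) '' S = Homeomorph.smul f '' S from rfl, ← Homeomorph.image_interior]
  exact ⟨by rintro ⟨y, hy, rfl⟩; simpa using hy, fun h => ⟨_, h, smul_inv_smul f x⟩⟩

theorem Tame_cvx (f : Isom) {S : Set X} (h : Cvx S) : Cvx ((f • ·) '' S) := by
  rintro _ ⟨a, ha, rfl⟩ _ ⟨b, hb, rfl⟩ y hy
  rw [← smul_inv_smul f y] at hy
  exact ⟨_, h a ha b hb ((smul_mem_seg f).1 hy), smul_inv_smul f y⟩

theorem Tame_int {K : Set X} (h : Cvx K) : Cvx (interior K) := by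
  rw [cvx_iff] at h ⊢
  have e : kl '' interior K = interior (kl '' K) := by
    refine (kl_emb.isOpenMap.image_interior_subset K).antisymm fun z hz => ?_
    obtain ⟨x, -, rfl⟩ := interior_subset hz
    refine mem_image_of_mem _ ?_
    rwa [← preimage_image_eq K kl_emb.injective,
      ← kl_emb.isOpenMap.preimage_interior_eq_interior_preimage kl_emb.continuous]
  rw [e]
  exact h.interior

theorem Tame_side {η : ℝ} (hη : 0 < η) (i : I g) :
    PArc (Rc Y i η) (gp (vt Y i (i - 1)) (vt Y i (i + 1))) := by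
  have n0 : ∀ k, Y.e k ≠ 0 := fun k e => by simpa [e, Bf] using Y.unit k
  have n1 : ∀ j, Adj i j → j ≠ i := fun j h e => h.par_ne (e ▸ rfl)
  have n2 : i - 1 ≠ i + 1 := fun e => vt_ne (Y := Y) i (by rw [e])
  exact parc_of_cuts (Y.unit i) (n0 _) (n0 _) 1 (vt_spec (adj_pred i)).1 (vt_spec (adj_succ i)).1
    (fun x hx => ⟨vt_unique (adj_pred i) hx, fun e => e ▸ (vt_spec (adj_pred i)).2⟩)
    (fun x hx => ⟨vt_unique (adj_succ i) hx, fun e => e ▸ (vt_spec (adj_succ i)).2⟩)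
    (fun x hx => by rwa [Homeomorph.one_apply, hx, abs_zero])
    (vt_pos (adj_succ i) (n1 _ (adj_pred i)) n2) (vt_pos (adj_pred i) (n1 _ (adj_succ i)) n2.symm)

theorem Tame_arc {K : Set X} (hK : IsCompact K) (hc : Cvx K) {γ : ℝ → X} (h : PArc K γ)
    {F : X ≃ₜ X} (h0 : Acc F K (γ 0)) (h1 : Acc F K (γ 1)) : ∃ f : X ≃ₜ X, Supp f K ∧
      ∃ S, IsCompact S ∧ Pl S ∧ ∀ t ∈ Icc (0 : ℝ) 1, F (f (γ t)) ∈ S := by
  obtain ⟨a, ha, ha'⟩ := h0
  obtain ⟨b, hb, hb'⟩ := h1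
  obtain ⟨δ, c1, c2, c3, c4, c5, c6⟩ := polyX (F.isOpenMap _ isOpen_interior)
    ((Tame_int hc).isPreconnected.image F F.continuous.continuousOn) (F.injective.ne h.ne) ha hb
    ha' hb'
  have e0 : F.symm (δ 0) = γ 0 := by rw [c3, F.symm_apply_apply]
  have e1 : F.symm (δ 1) = γ 1 := by rw [c4, F.symm_apply_apply]
  obtain ⟨f, hf, hf'⟩ := arcX hK hc h (γ₂ := fun t => F.symm (δ t))
    ⟨F.symm.continuous.comp_continuousOn c1, F.symm.injective.comp_injOn c2, e0 ▸ h.m0, e0 ▸ h.n0,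
      e1 ▸ h.m1, e1 ▸ h.n1, fun t ht => by
        obtain ⟨y, hy, e⟩ := c5 t ht
        rwa [← e, F.symm_apply_apply]⟩ e0.symm e1.symm
  exact ⟨f, hf, _, isCompact_Icc.image_of_continuousOn c1, c6, fun t ht =>
    ⟨t, ht, by rw [hf' t ht, F.apply_symm_apply]⟩⟩

/-- Polygonal edges. -/
theorem pl_edges {η : ℝ} (hη : Thin Y η) (c : ZMod 2) {F : X ≃ₜ X} (hF : Comm Y F)
    (h : ∀ w i j, par i = c → Adj i j → Acc F ((Y.ρ w • ·) '' Rc Y i η) (Y.ρ w • vt Y i j)) :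
    ∃ F', Red Y F F' ∧ Pl (F' '' Tc Y c) ∧ ∀ x ∈ Tc Y (c + 1), F' x = F x := by
  let K : {i : I g // par i = c} × Bool → Set X := fun p => (Y.ρ (uu p.1.1 p.2) • ·) '' Rc Y p.1.1 η
  have hK : ∀ p, IsCompact (K p) := fun p =>
    (hη.isCompact_Rc _).image (continuous_const_smul _)
  have hc : ∀ p, Cvx (K p) := fun p => Tame_cvx _ (cvx_Reg _ _ _ _)
  have ha : ∀ p, PArc (K p) fun t => Y.ρ (uu p.1.1 p.2) •
      gp (vt Y p.1.1 (p.1.1 - 1)) (vt Y p.1.1 (p.1.1 + 1)) t := fun p =>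
    Tame_homeo (Tame_side (Y := Y) hη.pos p.1.1) (Homeomorph.smul (Y.ρ (uu p.1.1 p.2)))
  choose f hf S hS hP hm using fun p => Tame_arc (hK p) (hc p) (ha p) (F := F)
    (by rw [gp_zero]; exact h _ _ _ p.1.2 (adj_pred _))
    (by rw [gp_one]; exact h _ _ _ p.1.2 (adj_succ _))
  obtain ⟨H, h1, h2, h3⟩ := move (Y := Y) K hK hc
    (fun p => ⟨_, (ha p).mid (1 / 2) ⟨by norm_num, by norm_num⟩⟩) (fun γ p q x hx hy => by
      obtain ⟨a1, a2, a3⟩ := hη.rect_disj' (p.1.2.trans q.1.2.symm) ((Tame_mem _ _ _).1 hx)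
        (interior_subset ((Tame_mem _ _ _).1 hy))
      exact ⟨a1, Prod.ext (Subtype.ext a2) a3⟩) f hf
  refine ⟨F * H, Red.right hF h1, (pl_iUnion fun p =>
    pl_orbit (Y := Y) (hP p) (hS p) subset_rfl).mono ?_, ?_⟩
  · rintro _ ⟨x, ⟨w, i, hi, hx⟩, rfl⟩
    obtain ⟨γ, b, y, hy, rfl, -⟩ := wall_decomp hx
    rw [side, seg_eq] at hy
    obtain ⟨t, ht, rfl⟩ := hy
    refine mem_iUnion.2 ⟨(⟨i, hi⟩, b), γ, _, hm (⟨i, hi⟩, b) t ht, ?_⟩
    rw [hF.mul h1.comm γ, Homeomorph.mul_apply, h2 (⟨i, hi⟩, b) _ ((ha _).mem ht)]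
  · rintro x ⟨w, j, hj, hx⟩
    refine congrArg F (h3 x fun γ p hp => ?_)
    rw [Tame_mem] at hp
    have e : bf (nr Y ((uu p.1.1 p.2)⁻¹ * (γ * w)) j) ((Y.ρ (uu p.1.1 p.2))⁻¹ • Y.σ γ • x) = 0 := by
      rw [nr, map_mul, mul_smul, map_inv, bf_smul, ← nr, ← nr_smul, bf_smul, hx]
    obtain ⟨a1, a2⟩ := hη.rect_near (interior_subset hp) (by rw [e, abs_zero]; exact hη.pos.le)
    have a3 : bf (Y.e j) ((Y.ρ (uu p.1.1 p.2))⁻¹ • Y.σ γ • x) = 0 := by
      rcases a2 with a2 | a2 <;> rw [a2] at e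
      · exact e
      · rwa [bf_neg, neg_eq_zero] at e
    rw [interior_Rc] at hp
    rcases a1 with rfl | a1
    · simp [p.1.2] at hj
    · rcases a1.eq with rfl | rfl
      · exact hp.2.2.ne' a3
      · exact hp.2.1.ne' a3

theorem tame {F : X ≃ₜ X} (hF : Comm Y F) : ∃ F', Red Y F F' ∧ Pl (F' '' TT Y) := by
  obtain ⟨η, hη⟩ := exists_thin Y
  have two : ∀ a : ZMod 2, a ≠ 1 → a = 0 := by decide
  obtain ⟨F₁, r1, h1⟩ := acc_first hη 0 hF
  obtain ⟨F₂, r2, h2, -⟩ := pl_edges hη 0 r1.1 h1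
  obtain ⟨F₃, r3, h3, h4⟩ := pl_edges hη 1 r2.1 fun w i j hi hij =>
    acc_second hη h2 w (two _ fun e => hij.par_ne (hi.trans e.symm)) hij
  refine ⟨F₃, (r1.trans r2).trans r3, (h3.union h2).mono ?_⟩
  rintro _ ⟨x, ⟨w, i, hx⟩, rfl⟩
  by_cases hi : par i = 1
  · exact Or.inl ⟨x, ⟨w, i, hi, hx⟩, rfl⟩
  · exact Or.inr ⟨x, ⟨w, i, two _ hi, hx⟩, (h4 x ⟨w, i, two _ hi, hx⟩).symm⟩

end Pool.Agent.MP_4a6971_al.H83

/-!
Multitwists are induced by homeomorphisms.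
-/

namespace Pool.Agent.MP_4a6971_al.H83

open Set Topology H66

variable {g : ℕ} {Y : Poly g}

theorem Twist1_refl {F : V} (hF : Bf F F = 1) (h0 : F.2.1 = 0) (τ : ℝ) (Q : V) :
    dil τ • Q - (2 * Bf F (dil τ • Q)) • F = dil (-τ) • (Q - (2 * Bf F Q) • F) := by
  obtain ⟨p, b, q⟩ := F
  simp only at h0
  subst h0
  have h : p * q = -1 := by
    simp only [Bf] at hF
    linarith
  simp only [dil_smul, Bf, neg_neg]
  ext <;> simp only [Prod.fst_sub, Prod.snd_sub, Prod.smul_fst, Prod.smul_snd, smul_eq_mul]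
  · linear_combination (Q.1 * Real.exp (-τ) - Q.1 * Real.exp τ) * h
  · ring
  · linear_combination (Q.2.2 * Real.exp τ - Q.2.2 * Real.exp (-τ)) * h

theorem Twist1_conj (f : Isom) (j : I g) (Q : V) :
    f • Y.ρ (s j) • Q = f • Q - (2 * Bf (f • Y.e j) (f • Q)) • f • Y.e j := by
  rw [Y.ρ_s, smul_sub, isom_smul, Bf_isom]

/-- The translations along the wall `i`. Hint: `Poly.hyp`, `Hyp.fr0` give `f` and `t` with
`ρ (tr i) = f⁻¹ * dil t * f` and `f • e i = E0`; put `τ a = f⁻¹ * dil (a * t) * f`. For the last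
clause: `s j` fixes `e i`, inverts `tr i`, so in the frame it exchanges the two null eigenlines. -/
theorem exists_flow (Y : Poly g) (i : I g) : ∃ τ : ℝ → Isom,
    Continuous (fun p : ℝ × X => τ p.1 • p.2) ∧ (∀ a b, τ (a + b) = τ a * τ b) ∧
    τ 1 = Y.ρ (tr i) ∧ (∀ a, τ a • Y.e i = Y.e i) ∧
    (∀ a, Y.ρ (s i) * τ a = τ a * Y.ρ (s i)) ∧
    ∀ a j, Adj i j → Y.ρ (s j) * τ a = τ (-a) * Y.ρ (s j) := by
  obtain ⟨f, t, hf, h0⟩ := (Y.hyp (tr_mem i) fun h => Y.tc_ne i (Subtype.ext h)).fr0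
    ⟨Y.unit i, Y.ρ_tr i⟩
  have e : ∀ (a : ℝ) (Q : V), f • (f⁻¹ * dil (a * t) * f) • Q = dil (a * t) • f • Q := fun a Q => by
    rw [mul_smul, mul_smul, smul_inv_smul]
  refine ⟨fun a => f⁻¹ * dil (a * t) * f, ?_, fun a b => ?_, ?_, fun a => ?_, fun a => ?_,
    fun a j h => ?_⟩
  · refine Continuous.subtype_mk ?_ _
    simp only [mul_smul]
    refine (continuous_isom f⁻¹).comp ?_
    simp only [dil_smul]
    have := (continuous_isom f).comp (continuous_subtype_val.comp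
      (continuous_snd : Continuous fun p : ℝ × X => p.2))
    have c : Continuous fun p : ℝ × X => f • p.2.1 := this
    fun_prop
  · simp only [add_mul, dil_add]
    group
  · refine isom_ext fun Q => smul_left_cancel f ?_
    rw [e, hf.one, one_mul]
  · refine smul_left_cancel f ?_
    rw [e, h0]
    simp [dil_smul, E0]
  · refine isom_ext fun Q => smul_left_cancel f ?_
    rw [mul_smul (Y.ρ (s i)), mul_smul _ (Y.ρ (s i)), e, Twist1_conj, Twist1_conj, e, h0, Bf_E0,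
      Bf_E0]
    simp only [dil_smul, E0]
    ext <;> simp
  · refine isom_ext fun Q => smul_left_cancel f ?_
    rw [mul_smul (Y.ρ (s j)), mul_smul _ (Y.ρ (s j)), e, Twist1_conj, Twist1_conj, e, neg_mul]
    refine Twist1_refl (by rw [Bf_isom, Y.unit]) ?_ _ _
    rw [← Bf_E0, ← h0, Bf_isom, h.bf]

/-- The strip about the wall `i` is covered by translates of the rectangle. Hint: among the points
`u • x`, `u` in the group generated by `s (i-1)` and `s (i+1)`, take one nearest to `oX`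
(as in `Poly.cover`). -/
theorem strip_cover (i : I g) (x : X) :
    ∃ u ∈ Subgroup.closure ({s (i - 1), s (i + 1)} : Set (W g)),
      0 ≤ bf (Y.e (i - 1)) (Y.ρ u • x) ∧ 0 ≤ bf (Y.e (i + 1)) (Y.ρ u • x) := by
  obtain ⟨w, h1, h2⟩ := Set.exists_min_image
    {w | w ∈ Subgroup.closure ({s (i - 1), s (i + 1)} : Set (W g)) ∧ ch o (Y.ρ w • x.1) ≤ ch o x.1}
    (fun w => ch o (Y.ρ w • x.1))
    ((Y.proper H2_o x.2 (ch o x.1)).subset fun w hw => hw.2) ⟨1, Subgroup.one_mem _, by simp⟩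
  have key : ∀ j, s j ∈ Subgroup.closure ({s (i - 1), s (i + 1)} : Set (W g)) →
      0 ≤ bf (Y.e j) (Y.ρ w • x) := fun j hj => by
    change 0 ≤ Bf (Y.e j) (Y.ρ w • x.1)
    by_contra! hc
    have e : ch o (Y.ρ (s j * w) • x.1) =
        ch o (Y.ρ w • x.1) + 2 * Bf (Y.e j) (Y.ρ w • x.1) * Y.h := by
      rw [map_mul, mul_smul, Y.ρ_s, ch, ch, Bf_sub_right, Bf_smul_right, Bf_comm o (Y.e j), Y.cen]
      ring
    have a := mul_neg_of_neg_of_pos hc Y.h_pos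
    have b := h1.2
    have := h2 (s j * w) ⟨Subgroup.mul_mem _ hj h1.1, by linarith⟩
    linarith
  exact ⟨w, h1.1, key _ (Subgroup.subset_closure (by simp)),
    key _ (Subgroup.subset_closure (by simp))⟩

end Pool.Agent.MP_4a6971_al.H83

/-!
Multitwists are induced by homeomorphisms.
-/

namespace Pool.Agent.MP_4a6971_al.H83

open Set Topology H66

variable {g : ℕ} {Y : Poly g}

/-- The amount of shearing at height `r` over the wall. -/
noncomputable def Twist_amt (η : ℝ) (c : ℤ) (r : ℝ) : ℝ := -(c : ℝ) * max 0 (1 - r / η) / 2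

theorem Twist_amt_cont (η : ℝ) (c : ℤ) : Continuous (Twist_amt η c) := by
  unfold Twist_amt
  fun_prop

theorem Twist_amt_far {η : ℝ} (h : 0 < η) (c : ℤ) {r : ℝ} (hr : η ≤ r) : Twist_amt η c r = 0 := by
  have : 1 - r / η ≤ 0 := by
    rw [sub_nonpos, le_div_iff₀ h, one_mul]
    exact hr
  simp [Twist_amt, max_eq_left this]

theorem Twist_amt_neg (η : ℝ) (c : ℤ) (r : ℝ) : Twist_amt η (-c) r = -Twist_amt η c r := by
  simp only [Twist_amt]
  push_cast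
  ring

theorem Twist_amt_zero (η : ℝ) (c : ℤ) : (c : ℝ) + Twist_amt η c 0 = Twist_amt η (-c) 0 := by
  simp only [Twist_amt]
  push_cast
  simp
  ring

theorem Twist_amt_sg (η : ℝ) (δ : ℤˣ) (c : ℤ) (r : ℝ) :
    Twist_amt η (δ * c) r = ((δ : ℤ) : ℝ) * Twist_amt η c r := by
  simp only [Twist_amt]
  push_cast
  ring

/-- Flows along all walls. -/
structure Twist_flow (Y : Poly g) (τ : I g → ℝ → Isom) : Prop where
  cont : ∀ i, Continuous fun p : ℝ × X => τ i p.1 • p.2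
  add : ∀ i a b, τ i (a + b) = τ i a * τ i b
  one : ∀ i, τ i 1 = Y.ρ (tr i)
  fix : ∀ i a, τ i a • Y.e i = Y.e i
  comm : ∀ i a, Y.ρ (s i) * τ i a = τ i a * Y.ρ (s i)
  adj : ∀ i a j, Adj i j → Y.ρ (s j) * τ i a = τ i (-a) * Y.ρ (s j)

theorem Twist_flow.zero {τ : I g → ℝ → Isom} (h : Twist_flow Y τ) (i : I g) : τ i 0 = 1 := by
  have := h.add i 0 0
  rw [add_zero] at this
  exact left_eq_mul.1 this

theorem Twist_flow.int {τ : I g → ℝ → Isom} (h : Twist_flow Y τ) (i : I g) (k : ℤ) :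
    Y.ρ (tr i ^ k) = τ i k := by
  have := (MonoidHom.mk' (fun a : Multiplicative ℝ => τ i a.toAdd)
    fun a b => h.add i _ _).map_zpow (Multiplicative.ofAdd 1) k
  simp only [MonoidHom.mk'_apply, toAdd_zpow, toAdd_ofAdd, zsmul_eq_mul, mul_one] at this
  rw [map_zpow, ← h.one, this]

theorem Twist_flow.bf {τ : I g → ℝ → Isom} (h : Twist_flow Y τ) (i : I g) (a : ℝ) (x : X) :
    bf (Y.e i) (τ i a • x) = bf (Y.e i) x := by
  rw [← bf_smul (τ i a) (Y.e i) x, h.fix]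

theorem Twist_chamber {η : ℝ} (hη : Thin Y η) {τ : I g → ℝ → Isom} (h : Twist_flow Y τ)
    (p : ZMod 2) (n : I g → ℤ) : ∃ A : ℤˣ → X → X, (∀ ε, Continuous (A ε)) ∧
      (∀ ε, ∀ x ∈ Chm Y, ∀ i, par i = p → bf (Y.e i) x ≤ η →
        A ε x = τ i (Twist_amt η (ε * n i) (bf (Y.e i) x)) • x) ∧
      ∀ ε x, (∀ i, par i = p → η ≤ bf (Y.e i) x) → A ε x = x := by
  classical
  obtain ⟨f, hf⟩ : ∃ f : ℤˣ → X → I g → Isom, ∀ ε x i,
      f ε x i = τ i (Twist_amt η (ε * cut0 p n i) (bf (Y.e i) x)) := ⟨_, fun _ _ _ => rfl⟩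
  have f1 : ∀ ε x i, (par i = p → η ≤ bf (Y.e i) x) → f ε x i = 1 := by
    intro ε x i hi
    rw [hf]
    by_cases hp : par i = p
    · rw [Twist_amt_far hη.pos _ (hi hp), h.zero]
    · simp [cut0, hp, Twist_amt, h.zero]
  refine ⟨fun ε x => (Finset.univ.toList.map (f ε x)).prod • x, fun ε => ?_, ?_, ?_⟩
  · generalize (Finset.univ : Finset (I g)).toList = l
    induction l with
    | nil => simpa using continuous_id'
    | cons i l ih =>
      simp only [List.map_cons, List.prod_cons, mul_smul, hf ε _ i]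
      exact (h.cont i).comp (((Twist_amt_cont _ _).comp (continuous_bf _)).prodMk ih)
  · intro ε x hx i hi hb
    dsimp only
    rw [List.prod_map_eq_pow_single i (f ε x) fun j hj _ => f1 ε x j fun hp => ?_,
      List.count_eq_one_of_mem (Finset.nodup_toList _) (by simp), pow_one, hf, cut0, if_pos hi]
    rcases hη.two x hx i j hj.symm (fun a => a.par_ne (hi.trans hp.symm)) with k | k
    · exact absurd hb (not_le.2 k)
    · exact k.le
  · intro ε x hx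
    dsimp only
    rw [List.prod_eq_one, one_smul]
    intro y hy
    obtain ⟨i, -, rfl⟩ := List.mem_map.1 hy
    exact f1 ε x i (hx i)

theorem Twist_inv (p : ZMod 2) (n : I g → ℤ) (ε : ℤˣ) (v : W g) :
    thB p n ε v⁻¹ * thB p n (sg g v⁻¹ * ε) v = 1 := by
  have := thB_mul (p := p) (n := n) ε v v⁻¹
  rw [mul_inv_cancel, thB_one] at this
  exact mul_eq_one_comm.1 this.symm

theorem Twist_sg_sq (w : W g) (ε : ℤˣ) : sg g w * (sg g w * ε) = ε := by
  rw [← mul_assoc, Int.units_mul_self, one_mul]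

theorem Twist_sg_inv (w : W g) : sg g w⁻¹ = sg g w := by
  rw [map_inv, Int.units_inv_eq_self]

theorem Twist_strip {τ : I g → ℝ → Isom} (h : Twist_flow Y τ) {p : ZMod 2} (n : I g → ℤ)
    {i : I g} (hi : par i = p) {u : W g}
    (hu : u ∈ Subgroup.closure ({s (i - 1), s (i + 1)} : Set (W g))) :
    (∀ ε, thB p n ε u = u) ∧ (∀ a, Y.ρ u * τ i a = τ i (((sg g u : ℤ) : ℝ) * a) * Y.ρ u) ∧
      ∀ x : X, bf (Y.e i) (Y.ρ u • x) = bf (Y.e i) x := by
  induction hu using Subgroup.closure_induction with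
  | mem u hu =>
    obtain ⟨j, hj, rfl⟩ : ∃ j, Adj i j ∧ u = s j := by
      rcases hu with rfl | rfl
      · exact ⟨_, adj_pred i, rfl⟩
      · exact ⟨_, adj_succ i, rfl⟩
    refine ⟨fun ε => ?_, fun a => ?_, fun x => ?_⟩
    · rw [thB_s, tB, cut0, if_neg fun a => hj.par_ne (hi.trans a.symm)]
      simp
    · rw [h.adj i a j hj]
      simp
    · rw [bf_s, hj.bf]
      simp
  | one => exact ⟨fun ε => thB_one ε, fun a => by simp, fun x => by simp⟩
  | mul u v _ _ h1 h2 =>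
    refine ⟨fun ε => by rw [thB_mul, h1.1, h2.1], fun a => ?_, fun x => ?_⟩
    · rw [map_mul, mul_assoc, h2.2.1, ← mul_assoc, h1.2.1, map_mul, mul_assoc]
      push_cast
      rw [mul_assoc]
    · rw [map_mul, mul_smul, h1.2.2, h2.2.2]
  | inv u _ h1 =>
    refine ⟨fun ε => ?_, fun a => ?_, fun x => ?_⟩
    · have := Twist_inv p n ε u
      rw [h1.1] at this
      exact eq_inv_of_mul_eq_one_left this
    · have e : ((sg g u : ℤ) : ℝ) * (((sg g u : ℤ) : ℝ) * a) = a := by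
        rw [← mul_assoc, ← Int.cast_mul, ← Units.val_mul, Int.units_mul_self]
        simp
      have := h1.2.1 (((sg g u : ℤ) : ℝ) * a)
      rw [e] at this
      rw [Twist_sg_inv, map_inv, inv_mul_eq_iff_eq_mul, ← mul_assoc, this, mul_inv_cancel_right]
    · rw [← h1.2.2 (Y.ρ u⁻¹ • x), map_inv, smul_inv_smul]

theorem Twist_main {η : ℝ} (hη : Thin Y η) {τ : I g → ℝ → Isom} (h : Twist_flow Y τ)
    (p : ZMod 2) (n : I g → ℤ) : ∃ F : ℤˣ → X → X, (∀ ε, Continuous (F ε)) ∧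
      (∀ ε w x, F (sg g w * ε) (Y.ρ w • x) = Y.ρ (thB p n ε w) • F ε x) ∧
      (∀ ε i z, par i = p → 0 ≤ bf (Y.e i) z → bf (Y.e i) z ≤ η →
        F ε z = τ i (Twist_amt η (ε * n i) (bf (Y.e i) z)) • z) ∧
      ∀ ε, ∀ y ∈ Chm Y, (∀ i, par i = p → η ≤ bf (Y.e i) y) → F ε y = y := by
  obtain ⟨A, A1, A2, A3⟩ := Twist_chamber hη h p n
  have K1 : ∀ y ∈ Chm Y, ∀ v ∈ Subgroup.closure {v | ∃ k, bf (Y.e k) y = 0 ∧ v = s k},
      ∀ ε, A (sg g v * ε) y = Y.ρ (thB p n ε v) • A ε y := by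
    intro y hy v hv
    induction hv using Subgroup.closure_induction with
    | mem v hv =>
      obtain ⟨k, hk, rfl⟩ := hv
      intro ε
      rw [thB_s, tB, sg_s, neg_one_mul, map_mul, mul_smul, h.int, cut0]
      by_cases hp : par k = p
      · have hb : bf (Y.e k) y ≤ η := hk.trans_le hη.pos.le
        rw [if_pos hp, A2 _ y hy k hp hb, A2 _ y hy k hp hb, ← mul_smul (Y.ρ (s k)), h.comm,
          mul_smul, s_smul_of hk, ← mul_smul, ← h.add, hk, Twist_amt_zero]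
        simp
      · rw [if_neg hp, mul_zero, Int.cast_zero, h.zero, one_smul]
        by_cases hf : ∀ i, par i = p → η ≤ bf (Y.e i) y
        · rw [A3 _ y hf, A3 _ y hf, s_smul_of hk]
        · simp only [not_forall, not_le] at hf
          obtain ⟨i, hi, hb⟩ := hf
          have ha : Adj i k := by
            by_contra hc
            rcases hη.two y hy i k (fun e => hp (e ▸ hi)) hc with a | a
            · exact lt_asymm a hb
            · exact lt_asymm a (hk.trans_lt hη.pos)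
          rw [A2 _ y hy i hi hb.le, A2 _ y hy i hi hb.le, ← mul_smul, h.adj i _ k ha, mul_smul,
            s_smul_of hk, ← Twist_amt_neg]
          simp
    | one => intro ε; simp [thB_one]
    | mul u v _ _ h1 h2 =>
      intro ε
      rw [map_mul, mul_assoc, h1, h2, thB_mul, map_mul, mul_smul]
    | inv u _ h1 =>
      intro ε
      have := h1 (sg g u⁻¹ * ε)
      rw [← mul_assoc, ← map_mul, mul_inv_cancel, map_one, one_mul] at this
      rw [this, ← mul_smul, ← map_mul, Twist_inv, map_one, one_smul]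
  choose c hc using cover (Y := Y)
  obtain ⟨F, hF⟩ : ∃ F : ℤˣ → X → X, ∀ ε x, F ε x = Y.ρ (thB p n (sg g (c x) * ε) (c x)⁻¹) •
      A (sg g (c x) * ε) (Y.ρ (c x) • x) := ⟨_, fun _ _ => rfl⟩
  have F1 : ∀ ε w, ∀ y ∈ Chm Y, F (sg g w * ε) (Y.ρ w • y) = Y.ρ (thB p n ε w) • A ε y := by
    intro ε w y hy
    have h1 := hc (Y.ρ w • y)
    rw [hF]
    generalize c (Y.ρ w • y) = u at h1
    rw [← mul_smul, ← map_mul] at h1 ⊢
    obtain ⟨h2, h3⟩ := chm_fix hy h1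
    rw [h2, ← mul_assoc, ← map_mul, K1 y hy _ h3, ← mul_smul, ← map_mul, ← thB_mul,
      inv_mul_cancel_left]
  have F0 : ∀ ε, ∀ y ∈ Chm Y, F ε y = A ε y := fun ε y hy => by
    simpa [thB_one] using F1 ε 1 y hy
  have F2 : ∀ ε w x, F (sg g w * ε) (Y.ρ w • x) = Y.ρ (thB p n ε w) • F ε x := by
    intro ε w x
    obtain ⟨u, y, hy, rfl⟩ : ∃ u, ∃ y ∈ Chm Y, x = Y.ρ u • y :=
      ⟨(c x)⁻¹, _, hc x, by rw [map_inv, inv_smul_smul]⟩
    have h1 := F1 (sg g u * ε) (w * u) y hy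
    have h2 := F1 (sg g u * ε) u y hy
    rw [Twist_sg_sq] at h2
    rw [map_mul, mul_assoc, Twist_sg_sq, map_mul, mul_smul, thB_mul, Twist_sg_sq, map_mul,
      mul_smul] at h1
    rw [h1, h2]
  refine ⟨F, fun ε => ?_, F2, fun ε i z hi h0 h1 => ?_, fun ε y hy hf => by
    rw [F0 ε y hy, A3 ε y hf]⟩
  · refine LocallyFinite.continuous (f := fun w : W g => {x | Y.ρ w • x ∈ Chm Y}) (fun x => ?_)
      (eq_univ_of_forall fun x => mem_iUnion.2 ⟨c x, hc x⟩)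
      (fun w => (isCompact_Chm (Y := Y)).isClosed.preimage (continuous_const_smul _)) fun w => ?_
    · obtain ⟨C, h1, h2⟩ := exists_compact_mem_nhds x
      exact ⟨C, h2, (finite_meet (Y := Y) h1 isCompact_Chm).subset
        fun w ⟨y, hy, hy'⟩ => ⟨y, hy', hy⟩⟩
    · refine ((continuous_const_smul (Y.ρ (thB p n (sg g w * ε) w⁻¹))).comp
        ((A1 (sg g w * ε)).comp (continuous_const_smul (Y.ρ w)))).continuousOn.congr
        fun x hx => ?_
      have := F1 (sg g w * ε) w⁻¹ _ hx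
      rwa [Twist_sg_inv, Twist_sg_sq, map_inv, inv_smul_smul] at this
  · obtain ⟨u, hu, u1, u2⟩ := strip_cover (Y := Y) i z
    obtain ⟨k1, k2, k3⟩ := Twist_strip h n hi hu
    have hz : Y.ρ u • z ∈ Chm Y := by
      have h2 : Y.ρ u • z ∈ Rc Y i η :=
        ⟨by rw [k3, abs_of_nonneg h0]; exact h1, u1, u2⟩
      rcases hη.rect h2 with a | a
      · exact a
      · have h3 := a i
        rw [bf_s, Y.unit, k3] at h3
        rwa [s_smul_of (by rw [k3]; linarith)] at a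
    have h2 := F2 ε u z
    rw [k1, F0 _ _ hz, A2 _ _ hz i hi (by rwa [k3]), k3, Units.val_mul, mul_assoc, Twist_amt_sg,
      ← mul_smul, ← k2, mul_smul] at h2
    exact (smul_left_cancel _ h2).symm

theorem Twist_left {η : ℝ} {τ : I g → ℝ → Isom} (h : Twist_flow Y τ) {p : ZMod 2}
    {n m : I g → ℤ} (hm : m + n = 0) {F G : ℤˣ → X → X}
    (F2 : ∀ ε w x, F (sg g w * ε) (Y.ρ w • x) = Y.ρ (thB p n ε w) • F ε x)
    (F3 : ∀ ε i z, par i = p → 0 ≤ bf (Y.e i) z → bf (Y.e i) z ≤ η →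
      F ε z = τ i (Twist_amt η (ε * n i) (bf (Y.e i) z)) • z)
    (F4 : ∀ ε, ∀ y ∈ Chm Y, (∀ i, par i = p → η ≤ bf (Y.e i) y) → F ε y = y)
    (G2 : ∀ ε w x, G (sg g w * ε) (Y.ρ w • x) = Y.ρ (thB p m ε w) • G ε x)
    (G3 : ∀ ε i z, par i = p → 0 ≤ bf (Y.e i) z → bf (Y.e i) z ≤ η →
      G ε z = τ i (Twist_amt η (ε * m i) (bf (Y.e i) z)) • z)
    (G4 : ∀ ε, ∀ y ∈ Chm Y, (∀ i, par i = p → η ≤ bf (Y.e i) y) → G ε y = y)
    (ε : ℤˣ) (x : X) : G ε (F ε x) = x := by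
  obtain ⟨v, hv⟩ := cover (Y := Y) x
  obtain ⟨u, y, hy, rfl⟩ : ∃ u, ∃ y ∈ Chm Y, x = Y.ρ u • y :=
    ⟨v⁻¹, _, hv, by rw [map_inv, inv_smul_smul]⟩
  obtain ⟨δ, rfl⟩ : ∃ δ, ε = sg g u * δ := ⟨sg g u * ε, (Twist_sg_sq u ε).symm⟩
  have h1 := G2 δ (thB p n δ u) (F δ y)
  rw [sg_thB, thB_thB, hm, thB_zero] at h1
  rw [F2, h1]
  congr 1
  by_cases hf : ∀ i, par i = p → η ≤ bf (Y.e i) y
  · rw [F4 δ y hy hf, G4 δ y hy hf]
  · simp only [not_forall, not_le] at hf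
    obtain ⟨i, hi, hb⟩ := hf
    have e : m i = -n i := eq_neg_of_add_eq_zero_left (congrFun hm i)
    rw [F3 δ i y hi (hy i) hb.le, G3 δ i _ hi (by rw [h.bf]; exact hy i) (by rw [h.bf]; exact hb.le),
      h.bf, ← mul_smul, ← h.add, e, mul_neg, Twist_amt_neg, neg_add_cancel, h.zero, one_smul]

/-- Hint: `χ r = max 0 (1 - r / η)`. On the chamber put
`A ε x = τ i (-(ε * n i) * χ (bf (e i) x) / 2) • x` if `bf (e i) x ≤ η` for some `i` of colour `p`
(at most one by `Thin.two`) and `x` otherwise; this is the composition over all `i` of colour `p`.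
Define `F ε (w • x) = thB p n (sg w * ε) w • A (sg w * ε) x`; it is well defined (`chm_fix`),
continuous (locally finite closed cover), and `F (sg w * ε) (w • x) = thB p n ε w • F ε x`. For
`0 ≤ bf (e i) z ≤ η`, `par i = p`, the formula for `A` holds on the whole half strip
(`strip_cover`, `Thin.rect`); with `thB_thB` this shows that the map for `-n` is the inverse. -/
theorem exists_twist_homeo (Y : Poly g) (p : ZMod 2) (n : I g → ℤ) :
    ∃ F : X ≃ₜ X, ∀ (γ : Gam g) x, F (Y.σ γ • x) = Y.σ (twG p n 1 γ) • F x := by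
  obtain ⟨η, hη⟩ := exists_thin Y
  choose τ t1 t2 t3 t4 t5 t6 using exists_flow Y
  have h : Twist_flow Y τ := ⟨t1, t2, t3, t4, t5, t6⟩
  obtain ⟨F, F1, F2, F3, F4⟩ := Twist_main hη h p n
  obtain ⟨G, G1, G2, G3, G4⟩ := Twist_main hη h p (-n)
  refine ⟨⟨⟨F 1, G 1, Twist_left h (neg_add_cancel n) F2 F3 F4 G2 G3 G4 1,
    Twist_left h (add_neg_cancel n) G2 G3 G4 F2 F3 F4 1⟩, F1 1, G1 1⟩, fun γ x => ?_⟩
  have := F2 1 γ x
  rw [sg_gam, one_mul] at this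
  exact this

end Pool.Agent.MP_4a6971_al.H83

/-!
The hyperbolic plane covers the surface, with the surface group as deck group.
-/

namespace Pool.Agent.MP_4a6971_al.H83

open Set Topology Metric H66 Mcg

variable {g : ℕ}

theorem Cover_fib {α β : I g → ℝ → ℂ} (h : Cyc α) (h' : Cyc β) {i j : I g} {t t' : ℝ}
    (ht : t ∈ Icc (0 : ℝ) 1) (ht' : t' ∈ Icc (0 : ℝ) 1) (e : α i t = α j t') : β i t = β j t' := by
  rcases h.fib i j t ht t' ht' e with ⟨rfl, rfl⟩ | ⟨rfl, rfl, rfl⟩ | ⟨rfl, rfl, rfl⟩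
  · rfl
  · exact h'.next i
  · exact (h'.next j).symm

/-- Two cyclic chains are matched by a continuous bijection. -/
theorem Cyc.exists_match {α β : I g → ℝ → ℂ} (h : Cyc α) (h' : Cyc β) :
    ∃ b : ℂ → ℂ, ContinuousOn b (⋃ i, α i '' Icc 0 1) ∧
      BijOn b (⋃ i, α i '' Icc 0 1) (⋃ i, β i '' Icc 0 1) ∧
      ∀ i, ∀ t ∈ Icc (0 : ℝ) 1, b (α i t) = β i t := by
  have ex : ∀ z : ℂ, ∃ y : ℂ, ∀ i, ∀ t ∈ Icc (0 : ℝ) 1, α i t = z → y = β i t := fun z => by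
    by_cases a : ∃ i, ∃ t ∈ Icc (0 : ℝ) 1, α i t = z
    · obtain ⟨i, t, ht, rfl⟩ := a
      exact ⟨β i t, fun j t' ht' e => Cover_fib h h' ht ht' e.symm⟩
    · exact ⟨0, fun i t ht e => (a ⟨i, t, ht, e⟩).elim⟩
  choose b hb using ex
  have hb' : ∀ i, ∀ t ∈ Icc (0 : ℝ) 1, b (α i t) = β i t := fun i t ht => hb _ i t ht rfl
  refine ⟨b, ?_, ⟨?_, ?_, ?_⟩, hb'⟩
  · rw [continuousOn_iff_isClosed]
    intro C hC
    refine ⟨⋃ i, α i '' (Icc 0 1 ∩ β i ⁻¹' C), isClosed_iUnion_of_finite fun i => ?_, ?_⟩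
    · have c1 : IsCompact (Icc (0 : ℝ) 1 ∩ β i ⁻¹' C) :=
        isCompact_Icc.of_isClosed_subset
          ((h'.cont i).preimage_isClosed_of_isClosed isClosed_Icc hC) inter_subset_left
      exact (c1.image_of_continuousOn ((h.cont i).mono inter_subset_left)).isClosed
    · ext z
      simp only [mem_inter_iff, mem_preimage, mem_iUnion, mem_image]
      constructor
      · rintro ⟨a, i, t, ht, rfl⟩
        exact ⟨⟨i, t, ⟨ht, by rwa [hb' i t ht] at a⟩, rfl⟩, i, t, ht, rfl⟩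
      · rintro ⟨⟨i, t, ⟨ht, a⟩, rfl⟩, c⟩
        exact ⟨by rwa [hb' i t ht], c⟩
  · intro z hz
    obtain ⟨i, t, ht, rfl⟩ := mem_iUnion.1 hz
    exact mem_iUnion.2 ⟨i, t, ht, (hb' i t ht).symm⟩
  · intro z hz z' hz' e
    obtain ⟨i, t, ht, rfl⟩ := mem_iUnion.1 hz
    obtain ⟨j, t', ht', rfl⟩ := mem_iUnion.1 hz'
    rw [hb' i t ht, hb' j t' ht'] at e
    exact Cover_fib h' h ht ht' e
  · intro z hz
    obtain ⟨i, t, ht, rfl⟩ := mem_iUnion.1 hz
    exact ⟨α i t, mem_iUnion.2 ⟨i, t, ht, rfl⟩, hb' i t ht⟩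

theorem Cover_interior (K : Set X) : interior (kl '' K) = kl '' interior K := by
  refine Subset.antisymm (fun z hz => ?_) (kl_emb.isOpenMap.image_interior_subset K)
  obtain ⟨x, -, rfl⟩ := interior_subset hz
  refine ⟨x, ?_, rfl⟩
  have a : x ∈ interior (kl ⁻¹' (kl '' K)) :=
    preimage_interior_subset_interior_preimage kl_emb.continuous hz
  rwa [preimage_image_eq _ kl_emb.injective] at a

theorem Cover_side (Y : Poly g) (i : I g) {t : ℝ} (ht : t ∈ Icc (0 : ℝ) 1) :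
    gp (vt Y i (i - 1)) (vt Y i (i + 1)) t ∈ side Y i := by
  rw [side, seg_eq]
  exact ⟨t, ht, rfl⟩

theorem Cover_ends (Y : Poly g) (i : I g) {t t' : ℝ} (ht : t ∈ Icc (0 : ℝ) 1)
    (ht' : t' ∈ Icc (0 : ℝ) 1) (e : gp (vt Y i (i - 1)) (vt Y i (i + 1)) t =
      gp (vt Y (i + 1) (i + 1 - 1)) (vt Y (i + 1) (i + 1 + 1)) t') : t = 1 ∧ t' = 0 := by
  have a := (mem_side.1 (Cover_side Y i ht)).1
  have b := (mem_side.1 (Cover_side Y (i + 1) ht')).1
  have c := vt_unique (adj_succ i) a (e ▸ b)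
  refine ⟨gp_inj (vt_ne i) ht (by simp) (c.trans (gp_one _ _).symm),
    gp_inj (vt_ne (Y := Y) (i + 1)) ht' (by simp) ?_⟩
  rw [gp_zero, ← e, c, add_sub_cancel_right, vt_comm (adj_succ i)]

theorem cyc_sides (Y : Poly g) :
    Cyc (fun i t => kl (gp (vt Y i (i - 1)) (vt Y i (i + 1)) t)) ∧
      (⋃ i, (fun t => kl (gp (vt Y i (i - 1)) (vt Y i (i + 1)) t)) '' Icc 0 1) =
        frontier (kl '' Chm Y) := by
  refine ⟨⟨fun i => (kl_emb.continuous.comp (continuous_gp _ _)).continuousOn, fun i => ?_,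
    fun i j t ht t' ht' e => ?_⟩, ?_⟩
  · rw [gp_one, gp_zero, add_sub_cancel_right, vt_comm (adj_succ i)]
  · have e' := kl_emb.injective e
    by_cases a : j = i
    · subst a
      exact Or.inl ⟨rfl, gp_inj (vt_ne j) ht ht' e'⟩
    by_cases b : j = i + 1
    · subst b
      exact Or.inr (Or.inl ⟨rfl, Cover_ends Y i ht ht' e'⟩)
    by_cases c : i = j + 1
    · subst c
      exact Or.inr (Or.inr ⟨rfl, (Cover_ends Y j ht' ht e'.symm).symm⟩)
    have h1 := (mem_side.1 (Cover_side Y i ht)).1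
    have h2 := (mem_side.1 (Cover_side Y j ht')).1
    rw [← e'] at h2
    have := Y.add_pos a b c (gp (vt Y i (i - 1)) (vt Y i (i + 1)) t).2.fut
    unfold bf at h1 h2
    rw [h1, h2] at this
    simp at this
  · rw [(isCompact_Chm.image kl_emb.continuous).isClosed.frontier_eq, Cover_interior,
      ← image_sdiff kl_emb.injective]
    ext z
    simp only [mem_iUnion, mem_image, interior_Chm, mem_sdiff, mem_ofPred_eq, not_forall, not_lt]
    constructor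
    · rintro ⟨i, t, ht, rfl⟩
      have a := Cover_side Y i ht
      exact ⟨_, ⟨side_subset i a, i, (mem_side.1 a).1.le⟩, rfl⟩
    · rintro ⟨x, ⟨a, i, b⟩, rfl⟩
      have c : x ∈ side Y i := mem_side.2 ⟨le_antisymm b (a i), a _, a _⟩
      rw [side, seg_eq] at c
      obtain ⟨t, ht, rfl⟩ := c
      exact ⟨i, t, ht, rfl⟩

/-- The chamber is mapped to a quarter of the surface. -/
theorem Cover_quarter (Y : Poly g) :
    ∃ (σ : Multiplicative (ZMod 2 × ZMod 2) →* (Surface g ≃ₜ Surface g)) (Ψ : X → Surface g),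
      ContinuousOn Ψ (Chm Y) ∧ (∀ y, ∃ κ, ∃ x ∈ Chm Y, σ κ (Ψ x) = y) ∧
      (∀ i, ∀ x ∈ Chm Y, bf (Y.e i) x = 0 → σ (cls g (s i)) (Ψ x) = Ψ x) ∧
      ∀ κ, ∀ x ∈ Chm Y, ∀ x' ∈ Chm Y, σ κ (Ψ x) = Ψ x' →
        x = x' ∧ ∃ u : W g, cls g u = κ ∧ Y.ρ u • x = x := by
  obtain ⟨σ, Φ, α, hΦ, hα, hs, hsur, hfix, hfib⟩ := exists_model g
  obtain ⟨hβ, hf⟩ := cyc_sides Y
  obtain ⟨b, b1, b2, b3⟩ := hβ.exists_match hα
  rw [hf] at b1 b2
  rw [hs, ← frontier_closedBall (0 : ℂ) one_ne_zero] at b2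
  obtain ⟨h, h1, -, h3⟩ := exists_cone (isCompact_Chm.image kl_emb.continuous) (cvx_iff.1 cvx_Chm)
    ⟨kl oX, Cover_interior _ ▸ ⟨oX, oX_mem, rfl⟩⟩ (isCompact_closedBall (0 : ℂ) 1)
    (convex_closedBall 0 1) ⟨0, by rw [interior_closedBall _ one_ne_zero]; simp⟩ b1 b2
  have hm : ∀ x ∈ Chm Y, h (kl x) ∈ closedBall (0 : ℂ) 1 := fun x hx =>
    h1 ▸ ⟨_, ⟨x, hx, rfl⟩, rfl⟩
  have hside : ∀ i, ∀ t ∈ Icc (0 : ℝ) 1,
      h (kl (gp (vt Y i (i - 1)) (vt Y i (i + 1)) t)) = α i t := fun i t ht => by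
    rw [h3 (hf ▸ mem_iUnion.2 ⟨i, t, ht, rfl⟩), b3 i t ht]
  refine ⟨σ, fun x => Φ (h (kl x)),
    hΦ.comp (h.continuous.comp kl_emb.continuous).continuousOn hm, fun y => ?_,
    fun i x hx e => ?_, fun κ x hx x' hx' e => ?_⟩
  · obtain ⟨κ, z, hz, rfl⟩ := hsur y
    rw [← h1] at hz
    obtain ⟨_, ⟨x, hx, rfl⟩, rfl⟩ := hz
    exact ⟨κ, x, hx, rfl⟩
  · have c : x ∈ side Y i := mem_side.2 ⟨e, hx _, hx _⟩
    rw [side, seg_eq] at c
    obtain ⟨t, ht, rfl⟩ := c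
    simp only [hside i t ht]
    exact hfix i t ht
  · obtain ⟨e1, e2⟩ := hfib κ _ (hm x hx) _ (hm x' hx') e
    refine ⟨kl_emb.injective (h.injective e1), ?_⟩
    clear e
    induction e2 using Subgroup.closure_induction with
    | mem c hc =>
      obtain ⟨i, ⟨t, ht, a⟩, rfl⟩ := hc
      rw [← hside i t ht] at a
      have a' := kl_emb.injective (h.injective a)
      exact ⟨s i, rfl, s_smul_of (a' ▸ (mem_side.1 (Cover_side Y i ht)).1)⟩
    | one => exact ⟨1, map_one _, by simp⟩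
    | mul c d _ _ hc hd =>
      obtain ⟨u, rfl, a⟩ := hc
      obtain ⟨v, rfl, a'⟩ := hd
      exact ⟨u * v, map_mul _ _ _, by rw [map_mul, mul_smul, a', a]⟩
    | inv c _ hc =>
      obtain ⟨u, rfl, a⟩ := hc
      exact ⟨u⁻¹, map_inv _ _, by rw [map_inv, inv_smul_eq_iff, a]⟩

theorem Cover_cls_surj (κ : Multiplicative (ZMod 2 × ZMod 2)) : ∃ w : W g, cls g w = κ := by
  have p0 : par (0 : I g) = 0 := map_zero _
  have p1 : par (1 : I g) = 1 := map_one _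
  have all : ∀ k : Multiplicative (ZMod 2 × ZMod 2), k = 1 ∨
      k = Multiplicative.ofAdd (1 + 0, 0) ∨ k = Multiplicative.ofAdd (1 + 1, 1) ∨
      k = Multiplicative.ofAdd (1 + 0, 0) * Multiplicative.ofAdd (1 + 1, 1) := by decide
  rcases all κ with rfl | rfl | rfl | rfl
  · exact ⟨1, map_one _⟩
  · exact ⟨s 0, by rw [cls_s, p0]⟩
  · exact ⟨s 1, by rw [cls_s, p1]⟩
  · exact ⟨s 0 * s 1, by rw [map_mul, cls_s, cls_s, p0, p1]⟩

theorem exists_cover (Y : Poly g) : ∃ π : X → Surface g,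
    @IsQuotientCoveringMap X (Surface g) _ _ π (Gam g) _ (MulAction.compHom X Y.σ) := by
  obtain ⟨σ, Ψ, hc, hsur, hfix, hfib⟩ := Cover_quarter Y
  have hst : ∀ x ∈ Chm Y, ∀ u : W g, Y.ρ u • x ∈ Chm Y →
      Y.ρ u • x = x ∧ σ (cls g u) (Ψ x) = Ψ x := fun x hx u hu => by
    obtain ⟨a, b⟩ := chm_fix hx hu
    refine ⟨a, ?_⟩
    clear a hu
    induction b using Subgroup.closure_induction with
    | mem c hc =>
      obtain ⟨k, e, rfl⟩ := hc
      exact hfix k x hx e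
    | one => simp
    | mul c d _ _ hc hd => rw [map_mul, map_mul, Homeomorph.mul_apply, hd, hc]
    | inv c _ hc =>
      rw [map_inv, map_inv]
      exact (σ (cls g c)).symm_apply_eq.2 hc.symm
  choose w hw using cover (Y := Y)
  obtain ⟨π, hπ⟩ : ∃ π : X → Surface g, ∀ (u : W g), ∀ y ∈ Chm Y,
      π (Y.ρ u • y) = σ (cls g u) (Ψ y) := by
    refine ⟨fun x => σ (cls g (w x)⁻¹) (Ψ (Y.ρ (w x) • x)), fun u y hy => ?_⟩
    have a := hw (Y.ρ u • y)
    dsimp only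
    generalize w (Y.ρ u • y) = v at a ⊢
    rw [← mul_smul, ← map_mul] at a ⊢
    obtain ⟨b, c⟩ := hst y hy _ a
    rw [b]
    nth_rewrite 1 [← c]
    rw [← Homeomorph.mul_apply, ← map_mul, ← map_mul, inv_mul_cancel_left]
  have dec : ∀ x, ∃ (u : W g), ∃ y ∈ Chm Y, x = Y.ρ u • y := fun x =>
    ⟨(w x)⁻¹, _, hw x, by rw [map_inv, inv_smul_smul]⟩
  have cont : Continuous π := by
    refine LocallyFinite.continuous (f := fun u : W g => {x | Y.ρ u • x ∈ Chm Y}) (fun x => ?_)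
      (eq_univ_of_forall fun x => mem_iUnion.2 ⟨w x, hw x⟩)
      (fun u => isCompact_Chm.isClosed.preimage (continuous_const_smul _)) fun u => ?_
    · obtain ⟨N, n1, n2⟩ := exists_compact_mem_nhds x
      exact ⟨N, n2, (finite_meet n1 isCompact_Chm).subset fun u ⟨y, a, b⟩ => ⟨y, b, a⟩⟩
    · refine (((σ (cls g u⁻¹)).continuous.comp_continuousOn
        (hc.comp (continuous_const_smul (Y.ρ u)).continuousOn fun x hx => hx))).congr
        fun x hx => ?_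
      have := hπ u⁻¹ _ hx
      rwa [map_inv, inv_smul_smul] at this
  choose v hv using Cover_cls_surj (g := g)
  have hC : IsCompact (⋃ κ, (Y.ρ (v κ) • ·) '' Chm Y) :=
    isCompact_iUnion fun κ => isCompact_Chm.image (continuous_const_smul _)
  have quo : IsQuotientMap π := by
    have := isCompact_iff_compactSpace.1 hC
    have c2 : Continuous (π ∘ ((↑) : (⋃ κ, (Y.ρ (v κ) • ·) '' Chm Y : Set X) → X)) :=
      cont.comp continuous_subtype_val
    refine IsQuotientMap.of_comp continuous_subtype_val cont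
      (c2.isClosedMap.isQuotientMap c2 fun y => ?_)
    obtain ⟨κ, x, hx, rfl⟩ := hsur y
    exact ⟨⟨_, mem_iUnion.2 ⟨κ, x, hx, rfl⟩⟩, (hπ _ x hx).trans (by rw [hv])⟩
  let _ := MulAction.compHom X Y.σ
  refine ⟨π, { quo with
    continuous_const_smul := fun γ => continuous_const_smul (Y.σ γ)
    apply_eq_iff_mem_orbit := fun {x x'} => ⟨fun e => ?_, ?_⟩
    disjoint := fun x => ?_ }⟩
  · obtain ⟨u, y, hy, rfl⟩ := dec x
    obtain ⟨u', y', hy', rfl⟩ := dec x'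
    rw [hπ u y hy, hπ u' y' hy'] at e
    obtain ⟨rfl, k, k1, k2⟩ := hfib ((cls g u')⁻¹ * cls g u) y hy y' hy' (by
      rw [map_mul, Homeomorph.mul_apply, e, map_inv]
      exact (σ (cls g u')).symm_apply_apply _)
    refine ⟨⟨u * k⁻¹ * u'⁻¹, ?_⟩, ?_⟩
    · rw [MonoidHom.mem_ker, map_mul, map_mul, map_inv, map_inv, k1]
      simp
    · change Y.ρ (u * k⁻¹ * u'⁻¹) • Y.ρ u' • y = _
      rw [← mul_smul, ← map_mul, inv_mul_cancel_right, map_mul, mul_smul, map_inv,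
        inv_smul_eq_iff.2 k2.symm]
  · rintro ⟨γ, rfl⟩
    obtain ⟨u, y, hy, rfl⟩ := dec x'
    change π (Y.ρ γ • Y.ρ u • y) = _
    rw [← mul_smul, ← map_mul, hπ _ y hy, hπ _ y hy, map_mul, γ.2, one_mul]
  · obtain ⟨R', R, C, -, r1, r2, -⟩ := exists_discs Y
    refine ⟨Dsc x R, mem_interior_iff_mem_nhds.1 ?_, ?_⟩
    · rw [interior_Dsc]
      exact (cd_self x).trans_lt r1
    · rintro γ ⟨_, ⟨y, a, rfl⟩, b⟩
      exact r2 x γ y a b

end Pool.Agent.MP_4a6971_al.H83
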