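import Pool.Agent.MP_4a6971_al.H83.Move
import Pool.Agent.MP_4a6971_al.H83.Tame

/-!
Moving the walls of one colour exactly onto themselves.
-/

namespace Pool.Agent.MP_4a6971_al.H83

open Set Topology H66

variable {g : ℕ} (Y : Poly g)

/-- The perpendicular cut of the wall `w L_i` near its vertex with `w L_j`. -/
noncomputable def cut (μ : ℝ) (w : W g) (i j : I g) : V := nr Y w j + μ • (Y.ρ w • vt Y i j).1

/-- The images of the walls of colour `c` meet each cut in exactly one point. -/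
def Once (c : ZMod 2) (μ : ℝ) (F : X ≃ₜ X) : Prop :=
  ∀ w i j, par i = c → Adj i j → ∃! x, bf (nr Y w i) x = 0 ∧ bf (cut Y μ w i j) (F x) = 0

variable {Y}

theorem bf_cut (μ : ℝ) (w : W g) (i j : I g) (x : X) :
    bf (cut Y μ w i j) x = bf (nr Y w j) x - μ * cd (Y.ρ w • vt Y i j) x := bf_add_smul _ _ _ _

theorem nr_orth {i j : I g} (h : Adj i j) (w : W g) : Bf (nr Y w i) (nr Y w j) = 0 := by
  simpa [nr] using h.bf

theorem nr_vt {i j : I g} (h : Adj i j) (w : W g) :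
    bf (nr Y w i) (Y.ρ w • vt Y i j) = 0 ∧ bf (nr Y w j) (Y.ρ w • vt Y i j) = 0 := by
  simpa [nr] using vt_spec h

theorem cd_sq {i j : I g} (h : Adj i j) (w : W g) (y : X) :
    cd (Y.ρ w • vt Y i j) y ^ 2 = 1 + bf (nr Y w i) y ^ 2 + bf (nr Y w j) y ^ 2 := by
  have := cd_frame (nr_unit (Y := Y) w i) (nr_unit w j) (nr_orth h w) (nr_vt h w).1 (nr_vt h w).2 y y
  rw [cd_self] at this
  linarith

theorem bf_seg_zero {N : V} {a b y : X} (h : y ∈ seg a b) (ha : bf N a = 0) (hb : bf N b = 0) :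
    bf N y = 0 := by
  obtain ⟨s, t, -, -, -, -, e, -⟩ := seg_coef h
  simp [e, ha, hb]

theorem bf_seg_abs {N : V} {a b y : X} {m : ℝ} (h : y ∈ seg a b) (ha : |bf N a| ≤ m)
    (hb : |bf N b| ≤ m) : |bf N y| ≤ m :=
  cvx_strip N m a ha b hb h

theorem mem_seg_of_sign {E A : V} (hE : Bf E E = 1) {a b v : X} (ha : bf E a = 0) (hb : bf E b = 0)
    (hv : bf E v = 0) (h : bf A a * bf A b < 0) (h' : bf A v = 0) : v ∈ seg a b := by
  have ne : a ≠ b := by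
    rintro rfl
    nlinarith [mul_self_nonneg (bf A a)]
  obtain ⟨s, t, e⟩ := span_two hE ne ha hb hv
  have e1 : s * bf A a + t * bf A b = 0 := by simpa [bf, e] using h'
  have e2 : 0 < s * a.1.1 + t * b.1.1 := by simpa [e] using v.2.2
  have p1 := a.2.2
  have p2 := b.2.2
  have k : 0 ≤ s * t := by
    by_contra! c
    have : (s * bf A a) * (t * bf A b) ≤ 0 := by
      rw [show t * bf A b = -(s * bf A a) by linarith]
      nlinarith [mul_self_nonneg (s * bf A a)]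
    nlinarith [mul_pos_of_neg_of_neg c h]
  have k1 : s = 0 ↔ t = 0 := by
    constructor <;> rintro rfl
    · exact by_contra fun c => by
        have : bf A b = 0 := by simpa [c] using e1
        simp [this] at h
    · exact by_contra fun c => by
        have : bf A a = 0 := by simpa [c] using e1
        simp [this] at h
  refine ⟨s, t, ?_, ?_, e⟩ <;> by_contra! c
  · have : t ≤ 0 := by nlinarith
    nlinarith
  · have : s ≤ 0 := by nlinarith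
    nlinarith

theorem seg_zero_unique {N : V} {a b : X} (h : bf N a * bf N b < 0) :
    ∃! y, y ∈ seg a b ∧ bf N y = 0 := by
  refine existsUnique_of_exists_of_unique ?_ fun y z hy hz => by_contra fun ne => ?_
  · have hc := (cvx_seg a b).isPreconnected
    rcases mul_neg_iff.1 h with c | c
    · obtain ⟨y, h1, h2⟩ := hc.intermediate_value (right_mem_seg a b) (left_mem_seg a b)
        (continuous_bf N).continuousOn ⟨c.2.le, c.1.le⟩
      exact ⟨y, h1, h2⟩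
    · obtain ⟨y, h1, h2⟩ := hc.intermediate_value (left_mem_seg a b) (right_mem_seg a b)
        (continuous_bf N).continuousOn ⟨c.1.le, c.2.le⟩
      exact ⟨y, h1, h2⟩
  · obtain ⟨E, h1, h2, h3⟩ := exists_line a b
    obtain ⟨t, rfl⟩ := eq_smul_of_two h1 ne (bf_seg_zero hy.1 h2 h3) (bf_seg_zero hz.1 h2 h3)
      hy.2 hz.2
    simp only [bf, Bf_smul_left] at h h2
    simp [h2] at h

theorem smul_mem_Dsc (f : Isom) {c x : X} {R : ℝ} : f • x ∈ Dsc (f • c) R ↔ x ∈ Dsc c R := by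
  simp [Dsc]

theorem Exact1_disj {η : ℝ} (hη : Thin Y η) (γ : Gam g) (i j : I g) (x : X)
    (h1 : x ∈ Dsc (vt Y i (i + 1)) √(1 + η ^ 2))
    (h2 : Y.σ γ • x ∈ Dsc (vt Y j (j + 1)) √(1 + η ^ 2)) : γ = 1 ∧ i = j := by
  obtain ⟨a, b⟩ := hη.corner_disj (adj_succ i) (adj_succ j) (w := γ)
    (Dsc_subset_Cb (adj_succ i) hη.pos.le h1) (Dsc_subset_Cb (adj_succ j) hη.pos.le h2)
  refine ⟨gam_eq_one (adj_succ i) b, a.elim And.left fun c => ?_⟩
  have := Y.hg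
  exact absurd (by push_cast; linear_combination c.2 - c.1) (natCast_ne_zero (g := g) (m := 2)
    two_pos (by omega))

theorem Exact1_vt {i j : I g} (h : Adj i j) (w : W g) :
    ∃ (γ : Gam g) (k : I g), Y.ρ w • vt Y i j = Y.σ γ • vt Y k (k + 1) := by
  obtain ⟨γ, a, -⟩ := vt_decomp (Y := Y) h w
  rcases h with rfl | rfl
  · exact ⟨γ, i, a⟩
  · exact ⟨γ, j, a.trans (by rw [vt_comm (adj_succ j)])⟩

/-- After the step in the discs about the vertices every cut is crossed once. -/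
theorem once_of_small {η : ℝ} (hη : Thin Y η) : ∃ μ₀ > 0, ∀ μ, 0 < μ → μ ≤ μ₀ → ∀ ε, 0 < ε →
    ε ≤ μ / 4 → ∀ F, Comm Y F → Pl (F '' TT Y) → (∀ c, Bd Y c F ε) →
      ∃ F', Red Y F F' ∧ (∀ c, Bd Y c F' ε) ∧ ∀ c, Once Y c μ F' := by
  have p0 := hη.pos
  refine ⟨min (η / 4) (1 / 4), by positivity, fun μ m0 m1 ε e0 e1 F hF hP hB => ?_⟩
  obtain ⟨m1, m2⟩ := le_min_iff.1 m1
  set R := √(1 + η ^ 2) with hR
  have R2 : R ^ 2 = 1 + η ^ 2 := Real.sq_sqrt (by positivity)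
  have R0 : 0 ≤ R := Real.sqrt_nonneg _
  have R1 : 1 < R := by nlinarith
  have q1 : μ ^ 2 ≤ η ^ 2 / 16 := by nlinarith
  have q2 : ε ^ 2 ≤ μ ^ 2 / 16 := by nlinarith
  have q7 : μ ^ 2 ≤ 1 / 16 := (pow_le_pow_left₀ m0.le m2 2).trans_eq (by norm_num)
  have q4 : 0 < η ^ 2 := by positivity
  have q3 : μ ^ 2 * η ^ 2 ≤ η ^ 2 / 16 := by
    linarith only [mul_le_mul_of_nonneg_right q7 q4.le]
  have q5 : (μ * R) ^ 2 = μ ^ 2 + μ ^ 2 * η ^ 2 := by rw [mul_pow, R2]; ring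
  have q6 : μ < μ * R := lt_mul_of_one_lt_right m0 R1
  obtain ⟨F', r, -, h1, h2⟩ := step (fun i => vt Y i (i + 1)) R1 (Exact1_disj hη) hF hP
  have key : ∀ w k x, bf (nr Y w k) x = 0 → (F' x = F x ∧ ∀ (γ : Gam g) i,
      R ≤ cd (Y.σ γ • vt Y i (i + 1)) (F x)) ∨ ∃ (γ : Gam g) (i : I g) (a b : X),
        bf (nr Y w k) a = 0 ∧ bf (nr Y w k) b = 0 ∧ Comp F (Y.σ γ • vt Y i (i + 1)) R a b ∧
        x ∈ seg a b ∧ F' x ∈ seg (F a) (F b) := fun w k x hx => by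
    by_cases c : ∀ (γ : Gam g) i, R ≤ cd (Y.σ γ • vt Y i (i + 1)) (F x)
    · exact Or.inl ⟨h1 x c, c⟩
    · push Not at c
      obtain ⟨γ, i, c⟩ := c
      obtain ⟨a, b, c1, c2, c3, c4⟩ := exists_comp (nr_unit w k) F hx c
      exact Or.inr ⟨γ, i, a, b, c1, c2, c3, c4, h2 w k γ i a b c1 c2 c3 ▸ mem_image_of_mem _ c4⟩
  have hB' : ∀ c, Bd Y c F' ε := fun c w k x hk hx => by
    rcases key w k x hx with a | ⟨γ, i, a, b, c1, c2, -, -, c5⟩
    · rw [a.1]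
      exact hB c w k x hk hx
    · exact bf_seg_abs c5 (hB c w k a hk c1) (hB c w k b hk c2)
  refine ⟨F', r, hB', fun c w i j hi hij => ?_⟩
  obtain ⟨γ, k, hv⟩ := Exact1_vt (Y := Y) hij w
  have v0 := nr_vt (Y := Y) hij w
  have sq := cd_sq (Y := Y) hij w
  have cu := bf_cut (Y := Y) μ w i j
  generalize Y.ρ w • vt Y i j = v at hv v0 sq cu
  subst hv
  have ab : ∀ {p : ℝ}, |p| ≤ ε → p ^ 2 ≤ ε ^ 2 := fun h => by
    rw [← sq_abs]
    exact pow_le_pow_left₀ (abs_nonneg _) h 2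
  have vR : cd (Y.σ γ • vt Y k (k + 1)) (F (Y.σ γ • vt Y k (k + 1))) < R := by
    refine lt_of_pow_lt_pow_left₀ 2 R0 ?_
    linarith [sq (F (Y.σ γ • vt Y k (k + 1))), ab (hB _ w i _ rfl v0.1), ab (hB _ w j _ rfl v0.2)]
  -- at the ends of a component the sign of the cut is the sign of the transverse wall
  have en : ∀ a, bf (nr Y w i) a = 0 → cd (Y.σ γ • vt Y k (k + 1)) (F a) = R →
      0 < bf (nr Y w j) a * bf (cut Y μ w i j) (F a) := fun a a1 a2 => by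
    have b1 := sq (F a)
    have b2 := ab (hB _ w i a rfl a1)
    have b3 := (hB _).side hF (w := w) (i := j) rfl a
    rw [a2] at b1
    rw [cu, a2]
    have b4 : (μ * R) ^ 2 < bf (nr Y w j) (F a) ^ 2 := by
      linarith only [q1, q2, q3, q4, q5, b1, b2, R2]
    have b5 : ε ^ 2 < bf (nr Y w j) (F a) ^ 2 := by linarith only [q1, q2, q4, b1, b2, R2]
    have b6 : 0 < μ * R := by positivity
    rcases lt_trichotomy (bf (nr Y w j) a) 0 with c | c | c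
    · have := b3.2 c.le
      exact mul_pos_of_neg_of_neg c (by linarith only [this, e1, q6, m0])
    · have := ab (hB _ w j a rfl c)
      linarith
    · have := b3.1 c.le
      have b7 : 0 < bf (nr Y w j) (F a) := by
        by_contra! d
        exact b5.not_ge (sq_le_sq' this (d.trans e0.le))
      exact mul_pos c (sub_pos.2 (lt_of_pow_lt_pow_left₀ 2 b7.le b4))
  obtain ⟨a, b, a0, b0, hc, hm⟩ := exists_comp (nr_unit w i) F v0.1 vR
  have im := h2 w i γ k a b a0 b0 hc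
  have ea := en a a0 hc.ha
  have eb := en b b0 hc.hb
  have sg : bf (cut Y μ w i j) (F a) * bf (cut Y μ w i j) (F b) < 0 := by
    obtain ⟨s, t, -, -, -, -, e, t0, s0⟩ := seg_coef hm
    have e := e (nr Y w j)
    have t0 := t0 fun c => vR.ne (by rw [← hc.ha, ← c])
    have s0 := s0 fun c => vR.ne (by rw [← hc.hb, ← c])
    rw [v0.2] at e
    by_contra! c
    have : 0 ≤ bf (nr Y w j) a * bf (nr Y w j) b := by
      by_contra! d
      linarith only [mul_pos ea eb, mul_nonpos_of_nonpos_of_nonneg d.le c]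
    have a1 : bf (nr Y w j) a ≠ 0 := fun d => by simp [d] at ea
    linarith only [mul_pos s0 (mul_self_pos.2 a1), mul_nonneg t0.le this,
      congrArg (· * bf (nr Y w j) a) e]
  obtain ⟨y, ⟨y1, y2⟩, y3⟩ := seg_zero_unique sg
  obtain ⟨x, x1, rfl⟩ := im ▸ y1
  refine ⟨x, ⟨bf_seg_zero x1 a0 b0, y2⟩, fun z ⟨z1, z2⟩ => F'.injective (y3 _ ⟨?_, z2⟩)⟩
  have zR : cd (Y.σ γ • vt Y k (k + 1)) (F' z) < R := by
    refine lt_of_pow_lt_pow_left₀ 2 R0 ?_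
    have b1 := sq (F' z)
    have b2 := ab (hB' _ w i z rfl z1)
    rw [cu, sub_eq_zero] at z2
    rw [z2] at b1
    by_contra! c
    linarith only [mul_le_mul_of_nonneg_left c (show 0 ≤ 1 - μ ^ 2 by linarith only [q7]), b1, b2,
      q1, q2, q3, q4, q5, R2]
  rcases key w i z z1 with d | ⟨γ', k', a', b', c1, c2, c3, c4, c5⟩
  · exact absurd (d.1 ▸ zR) (d.2 γ k).not_gt
  have c6 : F' z ∈ Dsc (Y.σ γ' • vt Y k' (k' + 1)) R := cvx_Dsc _ _ _ c3.ha.le _ c3.hb.le c5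
  obtain ⟨d1, rfl⟩ := Exact1_disj hη (γ'⁻¹ * γ) k k' ((Y.σ γ)⁻¹ • F' z)
    (smul_mem_Dsc (Y.σ γ) |>.1 (by simpa [Dsc] using zR.le))
    (smul_mem_Dsc (Y.σ γ') |>.1 (by simpa [mul_smul] using c6))
  obtain rfl : γ' = γ := inv_mul_eq_one.1 d1
  have ea' := en a' c1 c3.ha
  have eb' := en b' c2 c3.hb
  have c7 : bf (nr Y w j) a' * bf (nr Y w j) b' < 0 := by
    obtain ⟨s, t, s0, t0, -, e', e, -⟩ := seg_coef c5
    have e := e (cut Y μ w i j)
    rw [z2] at e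
    by_contra! d
    have a1 : bf (cut Y μ w i j) (F a') ≠ 0 := fun d => by simp [d] at ea'
    have b1 : bf (cut Y μ w i j) (F b') ≠ 0 := fun d => by simp [d] at eb'
    have : 0 < bf (cut Y μ w i j) (F a') * bf (cut Y μ w i j) (F b') := by
      rcases (mul_ne_zero a1 b1).lt_or_gt with d' | d'
      · linarith only [mul_pos ea' eb', mul_nonpos_of_nonneg_of_nonpos d d'.le]
      · exact d'
    have s1 : s = 0 := by
      by_contra c
      linarith only [mul_pos (s0.lt_of_ne' c) (mul_self_pos.2 a1), mul_nonneg t0 this.le,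
        congrArg (· * bf (cut Y μ w i j) (F a')) e]
    have t1 : t = 0 := by simpa [s1, b1] using e
    simp [s1, t1] at e'
  rcases hc.unique (nr_unit w i) c3 a0 b0 c1 c2 hm
    (mem_seg_of_sign (nr_unit w i) c1 c2 v0.1 c7 v0.2) vR with ⟨rfl, rfl⟩ | ⟨rfl, rfl⟩
  · exact c5
  · exact seg_comm _ _ ▸ c5

end Pool.Agent.MP_4a6971_al.H83

/-!
Moving the walls of one colour exactly onto themselves.
-/

namespace Pool.Agent.MP_4a6971_al.H83

open Set Topology H66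

variable {g : ℕ} {Y : Poly g}

/-- The two representatives of the directions of a wall at a vertex. -/
def ud (j : I g) (b : Bool) : W g := if b then s j else 1

theorem nr_mul (u w : W g) (i : I g) : nr Y (u * w) i = Y.ρ u • nr Y w i := by
  rw [nr, nr, map_mul, mul_smul]

theorem nr_s_self (w : W g) (i : I g) : nr Y (w * s i) i = -nr Y w i := by
  rw [nr_mul, nr, nr, Y.ρ_s_e, smul_neg]

theorem nr_s_adj {i j : I g} (h : Adj i j) (w : W g) : nr Y (w * s j) i = nr Y w i := by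
  rw [nr_mul, nr, nr, Y.ρ_s_of h.symm.bf]

theorem s_vt {i j : I g} (h : Adj i j) (w : W g) :
    Y.ρ (w * s j) • vt Y i j = Y.ρ w • vt Y i j := by
  rw [map_mul, mul_smul, s_smul_of (vt_spec h).2]

theorem cut_mul (μ : ℝ) (u w : W g) (i j : I g) :
    cut Y μ (u * w) i j = Y.ρ u • cut Y μ w i j := by
  rw [cut, cut, nr_mul, map_mul, mul_smul, smul_add, isom_smul, coe_smul]

theorem cut_rep {i j : I g} (h : Adj i j) (w : W g) : ∃ (γ : Gam g) (b : Bool),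
    (nr Y w i = nr Y (γ * ud j b) i ∨ nr Y w i = -nr Y (γ * ud j b) i) ∧
      ∀ μ, cut Y μ w i j = cut Y μ (γ * ud j b) i j := by
  obtain ⟨γ, a, b, c | c⟩ := vt_decomp (Y := Y) h w
  · exact ⟨γ, false, by simpa [ud] using b, fun μ => by simp [ud, cut, a, c, Y.σ_apply]⟩
  · refine ⟨γ, true, by simpa [ud, nr_s_adj h] using b, fun μ => ?_⟩
    rw [ud, if_pos rfl, cut, cut, s_vt h, nr_s_self, a, c, Y.σ_apply]

theorem cut_ne {i j : I g} (h : Adj i j) (w : W g) {μ : ℝ} (hμ : 0 < μ) : cut Y μ w i j ≠ 0 :=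
  fun e => by
    have := bf_cut (Y := Y) μ w i j (Y.ρ w • vt Y i j)
    rw [e, (nr_vt h w).2, cd_self] at this
    simp [bf, Bf, hμ.ne'] at this

theorem cut_bound {i j : I g} (h : Adj i j) (w : W g) {μ ν : ℝ} (h1 : μ ≤ 1 / 4) (h2 : ν ≤ 1 / 2)
    (h3 : 0 ≤ ν) {y : X} (hp : |bf (nr Y w i) y| ≤ μ)
    (hq : |bf (nr Y w j) y| ≤ ν * cd (Y.ρ w • vt Y i j) y) : |bf (nr Y w j) y| ≤ 2 * ν := by
  have a := cd_sq (Y := Y) h w y
  have b := pow_le_pow_left₀ (abs_nonneg _) (hp.trans h1) 2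
  have c := pow_le_pow_left₀ (abs_nonneg _) hq 2
  rw [sq_abs] at b c
  rw [mul_pow, a] at c
  refine abs_le_of_sq_le_sq' ?_ (by positivity) |> abs_le.2
  have d : ν ^ 2 ≤ 1 / 4 := by nlinarith
  nlinarith [mul_le_mul_of_nonneg_left b (sq_nonneg ν),
    mul_le_mul_of_nonneg_right d (sq_nonneg (bf (nr Y w j) y)), sq_nonneg ν]

theorem exists_on_cut {i j : I g} (h : Adj i j) (w : W g) {μ : ℝ} (h0 : 0 < μ) (h1 : μ < 1) :
    ∃ q : X, bf (nr Y w i) q = 0 ∧ bf (cut Y μ w i j) q = 0 := by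
  have a : 0 < 1 - μ ^ 2 := by nlinarith
  obtain ⟨q, b, c⟩ := exists_of_frame (nr_unit (Y := Y) w i) (nr_unit w j) (nr_orth h w) 0
    (μ / √(1 - μ ^ 2))
  refine ⟨q, b, ?_⟩
  have d := cd_sq (Y := Y) h w q
  have e := Real.sq_sqrt a.le
  have f := Real.sqrt_pos.2 a
  rw [b, c] at d
  have : cd (Y.ρ w • vt Y i j) q = 1 / √(1 - μ ^ 2) := by
    refine (pow_left_inj₀ (zero_le_one.trans (one_le_cd _ _)) (by positivity) two_ne_zero).1 ?_
    rw [d, div_pow, div_pow, e]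
    field_simp
    ring
  rw [bf_cut, c, this]
  ring

theorem Comm.bf_nr {F : X ≃ₜ X} (h : Comm Y F) (γ : Gam g) (w : W g) (i : I g) (x : X) :
    bf (nr Y (γ * w) i) (F (Y.σ γ • x)) = bf (nr Y w i) (F x) := by
  rw [h, ← nr_smul, bf_smul]

theorem Comm.bf_cut {F : X ≃ₜ X} (h : Comm Y F) (γ : Gam g) (μ : ℝ) (w : W g) (i j : I g) (x : X) :
    bf (cut Y μ (γ * w) i j) (F (Y.σ γ • x)) = bf (cut Y μ w i j) (F x) := by
  rw [h, cut_mul, ← Y.σ_apply, bf_smul]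

theorem bf_nr_gam (γ : Gam g) (w : W g) (i : I g) (x : X) :
    bf (nr Y (γ * w) i) (Y.σ γ • x) = bf (nr Y w i) x := by
  rw [← nr_smul, bf_smul]

theorem abs_bf_pm {N N' : V} (h : N = N' ∨ N = -N') (x : X) : |bf N x| = |bf N' x| := by
  rcases h with rfl | rfl <;> simp

theorem bf_pm {N N' : V} (h : N = N' ∨ N = -N') {x : X} : bf N x = 0 ↔ bf N' x = 0 := by
  rcases h with rfl | rfl <;> simp

theorem par_ne_succ (c : ZMod 2) : c ≠ c + 1 := by decide +revert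

theorem Adj.par_eq {i j : I g} (h : Adj i j) : par j = par i + 1 := by
  have := h.par_ne
  generalize par i = a, par j = b at this
  decide +revert

/-- The box about the crossing point. -/
def Bx (Y : Poly g) (μ : ℝ) (w : W g) (i j : I g) : Set X :=
  Reg (nr Y w i) (cut Y (μ / 2) w i j) (-cut Y (2 * μ) w i j) (μ / 2)

theorem Bx_bound {i j : I g} (h : Adj i j) {w : W g} {μ : ℝ} (h0 : 0 < μ) (h1 : μ ≤ 1 / 4) {y : X}
    (hy : y ∈ Bx Y μ w i j) : μ / 2 ≤ bf (nr Y w j) y ∧ |bf (nr Y w j) y| ≤ 4 * μ := by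
  obtain ⟨a, b, c⟩ := hy
  rw [bf_neg, bf_cut] at c
  rw [bf_cut] at b
  have d := one_le_cd (Y.ρ w • vt Y i j) y
  have e : μ / 2 ≤ bf (nr Y w j) y := by nlinarith
  refine ⟨e, (cut_bound h w (by linarith : μ / 2 ≤ 1 / 4) (by linarith : 2 * μ ≤ 1 / 2)
    (by linarith) a ?_).trans_eq (by ring)⟩
  rw [abs_of_nonneg (by linarith)]
  linarith

theorem ud_Cb {i j : I g} (h : Adj i j) {b : Bool} {η : ℝ} {y : X}
    (h1 : |bf (nr Y (ud j b) i) y| ≤ η) (h2 : |bf (nr Y (ud j b) j) y| ≤ η) : y ∈ Cb Y i j η := by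
  cases b
  · exact ⟨by simpa [ud, nr_one] using h1, by simpa [ud, nr_one] using h2⟩
  · rw [ud, if_pos rfl, ← one_mul (s j)] at h1 h2
    rw [nr_s_adj h, nr_one] at h1
    rw [nr_s_self, nr_one, bf_neg, abs_neg] at h2
    exact ⟨h1, h2⟩

theorem Thin.corner_gam {η : ℝ} (hη : Thin Y η) {i j i' j' : I g} (h : Adj i j) (h' : Adj i' j')
    (hp : par i = par i') {γ : Gam g} {x : X} (h1 : x ∈ Cb Y i j η)
    (h2 : Y.σ γ • x ∈ Cb Y i' j' η) : γ = 1 ∧ i = i' ∧ j = j' := by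
  obtain ⟨a, b⟩ := hη.corner_disj h h' (w := γ) h1 h2
  exact ⟨gam_eq_one h b, a.resolve_right fun c => h.par_ne (by rw [hp, c.2])⟩

/-- Sliding the crossing points onto the walls. -/
theorem slide_cuts {η : ℝ} (hη : Thin Y η) (c : ZMod 2) : ∃ μ₀ > 0, ∀ μ, 0 < μ → μ ≤ μ₀ → ∀ ε,
    0 < ε → ε ≤ μ / 4 → ∀ F, Comm Y F → (∀ c, Bd Y c F ε) → Once Y c μ F →
      ∃ F', Red Y F F' ∧ Bd Y c F' (μ / 2) ∧ (∀ x ∈ Tc Y (c + 1), F' x = F x) ∧ Once Y c μ F' ∧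
        ∀ w i j x, par i = c → Adj i j → bf (nr Y w i) x = 0 → bf (cut Y μ w i j) (F' x) = 0 →
          bf (nr Y w i) (F' x) = 0 := by
  have p0 := hη.pos
  refine ⟨min (η / 4) (1 / 4), by positivity, fun μ m0 m1 ε e0 e1 F hF hB hO => ?_⟩
  obtain ⟨m1, m2⟩ := le_min_iff.1 m1
  let ι := {q : I g × I g × Bool // par q.1 = c ∧ Adj q.1 q.2.1}
  let K : ι → Set X := fun q => Bx Y μ (ud q.1.2.1 q.1.2.2) q.1.1 q.1.2.1
  have k1 : ∀ q, K q ⊆ Cb Y q.1.1 q.1.2.1 η := fun q y hy =>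
    ud_Cb q.2.2 (hy.1.trans (by linarith)) ((Bx_bound q.2.2 m0 m2 hy).2.trans (by linarith))
  have k2 : ∀ q, IsCompact (K q) := fun q =>
    (isCompact_Cb q.2.2 η).of_isClosed_subset (isClosed_Reg _ _ _ _) (k1 q)
  have k3 : ∀ w i j y, bf (cut Y μ w i j) y = 0 →
      0 < bf (cut Y (μ / 2) w i j) y ∧ 0 < bf (-cut Y (2 * μ) w i j) y := fun w i j y hy => by
    simp only [bf_neg, bf_cut] at hy ⊢
    constructor <;> nlinarith [one_le_cd (Y.ρ w • vt Y i j) y]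
  have k4 : ∀ w i j y, Adj i j → bf (cut Y μ w i j) y = 0 → |bf (nr Y w i) y| < μ / 2 →
      y ∈ interior (Bx Y μ w i j) := fun w i j y h hy hy' => by
    rw [Bx, interior_Reg (nr_unit w i) (cut_ne h w (by positivity))
      (neg_ne_zero.2 (cut_ne h w (by positivity)))]
    exact ⟨hy', k3 w i j y hy⟩
  have k5 : ∀ q : ι, ∃ h : X ≃ₜ X, Supp h (K q) ∧ (interior (K q)).Nonempty ∧
      (∀ y, bf (cut Y μ (ud q.1.2.1 q.1.2.2) q.1.1 q.1.2.1) (h y) = 0 ↔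
        bf (cut Y μ (ud q.1.2.1 q.1.2.2) q.1.1 q.1.2.1) y = 0) ∧
      ∀ x, bf (nr Y (ud q.1.2.1 q.1.2.2) q.1.1) x = 0 →
        bf (cut Y μ (ud q.1.2.1 q.1.2.2) q.1.1 q.1.2.1) (F x) = 0 →
        bf (nr Y (ud q.1.2.1 q.1.2.2) q.1.1) (h (F x)) = 0 := by
    rintro ⟨⟨i, j, b⟩, hi, hij⟩
    obtain ⟨x, ⟨a1, a2⟩, a3⟩ := hO (ud j b) i j hi hij
    obtain ⟨q, b1, b2⟩ := exists_on_cut (Y := Y) hij (ud j b) m0 (by linarith)
    have c1 := k4 _ i j _ hij a2 ((hB c _ i x hi a1).trans_lt (by linarith))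
    obtain ⟨h, d1, d2, d3⟩ := slideX (k2 ⟨⟨i, j, b⟩, hi, hij⟩) (cvx_Reg _ _ _ _) c1
      (k4 _ i j q hij b2 (by rw [b1, abs_zero]; linarith))
    exact ⟨h, d1, ⟨_, c1⟩, d3 _ a2 b2, fun z z1 z2 => by rw [a3 z ⟨z1, z2⟩, d2]; exact b1⟩
  choose h l1 l2 l3 l4 using k5
  obtain ⟨H, n1, n2, n3⟩ := move (Y := Y) K k2 (fun q => cvx_Reg _ _ _ _) l2 (by
    rintro γ ⟨⟨i, j, b⟩, hi, hij⟩ ⟨⟨i', j', b'⟩, hi', hij'⟩ x a a'
    have a := interior_subset a
    have a' := interior_subset a'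
    obtain ⟨rfl, rfl, rfl⟩ := hη.corner_gam hij hij' (hi.trans hi'.symm) (k1 _ a) (k1 _ a')
    rw [map_one, one_smul] at a'
    have b1 := (Bx_bound hij m0 m2 a).1
    have b2 := (Bx_bound hij m0 m2 a').1
    have b3 := nr_s_self (Y := Y) 1 j
    rw [one_mul] at b3
    cases b <;> cases b' <;> simp [ud, b3] at b1 b2 ⊢ <;> linarith) h l1
  have hH := n1.comm
  have bd : Bd Y c (H * F) (μ / 2) := fun w k x hk hx => by
    have a := hB c w k x hk hx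
    change |bf _ (H (F x))| ≤ _
    by_cases d : ∀ (γ : Gam g) q, Y.σ γ • F x ∉ interior (K q)
    · rw [n3 _ d]
      linarith
    push Not at d
    obtain ⟨γ, q, d⟩ := d
    have d := interior_subset d
    rw [← bf_nr_gam γ w k (F x)] at a
    obtain ⟨rfl, e⟩ := hη.same (q.2.1.trans hk.symm) (d.1.trans (by linarith))
      (a.trans (by linarith))
    rw [← hH.bf_nr γ, abs_bf_pm e, n2 q _ d]
    exact ((l1 q).mem.2 d).1
  have key : ∀ w i j x, par i = c → Adj i j → bf (nr Y w i) x = 0 →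
      (bf (cut Y μ w i j) (H (F x)) = 0 ↔ bf (cut Y μ w i j) (F x) = 0) ∧
      (bf (cut Y μ w i j) (F x) = 0 → bf (nr Y w i) (H (F x)) = 0) := fun w i j x hi hij hx => by
    obtain ⟨γ, b, a1, a2⟩ := cut_rep (Y := Y) hij w
    obtain ⟨z, rfl⟩ := (MulAction.toPerm (Y.σ γ)).surjective x
    change bf _ (Y.σ γ • z) = 0 at hx
    have hz : bf (nr Y (ud j b) i) z = 0 := (bf_nr_gam γ _ i z).symm.trans ((bf_pm a1).1 hx)
    change (bf _ ((H * F) (Y.σ γ • z)) = 0 ↔ bf _ (F (Y.σ γ • z)) = 0) ∧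
      (bf _ (F (Y.σ γ • z)) = 0 → bf _ ((H * F) (Y.σ γ • z)) = 0)
    rw [bf_pm a1, a2, (hH.mul hF).bf_cut, hF.bf_cut, (hH.mul hF).bf_nr]
    let q : ι := ⟨⟨i, j, b⟩, hi, hij⟩
    have m : ∀ y, |bf (nr Y (ud j b) i) y| ≤ μ / 2 → bf (cut Y μ (ud j b) i j) y = 0 → y ∈ K q :=
      fun y y1 y2 => ⟨y1, (k3 _ i j y y2).1.le, (k3 _ i j y y2).2.le⟩
    have m' := m (F z) ((hB c _ i z hi hz).trans (by linarith))
    change (bf _ (H (F z)) = 0 ↔ _) ∧ (_ → bf _ (H (F z)) = 0)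
    refine ⟨⟨fun d => ?_, fun d => ?_⟩, fun d => ?_⟩
    · have d1 : (h q).symm (H (F z)) ∈ K q := (l1 q).inv.mem.2 (m _ (bd _ i z hi hz) d)
      have d2 := n2 q _ d1
      rw [Homeomorph.apply_symm_apply, H.injective.eq_iff] at d2
      rw [← d2] at d ⊢
      exact (l3 q _).1 (n2 q _ d1 ▸ d)
    · rw [n2 q _ (m' d)]
      exact (l3 q _).2 d
    · rw [n2 q _ (m' d)]
      exact l4 q z hz d
  refine ⟨H * F, Red.left hF n1, bd, ?_, fun w i j hi hij => ?_, fun w i j x hi hij hx d => ?_⟩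
  · rintro x ⟨w, k, hk, hx⟩
    refine n3 (F x) fun γ q d => ?_
    have d := Bx_bound q.2.2 m0 m2 (interior_subset d)
    have a := hB _ w k x hk hx
    rw [← bf_nr_gam γ w k (F x)] at a
    obtain ⟨rfl, e⟩ := hη.same (q.2.2.par_eq.trans (by rw [q.2.1, hk]))
      (d.2.trans (by linarith)) (a.trans (by linarith))
    rw [abs_bf_pm e] at a
    linarith [d.1, (abs_le.1 a).2]
  · exact (existsUnique_congr fun x => and_congr_right fun hx => (key w i j x hi hij hx).1).2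
      (hO w i j hi hij)
  · exact (key w i j x hi hij hx).2 ((key w i j x hi hij hx).1.1 d)

end Pool.Agent.MP_4a6971_al.H83

/-!
Moving the walls of one colour exactly onto themselves.
-/

namespace Pool.Agent.MP_4a6971_al.H83

open Set Topology H66

variable {g : ℕ} {Y : Poly g}

theorem Exact_arc {E N N' : V} (hE : Bf E E = 1) (hN : N ≠ 0) (hN' : N' ≠ 0) {μ : ℝ} (hμ : 0 < μ)
    (hK : IsCompact (Reg E N N' μ)) {F : X ≃ₜ X} (h1 : ∃! x, bf E x = 0 ∧ bf N (F x) = 0)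
    (h2 : ∃! x, bf E x = 0 ∧ bf N' (F x) = 0) (h3 : ∀ x, bf E x = 0 → bf N (F x) = 0 → bf E (F x) = 0)
    (h4 : ∀ x, bf E x = 0 → bf N' (F x) = 0 → bf E (F x) = 0)
    (h5 : {y | bf E y = 0 ∧ bf N y = 0}.Subsingleton)
    (h6 : {y | bf E y = 0 ∧ bf N' y = 0}.Subsingleton)
    (h7 : ∀ y, bf E y = 0 → bf N y = 0 → 0 < bf N' y)
    (h8 : ∀ y, bf E y = 0 → bf N' y = 0 → 0 < bf N y) (h9 : ∀ x, bf E x = 0 → |bf E (F x)| < μ) :
    ∃ h : X ≃ₜ X, Supp h (Reg E N N' μ) ∧ (interior (Reg E N N' μ)).Nonempty ∧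
      ∀ y ∈ Reg E N N' μ, bf E y = 0 → ∃ x, bf E x = 0 ∧ F x ∈ Reg E N N' μ ∧ h (F x) = y := by
  obtain ⟨a, ⟨a1, a2⟩, a3⟩ := h1
  obtain ⟨b, ⟨b1, b2⟩, b3⟩ := h2
  have a4 := h3 a a1 a2
  have b4 := h4 b b1 b2
  have p := parc_of_cuts hE hN hN' F a1 b1 (fun x hx => ⟨fun d => a3 x ⟨hx, d⟩, fun d => d ▸ a2⟩)
    (fun x hx => ⟨fun d => b3 x ⟨hx, d⟩, fun d => d ▸ b2⟩) h9 (h8 _ b4 b2) (h7 _ a4 a2)
  have p' := parc_of_cuts hE hN hN' 1 a4 b4
    (fun x hx => ⟨fun d => h5 ⟨hx, d⟩ ⟨a4, a2⟩, fun d => d ▸ a2⟩)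
    (fun x hx => ⟨fun d => h6 ⟨hx, d⟩ ⟨b4, b2⟩, fun d => d ▸ b2⟩)
    (fun x hx => (congrArg abs hx).trans_lt (abs_zero.trans_lt hμ)) (h8 _ b4 b2) (h7 _ a4 a2)
  obtain ⟨h, c1, c2⟩ := arcX hK (cvx_Reg _ _ _ _) p p' (by simp) (by simp)
  refine ⟨h, c1, ⟨_, p.mid (1 / 2) (by norm_num)⟩, fun y hy d => ?_⟩
  obtain ⟨t, ht, rfl⟩ := seg_eq (F a) (F b) ▸
    mem_seg_of_cuts hE a4 b4 d a2 (h8 _ b4 b2) b2 (h7 _ a4 a2) hy.2.1 hy.2.2
  exact ⟨gp a b t, bf_seg_zero (seg_eq a b ▸ mem_image_of_mem _ ht) a1 b1, p.mem ht, c2 t ht⟩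

theorem cut_sub {i j : I g} (h : Adj i j) (w : W g) {μ : ℝ} (hμ : 0 < μ) :
    {y | bf (nr Y w i) y = 0 ∧ bf (cut Y μ w i j) y = 0}.Subsingleton := fun y hy z hz => by
  by_contra ne
  obtain ⟨t, e⟩ := eq_smul_of_two (nr_unit w i) ne hy.1 hz.1 hy.2 hz.2
  have := bf_cut (Y := Y) μ w i j (Y.ρ w • vt Y i j)
  have a := (nr_vt (Y := Y) h w).1
  rw [e, (nr_vt h w).2, cd_self, bf, Bf_smul_left, ← bf, a] at this
  linarith

theorem Thin.far {η : ℝ} (hη : Thin Y η) {i j k : I g} (h : Adj i j) (h' : Adj i k) (ne : j ≠ k)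
    {w : W g} {y : X} (hy : |bf (nr Y w j) y| ≤ η) : η < bf (nr Y w k) y := by
  have hp : par j = par k := h.par_eq.trans h'.par_eq.symm
  have na : ¬ Adj j k := fun c => c.par_ne hp
  have a := Y.add_pos ne.symm (fun c => na (Or.inl c)) (fun c => na (Or.inr c))
    ((Y.ρ w)⁻¹ • y).2.fut
  have b : ∀ l, bf (nr Y w l) y = Bf (Y.e l) ((Y.ρ w)⁻¹ • y).1 := fun l => Bf_move _ _ _
  rw [← b, ← b] at a
  by_contra! c
  exact ne (hη.same hp hy (abs_le.2 ⟨by linarith [(abs_le.1 hy).2], c⟩)).1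

/-- The middle region of an edge. -/
def Mi (Y : Poly g) (μ : ℝ) (w : W g) (i : I g) : Set X :=
  Reg (nr Y w i) (cut Y μ w i (i - 1)) (cut Y μ w i (i + 1)) μ

/-- The region about a vertex. -/
def Vx (Y : Poly g) (μ : ℝ) (w : W g) (i j : I g) : Set X :=
  Reg (nr Y w i) (-cut Y μ w i j) (-cut Y μ (w * s j) i j) μ

theorem bf_cut_s {i j : I g} (h : Adj i j) (μ : ℝ) (w : W g) (y : X) :
    bf (cut Y μ (w * s j) i j) y = -bf (nr Y w j) y - μ * cd (Y.ρ w • vt Y i j) y := by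
  rw [bf_cut, nr_s_self, s_vt h, bf_neg]

theorem mem_Vx {i j : I g} (h : Adj i j) {μ : ℝ} {w : W g} {y : X} : y ∈ Vx Y μ w i j ↔
    |bf (nr Y w i) y| ≤ μ ∧ |bf (nr Y w j) y| ≤ μ * cd (Y.ρ w • vt Y i j) y := by
  simp only [Vx, Reg, mem_ofPred, bf_neg, bf_cut_s h]
  rw [bf_cut, abs_le (a := bf (nr Y w j) y)]
  exact and_congr_right fun _ => ⟨fun a => ⟨by linarith [a.2], by linarith [a.1]⟩,
    fun a => ⟨by linarith [a.2], by linarith [a.1]⟩⟩

theorem mem_int_Vx {i j : I g} (h : Adj i j) {μ : ℝ} (hμ : 0 < μ) {w : W g} {y : X} :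
    y ∈ interior (Vx Y μ w i j) ↔
      |bf (nr Y w i) y| < μ ∧ |bf (nr Y w j) y| < μ * cd (Y.ρ w • vt Y i j) y := by
  rw [Vx, interior_Reg (nr_unit w i) (neg_ne_zero.2 (cut_ne h w hμ))
    (neg_ne_zero.2 (cut_ne h _ hμ))]
  simp only [mem_ofPred, bf_neg, bf_cut_s h]
  rw [bf_cut, abs_lt (a := bf (nr Y w j) y)]
  exact and_congr_right fun _ => ⟨fun a => ⟨by linarith [a.2], by linarith [a.1]⟩,
    fun a => ⟨by linarith [a.2], by linarith [a.1]⟩⟩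

theorem Mi_cut {i j : I g} (h : Adj i j) {μ : ℝ} {w : W g} {y : X} (hy : y ∈ Mi Y μ w i) :
    μ * cd (Y.ρ w • vt Y i j) y ≤ bf (nr Y w j) y := by
  rw [← sub_nonneg, ← bf_cut]
  rcases h.eq with rfl | rfl
  exacts [hy.2.2, hy.2.1]

theorem bf_inv (w : W g) (i : I g) (y : X) : bf (Y.e i) ((Y.ρ w)⁻¹ • y) = bf (nr Y w i) y :=
  (Bf_move _ _ _).symm

theorem Mi_Rc {i : I g} {μ η : ℝ} (h0 : 0 < μ) (h1 : μ < η) {w : W g} {y : X}
    (hy : y ∈ Mi Y μ w i) : (Y.ρ w)⁻¹ • y ∈ interior (Rc Y i η) := by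
  rw [interior_Rc]
  simp only [mem_ofPred, bf_inv]
  have a : ∀ x, 0 < μ * cd x y := fun x => mul_pos h0 (one_pos.trans_le (one_le_cd _ _))
  exact ⟨hy.1.trans_lt h1, (a _).trans_le (Mi_cut (adj_pred i) hy),
    (a _).trans_le (Mi_cut (adj_succ i) hy)⟩

theorem Thin.Mi_near {η μ : ℝ} (hη : Thin Y η) (h0 : 0 < μ) (h1 : μ < η) {i k : I g} {w w' : W g}
    {y : X} (hy : y ∈ Mi Y μ w i) (hk : par k = par i + 1) (h : |bf (nr Y w' k) y| ≤ η) :
    Adj i k ∧ (nr Y w' k = nr Y w k ∨ nr Y w' k = -nr Y w k) := by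
  obtain ⟨a, b⟩ := hη.rect_near (interior_subset (Mi_Rc h0 h1 hy)) (w := w⁻¹ * w') (j := k)
    (by rwa [nr_mul, map_inv, bf_smul])
  refine ⟨a.resolve_left fun c => par_ne_succ _ (c ▸ hk), ?_⟩
  rw [nr_mul, map_inv, inv_smul_eq_iff, inv_smul_eq_iff, smul_neg] at b
  exact b

theorem vt_eq {i j : I g} (h : Adj i j) {w w' : W g}
    (h1 : nr Y w' i = nr Y w i ∨ nr Y w' i = -nr Y w i)
    (h2 : nr Y w' j = nr Y w j ∨ nr Y w' j = -nr Y w j) :
    Y.ρ w' • vt Y i j = Y.ρ w • vt Y i j := by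
  rw [← inv_smul_eq_iff]
  exact vt_unique h ((bf_inv _ _ _).trans ((bf_pm h1).1 (nr_vt h w').1))
    ((bf_inv _ _ _).trans ((bf_pm h2).1 (nr_vt h w').2))

theorem Vx_bound {i j : I g} (h : Adj i j) {μ : ℝ} (h0 : 0 < μ) (h1 : μ ≤ 1 / 4) {w : W g} {y : X}
    (hy : y ∈ Vx Y μ w i j) : |bf (nr Y w j) y| ≤ 2 * μ :=
  cut_bound h w h1 (by linarith) h0.le hy.1 ((mem_Vx h).1 hy).2

theorem Vx_Cb {i j : I g} (h : Adj i j) {μ η : ℝ} (h0 : 0 < μ) (h1 : μ ≤ 1 / 4) (h2 : 2 * μ ≤ η) :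
    Vx Y μ 1 i j ⊆ Cb Y i j η := fun y hy =>
  ⟨nr_one (Y := Y) i ▸ hy.1.trans (by linarith), nr_one (Y := Y) j ▸ (Vx_bound h h0 h1 hy).trans h2⟩

theorem Thin.Mi_Vx {η μ : ℝ} (hη : Thin Y η) (h0 : 0 < μ) (h1 : μ ≤ 1 / 4) (h2 : 2 * μ ≤ η)
    {i i' j : I g} (hp : par i = par i') (h : Adj i' j) {w w' : W g} {y : X} (hy : y ∈ Mi Y μ w i) :
    y ∉ interior (Vx Y μ w' i' j) := fun hy' => by
  obtain ⟨rfl, a⟩ := hη.same hp (hy.1.trans (by linarith))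
    ((interior_subset hy').1.trans (by linarith))
  obtain ⟨-, b⟩ := hη.Mi_near h0 (by linarith) hy h.par_eq
    ((Vx_bound h h0 h1 (interior_subset hy')).trans h2)
  have c := ((mem_int_Vx h h0).1 hy').2
  rw [vt_eq h a b, abs_bf_pm b] at c
  linarith [Mi_cut h hy, (abs_lt.1 c).2]

theorem smul_mem_Mi (u : W g) {μ : ℝ} {w : W g} {i : I g} {y : X} :
    Y.ρ u • y ∈ Mi Y μ (u * w) i ↔ y ∈ Mi Y μ w i := by
  rw [Mi, nr_mul, cut_mul, cut_mul, smul_mem_Reg, Mi]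

theorem Thin.Vx_keep {η μ : ℝ} (hη : Thin Y η) (h0 : 0 < μ) (h1 : μ ≤ 1 / 4) (h2 : 2 * μ ≤ η)
    {i j k : I g} (h : Adj i j) (hk : par k = par i + 1) {w w' : W g} {y z : X}
    (hy : y ∈ Vx Y μ w i j) (hz : z ∈ Vx Y μ w i j) (h3 : |bf (nr Y w' k) y| ≤ η) :
    |bf (nr Y w' k) z| ≤ 2 * μ := by
  obtain ⟨rfl, a⟩ := hη.same (h.par_eq.trans hk.symm) ((Vx_bound h h0 h1 hy).trans h2) h3
  rw [abs_bf_pm a]
  exact Vx_bound h h0 h1 hz

theorem Exact_one {η μ : ℝ} (hη : Thin Y η) (c : ZMod 2) (m0 : 0 < μ) (m1 : μ ≤ η / 4)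
    (m2 : μ ≤ 1 / 4) {F : X ≃ₜ X} (hF : Comm Y F) (hB : Bd Y c F (μ / 2))
    (hB' : Bd Y (c + 1) F (μ / 4)) (hO : Once Y c μ F)
    (hW : ∀ w i j x, par i = c → Adj i j → bf (nr Y w i) x = 0 → bf (cut Y μ w i j) (F x) = 0 →
      bf (nr Y w i) (F x) = 0) :
    ∃ F', Red Y F F' ∧ Bd Y (c + 1) F' (2 * μ) ∧
      (∀ w i x, par i = c → (bf (nr Y w i) (F' x) = 0 ↔ bf (nr Y w i) x = 0)) ∧
      ∀ i j, par i = c → Adj i j → F' (vt Y i j) ∈ interior (Vx Y μ 1 i j) := by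
  have m3 : 2 * μ ≤ η := by linarith
  have m4 : μ < η := by linarith
  let ι := {q : I g × Bool // par q.1 = c} ⊕ {q : I g × I g // par q.1 = c ∧ Adj q.1 q.2}
  let u : ι → W g := Sum.elim (fun q => uu q.1.1 q.1.2) fun _ => 1
  let k : ι → I g := Sum.elim (fun q => q.1.1) fun q => q.1.1
  let K : ι → Set X := Sum.elim (fun q => Mi Y μ (uu q.1.1 q.1.2) q.1.1)
    fun q => Vx Y μ 1 q.1.1 q.1.2
  have pos : ∀ x y, 0 < μ * cd x y := fun x y => mul_pos m0 (one_pos.trans_le (one_le_cd _ _))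
  have k2 : ∀ q, IsCompact (K q) := by
    rintro (⟨⟨i, b⟩, hi⟩ | ⟨⟨i, j⟩, hi, hij⟩)
    · refine ((hη.isCompact_Rc i).image (continuous_const_smul (Y.ρ (uu i b)))).of_isClosed_subset
        (isClosed_Reg _ _ _ _) fun y hy => ⟨_, interior_subset (Mi_Rc m0 m4 hy), by simp⟩
    · exact (isCompact_Cb hij η).of_isClosed_subset (isClosed_Reg _ _ _ _) (Vx_Cb hij m0 m2 m3)
  have k3 : ∀ {w i j l y}, Adj i j → Adj i l → j ≠ l → bf (nr Y w i) y = 0 →
      bf (cut Y μ w i j) y = 0 → 0 < bf (cut Y μ w i l) y := fun {w i j l y} a a' ne b d => by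
    have z : |bf (nr Y w i) y| ≤ μ := by rw [b, abs_zero]; exact m0.le
    rw [bf_cut, sub_eq_zero] at d
    have e := hη.far a a' ne ((cut_bound a w m2 (by linarith) m0.le z
      (by rw [d, abs_of_pos (pos _ _)])).trans m3)
    rw [bf_cut, sub_pos]
    by_contra! f
    have := cut_bound a' w m2 (by linarith) m0.le z (by rwa [abs_of_pos (by linarith)])
    linarith [(abs_le.1 this).2]
  have k5 : ∀ q, ∃ h : X ≃ₜ X, Supp h (K q) ∧ (interior (K q)).Nonempty ∧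
      ∀ y ∈ K q, bf (nr Y (u q) (k q)) y = 0 →
        ∃ x, bf (nr Y (u q) (k q)) x = 0 ∧ F x ∈ K q ∧ h (F x) = y := by
    intro q
    have kq := k2 q
    obtain ⟨⟨i, b⟩, hi⟩ | ⟨⟨i, j⟩, hi, hij⟩ := q
    · have ne : i - 1 ≠ i + 1 := fun e => vt_ne (Y := Y) i (by rw [e])
      exact Exact_arc (nr_unit _ i) (cut_ne (adj_pred i) _ m0) (cut_ne (adj_succ i) _ m0) m0 kq
        (hO _ i _ hi (adj_pred i)) (hO _ i _ hi (adj_succ i)) (hW _ i _ · hi (adj_pred i))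
        (hW _ i _ · hi (adj_succ i)) (cut_sub (adj_pred i) _ m0) (cut_sub (adj_succ i) _ m0)
        (fun y => k3 (adj_pred i) (adj_succ i) ne) (fun y => k3 (adj_succ i) (adj_pred i) ne.symm)
        fun x hx => (hB _ i x hi hx).trans_lt (by linarith)
    · have e := nr_s_adj (Y := Y) hij 1
      refine Exact_arc (nr_unit _ i) (neg_ne_zero.2 (cut_ne hij _ m0))
        (neg_ne_zero.2 (cut_ne hij _ m0)) m0 kq (by simpa using hO 1 i j hi hij)
        (by simpa [← e] using hO (1 * s j) i j hi hij) (by simpa using (hW 1 i j · hi hij))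
        (by simpa [← e] using (hW (1 * s j) i j · hi hij)) (by simpa using cut_sub hij 1 m0)
        (by simpa [← e] using cut_sub hij (1 * s j) m0) (fun y _ => ?_) (fun y _ => ?_)
        fun x hx => (hB _ i x hi hx).trans_lt (by linarith) <;>
      · rw [bf_neg, bf_neg, bf_cut_s hij, bf_cut]
        intro d
        linarith [pos (Y.ρ 1 • vt Y i j) y]
  choose h l1 l2 l3 using k5
  obtain ⟨H, n1, n2, n3⟩ := move (Y := Y) K k2 (by rintro (q | q) <;> exact cvx_Reg _ _ _ _) l2 (by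
    rintro γ (⟨⟨i, b⟩, hi⟩ | ⟨⟨i, j⟩, hi, hij⟩) (⟨⟨i', b'⟩, hi'⟩ | ⟨⟨i', j'⟩, hi', hij'⟩) x a a'
    · obtain ⟨rfl, rfl, rfl⟩ := hη.rect_disj' (hi.trans hi'.symm) (Mi_Rc m0 m4 (interior_subset a))
        (interior_subset (Mi_Rc m0 m4 (interior_subset a')))
      exact ⟨rfl, rfl⟩
    · exact absurd a' (hη.Mi_Vx m0 m2 m3 (hi.trans hi'.symm) hij'
        ((smul_mem_Mi (γ : W g)).2 (interior_subset a)))
    · refine absurd a (hη.Mi_Vx m0 m2 m3 (hi'.trans hi.symm) hij (w := (γ : W g)⁻¹ * uu i' b')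
        ((smul_mem_Mi (γ : W g)).1 ?_))
      rw [mul_inv_cancel_left]
      exact interior_subset a'
    · obtain ⟨rfl, rfl, rfl⟩ := hη.corner_gam hij hij' (hi.trans hi'.symm)
        (Vx_Cb hij m0 m2 m3 (interior_subset a)) (Vx_Cb hij' m0 m2 m3 (interior_subset a'))
      exact ⟨rfl, rfl⟩) h l1
  have hH := n1.comm
  refine ⟨H * F, Red.left hF n1, fun w l x hl hx => ?_, fun w i x hi => ?_, fun i j hi hij => ?_⟩
  · have a := hB' w l x hl hx
    change |bf _ (H (F x))| ≤ _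
    by_cases d : ∀ (γ : Gam g) q, Y.σ γ • F x ∉ interior (K q)
    · rw [n3 _ d]
      linarith
    push Not at d
    obtain ⟨γ, q, d⟩ := d
    have d := interior_subset d
    rw [← bf_nr_gam γ w l (F x)] at a
    rw [← hH.bf_nr γ, n2 q _ d]
    have d' := (l1 q).mem.2 d
    obtain ⟨⟨i, b⟩, hi⟩ | ⟨⟨i, j⟩, hi, hij⟩ := q
    · obtain ⟨e, f⟩ := hη.Mi_near m0 m4 d (hl.trans (congrArg (· + 1) hi.symm)) (a.trans (by linarith))
      rw [abs_bf_pm f] at a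
      nlinarith [Mi_cut e d, (abs_le.1 a).2, one_le_cd (Y.ρ (uu i b) • vt Y i l) (Y.σ γ • F x)]
    · exact hη.Vx_keep m0 m2 m3 hij (hl.trans (congrArg (· + 1) hi.symm)) d d' (a.trans (by linarith))
  · refine line_eq_of_subset (nr_unit w i) (H * F) (fun y hy => ?_) x
    suffices ∃ (γ : Gam g) (q : ι), ∃ z ∈ K q, y = Y.σ γ • z ∧
        (nr Y w i = nr Y (γ * u q) (k q) ∨ nr Y w i = -nr Y (γ * u q) (k q)) by
      obtain ⟨γ, q, z, a, rfl, b⟩ := this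
      obtain ⟨x, d, e, f⟩ := l3 q z a ((bf_nr_gam γ _ _ z).symm.trans ((bf_pm b).1 hy))
      refine ⟨Y.σ γ • x, (bf_pm b).2 ((bf_nr_gam γ _ _ x).trans d), ?_⟩
      rw [hH.mul hF, ← f, ← n2 q _ e]
      rfl
    obtain ⟨γ, b, z, a, rfl, d⟩ := wall_decomp hy
    obtain ⟨a1, a2, a3⟩ := mem_side.1 a
    have z0 : ∀ l, bf (nr Y (uu i b) l) (Y.ρ (uu i b) • z) = bf (Y.e l) z := fun l => bf_smul _ _ _
    have z1 : |bf (nr Y (uu i b) i) (Y.ρ (uu i b) • z)| ≤ μ := by rw [z0, a1, abs_zero]; exact m0.le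
    by_cases e : Y.ρ (uu i b) • z ∈ Mi Y μ (uu i b) i
    · exact ⟨γ, Sum.inl ⟨(i, b), hi⟩, _, e, rfl, d⟩
    obtain ⟨j, hij, f⟩ : ∃ j, Adj i j ∧ |bf (nr Y (uu i b) j) (Y.ρ (uu i b) • z)| ≤
        μ * cd (Y.ρ (uu i b) • vt Y i j) (Y.ρ (uu i b) • z) := by
      by_contra! f
      have f1 := f _ (adj_pred i)
      have f2 := f _ (adj_succ i)
      rw [abs_of_nonneg (by rwa [z0])] at f1 f2
      exact e ⟨z1, by rw [bf_cut]; linarith, by rw [bf_cut]; linarith⟩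
    obtain ⟨γ', b1, b2, b3⟩ := vt_decomp (Y := Y) hij (uu i b)
    refine ⟨γ * γ', Sum.inr ⟨(i, j), hi, hij⟩, (Y.σ γ')⁻¹ • Y.ρ (uu i b) • z, (mem_Vx hij).2 ?_,
      by simp [mul_smul], ?_⟩
    · rw [← bf_nr_gam γ' 1 i, ← bf_nr_gam γ' 1 j, ← cd_smul (Y.σ γ')]
      simpa [← abs_bf_pm b2, ← abs_bf_pm b3, ← b1] using And.intro z1 f
    · change _ = nr Y (↑(γ * γ') * 1) i ∨ _ = -nr Y (↑(γ * γ') * 1) i
      rw [mul_one, Subgroup.coe_mul, nr_mul]
      rw [nr_mul] at d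
      rcases d with d | d <;> rcases b2 with b2 | b2 <;> simp [d, b2]
  · have v0 := nr_vt (Y := Y) hij 1
    rw [map_one, one_smul] at v0
    have a : F (vt Y i j) ∈ interior (Vx Y μ 1 i j) := (mem_int_Vx hij m0).2
      ⟨(hB 1 i _ hi v0.1).trans_lt (by linarith),
        (hB' 1 j _ (hij.par_eq.trans (by rw [hi])) v0.2).trans_lt
          (by nlinarith [one_le_cd (Y.ρ 1 • vt Y i j) (F (vt Y i j))])⟩
    change H (F _) ∈ _
    rw [n2 (Sum.inr ⟨(i, j), hi, hij⟩) _ (interior_subset a)]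
    exact (l1 (Sum.inr ⟨(i, j), hi, hij⟩)).mem_interior.2 a

/-- Straightening between the cuts. -/
theorem straighten {η : ℝ} (hη : Thin Y η) (c : ZMod 2) : ∃ μ₀ > 0, ∀ μ, 0 < μ → μ ≤ μ₀ →
    ∀ F, Comm Y F → Bd Y c F (μ / 2) → Bd Y (c + 1) F (μ / 4) → Once Y c μ F →
      (∀ w i j x, par i = c → Adj i j → bf (nr Y w i) x = 0 → bf (cut Y μ w i j) (F x) = 0 →
        bf (nr Y w i) (F x) = 0) →
      ∃ F', Red Y F F' ∧ Bd Y (c + 1) F' (2 * μ) ∧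
        (∀ w i x, par i = c → (bf (nr Y w i) (F' x) = 0 ↔ bf (nr Y w i) x = 0)) ∧
        ∀ w i j, Adj i j → F' (Y.ρ w • vt Y i j) = Y.ρ w • vt Y i j := by
  have p0 := hη.pos
  refine ⟨min (η / 4) (1 / 4), by positivity, fun μ m0 m1 F₀ hF₀ hB₀ hB₀' hO hW => ?_⟩
  obtain ⟨m1, m2⟩ := le_min_iff.1 m1
  have m3 : 2 * μ ≤ η := by linarith
  obtain ⟨F, r, hB, hL, hV⟩ := Exact_one hη c m0 m1 m2 hF₀ hB₀ hB₀' hO hW
  let ι := {q : I g × I g // par q.1 = c ∧ Adj q.1 q.2}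
  let K : ι → Set X := fun q => Vx Y μ 1 q.1.1 q.1.2
  have k2 : ∀ q, IsCompact (K q) := fun q =>
    (isCompact_Cb q.2.2 η).of_isClosed_subset (isClosed_Reg _ _ _ _) (Vx_Cb q.2.2 m0 m2 m3)
  have k5 : ∀ q : ι, ∃ h : X ≃ₜ X, Supp h (K q) ∧ h (F (vt Y q.1.1 q.1.2)) = vt Y q.1.1 q.1.2 ∧
      ∀ y, bf (nr Y 1 q.1.1) (h y) = 0 ↔ bf (nr Y 1 q.1.1) y = 0 := by
    rintro ⟨⟨i, j⟩, hi, hij⟩
    have v0 := nr_vt (Y := Y) hij 1
    rw [map_one, one_smul] at v0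
    obtain ⟨h, a, b, d⟩ := slideX (k2 ⟨(i, j), hi, hij⟩) (cvx_Reg _ _ _ _) (hV i j hi hij)
      (q := vt Y i j) ((mem_int_Vx hij m0).2 (by simp [v0, m0, cd_self]))
    exact ⟨h, a, b, d _ ((hL 1 i _ hi).2 v0.1) v0.1⟩
  choose h l1 l2 l3 using k5
  obtain ⟨H, n1, n2, n3⟩ := move (Y := Y) K k2 (fun q => cvx_Reg _ _ _ _)
    (fun q => ⟨_, hV _ _ q.2.1 q.2.2⟩) (by
    rintro γ ⟨⟨i, j⟩, hi, hij⟩ ⟨⟨i', j'⟩, hi', hij'⟩ x a a'
    obtain ⟨rfl, rfl, rfl⟩ := hη.corner_gam hij hij' (hi.trans hi'.symm)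
      (Vx_Cb hij m0 m2 m3 (interior_subset a)) (Vx_Cb hij' m0 m2 m3 (interior_subset a'))
    exact ⟨rfl, rfl⟩) h l1
  have hH := n1.comm
  have mv : ∀ y, H y = y ∨ ∃ (γ : Gam g) (q : ι), Y.σ γ • y ∈ K q := fun y =>
    or_iff_not_imp_right.2 fun d => n3 y fun γ q e => d ⟨γ, q, interior_subset e⟩
  refine ⟨H * F, r.trans (Red.left r.1 n1), fun w l x hl hx => ?_, fun w i x hi => ?_,
    fun w i j hij => ?_⟩
  · have a := hB w l x hl hx
    change |bf _ (H (F x))| ≤ _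
    obtain d | ⟨γ, q, d⟩ := mv (F x)
    · rwa [d]
    rw [← bf_nr_gam γ w l (F x)] at a
    rw [← hH.bf_nr γ, n2 q _ d]
    exact hη.Vx_keep m0 m2 m3 q.2.2 (hl.trans (by rw [q.2.1])) d ((l1 q).mem.2 d) (a.trans m3)
  · rw [← hL w i x hi]
    change bf _ (H (F x)) = 0 ↔ _
    obtain d | ⟨γ, q, d⟩ := mv (F x)
    · rw [d]
    rw [← bf_nr_gam γ w i (F x), ← hH.bf_nr γ, n2 q _ d]
    have e : ∀ y ∈ K q, bf (nr Y (γ * w) i) y = 0 → ∀ z,
        bf (nr Y (γ * w) i) z = 0 ↔ bf (nr Y 1 q.1.1) z = 0 := fun y y1 y2 z => by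
      obtain ⟨e, f⟩ := hη.same (q.2.1.trans hi.symm) (y1.1.trans (by linarith))
        (y2.symm ▸ abs_zero.trans_le p0.le : |bf (nr Y (γ * w) i) y| ≤ η)
      exact bf_pm f
    exact ⟨fun f => (e _ ((l1 q).mem.2 d) f _).2 ((l3 q _).1 ((e _ ((l1 q).mem.2 d) f _).1 f)),
      fun f => (e _ d f _).2 ((l3 q _).2 ((e _ d f _).1 f))⟩
  · obtain ⟨γ, a, -⟩ := vt_decomp (Y := Y) hij w
    rw [a, hH.mul r.1]
    congr 1
    have e : ∀ i j, par i = c → Adj i j → H (F (vt Y i j)) = vt Y i j := fun i j hi hij =>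
      (n2 ⟨(i, j), hi, hij⟩ _ (interior_subset (hV i j hi hij))).trans (l2 ⟨(i, j), hi, hij⟩)
    by_cases hi : par i = c
    · exact e i j hi hij
    · rw [vt_comm hij]
      refine e j i ?_ hij.symm
      rw [hij.par_eq]
      exact (by decide : ∀ a c : ZMod 2, a ≠ c → a + 1 = c) _ _ hi

end Pool.Agent.MP_4a6971_al.H83

/-!
The theorem of Baer and Epstein.
-/

namespace Pool.Agent.MP_4a6971_al.H83

open Set Topology H66

variable {g : ℕ} {Y : Poly g}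

theorem Baer1_nr_ne (w : W g) (i : I g) : nr Y w i ≠ 0 := fun h => by
  have := nr_unit (Y := Y) w i
  rw [h] at this
  simp [Bf] at this

theorem Baer1_bf (v w : W g) (i : I g) (x : X) :
    bf (nr Y (v * w) i) (Y.ρ v • x) = bf (nr Y w i) x := by
  rw [nr, nr, map_mul, mul_smul, bf_smul]

theorem Baer1_bf1 (v : W g) (i : I g) (x : X) : bf (nr Y v i) (Y.ρ v • x) = bf (Y.e i) x :=
  bf_smul _ _ _

theorem Baer1_bf2 (v : W g) (i : I g) (x : X) :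
    bf (Y.e i) ((Y.ρ v)⁻¹ • x) = bf (nr Y v i) x := by
  rw [← Baer1_bf1 v, smul_inv_smul]

theorem Baer1_par {i j : I g} {c : ZMod 2} (hi : par i = c) (h : Adj i j) : par j = c + 1 := by
  have e : ∀ a b : ZMod 2, a ≠ b → b = a + 1 := by decide
  exact hi ▸ e _ _ h.par_ne

/-- The rectangle about the side `i` of the chamber `u`. -/
def Baer1_K (Y : Poly g) (η : ℝ) (u : W g) (i : I g) : Set X :=
  Reg (nr Y u i) (nr Y u (i - 1)) (nr Y u (i + 1)) η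

theorem Baer1_mem {η : ℝ} {u : W g} {i : I g} {x : X} :
    x ∈ Baer1_K Y η u i ↔ (Y.ρ u)⁻¹ • x ∈ Rc Y i η := by
  simp only [Baer1_K, Rc, Reg, mem_ofPred_eq, Baer1_bf2]

theorem Baer1_int {η : ℝ} {u : W g} {i : I g} {x : X} :
    x ∈ interior (Baer1_K Y η u i) ↔ (Y.ρ u)⁻¹ • x ∈ interior (Rc Y i η) := by
  rw [interior_Rc, Baer1_K, interior_Reg (nr_unit u i) (Baer1_nr_ne _ _) (Baer1_nr_ne _ _)]
  simp only [mem_ofPred_eq, Baer1_bf2]

theorem Baer1_compact {C D : Set X} (hC : IsCompact C) (f : Isom) (h : ∀ x, x ∈ D ↔ f⁻¹ • x ∈ C) :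
    IsCompact D := by
  have : D = (f • ·) '' C := by
    ext x
    exact ⟨fun a => ⟨_, (h x).1 a, smul_inv_smul _ _⟩, fun ⟨y, hy, e⟩ => (h x).2 (by
      rw [← e]
      simpa using hy)⟩
  rw [this]
  exact hC.image (continuous_const_smul f)

theorem Baer1_parc {η : ℝ} {F : X ≃ₜ X} (u : W g) (i : I g)
    (h1 : ∀ x, bf (nr Y u i) x = 0 → |bf (nr Y u i) (F x)| < η)
    (h2 : ∀ j x, Adj i j → (bf (nr Y u j) (F x) = 0 ↔ bf (nr Y u j) x = 0))
    (h3 : ∀ j, Adj i j → F (Y.ρ u • vt Y i j) = Y.ρ u • vt Y i j) :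
    PArc (Baer1_K Y η u i) fun t =>
      F (gp (Y.ρ u • vt Y i (i - 1)) (Y.ρ u • vt Y i (i + 1)) t) := by
  have a : ∀ j, Adj i j → ∀ x, bf (nr Y u i) x = 0 →
      (bf (nr Y u j) (F x) = 0 ↔ x = Y.ρ u • vt Y i j) := fun j hj x hx => by
    rw [h2 j x hj]
    refine ⟨fun b => ?_, fun b => by rw [b, Baer1_bf1, (vt_spec hj).2]⟩
    rw [← Baer1_bf2] at hx b
    rw [← vt_unique hj hx b, smul_inv_smul]
  have n0 : i - 1 ≠ i + 1 := fun e => vt_ne (Y := Y) i (by rw [e])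
  have n1 : ∀ j, Adj i j → j ≠ i := fun j hj e => hj.par_ne (by rw [e])
  refine parc_of_cuts (nr_unit u i) (Baer1_nr_ne _ _) (Baer1_nr_ne _ _) F ?_ ?_
    (a _ (adj_pred i)) (a _ (adj_succ i)) h1 ?_ ?_
  · rw [Baer1_bf1, (vt_spec (adj_pred i)).1]
  · rw [Baer1_bf1, (vt_spec (adj_succ i)).1]
  · rw [h3 _ (adj_succ i), Baer1_bf1]
    exact vt_pos (adj_succ i) (n1 _ (adj_pred i)) n0
  · rw [h3 _ (adj_pred i), Baer1_bf1]
    exact vt_pos (adj_pred i) (n1 _ (adj_succ i)) n0.symm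

/-- Fixing the walls of one colour pointwise. Hint: `move` with the rectangles `uu i b • Rc i η`,
`parc_of_cuts` (`vt_unique`, `vt_pos`), `arcX` with the target `gp v v'`; `wall_decomp`,
`Thin.rect_near`. -/
theorem fix_edges {η m : ℝ} (hη : Thin Y η) (hm : m < η) (c : ZMod 2) {F : X ≃ₜ X} (hF : Comm Y F)
    (h1 : Bd Y c F m)
    (h2 : ∀ w i x, par i = c + 1 → (bf (nr Y w i) (F x) = 0 ↔ bf (nr Y w i) x = 0))
    (h3 : ∀ w i j, Adj i j → F (Y.ρ w • vt Y i j) = Y.ρ w • vt Y i j) :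
    ∃ H, Iso0 Y H ∧ (∀ x ∈ Tc Y c, H (F x) = x) ∧ ∀ x ∈ Tc Y (c + 1), H x = x := by
  have p1 : ∀ q : {i : I g // par i = c} × Bool, PArc (Baer1_K Y η (uu q.1.1 q.2) q.1.1) fun t =>
      F (gp (Y.ρ (uu q.1.1 q.2) • vt Y q.1.1 (q.1.1 - 1))
        (Y.ρ (uu q.1.1 q.2) • vt Y q.1.1 (q.1.1 + 1)) t) := fun q =>
    Baer1_parc _ _ (fun x hx => (h1 _ _ x q.1.2 hx).trans_lt hm)
      (fun j x hj => h2 _ j x (Baer1_par q.1.2 hj)) fun j hj => h3 _ _ j hj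
  have p2 : ∀ q : {i : I g // par i = c} × Bool, PArc (Baer1_K Y η (uu q.1.1 q.2) q.1.1) fun t =>
      (1 : X ≃ₜ X) (gp (Y.ρ (uu q.1.1 q.2) • vt Y q.1.1 (q.1.1 - 1))
        (Y.ρ (uu q.1.1 q.2) • vt Y q.1.1 (q.1.1 + 1)) t) := fun q =>
    Baer1_parc _ _ (fun x hx => by
      change |bf _ x| < η
      rw [hx, abs_zero]
      exact hη.pos) (fun j x _ => Iff.rfl) fun j _ => rfl
  have hK : ∀ q : {i : I g // par i = c} × Bool, IsCompact (Baer1_K Y η (uu q.1.1 q.2) q.1.1) :=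
    fun q => Baer1_compact (hη.isCompact_Rc q.1.1) _ fun _ => Baer1_mem
  have hc : ∀ q : {i : I g // par i = c} × Bool, Cvx (Baer1_K Y η (uu q.1.1 q.2) q.1.1) :=
    fun q => cvx_Reg _ _ _ _
  choose k k1 k2 using fun q => arcX (hK q) (hc q) (p1 q) (p2 q)
    (by simp only [gp_zero]; exact h3 _ _ _ (adj_pred _))
    (by simp only [gp_one]; exact h3 _ _ _ (adj_succ _))
  obtain ⟨H, a, b, d⟩ := move (Y := Y) _ hK hc
    (fun q => ⟨_, (p1 q).mid (1 / 2) (by constructor <;> norm_num)⟩)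
    (fun γ q q' x x1 x2 => by
      obtain ⟨e1, e2, e3⟩ := hη.rect_disj' (q.1.2.trans q'.1.2.symm) (Baer1_int.1 x1)
        (Baer1_mem.1 (interior_subset x2))
      exact ⟨e1, Prod.ext (Subtype.ext e2) e3⟩) k k1
  refine ⟨H, a, ?_, ?_⟩
  · rintro x ⟨w, i, hi, hx⟩
    obtain ⟨γ, b', y, hy, rfl, -⟩ := wall_decomp hx
    rw [side, seg_eq] at hy
    obtain ⟨t, ht, rfl⟩ := hy
    rw [smul_gp, hF, a.comm, b (⟨i, hi⟩, b') _ ((p1 (⟨i, hi⟩, b')).mem ht), k2 _ t ht]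
    rfl
  · rintro x ⟨w, j, hj, hx⟩
    refine d x fun γ q hq => ?_
    have h4 := Baer1_int.1 hq
    have h5 : bf (nr Y ((uu q.1.1 q.2)⁻¹ * (γ * w)) j) ((Y.ρ (uu q.1.1 q.2))⁻¹ • Y.σ γ • x) = 0 := by
      rw [← map_inv, Baer1_bf, Y.σ_apply, Baer1_bf, hx]
    obtain ⟨h6, h7⟩ := hη.rect_near (interior_subset h4) (h5 ▸ abs_zero.trans_le hη.pos.le)
    have h8 : bf (Y.e j) ((Y.ρ (uu q.1.1 q.2))⁻¹ • Y.σ γ • x) = 0 := by
      rcases h7 with e | e <;> rw [e] at h5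
      · exact h5
      · rwa [bf_neg, neg_eq_zero] at h5
    rw [interior_Rc] at h4
    rcases h6 with e | e
    · have e' : ∀ a : ZMod 2, a ≠ a + 1 := by decide
      exact e' c (q.1.2.symm.trans (e ▸ hj))
    · rcases e.eq with e | e <;> rw [e] at h8
      · exact h4.2.2.ne' h8
      · exact h4.2.1.ne' h8

/-- The chamber `u`. -/
def Baer1_C (Y : Poly g) (u : W g) : Set X := {x | ∀ i, 0 ≤ bf (nr Y u i) x}

theorem Baer1_memC {u : W g} {x : X} : x ∈ Baer1_C Y u ↔ (Y.ρ u)⁻¹ • x ∈ Chm Y := by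
  simp only [Baer1_C, Chm, mem_ofPred_eq, Baer1_bf2]

theorem Baer1_intC {u : W g} {x : X} :
    x ∈ interior (Baer1_C Y u) ↔ ∀ i, 0 < bf (nr Y u i) x := by
  refine ⟨fun h i => pos_of_interior (Baer1_nr_ne u i)
    (interior_mono (s := Baer1_C Y u) (fun y hy => hy i) h),
    fun h => mem_interior.2 ⟨{y | ∀ i, 0 < bf (nr Y u i) y}, fun y hy i => (hy i).le, ?_, h⟩⟩
  rw [ofPred_forall]
  exact isOpen_iInter_of_finite fun i => isOpen_lt continuous_const (continuous_bf _)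

theorem Baer1_piece {F : X ≃ₜ X} (hF : Comm Y F) (h : ∀ x ∈ TT Y, F x = x) (u : W g) :
    ∃ k : X ≃ₜ X, Supp k (Baer1_C Y u) ∧ ∀ x ∈ Baer1_C Y u, k x = F x := by
  classical
  have hB : ∀ c, Bd Y c F 0 := fun c w i x _ hx => by rw [h x ⟨w, i, hx⟩, hx, abs_zero]
  have hm : ∀ x, F x ∈ Baer1_C Y u ↔ x ∈ Baer1_C Y u := fun x => by
    refine ⟨fun a i => by_contra fun b => ?_, fun a i => ?_⟩
    · have b' := not_le.1 b
      have e := le_antisymm ((Bd.side hF (hB _) rfl x).2 b'.le) (a i)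
      rw [F.injective (h _ ⟨u, i, e⟩)] at e
      exact b'.ne e
    · simpa using (Bd.side hF (hB _) rfl x).1 (a i)
  have hK : IsCompact (Baer1_C Y u) := Baer1_compact isCompact_Chm _ fun _ => Baer1_memC
  have hb : ∀ x ∈ Baer1_C Y u, x ∉ interior (Baer1_C Y u) → F x = x := fun x a b => by
    rw [Baer1_intC, not_forall] at b
    obtain ⟨i, b⟩ := b
    exact h x ⟨u, i, le_antisymm (not_lt.1 b) (a i)⟩
  have hc : Continuous fun x => if x ∈ Baer1_C Y u then F x else x :=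
    Continuous.if (fun x hx => hb x (hK.isClosed.frontier_subset hx) hx.2) F.continuous
      continuous_id
  have hbij : Function.Bijective fun x => if x ∈ Baer1_C Y u then F x else x := by
    refine Function.bijective_iff_has_inverse.2
      ⟨fun x => if x ∈ Baer1_C Y u then F.symm x else x, fun x => ?_, fun x => ?_⟩
    · by_cases a : x ∈ Baer1_C Y u
      · simp only [if_pos a, if_pos ((hm x).2 a), F.symm_apply_apply]
      · simp only [if_neg a]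
    · by_cases a : x ∈ Baer1_C Y u
      · have b : F.symm x ∈ Baer1_C Y u := (hm _).1 (by rwa [F.apply_symm_apply])
        simp only [if_pos a, if_pos b, F.apply_symm_apply]
      · simp only [if_neg a]
  obtain ⟨k, hk⟩ := homeo_of_supp hc hbij hK fun z hz => if_neg hz
  refine ⟨k, fun z hz => ?_, fun x hx => (hk x).trans (if_pos hx)⟩
  rw [hk]
  split_ifs with a
  · exact hb z a hz
  · rfl

/-- Representatives of the four classes. -/
def Baer1_u (g : ℕ) (p : Bool × Bool) : W g :=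
  (if p.1 then s 0 else 1) * if p.2 then s 1 else 1

/-- Their classes. -/
def Baer1_κ (p : Bool × Bool) : Multiplicative (ZMod 2 × ZMod 2) :=
  (if p.1 then Multiplicative.ofAdd (1 + 0, 0) else 1) *
    if p.2 then Multiplicative.ofAdd (1 + 1, 1) else 1

theorem Baer1_cls (p : Bool × Bool) : cls g (Baer1_u g p) = Baer1_κ p := by
  rw [Baer1_u, Baer1_κ, map_mul, apply_ite (cls g), apply_ite (cls g), cls_s, cls_s, map_zero,
    map_one, map_one]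

/-- Hint: `F` keeps the sign of every `bf (nr w i)` (the open half planes are preconnected and
contain points of the wall `w L_(i+1)`), so it preserves the chambers. Apply `move` to the four
chambers `u • Chm`, `u ∈ {1, s 0, s 1, s 0 * s 1}` (`Poly.exists_rep`, `chm_disj`), with the maps
that equal `F` on the chamber and the identity elsewhere (`homeo_of_supp`). -/
theorem iso0_of_fix {F : X ≃ₜ X} (hF : Comm Y F) (h : ∀ x ∈ TT Y, F x = x) : Iso0 Y F := by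
  have inj : ∀ p q, Baer1_κ p = Baer1_κ q → p = q := by decide
  have surj : ∀ κ, ∃ p, Baer1_κ p * κ = 1 := by decide
  choose k k1 k2 using fun p => Baer1_piece hF h (Baer1_u g p)
  obtain ⟨H, a, b, -⟩ := move (Y := Y) (fun p => Baer1_C Y (Baer1_u g p))
    (fun p => Baer1_compact isCompact_Chm _ fun _ => Baer1_memC)
    (fun p x hx y hy z hz i => cvx_half _ x (hx i) y (hy i) hz)
    (fun p => ⟨Y.ρ (Baer1_u g p) • oX, Baer1_intC.2 fun i => by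
      have := oX_mem (Y := Y)
      rw [interior_Chm] at this
      rw [Baer1_bf1]
      exact this i⟩)
    (fun γ p q x x1 x2 => by
      have e1 : (Y.ρ (Baer1_u g p))⁻¹ • x ∈ interior (Chm Y) := by
        rw [interior_Chm]
        intro i
        rw [Baer1_bf2]
        exact Baer1_intC.1 x1 i
      have e2 : Y.ρ ((Baer1_u g q)⁻¹ * γ * Baer1_u g p) • (Y.ρ (Baer1_u g p))⁻¹ • x ∈ Chm Y := by
        rw [map_mul, map_mul, mul_smul, mul_smul, smul_inv_smul, map_inv]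
        exact Baer1_memC.1 (interior_subset x2)
      have e3 := chm_disj e1 e2
      have e4 := congrArg (cls g) e3
      rw [map_mul, map_mul, map_inv, Baer1_cls, Baer1_cls, map_one,
        (MonoidHom.mem_ker).1 γ.2, mul_one, inv_mul_eq_one] at e4
      obtain rfl := inj _ _ e4
      refine ⟨Subtype.ext ?_, rfl⟩
      rwa [mul_assoc, inv_mul_eq_one, eq_comm, mul_eq_right] at e3) k k1
  have e : H = F := Homeomorph.ext fun x => by
    obtain ⟨w, hw⟩ := cover (Y := Y) x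
    obtain ⟨p, hp⟩ := surj (cls g w)
    have m1 : Baer1_u g p * w ∈ (cls g).ker := by
      rw [MonoidHom.mem_ker, map_mul, Baer1_cls, hp]
    have m2 : Y.σ ⟨_, m1⟩ • x ∈ Baer1_C Y (Baer1_u g p) := by
      rw [Baer1_memC, Y.σ_apply, map_mul, mul_smul, inv_smul_smul]
      exact hw
    have m3 := (b p _ m2).trans (k2 p _ m2)
    rw [a.comm, hF] at m3
    exact MulAction.injective _ m3
  exact e ▸ a

end Pool.Agent.MP_4a6971_al.H83

/-!
The theorem of Baer and Epstein.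
-/

namespace Pool.Agent.MP_4a6971_al.H83

open Set Topology H66

variable {g : ℕ} {Y : Poly g}

theorem baer {F : X ≃ₜ X} (hF : Comm Y F) : Iso0 Y F := by
  obtain ⟨η, hη⟩ := exists_thin Y
  obtain ⟨μ₁, p1, a1⟩ := once_of_small hη
  obtain ⟨μ₂, p2, a2⟩ := slide_cuts hη 0
  obtain ⟨μ₃, p3, a3⟩ := straighten hη 0
  have p0 := hη.pos
  obtain ⟨μ, q0, q1, q2, q3, q4⟩ : ∃ μ : ℝ, 0 < μ ∧ μ ≤ μ₁ ∧ μ ≤ μ₂ ∧ μ ≤ μ₃ ∧ 2 * μ < η :=
    ⟨min (min μ₁ μ₂) (min μ₃ (η / 4)), by positivity, (min_le_left _ _).trans (min_le_left _ _),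
      (min_le_left _ _).trans (min_le_right _ _), (min_le_right _ _).trans (min_le_left _ _), by
      linarith [(min_le_right (min μ₁ μ₂) _).trans (min_le_right μ₃ (η / 4))]⟩
  obtain ⟨F1, r1, b1⟩ := tame hF
  obtain ⟨F2, r2, b2, c2⟩ := sweep r1.1 b1 (ε := μ / 4) (by positivity)
  obtain ⟨F3, r3, b3, c3⟩ := a1 μ q0 q1 _ (by positivity) le_rfl F2 r2.1 b2 c2
  obtain ⟨F4, r4, b4, c4, d4, e4⟩ := a2 μ q0 q2 _ (by positivity) le_rfl F3 r3.1 b3 (c3 0)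
  obtain ⟨F5, r5, b5, c5, d5⟩ := a3 μ q0 q3 F4 r4.1 b4
    (fun w i x hi hx => by rw [c4 x ⟨w, i, hi, hx⟩]; exact b3 _ w i x hi hx) d4 e4
  obtain ⟨H, i6, b6, c6⟩ := fix_edges hη q4 (0 + 1) r5.1 b5 (fun w i x hi => c5 w i x hi) d5
  have r6 := Red.left r5.1 i6
  have k6 : ∀ w i x, par i = 0 → bf (nr Y w i) x = 0 → bf (nr Y w i) ((H * F5) x) = 0 :=
    fun w i x hi hx => by
      have := (c5 w i x hi).2 hx
      change bf _ (H (F5 x)) = 0
      rwa [c6 _ ⟨w, i, hi, this⟩]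
  obtain ⟨H', i7, b7, c7⟩ := fix_edges hη hη.pos 0 r6.1
    (fun w i x hi hx => by rw [k6 w i x hi hx, abs_zero])
    (fun w i x hi => ⟨fun hx => by
      have := b6 _ ⟨w, i, hi, hx⟩
      rwa [← (H * F5).injective this], fun hx => by
      change bf _ (H (F5 x)) = 0
      rwa [b6 x ⟨w, i, hi, hx⟩]⟩)
    (fun w i j hij => by
      have a := vt_spec (Y := Y) hij
      have e : ∀ a b : ZMod 2, a ≠ b → a = 0 + 1 ∨ b = 0 + 1 := by decide
      rcases e _ _ hij.par_ne with h | h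
      · exact b6 _ ⟨w, i, h, by simpa [nr] using a.1⟩
      · exact b6 _ ⟨w, j, h, by simpa [nr] using a.2⟩)
  have r7 := Red.left r6.1 i7
  refine (r1.trans (r2.trans (r3.trans (r4.trans (r5.trans (r6.trans r7)))))).2
    (iso0_of_fix r7.1 ?_)
  rintro x ⟨w, i, hx⟩
  have e : ∀ a : ZMod 2, a = 0 ∨ a = 0 + 1 := by decide
  rcases e (par i) with h | h
  · exact b7 x ⟨w, i, h, hx⟩
  · change H' (H (F5 x)) = x
    rw [b6 x ⟨w, i, h, hx⟩, c7 x ⟨w, i, h, hx⟩]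

end Pool.Agent.MP_4a6971_al.H83
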