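import Pool.Agent.Lib.PlaneTop.Jump
import Pool.Agent.MP_4baaa2_an.Mg.H94_Top

/-!
Continuity of a conformal map up to the boundary.
-/

namespace Pool.Agent.MP_4a6971_al.H83

open Set Topology Metric Complex

open MeasureTheory in
theorem Car0_area {s : Set ℂ} (hs : MeasurableSet s) {φ φ' : ℂ → ℂ}
    (hd : ∀ w ∈ s, HasDerivAt φ (φ' w) w) (hi : InjOn φ s) {C : ℝ} (hb : ∀ w ∈ s, ‖φ w‖ ≤ C) :
    ∫⁻ w in s, ‖φ' w‖ₑ ^ 2 ≤ volume (closedBall (0 : ℂ) C) := by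
  have h := lintegral_abs_det_fderiv_eq_addHaar_image volume hs
    (fun w hw => (hd w hw).complexToReal_fderiv.hasFDerivWithinAt) hi
  have e : ∀ a : ℂ, ENNReal.ofReal |(a • (1 : ℂ →L[ℝ] ℂ)).det| = ‖a‖ₑ ^ 2 := fun a => by
    have h1 : (a • (1 : ℂ →L[ℝ] ℂ)).det = Algebra.norm ℝ a := by
      rw [Algebra.norm_apply, ContinuousLinearMap.det]
      exact congrArg _ (LinearMap.ext fun z => rfl)
    rw [h1, Algebra.norm_complex_apply, normSq_eq_norm_sq, abs_of_nonneg (sq_nonneg _),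
      ENNReal.ofReal_pow (norm_nonneg _), ofReal_norm]
  simp only [e] at h
  rw [h]
  refine measure_mono ?_
  rintro _ ⟨w, hw, rfl⟩
  exact mem_closedBall_zero_iff.2 (hb w hw)

open MeasureTheory in
theorem Car0_cs (μ : Measure ℝ) {G : ℝ → ENNReal} (hG : AEMeasurable G μ) :
    (∫⁻ x, G x ∂μ) ^ 2 ≤ (∫⁻ x, G x ^ 2 ∂μ) * μ univ := by
  have h := ENNReal.lintegral_mul_le_Lp_mul_Lq μ Real.HolderConjugate.two_two hG
    (g := fun _ => 1) aemeasurable_const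
  simp only [Pi.mul_apply, mul_one, lintegral_const, ENNReal.rpow_two] at h
  refine (pow_le_pow_left' h 2).trans (le_of_eq ?_)
  rw [mul_pow, ← ENNReal.rpow_two, ← ENNReal.rpow_two, ← ENNReal.rpow_mul, ← ENNReal.rpow_mul]
  norm_num

theorem Car0_mem {r θ : ℝ} (hr : 0 < r) (h1 : r ≤ 1)
    (h : θ ∈ Ioo (-Real.arccos (r / 2)) (Real.arccos (r / 2))) :
    (r : ℂ) * exp (θ * I) ∈ ball (1 : ℂ) 1 := by
  have a1 : |θ| < Real.arccos (r / 2) := abs_lt.2 h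
  have a2 : r / 2 < Real.cos θ := by
    have := Real.cos_lt_cos_of_nonneg_of_le_pi (abs_nonneg θ) (Real.arccos_le_pi _) a1
    rwa [Real.cos_arccos (by linarith) (by linarith), Real.cos_abs] at this
  rw [mem_ball, dist_eq_norm, ← sq_lt_one_iff₀ (norm_nonneg _), ← normSq_eq_norm_sq, normSq_apply]
  simp only [sub_re, sub_im, re_ofReal_mul, im_ofReal_mul, exp_ofReal_mul_I_re,
    exp_ofReal_mul_I_im, one_re, one_im]
  have := Real.sin_sq_add_cos_sq θ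
  have e : (r * Real.cos θ - 1) * (r * Real.cos θ - 1) +
      (r * Real.sin θ - 0) * (r * Real.sin θ - 0) = 1 - r * (2 * Real.cos θ - r) := by
    linear_combination r ^ 2 * this
  rw [e]
  have : 0 < r * (2 * Real.cos θ - r) := mul_pos hr (by linarith)
  linarith

open MeasureTheory in
theorem Car0_polar {G : ℂ → ENNReal} (hG : Measurable G) {ρ ρ₀ : ℝ} (hρ : 0 < ρ) (h1 : ρ₀ ≤ 1) :
    ∫⁻ r in Ioo ρ ρ₀, ENNReal.ofReal r *
      ∫⁻ θ in Ioo (-Real.arccos (r / 2)) (Real.arccos (r / 2)), G (r * exp (θ * I)) ≤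
      ∫⁻ w in ball (1 : ℂ) 1, G w := by
  have e : ∀ p : ℝ × ℝ, Complex.polarCoord.symm p = p.1 * exp (p.2 * I) := fun p => by
    rw [Complex.polarCoord_symm_apply, exp_mul_I, ofReal_cos, ofReal_sin]
  have hm : Measurable ((ball (1 : ℂ) 1).indicator G) := hG.indicator measurableSet_ball
  have hc : Continuous fun p : ℝ × ℝ => (p.1 : ℂ) * exp (p.2 * I) := by fun_prop
  rw [← lintegral_indicator measurableSet_ball, ← Complex.lintegral_comp_polarCoord_symm]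
  simp only [e, smul_eq_mul]
  have hF : Measurable fun p : ℝ × ℝ =>
      ENNReal.ofReal p.1 * (ball (1 : ℂ) 1).indicator G (p.1 * exp (p.2 * I)) :=
    measurable_fst.ennreal_ofReal.mul (hm.comp hc.measurable)
  rw [polarCoord_target, Measure.volume_eq_prod, setLIntegral_prod _ hF.aemeasurable]
  refine le_trans ?_ (lintegral_mono_set (s := Ioo ρ ρ₀) fun r hr => hρ.trans hr.1)
  refine setLIntegral_mono' measurableSet_Ioo fun r hr => ?_
  simp only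
  rw [lintegral_const_mul' _ _ ENNReal.ofReal_ne_top]
  refine mul_le_mul_right ?_ _
  refine le_trans ?_ (lintegral_mono_set
    (Ioo_subset_Ioo (neg_le_neg (Real.arccos_le_pi (r / 2))) (Real.arccos_le_pi (r / 2))))
  refine setLIntegral_mono' measurableSet_Ioo fun θ hθ => ?_
  rw [indicator_of_mem (Car0_mem (hρ.trans hr.1) (hr.2.le.trans h1) hθ)]

open MeasureTheory in
theorem Car0_log {c ρ ρ₀ : ℝ} (hc : 0 ≤ c) (hρ : 0 < ρ) (h : ρ ≤ ρ₀) :
    ∫⁻ r in Ioo ρ ρ₀, ENNReal.ofReal (c * r⁻¹) = ENNReal.ofReal (c * Real.log (ρ₀ / ρ)) := by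
  have h1 : ContinuousOn (fun r : ℝ => c * r⁻¹) (Icc ρ ρ₀) :=
    continuousOn_const.mul (continuousOn_inv₀.mono fun r hr => (hρ.trans_le hr.1).ne')
  rw [← ofReal_integral_eq_lintegral_ofReal (h1.integrableOn_Icc.mono_set Ioo_subset_Icc_self)
    ((ae_restrict_iff' measurableSet_Ioo).2 (Filter.Eventually.of_forall fun r hr =>
      mul_nonneg hc (inv_nonneg.2 (hρ.trans hr.1).le))),
    ← integral_Ioc_eq_integral_Ioo, ← intervalIntegral.integral_of_le h,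
    intervalIntegral.integral_const_mul, integral_inv_of_pos hρ (hρ.trans_le h)]

/-- Length-area: short crosscuts. For a unit vector `ζ` the arc of the circle of radius `r` about
`ζ` inside the unit disc is `θ ↦ ζ (1 - r e^{iθ})`, `|θ| < arccos (r / 2)`.
Hint: area of the image `= ∫ ‖ψ'‖²` (`lintegral_abs_det_fderiv_eq_addHaar_image`) is at most
`A = π C²`; in polar coordinates about `ζ` and by Cauchy-Schwarz `∫ ℓ(r)² / (π r) dr ≤ A`, where
`ℓ(r) = ∫ ‖ψ'‖ r dθ`; if `ℓ(r) > δ` on `(ρ, ρ₀)` then `δ² log (ρ₀/ρ) ≤ π A`. -/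
theorem short_cut {ψ : ℂ → ℂ} (hd : DifferentiableOn ℂ ψ (ball 0 1)) (hi : InjOn ψ (ball 0 1))
    {C : ℝ} (hb : ∀ z ∈ ball (0 : ℂ) 1, ‖ψ z‖ ≤ C) {δ ρ₀ : ℝ} (hδ : 0 < δ) (h0 : 0 < ρ₀)
    (h1 : ρ₀ ≤ 1) : ∃ ρ > 0, ∀ ζ : ℂ, ‖ζ‖ = 1 → ∃ r ∈ Ioo ρ ρ₀,
      ∫⁻ θ in Ioo (-Real.arccos (r / 2)) (Real.arccos (r / 2)),
        ‖deriv ψ (ζ * (1 - r * exp (θ * I)))‖ₑ ≤ ENNReal.ofReal (δ / r) := by
  have hA : MeasureTheory.volume (closedBall (0 : ℂ) C) * ENNReal.ofReal (2 * Real.pi) ≠ ⊤ :=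
    ENNReal.mul_ne_top MeasureTheory.measure_closedBall_lt_top.ne ENNReal.ofReal_ne_top
  set B := (MeasureTheory.volume (closedBall (0 : ℂ) C) * ENNReal.ofReal (2 * Real.pi)).toReal
    with hB
  have B0 : 0 ≤ B := ENNReal.toReal_nonneg
  have hρ : 0 < ρ₀ * Real.exp (-(B / δ ^ 2 + 1)) := by positivity
  have hle : ρ₀ * Real.exp (-(B / δ ^ 2 + 1)) ≤ ρ₀ :=
    mul_le_of_le_one_right h0.le (Real.exp_le_one_iff.2 (neg_nonpos.2 (by positivity)))
  refine ⟨_, hρ, fun ζ hζ => ?_⟩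
  by_contra hcon
  push Not at hcon
  have ζ0 : ζ ≠ 0 := by
    rintro rfl
    simp at hζ
  have hmem : ∀ w ∈ ball (1 : ℂ) 1, ζ * (1 - w) ∈ ball (0 : ℂ) 1 := fun w hw => by
    rw [mem_ball_zero_iff, norm_mul, hζ, one_mul, norm_sub_rev]
    exact mem_ball_iff_norm.1 hw
  have a1 := Car0_area (s := ball (1 : ℂ) 1) measurableSet_ball (φ := fun w => ψ (ζ * (1 - w)))
    (φ' := fun w => deriv ψ (ζ * (1 - w)) * (ζ * (-1))) (fun w hw =>
      ((hd.differentiableAt (isOpen_ball.mem_nhds (hmem w hw))).hasDerivAt).comp w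
        (((hasDerivAt_id w).const_sub 1).const_mul ζ))
    (fun w hw w' hw' e => sub_right_injective
      (mul_left_cancel₀ ζ0 (hi (hmem w hw) (hmem w' hw') e))) fun w hw => hb _ (hmem w hw)
  have e1 : ‖ζ * (-1)‖ₑ = 1 := by
    rw [← ofReal_norm, mul_neg_one, norm_neg, hζ, ENNReal.ofReal_one]
  simp only [enorm_mul (deriv ψ _), e1, mul_one] at a1
  have hG : Measurable fun w : ℂ => ‖deriv ψ (ζ * (1 - w))‖ₑ :=
    ((measurable_deriv ψ).comp (by fun_prop)).enorm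
  have a2 := (Car0_polar (hG.pow_const 2) hρ h1).trans a1
  have a3 := mul_le_mul_left a2 (ENNReal.ofReal (2 * Real.pi))
  rw [← MeasureTheory.lintegral_mul_const' _ _ ENNReal.ofReal_ne_top] at a3
  have a4 := (MeasureTheory.setLIntegral_mono' (μ := MeasureTheory.volume)
    (f := fun r : ℝ => ENNReal.ofReal (δ ^ 2 * r⁻¹)) measurableSet_Ioo fun r hr => ?_).trans a3
  · rw [Car0_log (sq_nonneg δ) hρ hle, ← ENNReal.ofReal_toReal hA, ← hB,
      ENNReal.ofReal_le_ofReal_iff B0, div_mul_cancel_left₀ h0.ne', Real.log_inv, Real.log_exp,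
      neg_neg, mul_add, mul_div_cancel₀ _ (pow_pos hδ 2).ne'] at a4
    have := pow_pos hδ 2
    linarith
  · have r0 : 0 < r := hρ.trans hr.1
    have c1 := Car0_cs (MeasureTheory.volume.restrict
      (Ioo (-Real.arccos (r / 2)) (Real.arccos (r / 2))))
      (G := fun θ : ℝ => ‖deriv ψ (ζ * (1 - r * exp (θ * I)))‖ₑ)
      (hG.comp (f := fun θ : ℝ => (r : ℂ) * exp (θ * I)) (by fun_prop)).aemeasurable
    rw [MeasureTheory.Measure.restrict_apply_univ, Real.volume_Ioo] at c1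
    have c2 := (pow_le_pow_left' (hcon r hr).le 2).trans (c1.trans (mul_le_mul_right
      (ENNReal.ofReal_le_ofReal (q := 2 * Real.pi) (by linarith [Real.arccos_le_pi (r / 2)])) _))
    rw [mul_assoc]
    refine le_trans (le_of_eq ?_) (mul_le_mul_right c2 _)
    rw [← ENNReal.ofReal_pow (by positivity), ← ENNReal.ofReal_mul r0.le]
    refine congrArg _ ?_
    field_simp

end Pool.Agent.MP_4a6971_al.H83

/-!
Continuity of a conformal map up to the boundary.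
-/

namespace Pool.Agent.MP_4a6971_al.H83

open Set Topology Metric Complex

section

open Pool.Agent.Lib.PlaneTop

/-- The point of the circle of radius `r` about `ζ`. -/
noncomputable def Car1_pt (ζ : ℂ) (r : ℝ) (y : ℂ) : ℂ := ζ * (1 - r * exp (y * I))

theorem Car1_cont (ζ : ℂ) (r : ℝ) : Continuous (Car1_pt ζ r) := by
  unfold Car1_pt
  fun_prop

theorem Car1_sq {ζ : ℂ} (hζ : ‖ζ‖ = 1) (r θ : ℝ) :
    ‖Car1_pt ζ r θ‖ ^ 2 = 1 - 2 * r * Real.cos θ + r ^ 2 := by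
  rw [Car1_pt, norm_mul, hζ, one_mul, Complex.sq_norm, normSq_apply]
  simp only [sub_re, one_re, mul_re, ofReal_re, ofReal_im, exp_ofReal_mul_I_re,
    exp_ofReal_mul_I_im, sub_im, one_im, mul_im, zero_mul, sub_zero, add_zero, zero_sub]
  linear_combination r ^ 2 * Real.sin_sq_add_cos_sq θ

theorem Car1_mem {ζ : ℂ} (hζ : ‖ζ‖ = 1) {r θ : ℝ} (h0 : 0 < r) (h1 : r < 1)
    (hθ : θ ∈ Ioo (-Real.arccos (r / 2)) (Real.arccos (r / 2))) :
    Car1_pt ζ r θ ∈ ball (0 : ℂ) 1 := by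
  have h2 := Real.cos_lt_cos_of_nonneg_of_le_pi (abs_nonneg θ) (Real.arccos_le_pi (r / 2))
    (abs_lt.2 hθ)
  rw [Real.cos_arccos (by linarith) (by linarith), Real.cos_abs] at h2
  rw [mem_ball_zero_iff, ← sq_lt_one_iff₀ (norm_nonneg _), Car1_sq hζ]
  nlinarith

theorem Car1_end {ζ : ℂ} (hζ : ‖ζ‖ = 1) {r θ : ℝ} (h0 : 0 < r) (h1 : r < 1)
    (hθ : |θ| = Real.arccos (r / 2)) : ‖Car1_pt ζ r θ‖ = 1 := by
  rw [← sq_eq_sq₀ (norm_nonneg _) zero_le_one, Car1_sq hζ, ← Real.cos_abs, hθ,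
    Real.cos_arccos (by linarith) (by linarith)]
  ring

theorem Car1_dist {ζ : ℂ} (hζ : ‖ζ‖ = 1) {r : ℝ} (h0 : 0 < r) (y : ℂ) :
    ‖Car1_pt ζ r y - ζ‖ = r * Real.exp (-y.im) := by
  rw [show Car1_pt ζ r y - ζ = -(ζ * (r * exp (y * I))) by rw [Car1_pt]; ring, norm_neg, norm_mul,
    hζ, one_mul, norm_mul, norm_real, Real.norm_of_nonneg h0.le, norm_exp]
  simp

theorem Car1_der (ζ : ℂ) (r : ℝ) (y : ℂ) :
    HasStrictDerivAt (Car1_pt ζ r) (ζ * -(r * (exp (y * I) * I))) y := by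
  have h := ((((hasStrictDerivAt_id y).mul_const I).cexp.const_mul (r : ℂ)).const_sub 1).const_mul ζ
  rw [one_mul] at h
  exact h

theorem Car1_proper {ψ : ℂ → ℂ} (hd : DifferentiableOn ℂ ψ (ball 0 1)) (hi : InjOn ψ (ball 0 1))
    (hne : ∀ z ∈ ball (0 : ℂ) 1, deriv ψ z ≠ 0) {l : Filter ℝ} [l.NeBot] {z : ℝ → ℂ} {b p : ℂ}
    (hz : ∀ᶠ t in l, z t ∈ ball (0 : ℂ) 1) (hb : Filter.Tendsto z l (𝓝 b)) (hb1 : ‖b‖ = 1)
    (hp : Filter.Tendsto (fun t => ψ (z t)) l (𝓝 p)) : p ∈ frontier (ψ '' ball 0 1) := by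
  rw [(MP_4baaa2_an.H94.top2_open isOpen_ball hd hne).frontier_eq]
  refine ⟨mem_closure_of_tendsto hp (hz.mono fun t ht => mem_image_of_mem _ ht), ?_⟩
  rintro ⟨w, hw, rfl⟩
  obtain ⟨η, h1, h2⟩ := exists_between (mem_ball_zero_iff.1 hw)
  have hs : ball (0 : ℂ) η ⊆ ball 0 1 := ball_subset_ball h2.le
  have ho := MP_4baaa2_an.H94.top2_open isOpen_ball (hd.mono hs) fun w hw => hne w (hs hw)
  have h3 := hp.eventually (ho.mem_nhds (mem_image_of_mem ψ (mem_ball_zero_iff.2 h1)))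
  have h4 : ‖b‖ ≤ η := le_of_tendsto hb.norm ((hz.and h3).mono fun t ht => by
    obtain ⟨v, hv, e⟩ := ht.2
    rw [← hi (hs hv) ht.1 e]
    exact (mem_ball_zero_iff.1 hv).le)
  linarith

theorem Car1_cut {ψ : ℂ → ℂ} (hd : DifferentiableOn ℂ ψ (ball 0 1)) {ζ : ℂ} (hζ : ‖ζ‖ = 1)
    {r δ : ℝ} (h0 : 0 < r) (h1 : r < 1) (hδ : 0 < δ)
    (h : ∫⁻ θ in Ioo (-Real.arccos (r / 2)) (Real.arccos (r / 2)),
      ‖deriv ψ (ζ * (1 - r * exp (θ * I)))‖ₑ ≤ ENNReal.ofReal (δ / r)) :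
    ∃ c : ℝ → ℂ, ContinuousOn c (Icc (-Real.arccos (r / 2)) (Real.arccos (r / 2))) ∧
      (∀ θ ∈ Ioo (-Real.arccos (r / 2)) (Real.arccos (r / 2)), c θ = ψ (Car1_pt ζ r θ)) ∧
      ∀ θ ∈ Icc (-Real.arccos (r / 2)) (Real.arccos (r / 2)),
        ‖c θ - c (-Real.arccos (r / 2))‖ ≤ δ := by
  have ha : 0 < Real.arccos (r / 2) := Real.arccos_pos.2 (by linarith)
  have hm := fun θ => Car1_mem hζ (θ := θ) h0 h1
  set a := Real.arccos (r / 2)
  have haa : -a ≤ a := by linarith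
  set u : ℝ → ℂ := fun θ => deriv ψ (Car1_pt ζ r θ) with hu
  set g : ℝ → ℂ := fun θ => u θ * (ζ * -(r * (exp (θ * I) * I))) with hg
  have uc : ContinuousOn u (Ioo (-a) a) := (hd.deriv isOpen_ball).continuousOn.comp
    ((Car1_cont ζ r).comp continuous_ofReal).continuousOn hm
  have ui : MeasureTheory.IntegrableOn u (Ioo (-a) a) :=
    ⟨uc.aestronglyMeasurable measurableSet_Ioo, h.trans_lt ENNReal.ofReal_lt_top⟩
  have gn : ∀ θ, ‖g θ‖ = ‖u θ‖ * r := fun θ => by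
    simp [hg, hζ, abs_of_pos h0]
  have gi : IntervalIntegrable g MeasureTheory.volume (-a) a := by
    rw [intervalIntegrable_iff_integrableOn_Ioo_of_le haa]
    refine (ui.norm.mul_const r).mono' ((uc.mul (Continuous.continuousOn (by fun_prop)))
      |>.aestronglyMeasurable measurableSet_Ioo) (Filter.Eventually.of_forall fun θ => (gn θ).le)
  have gb : ∫ θ in -a..a, ‖g θ‖ ≤ δ := by
    simp only [gn]
    rw [intervalIntegral.integral_mul_const, intervalIntegral.integral_of_le haa,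
      MeasureTheory.integral_Ioc_eq_integral_Ioo,
      MeasureTheory.integral_norm_eq_lintegral_enorm ui.1, ← le_div_iff₀ h0]
    exact ENNReal.toReal_le_of_le_ofReal (by positivity) h
  have h0m : (0 : ℝ) ∈ Icc (-a) a := ⟨by linarith, ha.le⟩
  have gi' : ∀ s ∈ Icc (-a) a, ∀ t ∈ Icc (-a) a, IntervalIntegrable g MeasureTheory.volume s t :=
    fun s hs t ht => gi.mono_set (by rw [uIcc_of_le haa]; exact uIcc_subset_Icc hs ht)
  refine ⟨fun t => ψ (Car1_pt ζ r (0 : ℝ)) + ∫ θ in (0 : ℝ)..t, g θ, ?_, fun t ht => ?_,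
    fun t ht => ?_⟩
  · have := intervalIntegral.continuousOn_primitive_interval' gi
      (by rw [uIcc_of_le haa]; exact h0m)
    rw [uIcc_of_le haa] at this
    exact continuousOn_const.add this
  · have hsub : uIcc 0 t ⊆ Ioo (-a) a :=
      ordConnected_Ioo.uIcc_subset ⟨by linarith, ha⟩ ht
    have := intervalIntegral.integral_eq_sub_of_hasDerivAt (f := fun θ : ℝ => ψ (Car1_pt ζ r θ))
      (fun θ hθ => (((hd.differentiableAt (isOpen_ball.mem_nhds (hm θ (hsub hθ)))).hasDerivAt.comp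
        (θ : ℂ) (Car1_der ζ r θ).hasDerivAt).comp_ofReal)) (gi' 0 h0m t (Ioo_subset_Icc_self ht))
    have e : ∫ θ in (0 : ℝ)..t, g θ = ψ (Car1_pt ζ r t) - ψ (Car1_pt ζ r (0 : ℝ)) := this
    show _ + _ = _
    rw [e]
    ring
  · have hl : -a ∈ Icc (-a) a := left_mem_Icc.2 haa
    simp only [add_sub_add_left_eq_sub]
    rw [intervalIntegral.integral_interval_sub_left (gi' 0 h0m t ht) (gi' 0 h0m _ hl)]
    refine (intervalIntegral.norm_integral_le_integral_norm ht.1).trans (le_trans ?_ gb)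
    exact intervalIntegral.integral_mono_interval le_rfl ht.1 ht.2
      (Filter.Eventually.of_forall fun θ => norm_nonneg _) gi.norm

theorem Car1_chart {ψ : ℂ → ℂ} (hd : DifferentiableOn ℂ ψ (ball 0 1))
    (hne : ∀ z ∈ ball (0 : ℂ) 1, deriv ψ z ≠ 0) {ζ : ℂ} (hζ : ‖ζ‖ = 1) {r a : ℝ} (h0 : 0 < r)
    (ha : 0 < a) (hm : Car1_pt ζ r 0 ∈ ball (0 : ℂ) 1) :
    ∃ (e : OpenPartialHomeomorph ℂ ℂ) (s : ℝ), 0 < s ∧ s < a ∧ (∀ y, e y = ψ (Car1_pt ζ r y)) ∧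
      ∀ y : ℂ, |y.re| ≤ s → |y.im| ≤ 2 * s → y ∈ e.source ∧ Car1_pt ζ r y ∈ ball (0 : ℂ) 1 := by
  have hζ0 : ζ ≠ 0 := norm_ne_zero_iff.1 (by rw [hζ]; exact one_ne_zero)
  have h1 := ((hd.analyticAt (isOpen_ball.mem_nhds hm)).hasStrictDerivAt.comp (0 : ℂ)
    (Car1_der ζ r 0)).hasStrictFDerivAt_equiv (mul_ne_zero (hne _ hm) (mul_ne_zero hζ0
      (neg_ne_zero.2 (mul_ne_zero (ofReal_ne_zero.2 h0.ne') (mul_ne_zero (exp_ne_zero _) I_ne_zero)))))
  obtain ⟨η, hη, hs⟩ := Metric.mem_nhds_iff.1 (Filter.inter_mem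
    ((h1.toOpenPartialHomeomorph _).open_source.mem_nhds h1.mem_toOpenPartialHomeomorph_source)
    ((Car1_cont ζ r).continuousAt.preimage_mem_nhds (isOpen_ball.mem_nhds hm)))
  refine ⟨h1.toOpenPartialHomeomorph _, min (η / 4) (a / 2), by positivity,
    (min_le_right _ _).trans_lt (by linarith), fun y => rfl, fun y h2 h3 => hs ?_⟩
  have h4 := min_le_left (η / 4) (a / 2)
  exact mem_ball_zero_iff.2 ((norm_le_abs_re_add_abs_im y).trans_lt (by linarith))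

theorem Car1_loc {ψ : ℂ → ℂ} (hd : DifferentiableOn ℂ ψ (ball 0 1)) (hi : InjOn ψ (ball 0 1))
    (hne : ∀ z ∈ ball (0 : ℂ) 1, deriv ψ z ≠ 0) {ζ : ℂ} (hζ : ‖ζ‖ = 1) {r a ε : ℝ} (h0 : 0 < r)
    (h1 : r < 1) (ha : 0 < a) (ha' : a ≤ Real.pi) {c : ℝ → ℂ} (hc : ContinuousOn c (Icc (-a) a))
    (hm : ∀ θ ∈ Ioo (-a) a, Car1_pt ζ r θ ∈ ball (0 : ℂ) 1)
    (he : ∀ θ ∈ Ioo (-a) a, c θ = ψ (Car1_pt ζ r θ)) {B : Set ℂ} (hB : IsCompact B)
    (hB' : IsPreconnected B) (hp : c (-a) ∈ B) (hq : c a ∈ B) (hBG : Disjoint B (ψ '' ball 0 1))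
    {p : ℂ} (hJ : c '' Icc (-a) a ∪ B ⊆ ball p ε) (hz0 : ψ 0 ∉ ball p ε) {z : ℂ}
    (hz : z ∈ ball (0 : ℂ) 1) (hzr : ‖z - ζ‖ < r) : ψ z ∈ ball p ε := by
  by_contra hn
  have key : ∀ w ∈ ball (0 : ℂ) 1, ∀ θ ∈ Icc (-a) a, c θ = ψ w →
      θ ∈ Ioo (-a) a ∧ Car1_pt ζ r θ = w := fun w hw θ hθ e => by
    have hθ' : θ ∈ Ioo (-a) a := by
      refine ⟨hθ.1.lt_of_ne ?_, hθ.2.lt_of_ne ?_⟩
      · rintro rfl
        exact disjoint_left.1 hBG hp ⟨w, hw, e.symm⟩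
      · rintro rfl
        exact disjoint_left.1 hBG hq ⟨w, hw, e.symm⟩
    exact ⟨hθ', hi (hm θ hθ') hw ((he θ hθ').symm.trans e)⟩
  have hlog : ∀ w w' : ℂ, ψ w ∉ ball p ε → (∀ v ∈ segment ℝ w w', v ∈ ball (0 : ℂ) 1 ∧
      ‖v - ζ‖ ≠ r) → HasLogOn (fun x => x - ψ w') (c '' Icc (-a) a ∪ B) := fun w w' h2 h3 => by
    refine HasLogOn.of_joinedIn (a := ψ w) ?_ ((hasLogOn_of_convex (convex_ball p ε)
      (by fun_prop) fun x hx e => h2 (by
        rw [← sub_eq_zero.1 (show x - ψ w = 0 from e)]; exact hx)).mono hJ)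
    refine ((JoinedIn.of_segment_subset subset_rfl).map_continuousOn
      (hd.continuousOn.mono fun v hv => (h3 v hv).1)).mono ?_
    rintro _ ⟨v, hv, rfl⟩ (⟨θ, hθ, e⟩ | hB)
    · refine (h3 v hv).2 ?_
      rw [← (key v (h3 v hv).1 θ hθ e).2, Car1_dist hζ h0]
      simp
    · exact disjoint_left.1 hBG hB ⟨v, (h3 v hv).1, rfl⟩
  obtain ⟨e, s, s0, sa, hev, hes⟩ := Car1_chart hd hne hζ h0 ha
    (by simpa using hm 0 ⟨by linarith, ha⟩)
  have i1 : Icc (-a) (-s) ⊆ Icc (-a) a := Icc_subset_Icc_right (by linarith)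
  have i2 : Icc s a ⊆ Icc (-a) a := Icc_subset_Icc_left (by linarith)
  have hsub : (c '' Icc (-a) (-s) ∪ B ∪ c '' Icc s a) ∪ e '' {y | y.im = 0 ∧ |y.re| ≤ s} ⊆
      c '' Icc (-a) a ∪ B := by
    refine union_subset (union_subset (union_subset_union_left _ (image_mono i1))
      ((image_mono i2).trans subset_union_left)) ?_
    rintro _ ⟨y, ⟨y1, y2⟩, rfl⟩
    have y3 : y.re ∈ Ioo (-a) a := abs_lt.1 (y2.trans_lt sa)
    refine Or.inl ⟨y.re, Ioo_subset_Icc_self y3, ?_⟩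
    rw [he _ y3, hev, show (y.re : ℂ) = y from Complex.ext (by simp) (by simp [y1])]
  have hτ : ∀ τ : ℝ, |τ| ≤ s → Car1_pt ζ r (τ * I) ∈ ball (0 : ℂ) 1 := fun τ h =>
    (hes _ (by simpa using s0.le) (by simpa using h.trans (by linarith))).2
  refine jump e s0 (fun y y1 y2 y3 => (hes y y1 (abs_le.2 ⟨by linarith, y3⟩)).1)
    (π := c '' Icc (-a) (-s) ∪ B ∪ c '' Icc s a) ?_ ?_ ?_ ?_ ?_ (HasLogOn.mono ?_ hsub)
    (HasLogOn.mono ?_ hsub)
  · exact (((isCompact_Icc.image_of_continuousOn (hc.mono i1)).union hB).union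
      (isCompact_Icc.image_of_continuousOn (hc.mono i2))).isClosed
  · exact IsPreconnected.union (c a) (Or.inr hq) (mem_image_of_mem c (right_mem_Icc.2 sa.le))
      (IsPreconnected.union (c (-a)) (mem_image_of_mem c (left_mem_Icc.2 (by linarith))) hp
        (isPreconnected_Icc.image c (hc.mono i1)) hB') (isPreconnected_Icc.image c (hc.mono i2))
  · exact Or.inr ⟨s, left_mem_Icc.2 sa.le, by rw [hev, he s ⟨by linarith, sa⟩]⟩
  · refine Or.inl (Or.inl ⟨-s, right_mem_Icc.2 (by linarith), ?_⟩)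
    rw [hev, he (-s) ⟨by linarith, by linarith⟩, ofReal_neg]
  · intro τ h
    have hk : ∀ θ ∈ Icc (-a) a, c θ = e (τ * I) → θ = 0 := fun θ hθ e' => by
      obtain ⟨k1, k2⟩ := key _ (hτ τ h) θ hθ (e'.trans (hev _))
      have hζ0 : ζ ≠ 0 := norm_ne_zero_iff.1 (by rw [hζ]; exact one_ne_zero)
      have k3 : exp (θ * I) = exp ((-τ : ℝ) : ℂ) := by
        have k4 := mul_left_cancel₀ hζ0 k2
        rw [sub_right_inj, mul_assoc, I_mul_I, mul_neg_one, ← ofReal_neg] at k4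
        exact mul_left_cancel₀ (ofReal_ne_zero.2 h0.ne') k4
      have k5 := congrArg Complex.im k3
      rw [exp_ofReal_mul_I_im, exp_ofReal_im] at k5
      exact (Real.sin_eq_zero_iff_of_lt_of_lt (by linarith [k1.1]) (by linarith [k1.2])).1 k5
    rintro ((⟨θ, hθ, e'⟩ | hB) | ⟨θ, hθ, e'⟩)
    · linarith [hk θ (i1 hθ) e', hθ.2]
    · exact disjoint_left.1 hBG hB ⟨_, hτ τ h, (hev _).symm⟩
    · linarith [hk θ (i2 hθ) e', hθ.1]
  · rw [hev]
    refine hlog z _ hn fun v hv => ?_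
    have h2 : Car1_pt ζ r (s * I) ∈ ball ζ r := by
      rw [mem_ball_iff_norm, Car1_dist hζ h0]
      exact mul_lt_of_lt_one_right h0 (Real.exp_lt_one_iff.2 (by simpa using s0))
    have := ((convex_ball (0 : ℂ) 1).inter (convex_ball ζ r)).segment_subset
      ⟨hz, mem_ball_iff_norm.2 hzr⟩ ⟨hτ s (abs_of_pos s0).le, h2⟩ hv
    exact ⟨this.1, (mem_ball_iff_norm.1 this.2).ne⟩
  · rw [hev]
    refine hlog 0 _ hz0 fun v hv => ⟨(convex_ball (0 : ℂ) 1).segment_subset (mem_ball_self one_pos)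
      (by simpa using hτ (-s) (by rw [abs_neg, abs_of_pos s0])) hv, ?_⟩
    obtain ⟨t, u, t0, u0, tu, rfl⟩ := hv
    have h2 : r < r * Real.exp s := lt_mul_of_one_lt_right h0 (Real.one_lt_exp_iff.2 s0)
    have h3 : t • (0 : ℂ) + u • Car1_pt ζ r (-(s * I)) - ζ =
        -(ζ * ((t + u * (r * Real.exp s) : ℝ) : ℂ)) := by
      have h4 : (t : ℂ) + u = 1 := by exact_mod_cast tu
      rw [Car1_pt, neg_mul, mul_assoc, I_mul_I, mul_neg_one, neg_neg, smul_zero, real_smul]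
      push_cast
      linear_combination ζ * h4
    rw [h3, norm_neg, norm_mul, hζ, one_mul, norm_real, Real.norm_of_nonneg (by positivity)]
    have h5 : r * (t + u) < t + u * (r * Real.exp s) := by
      rcases t0.eq_or_lt with rfl | t1
      · rw [zero_add] at tu
        rw [tu]
        linarith
      · nlinarith
    rw [tu, mul_one] at h5
    exact h5.ne'

end

/-- Caratheodory's continuity theorem. Hint: show that `ψ` is uniformly continuous on the disc.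
Given `ε` (less than the distance from `ψ 0` to the complement of the image) take `δ` from `hlc`
and a short crosscut at `ζ`; it has ends `p, q` in the frontier of the image (finite length,
properness of `ψ`), join them by `B`; `J = crosscut ∪ B ⊆ ball p ε`. If `w = ψ z` with
`‖z - ζ‖ < r` were outside `ball p ε`, then `· - w` and `· - ψ 0` have logarithms on `J`
(`hasLogOn_of_convex`), hence (`HasLogOn.of_joinedIn`) also `· - ψ (ζ (1 - r e^{∓s}))`, which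
contradicts `jump` in the chart `y ↦ ψ (ζ (1 - r e^{iy}))` (`HasStrictDerivAt.toOpenPartialHomeomorph`
or similar near `y = 0`). -/
theorem car_cont {ψ : ℂ → ℂ} (hd : DifferentiableOn ℂ ψ (ball 0 1)) (hi : InjOn ψ (ball 0 1))
    (hne : ∀ z ∈ ball (0 : ℂ) 1, deriv ψ z ≠ 0) (hb : Bornology.IsBounded (ψ '' ball 0 1))
    {Θ : Set ℂ} (h1 : frontier (ψ '' ball 0 1) ⊆ Θ) (h2 : Disjoint Θ (ψ '' ball 0 1))
    (hlc : ∀ ε > 0, ∃ δ > 0, ∀ p ∈ Θ, ∀ q ∈ Θ, dist p q < δ →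
      ∃ B ⊆ Θ, IsCompact B ∧ IsPreconnected B ∧ p ∈ B ∧ q ∈ B ∧ B ⊆ ball p ε) :
    ∃ Ψ : ℂ → ℂ, ContinuousOn Ψ (closedBall 0 1) ∧ EqOn Ψ ψ (ball 0 1) := by
  have hopen := MP_4baaa2_an.H94.top2_open isOpen_ball hd hne
  obtain ⟨C, hC⟩ := hb.exists_norm_le
  obtain ⟨d, d0, hdG⟩ := Metric.isOpen_iff.1 hopen (ψ 0) ⟨0, mem_ball_self one_pos, rfl⟩
  have main : ∀ ζ : ℂ, ‖ζ‖ = 1 → ∀ ε > 0, ε ≤ d → ∃ r > 0, ∃ p, ∀ z ∈ ball (0 : ℂ) 1,
      ‖z - ζ‖ < r → ψ z ∈ ball p ε := fun ζ hζ ε ε0 εd => by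
    obtain ⟨δ, δ0, hδ⟩ := hlc ε ε0
    have m0 : 0 < min δ ε / 2 := by positivity
    have m1 : min δ ε / 2 < δ := by linarith [min_le_left δ ε]
    have m2 : min δ ε / 2 < ε := by linarith [min_le_right δ ε]
    obtain ⟨ρ, ρ0, hρ⟩ := short_cut hd hi (fun z hz => hC _ (mem_image_of_mem ψ hz)) m0 one_pos le_rfl
    obtain ⟨r, ⟨r0, r1⟩, hr⟩ := hρ ζ hζ
    have r0 := ρ0.trans r0
    obtain ⟨c, hc, he, hn⟩ := Car1_cut hd hζ r0 r1 m0 hr
    have ha : 0 < Real.arccos (r / 2) := Real.arccos_pos.2 (by linarith)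
    have hm := fun θ => Car1_mem hζ (θ := θ) r0 r1
    have hend := fun θ => Car1_end hζ (θ := θ) r0 r1
    have hπ := Real.arccos_le_pi (r / 2)
    set a := Real.arccos (r / 2)
    have haa : -a < a := by linarith
    have hfr : ∀ θ ∈ Icc (-a) a, |θ| = a → c θ ∈ frontier (ψ '' ball 0 1) := fun θ hθ e => by
      have : (𝓝[Ioo (-a) a] θ).NeBot :=
        mem_closure_iff_nhdsWithin_neBot.1 (by rwa [closure_Ioo haa.ne])
      refine Car1_proper hd hi hne (l := 𝓝[Ioo (-a) a] θ) (z := fun t => Car1_pt ζ r t)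
        (Filter.eventually_of_mem self_mem_nhdsWithin hm)
        ((((Car1_cont ζ r).comp continuous_ofReal).tendsto θ).mono_left nhdsWithin_le_nhds)
        (hend θ e) ?_
      exact ((hc θ hθ).mono Ioo_subset_Icc_self).tendsto.congr'
        (Filter.eventually_of_mem self_mem_nhdsWithin he)
    have hp := hfr (-a) (left_mem_Icc.2 haa.le) (by rw [abs_neg, abs_of_pos ha])
    have hq := hfr a (right_mem_Icc.2 haa.le) (abs_of_pos ha)
    obtain ⟨B, b1, b2, b3, b4, b5, b6⟩ := hδ _ (h1 hp) _ (h1 hq) (by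
      rw [dist_comm, dist_eq_norm]
      exact (hn a (right_mem_Icc.2 haa.le)).trans_lt m1)
    refine ⟨r, r0, c (-a), fun z hz hzr => Car1_loc hd hi hne hζ r0 r1 ha hπ hc hm he b2 b3 b4 b5
      (h2.mono_left b1) (union_subset ?_ b6) (fun h => ?_) hz hzr⟩
    · rintro _ ⟨θ, hθ, rfl⟩
      exact mem_ball_iff_norm.2 ((hn θ hθ).trans_lt m2)
    · exact disjoint_left.1 h2 (h1 hp) (hdG (ball_subset_ball εd (mem_ball_comm.1 h)))
  have hcl : closedBall (0 : ℂ) 1 = closure (ball 0 1) := (closure_ball 0 one_ne_zero).symm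
  refine ⟨extendFrom (ball 0 1) ψ, continuousOn_extendFrom hcl.subset fun ζ hζ => ?_,
    extendFrom_extends hd.continuousOn⟩
  rcases (mem_closedBall_zero_iff.1 hζ).eq_or_lt with h | h
  · have : (𝓝[ball (0 : ℂ) 1] ζ).NeBot := mem_closure_iff_nhdsWithin_neBot.1 (hcl ▸ hζ)
    refine cauchy_map_iff_exists_tendsto.1 (Metric.cauchy_iff.2 ⟨inferInstance, fun ε ε0 => ?_⟩)
    obtain ⟨r, r0, p, hp⟩ := main ζ h (min (ε / 2) d) (by positivity) (min_le_right _ _)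
    refine ⟨ball p (min (ε / 2) d), ?_, fun x hx y hy => ?_⟩
    · rw [Filter.mem_map]
      filter_upwards [self_mem_nhdsWithin, mem_nhdsWithin_of_mem_nhds (ball_mem_nhds ζ r0)]
        with z h3 h4
      exact hp z h3 (mem_ball_iff_norm.1 h4)
    · linarith [dist_triangle_right x y p, mem_ball.1 hx, mem_ball.1 hy, min_le_left (ε / 2) d]
  · exact ⟨ψ ζ, hd.continuousOn ζ (mem_ball_zero_iff.2 h)⟩

end Pool.Agent.MP_4a6971_al.H83

/-!
Injectivity of the boundary extension of a conformal map.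
-/

namespace Pool.Agent.MP_4a6971_al.H83

open Set Topology Metric Complex

theorem Car2_eq {Ψ : ℂ → ℂ} (hc : ContinuousOn Ψ (closedBall 0 1))
    (hd : DifferentiableOn ℂ Ψ (ball 0 1)) (hi : InjOn Ψ (ball 0 1))
    (hne : ∀ z ∈ ball (0 : ℂ) 1, deriv Ψ z ≠ 0) {w z : ℂ} (hw : w ∈ ball (0 : ℂ) 1)
    (hz : z ∈ closedBall (0 : ℂ) 1) (e : Ψ w = Ψ z) : w = z := by
  by_contra hwz
  obtain ⟨A, B, hA, hB, hwA, hzB, hAB⟩ := t2_separation hwz
  have ho : IsOpen (Ψ '' (A ∩ ball 0 1)) := MP_4baaa2_an.H94.top2_open (hA.inter isOpen_ball)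
    (hd.mono inter_subset_right) fun y hy => hne y hy.2
  have h1 : Ψ ⁻¹' (Ψ '' (A ∩ ball 0 1)) ∈ 𝓝[ball 0 1] z :=
    ((hc z hz).mono ball_subset_closedBall).preimage_mem_nhdsWithin
      (ho.mem_nhds ⟨w, ⟨hwA, hw⟩, e⟩)
  have h2 : B ∈ 𝓝[ball 0 1] z := mem_nhdsWithin_of_mem_nhds (hB.mem_nhds hzB)
  have h3 : (𝓝[ball 0 1] z).NeBot := by
    rw [← mem_closure_iff_nhdsWithin_neBot, closure_ball _ one_ne_zero]
    exact hz
  obtain ⟨y, ⟨⟨y', hy', e'⟩, hyB⟩, hy⟩ :=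
    h3.nonempty_of_mem (Filter.inter_mem (Filter.inter_mem h1 h2) self_mem_nhdsWithin)
  exact disjoint_left.1 hAB (hi hy'.2 hy e' ▸ hy'.1) hyB

/-- The circle goes onto the frontier of the image. Hint: the image is open (`top2_open`) and
`Ψ` is a homeomorphism of the disc onto it; the closed disc is compact. -/
theorem car_sphere {Ψ : ℂ → ℂ} (hc : ContinuousOn Ψ (closedBall 0 1))
    (hd : DifferentiableOn ℂ Ψ (ball 0 1)) (hi : InjOn Ψ (ball 0 1))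
    (hne : ∀ z ∈ ball (0 : ℂ) 1, deriv Ψ z ≠ 0) :
    Ψ '' sphere 0 1 = frontier (Ψ '' ball 0 1) := by
  have ho : IsOpen (Ψ '' ball 0 1) := MP_4baaa2_an.H94.top2_open isOpen_ball hd hne
  have hcl : closure (Ψ '' ball 0 1) = Ψ '' closedBall 0 1 := by
    refine Subset.antisymm (closure_minimal (image_mono ball_subset_closedBall)
      ((isCompact_closedBall 0 1).image_of_continuousOn hc).isClosed) ?_
    rw [← closure_ball _ one_ne_zero] at hc ⊢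
    exact hc.image_closure
  rw [ho.frontier_eq, hcl]
  ext x
  constructor
  · rintro ⟨z, hz, rfl⟩
    refine ⟨⟨z, sphere_subset_closedBall hz, rfl⟩, ?_⟩
    rintro ⟨w, hw, e⟩
    obtain rfl := Car2_eq hc hd hi hne hw (sphere_subset_closedBall hz) e
    exact (mem_ball.1 hw).ne (mem_sphere.1 hz)
  · rintro ⟨⟨z, hz, rfl⟩, h⟩
    refine ⟨z, ?_, rfl⟩
    rcases (mem_closedBall.1 hz).lt_or_eq with h' | h'
    · exact absurd ⟨z, h', rfl⟩ h
    · exact h'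

/-- `Ψ` is not constant on an arc. Hint: otherwise a finite product of the functions
`z ↦ Ψ (ω^k z) - p` vanishes on the circle, hence on the disc (maximum principle), but each factor
has at most one zero in the disc. -/
theorem car_nonconst {Ψ : ℂ → ℂ} (hc : ContinuousOn Ψ (closedBall 0 1))
    (hd : DifferentiableOn ℂ Ψ (ball 0 1)) (hi : InjOn Ψ (ball 0 1)) {α β : ℝ} (h : α < β) (p : ℂ) :
    ∃ θ ∈ Ioo α β, Ψ (exp (θ * I)) ≠ p := by
  by_contra hcon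
  push Not at hcon
  obtain ⟨δ, hδ⟩ : ∃ δ : ℝ, δ = (β - α) / 2 := ⟨_, rfl⟩
  have δ0 : 0 < δ := by rw [hδ]; linarith
  obtain ⟨N, hN⟩ : ∃ N : ℕ, N = ⌊2 * Real.pi / δ⌋₊ + 2 := ⟨_, rfl⟩
  obtain ⟨ω, hω⟩ : ∃ ω : ℕ → ℂ, ∀ k, ω k = exp ((k * δ : ℝ) * I) := ⟨_, fun _ => rfl⟩
  have ω1 : ∀ k z, ‖ω k * z‖ = ‖z‖ := fun k z => by
    rw [norm_mul, hω, norm_exp_ofReal_mul_I, one_mul]
  have ω0 : ∀ k, ω k ≠ 0 := fun k => by rw [hω]; exact exp_ne_zero _
  have mb : ∀ k, MapsTo (fun z => ω k * z) (ball 0 1) (ball 0 1) := fun k z hz => by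
    rw [mem_ball_zero_iff] at hz ⊢
    rwa [ω1]
  have mc : ∀ k, MapsTo (fun z => ω k * z) (closedBall 0 1) (closedBall 0 1) := fun k z hz => by
    rw [mem_closedBall_zero_iff] at hz ⊢
    rwa [ω1]
  have hF : DiffContOnCl ℂ (fun z => ∏ k ∈ Finset.range N, (Ψ (ω k * z) - p)) (ball 0 1) := by
    refine ⟨DifferentiableOn.fun_finsetProd fun k _ =>
      (hd.comp (f := fun z => ω k * z) (by fun_prop) (mb k)).sub_const p, ?_⟩
    rw [closure_ball _ one_ne_zero]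
    exact continuousOn_finsetProd _ fun k _ =>
      (hc.comp (f := fun z => ω k * z) (by fun_prop) (mc k)).sub continuousOn_const
  have h0 : ∀ z ∈ frontier (ball (0 : ℂ) 1),
      ‖∏ k ∈ Finset.range N, (Ψ (ω k * z) - p)‖ ≤ 0 := by
    intro z hz
    rw [frontier_ball _ one_ne_zero, mem_sphere_zero_iff_norm] at hz
    obtain ⟨θ, h1, h2, rfl⟩ : ∃ θ : ℝ, α - 2 * Real.pi < θ ∧ θ ≤ α ∧ z = exp (θ * I) := by
      have hu : ‖z * exp ((Real.pi - α : ℝ) * I)‖ = 1 := by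
        rw [norm_mul, hz, norm_exp_ofReal_mul_I, one_mul]
      have e := norm_mul_exp_arg_mul_I (z * exp ((Real.pi - α : ℝ) * I))
      rw [hu, ofReal_one, one_mul] at e
      refine ⟨arg (z * exp ((Real.pi - α : ℝ) * I)) - (Real.pi - α), ?_, ?_, ?_⟩
      · linarith [neg_pi_lt_arg (z * exp ((Real.pi - α : ℝ) * I))]
      · linarith [arg_le_pi (z * exp ((Real.pi - α : ℝ) * I))]
      · rw [ofReal_sub, sub_mul, exp_sub, e, mul_div_cancel_right₀ _ (exp_ne_zero _)]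
    have q0 : 0 ≤ (α - θ) / δ := div_nonneg (by linarith) δ0.le
    have k1 := Nat.floor_le q0
    have k2 := Nat.lt_floor_add_one ((α - θ) / δ)
    have k3 : ⌊(α - θ) / δ⌋₊ ≤ ⌊2 * Real.pi / δ⌋₊ :=
      Nat.floor_mono (div_le_div_of_nonneg_right (by linarith) δ0.le)
    rw [le_div_iff₀ δ0] at k1
    rw [div_lt_iff₀ δ0] at k2
    rw [Finset.prod_eq_zero (i := ⌊(α - θ) / δ⌋₊ + 1) (Finset.mem_range.2 (by omega)), norm_zero]
    rw [hω, ← exp_add, ← add_mul, ← ofReal_add, hcon, sub_self]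
    push_cast
    constructor <;> linarith
  have hfin : (ball (0 : ℂ) 1).Finite := by
    refine (Set.Finite.biUnion (Finset.range N).finite_toSet
      (t := fun k => {z | z ∈ ball (0 : ℂ) 1 ∧ Ψ (ω k * z) = p}) fun k _ =>
        Set.Subsingleton.finite fun x hx y hy => mul_left_cancel₀ (ω0 k)
          (hi (mb k hx.1) (mb k hy.1) (hx.2.trans hy.2.symm))).subset fun z hz => ?_
    have := norm_le_of_forall_mem_frontier_norm_le isBounded_ball hF h0 (subset_closure hz)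
    obtain ⟨k, hk, e⟩ := Finset.prod_eq_zero_iff.1 (norm_le_zero_iff.1 this)
    exact mem_biUnion (Finset.mem_coe.2 hk) ⟨hz, sub_eq_zero.1 e⟩
  exact infinite_of_mem_nhds (0 : ℂ) (ball_mem_nhds _ one_pos) hfin

theorem Car2_ang {x y : ℝ} (h1 : x < y) (h2 : y < x + 2 * Real.pi) :
    exp (x * I) ≠ exp (y * I) := by
  intro e
  obtain ⟨n, hn⟩ := exp_eq_exp_iff_exists_int.1 e
  have h := congrArg im hn
  simp at h
  have p := Real.pi_pos
  have a1 : (n : ℝ) < 0 := by nlinarith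
  have a2 : (-1 : ℝ) < n := by nlinarith
  have b1 : n < 0 := by exact_mod_cast a1
  have b2 : -1 < n := by exact_mod_cast a2
  omega

theorem Car2_norm (t θ : ℝ) (ht : 0 ≤ t) : ‖(t : ℂ) * exp (θ * I)‖ = t := by
  rw [norm_mul, norm_exp_ofReal_mul_I, mul_one, norm_real, Real.norm_of_nonneg ht]

theorem Car2_pol {Ψ : ℂ → ℂ} (hc : ContinuousOn Ψ (closedBall 0 1))
    (hd : DifferentiableOn ℂ Ψ (ball 0 1)) (hi : InjOn Ψ (ball 0 1))
    (hne : ∀ z ∈ ball (0 : ℂ) 1, deriv Ψ z ≠ 0) {t t' θ θ' : ℝ} (h0 : 0 < t) (h1 : t < 1)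
    (h : t' ∈ Icc (0 : ℝ) 1) (e : Ψ (t * exp (θ * I)) = Ψ (t' * exp (θ' * I))) :
    t = t' ∧ exp (θ * I) = exp (θ' * I) := by
  have e1 := Car2_eq hc hd hi hne (by rwa [mem_ball_zero_iff, Car2_norm _ _ h0.le])
    (by rw [mem_closedBall_zero_iff, Car2_norm _ _ h.1]; exact h.2) e
  have e2 : t = t' := by rw [← Car2_norm t θ h0.le, e1, Car2_norm _ _ h.1]
  subst e2
  exact ⟨rfl, mul_left_cancel₀ (by exact_mod_cast h0.ne') e1⟩

theorem Car2_cont {Ψ : ℂ → ℂ} (hc : ContinuousOn Ψ (closedBall 0 1)) {t θ : ℝ → ℝ}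
    (ht : Continuous t) (hθ : Continuous θ) {S : Set ℝ} (h : ∀ u ∈ S, t u ∈ Icc (0 : ℝ) 1) :
    ContinuousOn (fun u => Ψ (t u * exp (θ u * I))) S :=
  hc.comp (f := fun u => (t u : ℂ) * exp (θ u * I)) (Continuous.continuousOn (by fun_prop))
    fun u hu => by rw [mem_closedBall_zero_iff, Car2_norm _ _ (h u hu).1]; exact (h u hu).2

open Pool.Agent.Lib.PlaneTop in
theorem Car2_side {Ψ : ℂ → ℂ} (hc : ContinuousOn Ψ (closedBall 0 1))
    (hd : DifferentiableOn ℂ Ψ (ball 0 1)) (hi : InjOn Ψ (ball 0 1))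
    (hne : ∀ z ∈ ball (0 : ℂ) 1, deriv Ψ z ≠ 0)
    (hcut : ∀ p, ∀ x ∈ frontier (Ψ '' ball 0 1), x ≠ p → ∀ R : ℝ,
      ∃ c : ℂ, R ≤ ‖c‖ ∧ JoinedIn ((Ψ '' ball 0 1)ᶜ \ {p}) x c)
    {a b α β φ r : ℝ} (e : Ψ (exp (a * I)) = Ψ (exp (b * I)))
    (ha : ∀ θ ∈ Ioo α β, exp (θ * I) ≠ exp (a * I)) (hb : ∀ θ ∈ Ioo α β, exp (θ * I) ≠ exp (b * I))
    (hφ : φ ∈ Ioo α β) (r0 : 0 < r) (r1 : r < 1) :
    HasLogOn (fun z => z - Ψ (r * exp (φ * I)))
      ((fun t : ℝ => Ψ (t * exp (a * I))) '' Icc 0 1 ∪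
        (fun t : ℝ => Ψ (t * exp (b * I))) '' Icc 0 1) := by
  set J := (fun t : ℝ => Ψ (t * exp (a * I))) '' Icc 0 1 ∪
    (fun t : ℝ => Ψ (t * exp (b * I))) '' Icc 0 1 with hJ
  obtain ⟨θ, hθ, hp⟩ := car_nonconst hc hd hi (hφ.1.trans hφ.2) (Ψ (exp (a * I)))
  have hx : Ψ (exp (θ * I)) ∈ frontier (Ψ '' ball 0 1) := by
    rw [← car_sphere hc hd hi hne]
    exact ⟨_, by rw [mem_sphere_zero_iff_norm, norm_exp_ofReal_mul_I], rfl⟩
  have hJc : IsCompact J :=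
    (isCompact_Icc.image_of_continuousOn
      (Car2_cont hc continuous_id continuous_const fun u hu => hu)).union
    (isCompact_Icc.image_of_continuousOn
      (Car2_cont hc continuous_id continuous_const fun u hu => hu))
  obtain ⟨R, hR⟩ := hJc.isBounded.subset_ball 0
  obtain ⟨c, hc1, hc2⟩ := hcut _ _ hx hp R
  have hsub : (Ψ '' ball 0 1)ᶜ \ {Ψ (exp (a * I))} ⊆ Jᶜ := by
    rintro y ⟨h1, h2⟩ (⟨t, ht, rfl⟩ | ⟨t, ht, rfl⟩) <;> rcases ht.2.lt_or_eq with h | rfl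
    · exact h1 ⟨_, by rwa [mem_ball_zero_iff, Car2_norm _ _ ht.1], rfl⟩
    · exact h2 (by simp)
    · exact h1 ⟨_, by rwa [mem_ball_zero_iff, Car2_norm _ _ ht.1], rfl⟩
    · exact h2 (by simp [e])
  have l1 := (MP_4baaa2_an.H94.far_log hR hc1).of_joinedIn (hc2.mono hsub).symm
  refine l1.of_joinedIn (JoinedIn.ofLine
    (f := fun u : ℝ => Ψ ((1 + u * (r - 1) : ℝ) * exp ((θ + u * (φ - θ) : ℝ) * I)))
    (Car2_cont hc (by fun_prop) (by fun_prop) fun u hu =>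
      ⟨by nlinarith [hu.1, hu.2], by nlinarith [hu.1, hu.2]⟩) (by simp) (by simp) ?_)
  rintro _ ⟨u, hu, rfl⟩
  rcases hu.1.lt_or_eq with h | rfl
  · have k0 : 0 < 1 + u * (r - 1) := by nlinarith [hu.2]
    have k1 : 1 + u * (r - 1) < 1 := by nlinarith
    have k2 : θ + u * (φ - θ) ∈ Ioo α β :=
      ⟨by nlinarith [hu.2, hθ.1, hφ.1], by nlinarith [hu.2, hθ.2, hφ.2]⟩
    rintro (⟨t, ht, e'⟩ | ⟨t, ht, e'⟩)
    · exact ha _ k2 (Car2_pol hc hd hi hne k0 k1 ht e'.symm).2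
    · exact hb _ k2 (Car2_pol hc hd hi hne k0 k1 ht e'.symm).2
  · simpa using hsub hc2.source_mem

open Pool.Agent.Lib.PlaneTop in
theorem Car2_main {Ψ : ℂ → ℂ} (hc : ContinuousOn Ψ (closedBall 0 1))
    (hd : DifferentiableOn ℂ Ψ (ball 0 1)) (hi : InjOn Ψ (ball 0 1))
    (hne : ∀ z ∈ ball (0 : ℂ) 1, deriv Ψ z ≠ 0)
    (hcut : ∀ p, ∀ x ∈ frontier (Ψ '' ball 0 1), x ≠ p → ∀ R : ℝ,
      ∃ c : ℂ, R ≤ ‖c‖ ∧ JoinedIn ((Ψ '' ball 0 1)ᶜ \ {p}) x c)
    {a b : ℝ} (h1 : a < b) (h2 : b < a + 2 * Real.pi) : Ψ (exp (a * I)) ≠ Ψ (exp (b * I)) := by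
  intro e
  have hb0 : exp (-1 + a * I + 0) ∈ ball (0 : ℂ) 1 := by
    rw [mem_ball_zero_iff, norm_exp]
    simp
  have hs1 : HasStrictDerivAt Ψ (deriv Ψ (exp (-1 + a * I + 0))) (exp (-1 + a * I + 0)) :=
    (hd.analyticAt (isOpen_ball.mem_nhds hb0)).hasStrictDerivAt
  have hs2 : HasStrictDerivAt (fun y : ℂ => exp (-1 + a * I + y)) (exp (-1 + a * I + 0) * 1) 0 :=
    ((hasStrictDerivAt_id (0 : ℂ)).const_add (-1 + a * I)).cexp
  have hs := (hs1.comp (0 : ℂ) hs2).hasStrictFDerivAt_equiv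
    (mul_ne_zero (hne _ hb0) (mul_ne_zero (exp_ne_zero _) one_ne_zero))
  obtain ⟨ψ, hψ0, hψ⟩ : ∃ ψ : OpenPartialHomeomorph ℂ ℂ, 0 ∈ ψ.source ∧
      ∀ y, ψ y = Ψ (exp (-1 + a * I + y)) :=
    ⟨hs.toOpenPartialHomeomorph _, hs.mem_toOpenPartialHomeomorph_source, fun y => rfl⟩
  obtain ⟨ε, ε0, hε⟩ := Metric.isOpen_iff.1 ψ.open_source 0 hψ0
  obtain ⟨s, s0, s1, s2, s3, s4⟩ : ∃ s : ℝ, 0 < s ∧ 3 * s < ε ∧ s < 1 ∧ s < b - a ∧
      s < a + 2 * Real.pi - b := by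
    obtain ⟨s, s0, hs⟩ := exists_between (show (0 : ℝ) <
      min (min (ε / 3) 1) (min (b - a) (a + 2 * Real.pi - b)) by
        simp only [lt_min_iff]
        exact ⟨⟨by linarith, one_pos⟩, by linarith, by linarith⟩)
    simp only [lt_min_iff] at hs
    exact ⟨s, s0, by linarith [hs.1.1], hs.1.2, hs.2.1, hs.2.2⟩
  have hp : ∀ x τ : ℝ, ψ (x + τ * I) = Ψ ((Real.exp (-1 + x) : ℝ) * exp ((a + τ : ℝ) * I)) := by
    intro x τ
    rw [hψ, ofReal_exp, ← exp_add]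
    congr 2
    push_cast
    ring
  have hre : ∀ x : ℝ, ψ x = Ψ ((Real.exp (-1 + x) : ℝ) * exp (a * I)) := fun x => by
    simpa only [ofReal_zero, zero_mul, add_zero] using hp x 0
  have him : ∀ τ : ℝ, ψ (τ * I) = Ψ ((Real.exp (-1) : ℝ) * exp ((a + τ : ℝ) * I)) := fun τ => by
    simpa only [ofReal_zero, zero_add, add_zero] using hp 0 τ
  have r0 := Real.exp_pos (-1)
  have r1 : Real.exp (-1) < 1 := Real.exp_lt_one_iff.2 (by norm_num)
  have u1 : Real.exp (-1 + s) ≤ 1 := Real.exp_le_one_iff.2 (by linarith)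
  have u2 : Real.exp (-1) < Real.exp (-1 + s) := Real.exp_lt_exp.2 (by linarith)
  have u3 : Real.exp (-1 + -s) < Real.exp (-1) := Real.exp_lt_exp.2 (by linarith)
  have u4 := Real.exp_pos (-1 + -s)
  have sA : Icc (Real.exp (-1 + s)) 1 ⊆ Icc 0 1 := Icc_subset_Icc_left (by linarith)
  have sC : Icc 0 (Real.exp (-1 + -s)) ⊆ Icc 0 1 := Icc_subset_Icc_right (by linarith)
  have cA : ContinuousOn (fun t : ℝ => Ψ (t * exp (a * I))) (Icc 0 1) :=
    Car2_cont hc continuous_id continuous_const fun u hu => hu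
  have cB : ContinuousOn (fun t : ℝ => Ψ (t * exp (b * I))) (Icc 0 1) :=
    Car2_cont hc continuous_id continuous_const fun u hu => hu
  have hsub : ((fun t : ℝ => Ψ (t * exp (a * I))) '' Icc (Real.exp (-1 + s)) 1 ∪
      (fun t : ℝ => Ψ (t * exp (b * I))) '' Icc 0 1 ∪
      (fun t : ℝ => Ψ (t * exp (a * I))) '' Icc 0 (Real.exp (-1 + -s))) ∪
      ψ '' {y | y.im = 0 ∧ |y.re| ≤ s} ⊆ (fun t : ℝ => Ψ (t * exp (a * I))) '' Icc 0 1 ∪
        (fun t : ℝ => Ψ (t * exp (b * I))) '' Icc 0 1 := by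
    refine union_subset (union_subset (union_subset_union_left _ (image_mono sA))
      ((image_mono sC).trans subset_union_left)) ?_
    rintro _ ⟨y, ⟨k1, k2⟩, rfl⟩
    have ey : y = (y.re : ℝ) := Complex.ext (by simp) (by simpa using k1)
    refine Or.inl ⟨Real.exp (-1 + y.re), ⟨(Real.exp_pos _).le, Real.exp_le_one_iff.2 ?_⟩, ?_⟩
    · linarith [(abs_le.1 k2).2]
    · rw [ey, hre, ofReal_re]
  refine jump ψ s0 (fun y k1 k2 k3 => hε ?_) ?_ ?_ ?_ ?_ ?_ (HasLogOn.mono ?_ hsub)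
    (HasLogOn.mono ?_ hsub)
  · rw [mem_ball_zero_iff]
    have := norm_le_abs_re_add_abs_im y
    have : |y.im| ≤ 2 * s := abs_le.2 ⟨by linarith, k3⟩
    linarith
  · exact (((isCompact_Icc.image_of_continuousOn (cA.mono sA)).union
      (isCompact_Icc.image_of_continuousOn cB)).union
      (isCompact_Icc.image_of_continuousOn (cA.mono sC))).isClosed
  · refine IsPreconnected.union (Ψ 0) (Or.inr ⟨0, ⟨le_rfl, zero_le_one⟩, by simp⟩)
      ⟨0, ⟨le_rfl, u4.le⟩, by simp⟩ (IsPreconnected.union (Ψ (exp (a * I)))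
        ⟨1, ⟨u1, le_rfl⟩, by simp⟩ ⟨1, ⟨zero_le_one, le_rfl⟩, by simp [e]⟩
        (isPreconnected_Icc.image _ (cA.mono sA)) (isPreconnected_Icc.image _ cB))
      (isPreconnected_Icc.image _ (cA.mono sC))
  · exact Or.inl (Or.inl ⟨_, ⟨le_rfl, u1⟩, (hre s).symm⟩)
  · exact Or.inr ⟨_, ⟨u4.le, le_rfl⟩, by rw [← ofReal_neg, hre]⟩
  · intro τ hτ
    rw [him]
    rintro ((⟨t, ht, e'⟩ | ⟨t, ht, e'⟩) | ⟨t, ht, e'⟩)
    · linarith [(Car2_pol hc hd hi hne r0 r1 (sA ht) e'.symm).1, ht.1]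
    · exact Car2_ang (by linarith [(abs_le.1 hτ).2]) (by linarith [(abs_le.1 hτ).1])
        (Car2_pol hc hd hi hne r0 r1 ht e'.symm).2
    · linarith [(Car2_pol hc hd hi hne r0 r1 (sC ht) e'.symm).1, ht.2]
  · rw [him]
    exact Car2_side hc hd hi hne hcut (α := a) (β := b) e
      (fun θ h => (Car2_ang h.1 (by linarith [h.2])).symm)
      (fun θ h => Car2_ang h.2 (by linarith [h.1])) ⟨by linarith, by linarith⟩ r0 r1
  · rw [← neg_mul, ← ofReal_neg, him]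
    exact Car2_side hc hd hi hne hcut (α := b - 2 * Real.pi) (β := a) e
      (fun θ h => Car2_ang h.2 (by linarith [h.1]))
      (fun θ h => Car2_ang (h.2.trans h1) (by linarith [h.1])) ⟨by linarith, by linarith⟩ r0 r1

/-- No cut points give injectivity. Hint: if `Ψ ζ₁ = Ψ ζ₂ = p` for different points of the circle,
let `J` be the image of the two radii. Take points `x₁, x₂ ≠ p` on the images of the two arcs
(`car_nonconst`); `· - xₖ` has a logarithm on `J` (`far_log`, `HasLogOn.of_joinedIn`), and `xₖ` is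
joined off `J` to `Ψ (ζ₁ (1/2 ± i s))` through the open sector. This contradicts `jump` in the
chart `y ↦ Ψ (ζ₁ (1/2 + y))`. -/
theorem car_inj {Ψ : ℂ → ℂ} (hc : ContinuousOn Ψ (closedBall 0 1))
    (hd : DifferentiableOn ℂ Ψ (ball 0 1)) (hi : InjOn Ψ (ball 0 1))
    (hne : ∀ z ∈ ball (0 : ℂ) 1, deriv Ψ z ≠ 0)
    (hcut : ∀ p, ∀ x ∈ frontier (Ψ '' ball 0 1), x ≠ p → ∀ R : ℝ,
      ∃ c : ℂ, R ≤ ‖c‖ ∧ JoinedIn ((Ψ '' ball 0 1)ᶜ \ {p}) x c) :
    InjOn Ψ (closedBall 0 1) := by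
  intro z hz w hw e
  rcases (mem_closedBall_zero_iff.1 hz).lt_or_eq with h1 | h1
  · exact Car2_eq hc hd hi hne (mem_ball_zero_iff.2 h1) hw e
  rcases (mem_closedBall_zero_iff.1 hw).lt_or_eq with h2 | h2
  · exact (Car2_eq hc hd hi hne (mem_ball_zero_iff.2 h2) hz e.symm).symm
  have e1 := norm_mul_exp_arg_mul_I z
  have e2 := norm_mul_exp_arg_mul_I w
  rw [h1, ofReal_one, one_mul] at e1
  rw [h2, ofReal_one, one_mul] at e2
  have a1 := neg_pi_lt_arg z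
  have a2 := arg_le_pi z
  have a3 := neg_pi_lt_arg w
  have a4 := arg_le_pi w
  rcases lt_trichotomy (arg z) (arg w) with h | h | h
  · exact absurd (by rwa [e1, e2]) (Car2_main hc hd hi hne hcut h (by linarith))
  · rw [← e1, ← e2, h]
  · exact absurd (by rw [e1, e2, e]) (Car2_main hc hd hi hne hcut h (by linarith))

end Pool.Agent.MP_4a6971_al.H83
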