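import Mathlib

namespace Pool.Agent.MP_4a6971_al.Mcg

open CategoryTheory AlgebraicTopology

/-- The closed orientable surface of genus `g`: the hyperelliptic curve
`y² = x (x - 1) ⋯ (x - 2g)` in `ℂ²` together with its point at infinity. -/
def Surface (g : ℕ) : Type :=
  OnePoint {p : ℂ × ℂ // p.2 ^ 2 = ∏ k ∈ Finset.range (2 * g + 1), (p.1 - k)}

/-- The topology of the one-point compactification. -/
noncomputable instance surfaceTop (g : ℕ) : TopologicalSpace (Surface g) :=
  OnePoint.instTopologicalSpace

variable {X : Type} [TopologicalSpace X]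

/-- The homeomorphism `f` induces the identity on the singular homology group `H_n(X; ℤ)`. -/
def ActsTrivially (n : ℕ) (f : X ≃ₜ X) : Prop :=
  ((singularHomologyFunctor (ModuleCat.{0} ℤ) n).obj (ModuleCat.of ℤ ℤ)).map
    (TopCat.ofHom ⟨f, f.continuous⟩ : TopCat.of X ⟶ TopCat.of X) = 𝟙 _

/-- The homeomorphism `f` is isotopic to the identity. -/
def IsotopicToId (f : X ≃ₜ X) : Prop :=
  ∃ H : C(unitInterval × X, X), (∀ t, IsHomeomorph fun x => H (t, x)) ∧
    (∀ x, H (0, x) = x) ∧ ∀ x, H (1, x) = f x

variable (X)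

/-- The homeomorphisms acting trivially on `H₂(X; ℤ)`. For a closed connected orientable surface
these are the orientation preserving homeomorphisms. -/
def HomeoPlus : Subgroup (X ≃ₜ X) where
  carrier := {f | ActsTrivially 2 f}
  one_mem' := CategoryTheory.Functor.map_id _ _
  mul_mem' := fun {f h} a b => by
    have := ((singularHomologyFunctor (ModuleCat.{0} ℤ) 2).obj (ModuleCat.of ℤ ℤ)).map_comp
      (TopCat.ofHom ⟨h, h.continuous⟩ : TopCat.of X ⟶ TopCat.of X) (TopCat.ofHom ⟨f, f.continuous⟩)
    rw [show _ = 𝟙 _ from a, show _ = 𝟙 _ from b, Category.comp_id] at this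
    exact this
  inv_mem' := fun {f} a => by
    have := ((singularHomologyFunctor (ModuleCat.{0} ℤ) 2).obj (ModuleCat.of ℤ ℤ)).map_comp
      (TopCat.ofHom ⟨f.symm, f.symm.continuous⟩ : TopCat.of X ⟶ TopCat.of X)
      (TopCat.ofHom ⟨f, f.continuous⟩)
    rw [show _ = 𝟙 _ from a, Category.comp_id] at this
    refine this.symm.trans (Eq.trans ?_ (CategoryTheory.Functor.map_id _ _))
    congr 1
    ext x
    exact f.apply_symm_apply x

/-- The elements of `HomeoPlus X` that are isotopic to the identity. -/
def HomeoZero : Subgroup (HomeoPlus X) where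
  carrier := {f | IsotopicToId f.1}
  one_mem' := ⟨ContinuousMap.snd, fun _ => IsHomeomorph.id, fun _ => rfl, fun _ => rfl⟩
  mul_mem' := by
    rintro f h ⟨H, a, b, c⟩ ⟨K, a', b', c'⟩
    exact ⟨⟨fun p => H (p.1, K p), by fun_prop⟩, fun t => (a t).comp (a' t),
      fun x => (b _).trans (b' x), fun x => (c _).trans (congrArg f.1 (c' x))⟩
  inv_mem' := by
    rintro f ⟨H, a, b, c⟩
    refine ⟨⟨fun p => H (unitInterval.symm p.1, f.1.symm p.2), by fun_prop⟩,
      fun t => (a (unitInterval.symm t)).comp f.1.symm.isHomeomorph, fun x => ?_, fun x => ?_⟩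
    · simpa using c (f.1.symm x)
    · simpa using b (f.1.symm x)

/-- The elements isotopic to the identity form a normal subgroup. -/
instance homeoZeroNormal : (HomeoZero X).Normal :=
  ⟨by
    rintro f ⟨H, a, b, c⟩ h
    refine ⟨⟨fun p => h.1 (H (p.1, h.1.symm p.2)), by fun_prop⟩,
      fun t => h.1.isHomeomorph.comp ((a t).comp h.1.symm.isHomeomorph), fun x => ?_, fun x => ?_⟩
    · simp [b]
    · exact congrArg h.1 (c _)⟩

/-- The mapping class group: isotopy classes of orientation preserving homeomorphisms. -/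
def MappingClassGroup : Type := HomeoPlus X ⧸ HomeoZero X

/-- The group structure of the quotient group. -/
instance mappingClassGroupInst : Group (MappingClassGroup X) :=
  QuotientGroup.Quotient.group (HomeoZero X)

/-- The Torelli group: the classes acting trivially on `H₁(X; ℤ)`. -/
def TorelliGroup : Set (MappingClassGroup X) :=
  {m | ∃ f : HomeoPlus X, (QuotientGroup.mk f : HomeoPlus X ⧸ HomeoZero X) = m ∧
    ActsTrivially 1 f.1}

end Pool.Agent.MP_4a6971_al.Mcg
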