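import Pool.Agent.MP_4a6971_al.H83.Hyper
import Pool.Agent.MP_3fe7bf_gt.Mg.Chain
import Pool.Agent.MP_4a6971_al.H83.Stmt
import Pool.Agent.MP_4a6971_al.Mg.H66_Final
import Pool.Agent.MP_4a6971_al.H83.Baer
import Pool.Agent.MP_4a6971_al.H83.Tame
import Pool.Agent.MP_4a6971_al.H83.Alg

/-!
The action on the first homology group.
-/

namespace Pool.Agent.MP_4a6971_al.H83

open Set Topology H66 Mcg CategoryTheory AlgebraicTopology

variable {G E B : Type} [Group G] [TopologicalSpace E] [TopologicalSpace B] [MulAction G E]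

open HomologicalComplex in
theorem Hom1_key {K : ChainComplex (ModuleCat.{0} ℤ) ℕ} (φ : K ⟶ K)
    (h : homologyMap φ 1 = 𝟙 _) {A : Type} [AddCommGroup A] (l : K.X 1 →ₗ[ℤ] A)
    (hl : ∀ y, l ((K.d 2 1).hom y) = 0) (z : K.X 1) (hz : (K.d 1 0).hom z = 0) :
    l ((φ.f 1).hom z) = l z := by
  have h1 : K.d 2 1 ≫ ModuleCat.ofHom l = 0 := ModuleCat.hom_ext (LinearMap.ext hl)
  let Z : ModuleCat.of ℤ ℤ ⟶ K.X 1 := ModuleCat.ofHom (LinearMap.toSpanSingleton ℤ _ z)
  have h2 : Z ≫ K.d 1 0 = 0 := by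
    apply ModuleCat.hom_ext
    apply LinearMap.ext_ring
    simpa [Z] using hz
  have h3 : K.iCycles 1 ≫ φ.f 1 ≫ ModuleCat.ofHom l = K.iCycles 1 ≫ ModuleCat.ofHom l := by
    rw [← K.p_descOpcycles (ModuleCat.ofHom l) 2 (by simp) h1, ← cyclesMap_i_assoc,
      ← homology_π_ι_assoc, ← homologyπ_naturality_assoc, h, Category.id_comp]
  have h4 : Z ≫ φ.f 1 ≫ ModuleCat.ofHom l = Z ≫ ModuleCat.ofHom l := by
    rw [← K.liftCycles_i Z 0 (by simp) h2, Category.assoc, Category.assoc, h3]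
  simpa [Z] using LinearMap.congr_fun (congrArg ModuleCat.Hom.hom h4) 1

theorem Hom1_cocycle {π : E → B} (h : IsQuotientCoveringMap π G) {A : Type} [AddCommGroup A]
    (χ : G →* Multiplicative A) : ∃ u : E → A, ∀ (γ : G) x, u (γ • x) = (χ γ).toAdd + u x := by
  have := h.isCancelSMul
  choose sec hsec using h.surjective
  have ex : ∀ x, ∃ c : G, c • sec (π x) = x := fun x =>
    h.apply_eq_iff_mem_orbit.1 (hsec (π x)).symm
  choose c hc using ex
  refine ⟨fun x => (χ (c x)).toAdd, fun γ x => ?_⟩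
  have h1 : c (γ • x) = γ * c x := by
    refine IsCancelSMul.right_cancel _ _ (sec (π x)) ?_
    rw [mul_smul, hc x, ← h.map_smul γ (e := x), hc]
  simp only [h1, map_mul, toAdd_mul]

open MP_3fe7bf_gt Simplicial in
theorem Hom1_d {Y Y' : Type} [TopologicalSpace Y] [TopologicalSpace Y'] {A : Type}
    [AddCommGroup A] (u : Y' → A) (ψ : TopCat.of Y ⟶ TopCat.of Y') (τ : SS Y _⦋1⦌) :
    genLift ℤ (fun s : SS Y' _⦋0⦌ => u (TopCat.toSSetObj₀Equiv s))
      (((CC ℤ Y').d 1 0).hom (gen ℤ _ 1 ((TopCat.toSSet.map ψ).app _ τ))) =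
      u (ψ (TopCat.toSSetObj₀Equiv ((SS Y).δ 0 τ))) -
        u (ψ (TopCat.toSSetObj₀Equiv ((SS Y).δ 1 τ))) := by
  rw [d_gen, Fin.sum_univ_two, map_add, map_zsmul, map_zsmul, genLift_gen, genLift_gen,
    sub_eq_add_neg]
  simp only [Fin.val_zero, pow_zero, one_smul, Fin.val_one, pow_one, neg_smul]
  rfl

open MP_3fe7bf_gt Simplicial in
/-- Hint (tools: `gen`, `genLift`, `gen_ext`, `map_gen`, `d_gen`, `exists_lifts`, `equiv_map` in
`Pool.Agent.MP_3fe7bf_gt`): fix a section of `π` and let `c : E → G` be defined by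
`x = c x • sec (π x)`; put `u x = χ (c x)`, so `u (γ • x) = χ γ + u x`. On singular chains of `B`
let `ℓ σ = u (τ 1) - u (τ 0)` for any lift `τ` of the 1-simplex `σ`; `ℓ` kills boundaries. For
`γ : G` let `z` be the projection of a path from `x₀` to `γ • x₀`, a cycle with `ℓ z = χ γ` and
`ℓ (f z) = u (F (γ • x₀)) - u (F x₀) = χ (φ γ)`. If `f` acts trivially on homology then `f z - z`
is a boundary. -/
theorem hom_one [PathConnectedSpace E] {π : E → B} (h : IsQuotientCoveringMap π G) {f : B ≃ₜ B}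
    {F : E ≃ₜ E} {φ : MulAut G} (hl : IsLift π f F φ) (hf : ActsTrivially 1 f) {A : Type}
    [AddCommGroup A] (χ : G →* Multiplicative A) (γ : G) : χ (φ γ) = χ γ := by
  have := h.toContinuousConstSMul
  obtain ⟨u, hu⟩ := Hom1_cocycle h χ
  obtain ⟨b, hb1, hb2⟩ := exists_lifts h 1
  obtain ⟨b2, hb3, -⟩ := exists_lifts h 2
  let P : TopCat.of E ⟶ TopCat.of B := TopCat.ofHom ⟨π, h.continuous⟩
  let U : (CC ℤ E).X 1 →ₗ[ℤ] A :=
    genLift ℤ (fun s : SS E _⦋0⦌ => u (TopCat.toSSetObj₀Equiv s)) ∘ₗ ((CC ℤ E).d 1 0).hom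
  let l : (CC ℤ B).X 1 →ₗ[ℤ] A := genLift ℤ fun s => U (gen ℤ _ 1 (b s))
  have h1 : ∀ τ, l (gen ℤ _ 1 ((TopCat.toSSet.map P).app _ τ)) = U (gen ℤ _ 1 τ) := fun τ => by
    obtain ⟨⟨s, g⟩, rfl⟩ := hb2.2 τ
    have e : (TopCat.toSSet.map P).app _ ((TopCat.toSSet.map (act g)).app _ (b s)) = s := by
      refine Eq.trans ?_ (hb1 s)
      apply (TopCat.toSSetObjEquiv _ _).injective
      ext t
      exact h.map_smul g
    have e1 := Hom1_d u (act g) (b s)
    have e2 := Hom1_d u (𝟙 _) (b s)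
    refine (congrArg (fun s => l (gen ℤ _ 1 s)) e).trans ((genLift_gen ℤ _ _).trans ?_)
    refine e2.trans (Eq.trans ?_ e1.symm)
    exact (add_sub_add_left_eq_sub _ _ _).symm.trans (congrArg₂ _ (hu g _).symm (hu g _).symm)
  have h2 : l ∘ₗ ((SSet.chainComplexMap (TopCat.toSSet.map P) (ModuleCat.of ℤ ℤ)).f 1).hom = U :=
    gen_ext ℤ fun τ => by rw [LinearMap.comp_apply, map_gen, h1]
  have h3 : l ∘ₗ ((CC ℤ B).d 2 1).hom = 0 := gen_ext ℤ fun s => by
    have c := LinearMap.congr_fun (congrArg ModuleCat.Hom.hom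
      ((SSet.chainComplexMap (TopCat.toSSet.map P) (ModuleCat.of ℤ ℤ)).comm 2 1)) (gen ℤ _ 2 (b2 s))
    have c2 := LinearMap.congr_fun (congrArg ModuleCat.Hom.hom ((CC ℤ E).d_comp_d 2 1 0))
      (gen ℤ _ 2 (b2 s))
    simp only [ModuleCat.hom_comp, LinearMap.comp_apply, map_gen] at c
    rw [hb3] at c
    rw [LinearMap.comp_apply, c]
    refine (LinearMap.congr_fun h2 _).trans ?_
    exact (congrArg (genLift ℤ fun s : SS E _⦋0⦌ => u (TopCat.toSSetObj₀Equiv s)) c2).trans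
      (map_zero _)
  obtain ⟨x⟩ : Nonempty E := inferInstance
  let ed := TopCat.toSSetObjEdgeEquiv.symm ((TopCat.pathEquiv (X := TopCat.of E)).symm
    (PathConnectedSpace.somePath x (γ • x)))
  have t0 : TopCat.toSSetObj₀Equiv ((SS E).δ 0 ed.edge) = γ • x := by
    rw [ed.tgt_eq, Equiv.apply_symm_apply]
  have t1 : TopCat.toSSetObj₀Equiv ((SS E).δ 1 ed.edge) = x := by
    rw [ed.src_eq, Equiv.apply_symm_apply]
  generalize ed.edge = τ at t0 t1
  have hz : ((CC ℤ B).d 1 0).hom (gen ℤ _ 1 ((TopCat.toSSet.map P).app _ τ)) = 0 := by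
    have e : (SS B).δ 0 ((TopCat.toSSet.map P).app _ τ) =
        (SS B).δ 1 ((TopCat.toSSet.map P).app _ τ) :=
      TopCat.toSSetObj₀Equiv.injective
        ((congrArg π t0).trans ((h.map_smul γ).trans (congrArg π t1).symm))
    rw [d_gen, Fin.sum_univ_two, e]
    simp
  let f' : TopCat.of B ⟶ TopCat.of B := TopCat.ofHom ⟨f, f.continuous⟩
  let F' : TopCat.of E ⟶ TopCat.of E := TopCat.ofHom ⟨F, F.continuous⟩
  have k := Hom1_key (SSet.chainComplexMap (TopCat.toSSet.map f') (ModuleCat.of ℤ ℤ)) hf l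
    (LinearMap.congr_fun h3) _ hz
  have e : (TopCat.toSSet.map f').app _ ((TopCat.toSSet.map P).app _ τ) =
      (TopCat.toSSet.map P).app _ ((TopCat.toSSet.map F').app _ τ) := by
    apply (TopCat.toSSetObjEquiv _ _).injective
    ext t
    exact (hl.lift _).symm
  rw [map_gen, e, h1, h1] at k
  have e1 := Hom1_d u F' τ
  have e2 := Hom1_d u (𝟙 _) τ
  rw [t0, t1] at e1 e2
  have k2 : u (F (γ • x)) - u (F x) = u (γ • x) - u x := e1.symm.trans (k.trans e2)
  rw [hl.act, hu, hu, add_sub_cancel_right, add_sub_cancel_right] at k2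
  exact Multiplicative.toAdd.injective k2

end Pool.Agent.MP_4a6971_al.H83

/-!
The second homology group embeds in the integers.
-/

namespace Pool.Agent.MP_4a6971_al.H83

open Set Topology H66 Mcg CategoryTheory AlgebraicTopology

/-- A 2-cocycle with trivial action. -/
structure Hom2_Coc (G M : Type) [Group G] [AddCommGroup M] where
  /-- The function. -/
  u : G → G → M
  coc : ∀ x y z, u y z - u (x * y) z + u x (y * z) - u x y = 0

/-- The central extension defined by a cocycle. -/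
@[ext] structure Hom2_Ext {G M : Type} [Group G] [AddCommGroup M] (c : Hom2_Coc G M) where
  /-- The image in the quotient. -/
  x : G
  /-- The central part. -/
  m : M

section

variable {G M : Type} [Group G] [AddCommGroup M] {c : Hom2_Coc G M}

theorem Hom2_one_left (c : Hom2_Coc G M) (y : G) : c.u 1 y = c.u 1 1 := by
  have := c.coc 1 1 y
  simp only [one_mul, sub_self, zero_add] at this
  exact sub_eq_zero.1 this

theorem Hom2_one_right (c : Hom2_Coc G M) (y : G) : c.u y 1 = c.u 1 1 := by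
  have := c.coc y 1 1
  simp only [mul_one, sub_add_cancel] at this
  exact (sub_eq_zero.1 this).symm

instance Hom2_mul : Mul (Hom2_Ext c) := ⟨fun a b => ⟨a.x * b.x, a.m + b.m + c.u a.x b.x⟩⟩

instance Hom2_one : One (Hom2_Ext c) := ⟨⟨1, -c.u 1 1⟩⟩

instance Hom2_inv : Inv (Hom2_Ext c) := ⟨fun a => ⟨a.x⁻¹, -a.m - c.u a.x⁻¹ a.x - c.u 1 1⟩⟩

theorem Hom2_mul_x (a b : Hom2_Ext c) : (a * b).x = a.x * b.x := rfl

theorem Hom2_mul_m (a b : Hom2_Ext c) : (a * b).m = a.m + b.m + c.u a.x b.x := rfl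

instance Hom2_group : Group (Hom2_Ext c) :=
  Group.ofLeftAxioms
    (fun a b d => by
      refine Hom2_Ext.ext (mul_assoc _ _ _) ?_
      simp only [Hom2_mul_m, Hom2_mul_x]
      rw [← sub_eq_zero, ← neg_eq_zero, ← c.coc a.x b.x d.x]
      abel)
    (fun a => by
      refine Hom2_Ext.ext (one_mul _) ?_
      show -c.u 1 1 + a.m + c.u 1 a.x = a.m
      rw [Hom2_one_left c a.x]
      abel)
    (fun a => by
      refine Hom2_Ext.ext (inv_mul_cancel _) ?_
      show -a.m - c.u a.x⁻¹ a.x - c.u 1 1 + a.m + c.u a.x⁻¹ a.x = -c.u 1 1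
      abel)

/-- The projection to the quotient. -/
def Hom2_pr (c : Hom2_Coc G M) : Hom2_Ext c →* G where
  toFun a := a.x
  map_one' := rfl
  map_mul' _ _ := rfl

/-- The multiples of an element of the central subgroup. -/
def Hom2_j (c : Hom2_Coc G M) (m : M) : Multiplicative ℤ →* Hom2_Ext c where
  toFun n := ⟨1, n.toAdd • m - c.u 1 1⟩
  map_one' := Hom2_Ext.ext rfl (by
    show (0 : ℤ) • m - c.u 1 1 = -c.u 1 1
    rw [zero_smul, zero_sub])
  map_mul' a b := Hom2_Ext.ext (one_mul _).symm (by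
    show (a.toAdd + b.toAdd) • m - c.u 1 1 =
      a.toAdd • m - c.u 1 1 + (b.toAdd • m - c.u 1 1) + c.u 1 1
    rw [add_smul]
    abel)

theorem Hom2_j_comm (m : M) (n : Multiplicative ℤ) (e : Hom2_Ext c) :
    e * Hom2_j c m n = Hom2_j c m n * e := by
  refine Hom2_Ext.ext ((mul_one _).trans (one_mul _).symm) ?_
  show e.m + (n.toAdd • m - c.u 1 1) + c.u e.x 1 = n.toAdd • m - c.u 1 1 + e.m + c.u 1 e.x
  rw [Hom2_one_left c e.x, Hom2_one_right c e.x]
  abel

end

theorem Hom2_cen {F E : Type} [Group F] [Group E] (θ : F →* E) (j : Multiplicative ℤ →* E)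
    (hj : ∀ n e, e * j n = j n * e) {r : F} (hr : θ r ∈ j.range) {w : F}
    (hw : w ∈ Subgroup.normalClosure {r}) : θ w ∈ j.range := by
  have : j.range.Normal := ⟨by
    rintro _ ⟨n, rfl⟩ e
    exact ⟨n, by rw [hj, mul_inv_cancel_right]⟩⟩
  exact Subgroup.normalClosure_le_normal (N := j.range.comap θ) (singleton_subset_iff.2 hr) hw

theorem Hom2_cen_comm {n : Type} [Fintype n] {B : Matrix n n ℤ} (k : Multiplicative ℤ)
    (e : Heis B) : e * Heis.cen B k = Heis.cen B k * e := by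
  refine Heis.ext ?_ ?_
  · simp [Heis.cen]
  · simp [Heis.cen, add_comm]

/-- There is an integral cocycle such that every cocycle is a multiple of it up to a coboundary. -/
theorem Hom2_key {g : ℕ} (hg : 1 ≤ g) {G : Type} [Group G] (p : FreeGroup (Fin g ⊕ Fin g) →* G)
    (hp : Function.Surjective p) (hr : p (surfaceRel g) = 1)
    (hk : p.ker ≤ Subgroup.normalClosure {surfaceRel g}) :
    ∃ n : Hom2_Coc G ℤ, ∀ (M : Type) [AddCommGroup M] (c : Hom2_Coc G M), ∃ (m : M) (φ : G → M),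
      ∀ x y, c.u x y = n.u x y • m - (φ y - φ (x * y) + φ x) := by
  let k₀ : Fin g := ⟨0, hg⟩
  let B : Matrix (Fin g ⊕ Fin g) (Fin g ⊕ Fin g) ℤ := Matrix.single (Sum.inl k₀) (Sum.inr k₀) 1
  have hB : (Matrix.J (Fin g) ℤ * B).trace = 1 := by
    rw [Matrix.trace_mul_single]
    simp [Matrix.J]
  let χ : FreeGroup (Fin g ⊕ Fin g) →* Heis B := FreeGroup.lift fun i => ⟨Pi.single i 1, 0⟩
  have hχ : χ (surfaceRel g) = Heis.cen B (Multiplicative.ofAdd 1) := by
    rw [lift_surfaceRel, relProd_heis]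
    simp only [single_dot]
    rw [← trace_J_mul, hB]
  choose t ht using hp
  have hc : ∀ x y, t x * t y * (t (x * y))⁻¹ ∈ Subgroup.normalClosure {surfaceRel g} :=
    fun x y => hk (by rw [MonoidHom.mem_ker, map_mul, map_mul, map_inv, ht, ht, ht, mul_inv_cancel])
  have h1 : ∀ x y, ∃ n, Heis.cen B n = χ (t x * t y * (t (x * y))⁻¹) := fun x y =>
    Hom2_cen χ (Heis.cen B) Hom2_cen_comm ⟨_, hχ.symm⟩ (hc x y)
  choose n hn using h1
  have hinj : ∀ a b, Heis.cen B a = Heis.cen B b → a.toAdd = b.toAdd := fun a b e =>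
    congrArg Heis.z e
  refine ⟨⟨fun x y => (n x y).toAdd, fun x y z => ?_⟩, fun M _ c => ?_⟩
  · have e : Heis.cen B (n x y * n (x * y) z) = Heis.cen B (n y z * n x (y * z)) := by
      have e1 : Heis.cen B (n y z) = χ (t x) * Heis.cen B (n y z) * (χ (t x))⁻¹ := by
        rw [Hom2_cen_comm, mul_inv_cancel_right]
      rw [map_mul, map_mul, e1, hn, hn, hn, hn, mul_assoc x y z]
      simp only [map_mul, map_inv]
      group
    have := hinj _ _ e
    simp only [toAdd_mul] at this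
    linear_combination -this
  · let θ : FreeGroup (Fin g ⊕ Fin g) →* Hom2_Ext c :=
      FreeGroup.lift fun i => ⟨p (FreeGroup.of i), 0⟩
    have hθ : ∀ w, (θ w).x = p w := fun w =>
      DFunLike.congr_fun (show (Hom2_pr c).comp θ = p from FreeGroup.ext_hom _ _ fun i => by
        simp [θ, Hom2_pr]) w
    refine ⟨(θ (surfaceRel g)).m + c.u 1 1, fun x => (θ (t x)).m, fun x y => ?_⟩
    obtain ⟨k, hk⟩ := Hom2_cen (χ.prod θ)
      ((Heis.cen B).prod (Hom2_j c ((θ (surfaceRel g)).m + c.u 1 1)))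
      (fun n e => Prod.ext (Hom2_cen_comm n e.1) (Hom2_j_comm _ n e.2))
      ⟨Multiplicative.ofAdd 1, Prod.ext hχ.symm (Hom2_Ext.ext ((hθ _).trans hr).symm (by
        show (1 : ℤ) • ((θ (surfaceRel g)).m + c.u 1 1) - c.u 1 1 = (θ (surfaceRel g)).m
        rw [one_smul, add_sub_cancel_right]))⟩ (hc x y)
    have e1 : k.toAdd = (n x y).toAdd := hinj _ _ ((congrArg Prod.fst hk).trans (hn x y).symm)
    have e2 : Hom2_j c ((θ (surfaceRel g)).m + c.u 1 1) k = θ (t x * t y * (t (x * y))⁻¹) :=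
      congrArg Prod.snd hk
    have e3 : θ (t x) * θ (t y) = Hom2_j c ((θ (surfaceRel g)).m + c.u 1 1) k * θ (t (x * y)) := by
      rw [e2, map_mul, map_mul, map_inv, inv_mul_cancel_right]
    have e4 : (θ (t x)).m + (θ (t y)).m + c.u (θ (t x)).x (θ (t y)).x =
        k.toAdd • ((θ (surfaceRel g)).m + c.u 1 1) - c.u 1 1 + (θ (t (x * y))).m +
          c.u 1 (θ (t (x * y))).x := congrArg Hom2_Ext.m e3
    rw [hθ, hθ, ht, ht, Hom2_one_left c (θ (t (x * y))).x, e1] at e4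
    rw [← sub_eq_zero] at e4 ⊢
    rw [← e4]
    abel

open groupHomology in
theorem Hom2_embed {g : ℕ} (hg : 1 ≤ g) {G : Type} [Group G] (p : FreeGroup (Fin g ⊕ Fin g) →* G)
    (hp : Function.Surjective p) (hr : p (surfaceRel g) = 1)
    (hk : p.ker ≤ Subgroup.normalClosure {surfaceRel g}) :
    ∃ L : groupHomology (Rep.trivial ℤ G ℤ) 2 →ₗ[ℤ] ℤ, Function.Injective L := by
  obtain ⟨n, hn⟩ := Hom2_key hg p hp hr hk
  let A := Rep.trivial ℤ G ℤ
  let q : (G × G →₀ ℤ) →ₗ[ℤ] ((G × G →₀ ℤ) ⧸ boundaries₂ A) := (boundaries₂ A).mkQ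
  obtain ⟨m, φ, h⟩ := hn ((G × G →₀ ℤ) ⧸ boundaries₂ A)
    ⟨fun x y => q (Finsupp.single (x, y) 1), fun x y z => by
      rw [← map_sub, ← map_add, ← map_sub]
      exact (Submodule.Quotient.mk_eq_zero _).2 ⟨Finsupp.single (x, y, z) 1,
        d₃₂_single (A := A) (x, y, z) (1 : ℤ)⟩⟩
  let l : (G × G →₀ ℤ) →ₗ[ℤ] ℤ := Finsupp.linearCombination ℤ fun w => n.u w.1 w.2
  let Φ : (G →₀ ℤ) →ₗ[ℤ] ((G × G →₀ ℤ) ⧸ boundaries₂ A) := Finsupp.linearCombination ℤ φ
  have h1 : ∀ z, q z = l z • m - Φ ((d₂₁ A).hom z) := fun z => by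
    induction z using Finsupp.induction_linear with
    | zero => simp
    | add a b ha hb => rw [map_add, map_add, map_add, map_add, ha, hb, add_smul]; abel
    | single w a =>
      have e : (d₂₁ A).hom (Finsupp.single w 1) =
          Finsupp.single w.2 1 - Finsupp.single (w.1 * w.2) 1 + Finsupp.single w.1 1 :=
        d₂₁_single (A := A) w (1 : ℤ)
      have e1 : q (Finsupp.single w 1) = l (Finsupp.single w 1) • m -
          Φ ((d₂₁ A).hom (Finsupp.single w 1)) := by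
        rw [e]
        simpa [l, Φ] using h w.1 w.2
      rw [← Finsupp.smul_single_one, map_smul, map_smul, map_smul, map_smul, e1, smul_sub,
        smul_assoc]
  have h2 : ∀ z ∈ boundaries₂ A, l z = 0 := by
    rintro _ ⟨z, rfl⟩
    induction z using Finsupp.induction_linear with
    | zero => simp
    | add a b ha hb => rw [map_add, map_add, ha, hb, add_zero]
    | single w a =>
      have e : (d₃₂ A).hom (Finsupp.single w 1) = Finsupp.single (w.2.1, w.2.2) 1 -
          Finsupp.single (w.1 * w.2.1, w.2.2) 1 + Finsupp.single (w.1, w.2.1 * w.2.2) 1 -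
          Finsupp.single (w.1, w.2.1) 1 := d₃₂_single (A := A) w (1 : ℤ)
      have e1 : l ((d₃₂ A).hom (Finsupp.single w 1)) = 0 := by
        rw [e]
        simpa [l] using n.coc w.1 w.2.1 w.2.2
      rw [← Finsupp.smul_single_one, map_smul, map_smul, e1, smul_zero]
  have hs : Function.Surjective (H2π A).hom := (ModuleCat.epi_iff_surjective _).1 inferInstance
  have h3 : LinearMap.ker (H2π A).hom = LinearMap.ker (l ∘ₗ (cycles₂ A).subtype) := by
    ext z
    refine (H2π_eq_zero_iff z).trans ⟨h2 _, fun hz => ?_⟩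
    have e := h1 z.1
    rw [show l z.1 = 0 from hz, show (d₂₁ A).hom z.1 = 0 from z.2, map_zero, zero_smul,
      sub_zero] at e
    exact (Submodule.Quotient.mk_eq_zero _).1 e
  refine ⟨(LinearMap.ker (H2π A).hom).liftQ (l ∘ₗ (cycles₂ A).subtype) h3.le ∘ₗ
    ((H2π A).hom.quotKerEquivOfSurjective hs).symm.toLinearMap, ?_⟩
  exact (LinearMap.ker_eq_bot.1 (Submodule.ker_liftQ_eq_bot _ _ h3.le h3.ge)).comp
    (LinearEquiv.injective _)

/-- Half of Hopf's formula. -/
theorem h2_embed {g : ℕ} (hg : 1 ≤ g) :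
    ∃ L : groupHomology (Rep.trivial ℤ (SurfaceGroup g) ℤ) 2 →ₗ[ℤ] ℤ, Function.Injective L :=
  Hom2_embed hg (PresentedGroup.mk _) (PresentedGroup.mk_surjective _)
    (PresentedGroup.one_of_mem rfl) fun _ hw => PresentedGroup.mk_eq_one_iff.1 hw

theorem Hom2_sq {H : Type} [AddCommGroup H] [Module ℤ H] (L : H →ₗ[ℤ] ℤ)
    (hL : Function.Injective L) (a b : H →ₗ[ℤ] H) (hab : ∀ x, a (b x) = x) (x : H) :
    a (a x) = x := by
  obtain ⟨d, hd⟩ := (IsPrincipalIdealRing.principal (LinearMap.range L : Ideal ℤ)).principal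
  obtain ⟨x₀, rfl⟩ : d ∈ LinearMap.range L := hd ▸ Submodule.mem_span_singleton_self d
  have h1 : ∀ y, ∃ k : ℤ, ∀ f : H →ₗ[ℤ] ℤ, f y = k * f x₀ := fun y => by
    obtain ⟨k, hk⟩ := Submodule.mem_span_singleton.1 (hd ▸ LinearMap.mem_range_self L y)
    refine ⟨k, fun f => ?_⟩
    have e := hL ((L.map_smul k x₀).trans hk)
    rw [← e, f.map_smul, smul_eq_mul]
  obtain ⟨k, hk⟩ := h1 x
  obtain ⟨u, hu⟩ := h1 (a x₀)
  obtain ⟨v, hv⟩ := h1 (b x₀)
  have e1 : L (a x₀) = u * L x₀ := hu L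
  have e2 : L (a (b x₀)) = v * L (a x₀) := hv (L ∘ₗ a)
  have e3 : L (a (a x₀)) = u * L (a x₀) := hu (L ∘ₗ a)
  have e4 : L (a (a x)) = k * L (a (a x₀)) := hk (L ∘ₗ a ∘ₗ a)
  apply hL
  rw [e4, e3, e1, hk L]
  rw [hab, e1] at e2
  rcases eq_or_ne (L x₀) 0 with h0 | h0
  · rw [h0]
    ring
  · have e5 : u * v = 1 := mul_right_cancel₀ h0 (by linear_combination -e2)
    rcases Int.eq_one_or_neg_one_of_mul_eq_one e5 with rfl | rfl <;> ring

theorem hom_two {g : ℕ} (hg : 1 ≤ g) {G E B : Type} [Group G] [TopologicalSpace E]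
    [TopologicalSpace B] [MulAction G E] [ContractibleSpace E] {π : E → B}
    (h : IsQuotientCoveringMap π G) (e : SurfaceGroup g ≃* G) (f : B ≃ₜ B) :
    ActsTrivially 2 (f * f) := by
  obtain ⟨L, hL⟩ := Hom2_embed hg (e.toMonoidHom.comp (PresentedGroup.mk _))
    (e.surjective.comp (PresentedGroup.mk_surjective _))
    ((congrArg e (PresentedGroup.one_of_mem rfl)).trans (map_one e))
    fun _ hw => PresentedGroup.mk_eq_one_iff.1 (e.injective (hw.trans (map_one e).symm))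
  obtain ⟨i⟩ := MP_3fe7bf_gt.singular_iso_group ℤ h 2
  let S := (singularHomologyFunctor (ModuleCat.{0} ℤ) 2).obj (ModuleCat.of ℤ ℤ)
  let a : TopCat.of B ⟶ TopCat.of B := TopCat.ofHom ⟨f, f.continuous⟩
  let b : TopCat.of B ⟶ TopCat.of B := TopCat.ofHom ⟨f.symm, f.symm.continuous⟩
  have hab : S.map b ≫ S.map a = 𝟙 _ := by
    rw [← S.map_comp, ← S.map_id]
    congr 1
    ext x
    exact f.apply_symm_apply x
  have key : S.map a ≫ S.map a = 𝟙 _ := by
    ext x
    exact Hom2_sq (L ∘ₗ i.inv.hom) (hL.comp i.symm.toLinearEquiv.injective) (S.map a).hom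
      (S.map b).hom (fun y => congrArg (fun φ : S.obj _ ⟶ S.obj _ => φ.hom y) hab) x
  exact (S.map_comp a a).trans key

end Pool.Agent.MP_4a6971_al.H83

/-!
The Torelli group has density zero in the mapping class group.
-/

namespace Pool.Agent.MP_4a6971_al.H83

open Set Topology Filter H66 Mcg

theorem exists_curveSys' {g : ℕ} (hg : 2 ≤ g) :
    ∃ (C : Type) (_ : MulAction (Out (Gam g)) C) (Y : CurveSys (Out (Gam g)) C),
      ∀ p N, Y.T p N = QuotientGroup.mk (tw (p : ZMod 2) (N + 1) 1 * tw (p : ZMod 2) (N + 1) 1) := by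
  obtain ⟨Y⟩ := exists_poly hg
  have sm : ∀ (φ : MulAut (Gam g)) (a b d : Crv g), Y.DD a b d ≤ Y.DD (φ • a) (φ • b) (φ • d) :=
    fun φ a b d => Poly.DD_le fun m hm => Poly.le_DD (Poly.DS_smul φ hm)
  refine ⟨Crv g, inferInstance,
    { n := g + 1
      hn := by omega
      c := fun i => bc (i : I g)
      per := fun i => ?_
      X := Y.XX
      D := Y.DD
      θ := 5
      X_symm := fun a b ⟨x, h1, y, h2, h3⟩ => ⟨y, h2, x, h1, h3.symm⟩
      X_smul := fun u a b ⟨x, h1, y, h2, h3⟩ => ?_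
      D_smul := fun u a b d => ?_
      D_symm := fun a b d => le_antisymm (Poly.DD_le fun m hm => Poly.le_DD (Poly.DS_symm hm))
        (Poly.DD_le fun m hm => Poly.le_DD (Poly.DS_symm hm))
      D_cross := fun a b d h => ?_
      D_tri := fun a b d e h => Poly.DD_tri h
      D_bdd := fun b d => (Poly.DS_bdd b d).imp fun K hK a => Poly.DD_le (hK a)
      D_self := fun a b => Poly.DD_le fun m ⟨x, _, y, h2, z, h3, _, _, h6⟩ => ?_
      behr := fun a b d h => Poly.DD_behr h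
      fill := fun a => ?_
      adj := fun i => ⟨_, mem_cl_self _, _, mem_cl_self _, by push_cast; exact Y.lk_adj _⟩
      T := fun p N => QuotientGroup.mk (tw (p : ZMod 2) ((2 * N + 1 : ℕ) + 1) 1)
      T_fix := fun p N i hi => Subtype.ext ?_
      T_far := fun p N i hi => ?_
      T_near := fun p N a ha j hj => Y.twist_near _ _ (fun i hi => ?_) hj
      stab := Y.stab_fin.subset fun u hu i => ?_ }, fun p N => ?_⟩
  · have : ((2 * g + 2 : ℕ) : I g) = 0 := ZMod.natCast_self _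
    congr 1
    push_cast at this ⊢
    linear_combination this
  · obtain ⟨φ, rfl⟩ := QuotientGroup.mk_surjective u
    exact ⟨_, ⟨x, h1, rfl⟩, _, ⟨y, h2, rfl⟩, h3.map φ⟩
  · obtain ⟨φ, rfl⟩ := QuotientGroup.mk_surjective u
    refine le_antisymm ?_ (sm φ a b d)
    simpa [Crv.mk_smul] using sm φ⁻¹ (φ • a) (φ • b) (φ • d)
  · obtain ⟨x, h1, y, h2, -, -, h3, -⟩ := Poly.DD_mem h
    exact ⟨x, h1, y, h2, h3⟩
  · by_contra! hc
    exact Poly.not_twG_self h2 h3 (h6.mono (by omega))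
  · obtain ⟨φ, i, e⟩ := a.2
    have h1 : φ (tc i) ∈ a.1 := e ▸ mem_cl_self _
    obtain ⟨j, y, h2, h3⟩ := Y.fill (Y.ne_of_mem h1)
    exact ⟨j.val, _, h1, y, by simpa [bc] using h2, h3⟩
  · rw [Crv.mk_smul, Crv.smul_coe, bc, image_cl, tw_tc _ ((par_iff i p).2 hi)]
  · have := Y.twist_far ((par_iff i p).2 hi) (2 * N + 1)
    rw [Crv.mk_smul, Int.cast_add i, Int.cast_one]
    omega
  · simpa using ha i.val ((par_iff _ p).1 (by rwa [Int.cast_natCast, ZMod.natCast_zmod_val]))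
  · simpa using hu i.val
  · change QuotientGroup.mk _ = _
    rw [← tw_add]
    congr 2
    push_cast
    ring

theorem density {g : ℕ} (hg : 2 ≤ g) (S : Finset (MappingClassGroup (Surface g)))
    (hS : Subgroup.closure (S : Set (MappingClassGroup (Surface g))) = ⊤) :
    Tendsto (fun r : ℕ =>
      ((wordBall (S : Set (MappingClassGroup (Surface g))) r ∩ TorelliGroup (Surface g)).ncard : ℝ) /
      ((wordBall (S : Set (MappingClassGroup (Surface g))) r).ncard : ℝ)) atTop (𝓝 0) := by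
  obtain ⟨Y⟩ := exists_poly hg
  obtain ⟨e⟩ := surface_iso g
  let _ := MulAction.compHom X Y.σ
  obtain ⟨π, hπ⟩ := exists_cover Y
  obtain ⟨J, hJ, hk⟩ := exists_outHom hπ fun F hF => baer (Y := Y) hF
  let j : MappingClassGroup (Surface g) →* Out (Gam g) :=
    QuotientGroup.lift (HomeoZero _) (J.comp (HomeoPlus _).subtype) fun f hf => (hk f.1).2 hf
  have hj : Function.Injective j := by
    rw [injective_iff_map_eq_one]
    intro m hm
    obtain ⟨f, rfl⟩ := QuotientGroup.mk_surjective m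
    exact (QuotientGroup.eq_one_iff _).2 ((hk f.1).1 hm)
  let H : Subgroup (MulAut (Gam g)) :=
    { carrier := {φ | ∃ F : X ≃ₜ X, ∀ (γ : Gam g) x, F (γ • x) = φ γ • F x}
      one_mem' := ⟨1, fun _ _ => rfl⟩
      mul_mem' := fun ⟨F, a⟩ ⟨F', b⟩ => ⟨F * F', fun γ x => (congrArg F (b γ x)).trans (a _ _)⟩
      inv_mem' := fun {φ} ⟨F, a⟩ => ⟨F.symm, fun γ x => by
        rw [F.symm_apply_eq, a, F.apply_symm_apply]
        simp⟩ }
  have h1 : ∀ p n, twG p n 1 ∈ H := fun p n => exists_twist_homeo Y p n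
  have h2 : ∀ φ ∈ H, (QuotientGroup.mk (φ * φ) : Out (Gam g)) ∈ j.range := by
    rintro φ ⟨F, hF⟩
    obtain ⟨f, hf⟩ := exists_descend hπ F φ hF
    refine ⟨QuotientGroup.mk ⟨f * f, hom_two (by omega : 1 ≤ g) hπ e f⟩, ?_⟩
    change J (f * f) = _
    rw [map_mul, hJ f F φ hf, QuotientGroup.mk_mul]
  obtain ⟨C, inst, Z, hT⟩ := exists_curveSys' hg
  let _ := MulAction.compHom C j
  obtain ⟨Z'⟩ := (Z.comap j hj fun p N => by
    rw [hT, ← twG_const]
    exact h2 _ (h1 _ _)).gate S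
  obtain ⟨L, p, hL⟩ := Z'.good hS
  obtain ⟨Q, _, q, K, _, hq, hK, hker⟩ := exists_quot' hg j H (fun i => h1 _ _) h2
  refine squeeze_zero (fun r => by positivity) (fun r => ?_) (density_of_good hL q hq hK hS)
  refine div_le_div_of_nonneg_right (Nat.cast_le.2 (Set.ncard_le_ncard ?_
    ((wordBall_finite S.finite_toSet r).inter_of_left _))) (Nat.cast_nonneg _)
  rintro x ⟨hx, f, rfl, hf⟩
  obtain ⟨F, φ, hl⟩ := exists_isLift hπ f.1
  exact ⟨hx, hker _ φ (hJ _ F φ hl) fun χ γ => hom_one hπ hl hf χ γ⟩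

end Pool.Agent.MP_4a6971_al.H83
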