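import Pool.Agent.MP_4a6971_al.Mg.H66_CurveDefs
import Pool.Agent.MP_4a6971_al.H83.Conv

/-!
The hyperbolic plane as a type, geodesic segments, and the predicates of the straightening argument.
-/

namespace Pool.Agent.MP_4a6971_al.H83

open Set Topology H66

/-- The hyperbolic plane. -/
abbrev X : Type := {P : V // H2 P}

instance : MulAction Isom X where
  smul f x := ⟨f • x.1, x.2.smul f⟩
  one_smul x := Subtype.ext (one_smul _ x.1)
  mul_smul f f' x := Subtype.ext (mul_smul f f' x.1)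

@[simp] theorem coe_smul (f : Isom) (x : X) : (f • x).1 = f • x.1 := rfl

instance : ContinuousConstSMul Isom X :=
  ⟨fun f => ((continuous_isom f).comp continuous_subtype_val).subtype_mk _⟩

/-- The linear form of `N` on the plane. -/
noncomputable def bf (N : V) (x : X) : ℝ := Bf N x.1

/-- The hyperbolic cosine of the distance. -/
noncomputable def cd (x y : X) : ℝ := ch x.1 y.1

@[fun_prop] theorem continuous_bf (N : V) : Continuous (bf N) := by unfold bf Bf; fun_prop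

theorem continuous_cd : Continuous fun p : X × X => cd p.1 p.2 := by unfold cd ch Bf; fun_prop

@[fun_prop] theorem Continuous.cd' {A : Type*} [TopologicalSpace A] {f f' : A → X}
    (h : Continuous f) (h' : Continuous f') : Continuous fun a => cd (f a) (f' a) :=
  continuous_cd.comp (h.prodMk h')

@[simp] theorem bf_smul (f : Isom) (N : V) (x : X) : bf (f • N) (f • x) = bf N x := Bf_isom f _ _

@[simp] theorem cd_smul (f : Isom) (x y : X) : cd (f • x) (f • y) = cd x y := ch_isom f _ _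

@[simp] theorem bf_neg (N : V) (x : X) : bf (-N) x = -bf N x := Bf_neg_left _ _

theorem bf_add_smul (N : V) (μ : ℝ) (v x : X) : bf (N + μ • v.1) x = bf N x - μ * cd v x := by
  simp [bf, cd, ch]

theorem cd_comm (x y : X) : cd x y = cd y x := ch_comm _ _

theorem one_le_cd (x y : X) : 1 ≤ cd x y := one_le_ch x.2 y.2

theorem cd_self (x : X) : cd x x = 1 := by simp [cd, ch, x.2.1]

theorem eq_of_cd_le {x y : X} (h : cd x y ≤ 1) : x = y := Subtype.ext (eq_of_ch_le x.2 y.2 h)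

theorem cd_tri (x y z : X) : cd x z ≤ 2 * cd y x * cd y z := ch_tri x.2 y.2 z.2

/-- The geodesic segment. -/
def seg (a b : X) : Set X := {y | ∃ s t : ℝ, 0 ≤ s ∧ 0 ≤ t ∧ y.1 = s • a.1 + t • b.1}

/-- Geodesically convex sets. -/
def Cvx (K : Set X) : Prop := ∀ a ∈ K, ∀ b ∈ K, seg a b ⊆ K

theorem H2_comb (a b : X) {τ : ℝ} (h : τ ∈ Icc (0 : ℝ) 1) :
    H2 ((√((1 - τ) ^ 2 + τ ^ 2 + 2 * τ * (1 - τ) * cd a b))⁻¹ • ((1 - τ) • a.1 + τ • b.1)) := by
  have h1 := one_le_cd a b
  have h0 : 0 ≤ τ * (1 - τ) := mul_nonneg h.1 (by linarith [h.2])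
  have h2 : 0 < (1 - τ) ^ 2 + τ ^ 2 + 2 * τ * (1 - τ) * cd a b := by nlinarith
  have h3 := Real.sqrt_pos.2 h2
  have h4 := Real.mul_self_sqrt h2.le
  constructor
  · simp only [Bf_smul_left, Bf_smul_right, Bf_add_left, Bf_add_right, a.2.1, b.2.1,
      Bf_comm b.1 a.1]
    have e : Bf a.1 b.1 = -cd a b := by simp [cd, ch]
    rw [e]
    generalize √((1 - τ) ^ 2 + τ ^ 2 + 2 * τ * (1 - τ) * cd a b) = r at h3 h4 ⊢
    field_simp
    nlinarith
  · have ha := a.2.2
    have hb := b.2.2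
    simp only [Prod.smul_fst, Prod.fst_add, smul_eq_mul]
    have : 0 < (1 - τ) * a.1.1 + τ * b.1.1 := by
      rcases h.1.eq_or_lt with rfl | c
      · simpa using ha
      · nlinarith [h.2]
    positivity

/-- The geodesic segment from `a` to `b`, parametrised by `[0,1]`. -/
noncomputable def gp (a b : X) (t : ℝ) : X := ⟨_, H2_comb a b (projIcc 0 1 zero_le_one t).2⟩

/-- The closed disc. -/
def Dsc (c : X) (R : ℝ) : Set X := {x | cd c x ≤ R}

/-- The region between two cuts in the strip about the line with normal `E`. -/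
def Reg (E N N' : V) (η : ℝ) : Set X := {x | |bf E x| ≤ η ∧ 0 ≤ bf N x ∧ 0 ≤ bf N' x}

/-- `S` is locally contained in finitely many lines. -/
def Pl (S : Set X) : Prop :=
  ∀ C, IsCompact C → ∃ t : Finset V, (∀ N ∈ t, Bf N N = 1) ∧ ∀ y ∈ S ∩ C, ∃ N ∈ t, bf N y = 0

/-- The Klein chart. -/
noncomputable def kl (x : X) : ℂ :=
  ⟨(x.1.1 - x.1.2.2) / (x.1.1 + x.1.2.2), 2 * x.1.2.1 / (x.1.1 + x.1.2.2)⟩

variable {g : ℕ}

/-- Neighbouring sides. -/
def Adj (i j : I g) : Prop := j = i + 1 ∨ i = j + 1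

variable (Y : Poly g)

/-- The normal of the wall `w L_i`. -/
noncomputable def nr (w : W g) (i : I g) : V := Y.ρ w • Y.e i

/-- The union of the walls of colour `c`. -/
def Tc (c : ZMod 2) : Set X := {x | ∃ w i, par i = c ∧ bf (nr Y w i) x = 0}

/-- The union of all walls. -/
def TT : Set X := {x | ∃ w i, bf (nr Y w i) x = 0}

/-- The fundamental chamber. -/
def Chm : Set X := {x | ∀ i, 0 ≤ bf (Y.e i) x}

/-- The thin rectangle about the side `i`. -/
def Rc (i : I g) (η : ℝ) : Set X := Reg (Y.e i) (Y.e (i - 1)) (Y.e (i + 1)) η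

/-- `F` commutes with the surface group. -/
def Comm (F : X ≃ₜ X) : Prop := ∀ (γ : Gam g) (x : X), F (Y.σ γ • x) = Y.σ γ • F x

/-- `F` is isotopic to the identity through homeomorphisms commuting with the surface group. -/
def Iso0 (F : X ≃ₜ X) : Prop :=
  ∃ H : ℝ → X ≃ₜ X, Continuous (fun p : ℝ × X => H p.1 p.2) ∧ (∀ t, Comm Y (H t)) ∧
    H 0 = 1 ∧ H 1 = F

/-- `F'` is obtained from `F` by an equivariant isotopy. -/
def Red (F F' : X ≃ₜ X) : Prop := Comm Y F' ∧ (Iso0 Y F' → Iso0 Y F)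

/-- The images of the walls of colour `c` stay within `m` of the walls. -/
def Bd (c : ZMod 2) (F : X ≃ₜ X) (m : ℝ) : Prop :=
  ∀ w i x, par i = c → bf (nr Y w i) x = 0 → |bf (nr Y w i) (F x)| ≤ m

variable {Y}

theorem Comm.mul {F F' : X ≃ₜ X} (h : Comm Y F) (h' : Comm Y F') : Comm Y (F * F') :=
  fun γ x => (congrArg F (h' γ x)).trans (h γ _)

theorem Comm.inv {F : X ≃ₜ X} (h : Comm Y F) : Comm Y F⁻¹ := fun γ x => by
  change F.symm _ = Y.σ γ • F.symm x
  rw [F.symm_apply_eq, h, F.apply_symm_apply]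

theorem Iso0.comm {F : X ≃ₜ X} (h : Iso0 Y F) : Comm Y F := by
  obtain ⟨H, -, a, -, rfl⟩ := h
  exact a 1

theorem Iso0.one : Iso0 Y 1 := ⟨fun _ => 1, continuous_snd, fun _ _ _ => rfl, rfl, rfl⟩

theorem Iso0.mul {F F' : X ≃ₜ X} (h : Iso0 Y F) (h' : Iso0 Y F') : Iso0 Y (F * F') := by
  obtain ⟨H, a, b, c, d⟩ := h
  obtain ⟨H', a', b', c', d'⟩ := h'
  exact ⟨fun t => H t * H' t, a.comp (continuous_fst.prodMk a'), fun t => (b t).mul (b' t),
    by simp only [c, c', mul_one], by simp only [d, d']⟩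

theorem Iso0.inv {F : X ≃ₜ X} (h : Iso0 Y F) : Iso0 Y F⁻¹ := by
  have hF := h.comm
  obtain ⟨H, a, b, c, d⟩ := h
  exact ⟨fun t => H (1 - t) * F⁻¹,
    a.comp ((continuous_const.sub continuous_fst).prodMk (F.symm.continuous.comp continuous_snd)),
    fun t => (b _).mul hF.inv, by simp [d], by simp [c]⟩

theorem Red.refl {F : X ≃ₜ X} (h : Comm Y F) : Red Y F F := ⟨h, id⟩

theorem Red.trans {F F' F'' : X ≃ₜ X} (h : Red Y F F') (h' : Red Y F' F'') : Red Y F F'' :=
  ⟨h'.1, h.2 ∘ h'.2⟩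

theorem Red.left {F H : X ≃ₜ X} (h : Comm Y F) (h' : Iso0 Y H) : Red Y F (H * F) :=
  ⟨h'.comm.mul h, fun a => by simpa using h'.inv.mul a⟩

theorem Red.right {F H : X ≃ₜ X} (h : Comm Y F) (h' : Iso0 Y H) : Red Y F (F * H) :=
  ⟨h.mul h'.comm, fun a => by simpa using a.mul h'.inv⟩

theorem nr_smul (γ : Gam g) (w : W g) (i : I g) : Y.σ γ • nr Y w i = nr Y (γ * w) i := by
  rw [nr, nr, map_mul, mul_smul, Y.σ_apply]

theorem nr_unit (w : W g) (i : I g) : Bf (nr Y w i) (nr Y w i) = 1 := by simp [nr, Y.unit]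

theorem nr_one (i : I g) : nr Y 1 i = Y.e i := by simp [nr]

end Pool.Agent.MP_4a6971_al.H83

/-!
The Klein chart, segments, lines and discs.
-/

namespace Pool.Agent.MP_4a6971_al.H83

open Set Topology H66

/-- The base point. -/
def oX : X := ⟨o, H2_o⟩

theorem Klein1_pos (x : X) : 0 < x.1.1 + x.1.2.2 := add_pos x.2.2 x.2.pos

theorem Klein1_cd (x : X) : cd oX x = (x.1.1 + x.1.2.2) / 2 := ch_o _

/-- The affine section of the cone. -/
def Klein1_L (z : ℂ) : V := (1 + z.re, z.im, 1 - z.re)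

theorem Klein1_rep (x : X) : x.1 = cd oX x • Klein1_L (kl x) := by
  have h := (Klein1_pos x).ne'
  rw [Klein1_cd]
  ext <;> simp only [Klein1_L, kl, Prod.smul_fst, Prod.smul_snd, smul_eq_mul] <;> field_simp <;>
    ring

theorem Klein1_sq (x : X) : 1 - ‖kl x‖ ^ 2 = ((cd oX x)⁻¹) ^ 2 := by
  have h := (Klein1_pos x).ne'
  have e := x.2.eq
  rw [Klein1_cd, Complex.sq_norm, Complex.normSq_apply]
  simp only [kl]
  field_simp
  linear_combination 4 * e

theorem Klein1_mem (x : X) : kl x ∈ Metric.ball (0 : ℂ) 1 := by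
  have h := Klein1_sq x
  have h1 : 0 < ((cd oX x)⁻¹) ^ 2 := pow_pos (inv_pos.2 (one_pos.trans_le (one_le_cd _ _))) 2
  rw [mem_ball_zero_iff]
  nlinarith [norm_nonneg (kl x)]

theorem Klein1_ball_pos (z : Metric.ball (0 : ℂ) 1) : 0 < 1 - ‖z.1‖ ^ 2 := by
  have h := mem_ball_zero_iff.1 z.2
  nlinarith [norm_nonneg z.1]

theorem Klein1_H2 (z : Metric.ball (0 : ℂ) 1) : H2 ((√(1 - ‖z.1‖ ^ 2))⁻¹ • Klein1_L z.1) := by
  have h := Klein1_ball_pos z
  have h3 := Real.sqrt_pos.2 h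
  have h4 := Real.mul_self_sqrt h.le
  have h5 : ‖z.1‖ ^ 2 = z.1.re * z.1.re + z.1.im * z.1.im := by
    rw [Complex.sq_norm, Complex.normSq_apply]
  have h6 : 0 < 1 + z.1.re := by nlinarith [mul_self_nonneg z.1.im]
  generalize √(1 - ‖z.1‖ ^ 2) = r at h3 h4 ⊢
  constructor
  · rw [Bf_smul_left, Bf_smul_right]
    simp only [Bf, Klein1_L]
    field_simp
    linear_combination 2 * h4 - 2 * h5
  · simp only [Klein1_L, Prod.smul_fst, smul_eq_mul]
    positivity

theorem Klein1_kl {x : X} {r : ℝ} {z : ℂ} (h : x.1 = r • Klein1_L z) : kl x = z := by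
  have h0 := Klein1_pos x
  simp only [kl]
  rw [h] at h0 ⊢
  simp only [Klein1_L, Prod.smul_fst, Prod.smul_snd, smul_eq_mul] at h0 ⊢
  have hr : r ≠ 0 := by
    rintro rfl
    simp at h0
  have e : r * (1 + z.re) + r * (1 - z.re) = 2 * r := by ring
  rw [e]
  apply Complex.ext <;> simp only <;> field_simp
  ring

theorem Klein1_cont : Continuous kl := by
  have e : kl = fun x : X => (((x.1.1 - x.1.2.2) / (x.1.1 + x.1.2.2) : ℝ) : ℂ) +
      ((2 * x.1.2.1 / (x.1.1 + x.1.2.2) : ℝ) : ℂ) * Complex.I := by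
    funext x
    rw [kl, Complex.mk_eq_add_mul_I]
  rw [e]
  refine (Complex.continuous_ofReal.comp ?_).add
    ((Complex.continuous_ofReal.comp ?_).mul continuous_const)
  · exact Continuous.div (by fun_prop) (by fun_prop) fun x => (Klein1_pos x).ne'
  · exact Continuous.div (by fun_prop) (by fun_prop) fun x => (Klein1_pos x).ne'

/-- The Klein chart as a homeomorphism on to the disc. -/
noncomputable def Klein1_homeo : X ≃ₜ Metric.ball (0 : ℂ) 1 where
  toFun x := ⟨kl x, Klein1_mem x⟩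
  invFun z := ⟨_, Klein1_H2 z⟩
  left_inv x := Subtype.ext <| by
    have h := (one_pos.trans_le (one_le_cd oX x))
    change (√(1 - ‖kl x‖ ^ 2))⁻¹ • Klein1_L (kl x) = x.1
    rw [Klein1_sq, Real.sqrt_sq (inv_pos.2 h).le, inv_inv, ← Klein1_rep]
  right_inv z := Subtype.ext (Klein1_kl rfl)
  continuous_toFun := Klein1_cont.subtype_mk _
  continuous_invFun := by
    refine Continuous.subtype_mk (Continuous.smul (Continuous.inv₀ (by fun_prop) fun z =>
      (Real.sqrt_pos.2 (Klein1_ball_pos z)).ne') ?_) _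
    unfold Klein1_L
    fun_prop

/-- Hint: the inverse is `z ↦ (√(1 - ‖z‖²))⁻¹ • (1 + re z, im z, 1 - re z)`. -/
theorem kl_emb : IsOpenEmbedding kl :=
  Metric.isOpen_ball.isOpenEmbedding_subtypeVal.comp Klein1_homeo.isOpenEmbedding

theorem range_kl : range kl = Metric.ball 0 1 := by
  refine Subset.antisymm (range_subset_iff.2 Klein1_mem) fun z hz => ?_
  exact ⟨Klein1_homeo.symm ⟨z, hz⟩, Klein1_kl rfl⟩

/-- Hint: `a = (N.1 - N.2.2) / 2 - N.2.1 * I`, `c = (N.1 + N.2.2) / 2`. -/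
theorem bf_kl (N : V) : ∃ (a : ℂ) (c : ℝ), ∀ x, bf N x = cd oX x * ((a * kl x).re - c) := by
  refine ⟨⟨-(N.2.2 - N.1) / 2, -N.2.1⟩, (N.1 + N.2.2) / 2, fun x => ?_⟩
  rw [bf, Klein1_rep x, Bf_smul_right, Complex.mul_re]
  simp only [Bf, Klein1_L]
  ring

theorem kl_seg (a b : X) : kl '' seg a b = segment ℝ (kl a) (kl b) := by
  have ha := one_pos.trans_le (one_le_cd oX a)
  have hb := one_pos.trans_le (one_le_cd oX b)
  have L : ∀ (u v : ℝ) (z w : ℂ), u + v = 1 →
      Klein1_L (u • z + v • w) = u • Klein1_L z + v • Klein1_L w := fun u v z w h => by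
    ext <;> simp [Klein1_L]
    · linear_combination -h
    · linear_combination -h
  ext z
  constructor
  · rintro ⟨y, ⟨s, t, hs, ht, e⟩, rfl⟩
    have hy := one_pos.trans_le (one_le_cd oX y)
    have h1 : cd oX y = s * cd oX a + t * cd oX b := by
      simp only [cd, ch, e, Bf_add_right, Bf_smul_right]
      ring
    have h2 : s * cd oX a / cd oX y + t * cd oX b / cd oX y = 1 := by
      rw [← add_div, ← h1, div_self hy.ne']
    refine ⟨_, _, by positivity, by positivity, h2, (Klein1_kl (r := cd oX y) ?_).symm⟩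
    rw [L _ _ _ _ h2, smul_add, smul_smul, smul_smul, mul_div_cancel₀ _ hy.ne',
      mul_div_cancel₀ _ hy.ne', mul_smul, mul_smul, ← Klein1_rep, ← Klein1_rep, e]
  · intro hz
    obtain ⟨y, rfl⟩ : z ∈ range kl := by
      rw [range_kl]
      exact (convex_ball 0 1).segment_subset (Klein1_mem a) (Klein1_mem b) hz
    obtain ⟨u, v, hu, hv, huv, e⟩ := hz
    have hy := one_pos.trans_le (one_le_cd oX y)
    refine ⟨y, ⟨cd oX y * u / cd oX a, cd oX y * v / cd oX b, by positivity, by positivity, ?_⟩,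
      rfl⟩
    rw [Klein1_rep y, Klein1_rep a, Klein1_rep b, ← e, L _ _ _ _ huv, smul_add, smul_smul,
      smul_smul, smul_smul, smul_smul, div_mul_cancel₀ _ ha.ne', div_mul_cancel₀ _ hb.ne']

theorem cvx_iff {K : Set X} : Cvx K ↔ Convex ℝ (kl '' K) := by
  rw [convex_iff_segment_subset]
  constructor
  · rintro h _ ⟨a, ha, rfl⟩ _ ⟨b, hb, rfl⟩
    rw [← kl_seg]
    exact image_mono (h a ha b hb)
  · intro h a ha b hb
    have := h (mem_image_of_mem _ ha) (mem_image_of_mem _ hb)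
    rwa [← kl_seg, image_subset_image_iff kl_emb.injective] at this

instance : ContractibleSpace X :=
  haveI := (convex_ball (0 : ℂ) 1).contractibleSpace (Metric.nonempty_ball.2 one_pos)
  Klein1_homeo.contractibleSpace

instance : LocallyPathConnectedSpace X := kl_emb.locallyPathConnectedSpace

instance : LocallyCompactSpace X := kl_emb.locallyCompactSpace

theorem Cvx.isPreconnected {K : Set X} (h : Cvx K) : IsPreconnected K :=
  kl_emb.isInducing.isPreconnected_image.1 (cvx_iff.1 h).isPreconnected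

theorem Cvx.inter {K L : Set X} (h : Cvx K) (h' : Cvx L) : Cvx (K ∩ L) :=
  fun a ha b hb => subset_inter (h a ha.1 b hb.1) (h' a ha.2 b hb.2)

theorem Klein1_eq {x y : X} {r : ℝ} (h : x.1 = r • y.1) : x = y := by
  have h1 := x.2.1
  have h2 := x.2.2
  have h3 := y.2.2
  rw [h] at h1 h2
  rw [Bf_smul_left, Bf_smul_right, y.2.1] at h1
  have h4 : 0 < r := (mul_pos_iff_of_pos_right h3).1 h2
  have h5 : r = 1 := by nlinarith
  exact Subtype.ext (by rw [h, h5, one_smul])

theorem Klein1_D (a b : X) {τ : ℝ} (h : τ ∈ Icc (0 : ℝ) 1) :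
    1 ≤ (1 - τ) ^ 2 + τ ^ 2 + 2 * τ * (1 - τ) * cd a b := by
  have h1 := one_le_cd a b
  have h0 : 0 ≤ τ * (1 - τ) := mul_nonneg h.1 (by linarith [h.2])
  nlinarith

theorem Klein1_gp (a b : X) {t : ℝ} (ht : t ∈ Icc (0 : ℝ) 1) :
    ∃ r : ℝ, 0 < r ∧ r ≤ 1 ∧ (gp a b t).1 = r • ((1 - t) • a.1 + t • b.1) := by
  have h := Klein1_D a b ht
  refine ⟨_, inv_pos.2 (Real.sqrt_pos.2 (one_pos.trans_le h)),
    inv_le_one_of_one_le₀ (Real.one_le_sqrt.2 h), ?_⟩
  simp only [gp, projIcc_of_mem zero_le_one ht]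

theorem Klein1_seg_gp (a b : X) {s t : ℝ} (h0 : 0 ≤ s) (h : s ≤ t) (h1 : t ≤ 1) :
    seg (gp a b s) (gp a b t) = gp a b '' Icc s t := by
  obtain ⟨r, hr, -, e⟩ := Klein1_gp a b (t := s) ⟨h0, h.trans h1⟩
  obtain ⟨r', hr', -, e'⟩ := Klein1_gp a b (t := t) ⟨h0.trans h, h1⟩
  ext y
  constructor
  · rintro ⟨α, β, hα, hβ, hy⟩
    have hα' := mul_nonneg hα hr.le
    have hβ' := mul_nonneg hβ hr'.le
    have hw : 0 < α * r + β * r' := by
      refine (add_nonneg hα' hβ').lt_of_ne fun c => ?_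
      have c1 : α = 0 := (mul_eq_zero.1 (by linarith : α * r = 0)).resolve_right hr.ne'
      have c2 : β = 0 := (mul_eq_zero.1 (by linarith : β * r' = 0)).resolve_right hr'.ne'
      have := y.2.2
      rw [hy, c1, c2] at this
      simp at this
    have hτ : (α * r * s + β * r' * t) / (α * r + β * r') ∈ Icc s t := by
      constructor
      · rw [le_div_iff₀ hw]
        nlinarith [mul_nonneg hβ' (sub_nonneg.2 h)]
      · rw [div_le_iff₀ hw]
        nlinarith [mul_nonneg hα' (sub_nonneg.2 h)]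
    obtain ⟨q, -, -, e''⟩ := Klein1_gp a b ⟨h0.trans hτ.1, hτ.2.trans h1⟩
    refine ⟨_, hτ, Klein1_eq (r := q / (α * r + β * r')) ?_⟩
    rw [e'', hy, e, e']
    match_scalars <;> field_simp <;> ring
  · rintro ⟨τ, hτ, rfl⟩
    obtain ⟨q, hq, -, e''⟩ := Klein1_gp a b ⟨h0.trans hτ.1, hτ.2.trans h1⟩
    rw [← segment_eq_Icc h] at hτ
    obtain ⟨u, v, hu, hv, huv, rfl⟩ := hτ
    refine ⟨q * u / r, q * v / r', by positivity, by positivity, ?_⟩
    rw [e'', e, e']
    obtain rfl : v = 1 - u := by linarith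
    simp only [smul_eq_mul]
    match_scalars <;> field_simp <;> ring

@[simp] theorem gp_zero (a b : X) : gp a b 0 = a := by
  apply Subtype.ext
  simp [gp]

@[simp] theorem gp_one (a b : X) : gp a b 1 = b := by
  apply Subtype.ext
  simp [gp]

theorem continuous_gp (a b : X) : Continuous (gp a b) := by
  have hc : Continuous fun t : ℝ => ((projIcc 0 1 zero_le_one t : Icc (0 : ℝ) 1) : ℝ) :=
    continuous_subtype_val.comp continuous_projIcc
  refine Continuous.subtype_mk (Continuous.smul (Continuous.inv₀ (by fun_prop) fun t =>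
    (Real.sqrt_pos.2 (one_pos.trans_le (Klein1_D a b (projIcc 0 1 zero_le_one t).2))).ne')
    (by fun_prop)) _

theorem smul_gp (f : Isom) (a b : X) (t : ℝ) : f • gp a b t = gp (f • a) (f • b) t := by
  apply Subtype.ext
  simp only [gp, coe_smul, cd_smul, isom_smul, smul_add]

theorem bf_gp (a b : X) {t : ℝ} (ht : t ∈ Icc (0 : ℝ) 1) :
    ∃ r : ℝ, 0 < r ∧ r ≤ 1 ∧ ∀ N, bf N (gp a b t) = r * ((1 - t) * bf N a + t * bf N b) := by
  obtain ⟨r, h0, h1, e⟩ := Klein1_gp a b ht
  exact ⟨r, h0, h1, fun N => by simp only [bf, e, Bf_smul_right, Bf_add_right]⟩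

theorem seg_eq (a b : X) : seg a b = gp a b '' Icc 0 1 := by
  simpa using Klein1_seg_gp a b le_rfl zero_le_one le_rfl

theorem gp_inj {a b : X} (h : a ≠ b) : InjOn (gp a b) (Icc 0 1) := by
  intro s hs t ht e
  obtain ⟨r, h0, -, h1⟩ := bf_gp a b hs
  obtain ⟨r', -, -, h2⟩ := bf_gp a b ht
  have hc : 1 < cd a b := lt_of_not_ge fun c => h (eq_of_cd_le c)
  have a1 : bf a.1 a = -1 := a.2.1
  have a2 : bf b.1 b = -1 := b.2.1
  have a3 : bf a.1 b = -cd a b := by simp [bf, cd, ch]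
  have a4 : bf b.1 a = -cd a b := by simp [bf, cd, ch, Bf_comm b.1]
  have e1 := (h1 a.1).symm.trans ((congrArg (bf a.1) e).trans (h2 a.1))
  have e2 := (h1 b.1).symm.trans ((congrArg (bf b.1) e).trans (h2 b.1))
  rw [a1, a3] at e1
  rw [a2, a4] at e2
  have e3 : r = r' := mul_right_cancel₀ (b := 1 + cd a b) (by positivity)
    (by linear_combination -e1 - e2)
  subst e3
  exact mul_left_cancel₀ (a := r * (cd a b - 1)) (mul_pos h0 (sub_pos.2 hc)).ne'
    (by linear_combination -e1)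

theorem seg_gp (a b : X) {s t : ℝ} (h0 : 0 ≤ s) (h : s ≤ t) (h1 : t ≤ 1) :
    seg (gp a b s) (gp a b t) = gp a b '' Icc s t :=
  Klein1_seg_gp a b h0 h h1

theorem seg_comm (a b : X) : seg a b = seg b a := by
  ext y
  constructor <;> rintro ⟨s, t, hs, ht, e⟩ <;> exact ⟨t, s, ht, hs, e.trans (add_comm _ _)⟩

theorem left_mem_seg (a b : X) : a ∈ seg a b := ⟨1, 0, zero_le_one, le_rfl, by simp⟩

theorem right_mem_seg (a b : X) : b ∈ seg a b := ⟨0, 1, le_rfl, zero_le_one, by simp⟩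

theorem smul_mem_seg (f : Isom) {a b y : X} : f • y ∈ seg (f • a) (f • b) ↔ y ∈ seg a b := by
  refine exists₂_congr fun s t => and_congr_right fun _ => and_congr_right fun _ => ?_
  rw [coe_smul, coe_smul, coe_smul, ← isom_smul, ← isom_smul, ← smul_add, smul_left_cancel_iff]

theorem isCompact_seg (a b : X) : IsCompact (seg a b) :=
  seg_eq a b ▸ isCompact_Icc.image (continuous_gp a b)

theorem cvx_seg (a b : X) : Cvx (seg a b) :=
  cvx_iff.2 (kl_seg a b ▸ convex_segment _ _)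

theorem seg_coef {a b y : X} (h : y ∈ seg a b) : ∃ s t : ℝ, 0 ≤ s ∧ 0 ≤ t ∧ s + t ≤ 1 ∧
    s ^ 2 + t ^ 2 + 2 * s * t * cd a b = 1 ∧ (∀ N, bf N y = s * bf N a + t * bf N b) ∧
    (y ≠ a → 0 < t) ∧ (y ≠ b → 0 < s) := by
  obtain ⟨s, t, hs, ht, e⟩ := h
  have h1 := y.2.1
  rw [e] at h1
  simp only [Bf_smul_left, Bf_smul_right, Bf_add_left, Bf_add_right, a.2.1, b.2.1,
    Bf_comm b.1 a.1] at h1
  have h2 : s ^ 2 + t ^ 2 + 2 * s * t * cd a b = 1 := by
    simp only [cd, ch]
    linear_combination -h1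
  have h3 := one_le_cd a b
  have h4 : (s + t) ^ 2 ≤ 1 ^ 2 := by nlinarith [mul_nonneg hs ht]
  refine ⟨s, t, hs, ht, (abs_le_of_sq_le_sq' h4 zero_le_one).2, h2,
    fun N => by simp only [bf, e, Bf_smul_right, Bf_add_right], fun c => ?_, fun c => ?_⟩
  · refine ht.lt_of_ne fun c' => c (Klein1_eq (r := s) ?_)
    rw [e, ← c', zero_smul, add_zero]
  · refine hs.lt_of_ne fun c' => c (Klein1_eq (r := t) ?_)
    rw [e, ← c', zero_smul, zero_add]

end Pool.Agent.MP_4a6971_al.H83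

/-!
The Klein chart, segments, lines and discs.
-/

namespace Pool.Agent.MP_4a6971_al.H83

open Set Topology H66

/-- The Lorentzian cross product. -/
noncomputable def Klein2_cr (P Q : V) : V :=
  (P.2.1 * Q.1 - P.1 * Q.2.1, (P.2.2 * Q.1 - P.1 * Q.2.2) / 2, P.2.2 * Q.2.1 - P.2.1 * Q.2.2)

theorem Klein2_cr_left (P Q : V) : Bf (Klein2_cr P Q) P = 0 := by
  simp only [Klein2_cr, Bf]; ring

theorem Klein2_cr_right (P Q : V) : Bf (Klein2_cr P Q) Q = 0 := by
  simp only [Klein2_cr, Bf]; ring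

theorem Klein2_cr_self (P Q : V) :
    Bf (Klein2_cr P Q) (Klein2_cr P Q) = Bf P Q ^ 2 - Bf P P * Bf Q Q := by
  simp only [Klein2_cr, Bf]; ring

theorem Klein2_expand (P Q E : V) : (Bf P Q ^ 2 - Bf P P * Bf Q Q) • E =
    Bf (Klein2_cr P Q) E • Klein2_cr P Q + (Bf P Q * Bf Q E - Bf Q Q * Bf P E) • P +
      (Bf P Q * Bf P E - Bf P P * Bf Q E) • Q := by
  ext <;> simp only [Klein2_cr, Bf, Prod.smul_fst, Prod.smul_snd, Prod.fst_add, Prod.snd_add,
    smul_eq_mul] <;> ring

theorem Klein2_H2 {v x : V} (hv : H2 v) (hx : Bf x x = -1) (h : Bf v x < 0) : H2 x := by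
  refine (H2_or hx).resolve_right fun h1 => ?_
  have := one_le_ch hv h1
  rw [ch, Bf_neg_right] at this
  linarith

theorem Klein2_gram {a b : X} (h : a ≠ b) : 0 < Bf a.1 b.1 ^ 2 - Bf a.1 a.1 * Bf b.1 b.1 := by
  have h1 : 1 < cd a b := lt_of_not_ge fun h2 => h (eq_of_cd_le h2)
  have e : Bf a.1 b.1 = -cd a b := by simp [cd, ch]
  rw [a.2.1, b.2.1, e]
  nlinarith

/-- A form vanishing at two points is proportional to their cross product. -/
theorem Klein2_prop {N : V} {a b : X} (ha : bf N a = 0) (hb : bf N b = 0) :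
    (Bf a.1 b.1 ^ 2 - Bf a.1 a.1 * Bf b.1 b.1) • N =
      Bf (Klein2_cr a.1 b.1) N • Klein2_cr a.1 b.1 := by
  have h1 := Klein2_expand a.1 b.1 N
  rw [Bf_comm a.1 N, Bf_comm b.1 N, show Bf N a.1 = 0 from ha, show Bf N b.1 = 0 from hb] at h1
  simpa using h1

theorem Klein2_ne {E : V} (hE : Bf E E = 1) {a b : X} (h : a ≠ b) (ha : bf E a = 0)
    (hb : bf E b = 0) : Bf (Klein2_cr a.1 b.1) E ≠ 0 := by
  intro h0
  have h1 := congrArg (Bf E) (Klein2_prop ha hb)
  rw [h0, Bf_smul_right, Bf_smul_right, hE] at h1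
  have := Klein2_gram h
  linarith

theorem Klein2_frame {E A : V} (hE : Bf E E = 1) (hA : Bf A A = 1) (h : Bf E A = 0) {v : X}
    (h1 : bf E v = 0) (h2 : bf A v = 0) (x : V) :
    x = (-Bf v.1 x) • v.1 + Bf E x • E + Bf A x • A := by
  have key : ∀ y : V, y = (-Bf (Klein2_cr E A) y) • Klein2_cr E A + Bf E y • E + Bf A y • A := by
    intro y
    have := Klein2_expand E A y
    rw [hE, hA, h] at this
    have e : y = (-1 : ℝ) • (((0 : ℝ) ^ 2 - 1 * 1) • y) := by simp
    rw [this] at e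
    refine e.trans ?_
    module
  have hN := Klein2_cr_self E A
  rw [hE, hA, h] at hN
  have hv := key v.1
  rw [show Bf E v.1 = 0 from h1, show Bf A v.1 = 0 from h2, zero_smul, zero_smul, add_zero,
    add_zero] at hv
  generalize Klein2_cr E A = M at *
  generalize Bf M v.1 = r at *
  have hr : r * r = 1 := by
    have := v.2.1
    rw [hv, Bf_smul_left, Bf_smul_right, hN] at this
    linarith
  refine (key x).trans ?_
  rw [hv, Bf_smul_left, smul_smul]
  congr 3
  linear_combination Bf M x * hr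

theorem exists_line (a b : X) : ∃ N, Bf N N = 1 ∧ bf N a = 0 ∧ bf N b = 0 := by
  by_cases h : a = b
  · subst h
    have h1 := a.2.2
    have e : bf (0, 1, 2 * a.1.2.1 / a.1.1) a = 0 := by
      simp only [bf, Bf]
      field_simp
      ring
    exact ⟨(0, 1, 2 * a.1.2.1 / a.1.1), by simp [Bf], e, e⟩
  · have h1 := Klein2_gram h
    have h2 := Real.sqrt_pos.2 h1
    have h3 := Real.mul_self_sqrt h1.le
    refine ⟨(√(Bf a.1 b.1 ^ 2 - Bf a.1 a.1 * Bf b.1 b.1))⁻¹ • Klein2_cr a.1 b.1, ?_, ?_, ?_⟩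
    · rw [Bf_smul_left, Bf_smul_right, Klein2_cr_self]
      generalize √(Bf a.1 b.1 ^ 2 - Bf a.1 a.1 * Bf b.1 b.1) = r at *
      rw [← h3]
      field_simp
    · rw [bf, Bf_smul_left, Klein2_cr_left, mul_zero]
    · rw [bf, Bf_smul_left, Klein2_cr_right, mul_zero]

/-- A form that vanishes at two different points of a line is a multiple of its normal. -/
theorem eq_smul_of_two {E N : V} (hE : Bf E E = 1) {a b : X} (h : a ≠ b) (ha : bf E a = 0)
    (hb : bf E b = 0) (ha' : bf N a = 0) (hb' : bf N b = 0) : ∃ t : ℝ, N = t • E := by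
  have h1 := Klein2_prop ha hb
  have h2 := Klein2_prop ha' hb'
  have h3 := Klein2_ne hE h ha hb
  refine ⟨Bf (Klein2_cr a.1 b.1) N / Bf (Klein2_cr a.1 b.1) E, ?_⟩
  refine smul_right_injective V (Klein2_gram h).ne' ?_
  simp only
  rw [h2, smul_comm, h1, smul_smul, div_mul_cancel₀ _ h3]

theorem two_lines {E E' : V} (hE : Bf E E = 1) (hE' : Bf E' E' = 1) (h : E' ≠ E) (h' : E' ≠ -E) :
    {x | bf E x = 0 ∧ bf E' x = 0}.Subsingleton := by
  intro a ha b hb
  by_contra hne
  obtain ⟨t, rfl⟩ := eq_smul_of_two hE hne ha.1 hb.1 ha.2 hb.2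
  rw [Bf_smul_left, Bf_smul_right, hE, mul_one] at hE'
  rcases mul_self_eq_one_iff.1 hE' with rfl | rfl
  · exact h (one_smul _ _)
  · exact h' (neg_one_smul _ _)

theorem span_two {E : V} (hE : Bf E E = 1) {a b y : X} (h : a ≠ b) (ha : bf E a = 0)
    (hb : bf E b = 0) (hy : bf E y = 0) : ∃ s t : ℝ, y.1 = s • a.1 + t • b.1 := by
  obtain ⟨t, ht⟩ := eq_smul_of_two (N := Klein2_cr a.1 b.1) hE h ha hb (Klein2_cr_left _ _)
    (Klein2_cr_right _ _)
  have h1 := Klein2_expand a.1 b.1 y.1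
  have h2 : Bf (Klein2_cr a.1 b.1) y.1 = 0 := by
    rw [ht, Bf_smul_left, show Bf E y.1 = 0 from hy, mul_zero]
  rw [h2, zero_smul, zero_add] at h1
  have h3 := (Klein2_gram h).ne'
  generalize Bf a.1 b.1 ^ 2 - Bf a.1 a.1 * Bf b.1 b.1 = D at h1 h3
  generalize Bf a.1 b.1 * Bf b.1 y.1 - Bf b.1 b.1 * Bf a.1 y.1 = α at h1
  generalize Bf a.1 b.1 * Bf a.1 y.1 - Bf a.1 a.1 * Bf b.1 y.1 = β at h1
  refine ⟨D⁻¹ * α, D⁻¹ * β, ?_⟩
  rw [mul_smul, mul_smul, ← smul_add, ← h1, inv_smul_smul₀ h3]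

/-- A point of a line between two cuts lies on the segment. -/
theorem mem_seg_of_cuts {E N N' : V} (hE : Bf E E = 1) {a b y : X} (ha : bf E a = 0)
    (hb : bf E b = 0) (hy : bf E y = 0) (h1 : bf N a = 0) (h2 : 0 < bf N b) (h3 : bf N' b = 0)
    (h4 : 0 < bf N' a) (h5 : 0 ≤ bf N y) (h6 : 0 ≤ bf N' y) : y ∈ seg a b := by
  have h : a ≠ b := by
    rintro rfl
    exact h2.ne' h1
  obtain ⟨s, t, e⟩ := span_two hE h ha hb hy
  unfold bf at *
  rw [e, Bf_add_right, Bf_smul_right, Bf_smul_right] at h5 h6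
  rw [h1, mul_zero, zero_add] at h5
  rw [h3, mul_zero, add_zero] at h6
  exact ⟨s, t, nonneg_of_mul_nonneg_left h6 h4, nonneg_of_mul_nonneg_left h5 h2, e⟩

theorem exists_corner {E A : V} (hE : Bf E E = 1) (hA : Bf A A = 1) (h : Bf E A = 0) :
    ∃ v : X, bf E v = 0 ∧ bf A v = 0 := by
  have hN := Klein2_cr_self E A
  rw [hE, hA, h] at hN
  have h1 : Bf E (Klein2_cr E A) = 0 := (Bf_comm _ _).trans (Klein2_cr_left E A)
  have h2 : Bf A (Klein2_cr E A) = 0 := (Bf_comm _ _).trans (Klein2_cr_right E A)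
  rcases H2_or (P := Klein2_cr E A) (by linarith) with a | a
  · exact ⟨⟨_, a⟩, h1, h2⟩
  · exact ⟨⟨_, a⟩, by rw [bf, Bf_neg_right, h1, neg_zero], by rw [bf, Bf_neg_right, h2, neg_zero]⟩

/-- Coordinates in an orthonormal frame. -/
theorem cd_frame {E A : V} (hE : Bf E E = 1) (hA : Bf A A = 1) (h : Bf E A = 0) {v : X}
    (h1 : bf E v = 0) (h2 : bf A v = 0) (x y : X) :
    cd x y = cd v x * cd v y - bf E x * bf E y - bf A x * bf A y := by
  have e := congrArg (fun z => Bf z y.1) (Klein2_frame hE hA h h1 h2 x.1)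
  simp only [Bf_add_left, Bf_smul_left] at e
  simp only [cd, ch, bf]
  linear_combination -e

/-- Points with prescribed coordinates in an orthonormal frame. -/
theorem exists_of_frame {E A : V} (hE : Bf E E = 1) (hA : Bf A A = 1) (h : Bf E A = 0) (p q : ℝ) :
    ∃ x : X, bf E x = p ∧ bf A x = q := by
  obtain ⟨v, h1, h2⟩ := exists_corner hE hA h
  have h0 : 0 < 1 + p ^ 2 + q ^ 2 := by positivity
  have h3 := Real.sqrt_pos.2 h0
  have h4 := Real.mul_self_sqrt h0.le
  generalize √(1 + p ^ 2 + q ^ 2) = r at h3 h4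
  unfold bf at h1 h2
  have h' : Bf A E = 0 := (Bf_comm _ _).trans h
  have h1' : Bf v.1 E = 0 := (Bf_comm _ _).trans h1
  have h2' : Bf v.1 A = 0 := (Bf_comm _ _).trans h2
  have hv := v.2.1
  refine ⟨⟨r • v.1 + p • E + q • A, Klein2_H2 v.2 ?_ ?_⟩, ?_, ?_⟩ <;>
    simp only [bf, Bf_add_left, Bf_add_right, Bf_smul_left, Bf_smul_right, h, h', h1, h1', h2, h2',
      hv, hE, hA] <;> linarith

/-- A frame along a line. -/
theorem Klein2_exists {E : V} (hE : Bf E E = 1) :
    ∃ (A : V) (v : X), Bf A A = 1 ∧ Bf E A = 0 ∧ bf E v = 0 ∧ bf A v = 0 := by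
  have ho := H2_o.1
  obtain ⟨t, -, ht⟩ := exists_H2_of_neg (X := o - Bf E o • E) (by
    simp only [Bf_sub_left, Bf_sub_right, Bf_smul_left, Bf_smul_right, hE, ho, Bf_comm o E]
    nlinarith [sq_nonneg (Bf E o)])
  have h1 : Bf E (t • (o - Bf E o • E)) = 0 := by
    simp only [Bf_sub_right, Bf_smul_right, hE]
    ring
  refine ⟨Klein2_cr E (t • (o - Bf E o • E)), ⟨_, ht⟩, ?_,
    (Bf_comm _ _).trans (Klein2_cr_left _ _), h1, Klein2_cr_right _ _⟩
  rw [Klein2_cr_self, h1, hE, ht.1]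
  norm_num

/-- On a line a point is determined by its second coordinate. -/
theorem Klein2_inj {E A : V} (hE : Bf E E = 1) (hA : Bf A A = 1) (h : Bf E A = 0) {v : X}
    (h1 : bf E v = 0) (h2 : bf A v = 0) {x y : X} (hx : bf E x = 0) (hy : bf E y = 0)
    (e : bf A x = bf A y) : x = y := by
  have a1 := cd_frame hE hA h h1 h2 x x
  have a2 := cd_frame hE hA h h1 h2 y y
  have a3 := cd_frame hE hA h h1 h2 x y
  rw [cd_self] at a1 a2
  rw [hx] at a1 a3
  rw [hy] at a2
  rw [e] at a1 a3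
  have b1 := one_le_cd v x
  have b2 := one_le_cd v y
  have b3 : cd v x = cd v y := by
    rcases mul_self_eq_mul_self_iff.1 (show cd v x * cd v x = cd v y * cd v y by linarith) with
      b | b
    · exact b
    · linarith
  refine eq_of_cd_le ?_
  rw [b3] at a3
  linarith

/-- Parametrisation of a line. Hint: `exists_frame`, or a point `v` of the line and a unit vector
`A` orthogonal to `v` and `E`, `c s = cosh s • v + sinh s • A`. -/
theorem exists_param {E : V} (hE : Bf E E = 1) : ∃ c : ℝ → X, IsClosedEmbedding c ∧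
    range c = {x | bf E x = 0} ∧ ∀ s t, s ≤ t → seg (c s) (c t) = c '' Icc s t := by
  obtain ⟨A, v, hA, h, h1, h2⟩ := Klein2_exists hE
  have g1 : Bf E v.1 = 0 := h1
  have g2 : Bf A v.1 = 0 := h2
  have g2' : Bf v.1 A = 0 := (Bf_comm _ _).trans h2
  have hv := v.2.1
  have hc : ∀ s : ℝ, H2 (Real.cosh s • v.1 + Real.sinh s • A) := by
    intro s
    have := Real.cosh_sq s
    have := Real.cosh_pos s
    refine Klein2_H2 v.2 ?_ ?_ <;>
      simp only [Bf_add_left, Bf_add_right, Bf_smul_left, Bf_smul_right, g2, g2', hv, hA] <;>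
      linarith
  let c : ℝ → X := fun s => ⟨_, hc s⟩
  have cE : ∀ s, bf E (c s) = 0 := fun s => by
    simp only [c, bf, Bf_add_right, Bf_smul_right, g1, h]
    ring
  have cA : ∀ s, bf A (c s) = Real.sinh s := fun s => by
    simp only [c, bf, Bf_add_right, Bf_smul_right, g2, hA]
    ring
  have cN : ∀ s u, bf (Real.sinh s • v.1 + Real.cosh s • A) (c u) = Real.sinh (u - s) :=
    fun s u => by
      simp only [c, bf, Bf_add_left, Bf_add_right, Bf_smul_left, Bf_smul_right, g2, g2', hv, hA,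
        Real.sinh_sub]
      ring
  have hr : ∀ x, bf E x = 0 → ∃ u, c u = x := fun x hx =>
    ⟨Real.arsinh (bf A x), Klein2_inj hE hA h h1 h2 (cE _) hx (by rw [cA, Real.sinh_arsinh])⟩
  refine ⟨c, ?_, ?_, fun s t hst => ?_⟩
  · refine Function.LeftInverse.isClosedEmbedding (f := fun x => Real.arsinh (bf A x))
      (fun s => ?_) (Real.continuous_arsinh.comp (continuous_bf A)) ?_
    · simp only [cA, Real.arsinh_sinh]
    · refine Continuous.subtype_mk ?_ _
      fun_prop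
  · ext x
    exact ⟨fun ⟨u, hu⟩ => hu ▸ cE u, hr x⟩
  · ext y
    constructor
    · rintro ⟨α, β, hα, hβ, e⟩
      have hb : ∀ N, bf N y = α * bf N (c s) + β * bf N (c t) := fun N => by
        unfold bf
        rw [e, Bf_add_right, Bf_smul_right, Bf_smul_right]
      obtain ⟨u, rfl⟩ := hr y (by rw [hb, cE, cE]; ring)
      have a1 := hb (Real.sinh s • v.1 + Real.cosh s • A)
      have a2 := hb (Real.sinh t • v.1 + Real.cosh t • A)
      rw [cN, cN, cN, sub_self, Real.sinh_zero] at a1 a2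
      have b1 : 0 ≤ Real.sinh (t - s) := Real.sinh_nonneg_iff.2 (by linarith)
      have b2 : Real.sinh (s - t) ≤ 0 := Real.sinh_nonpos_iff.2 (by linarith)
      have c1 : 0 ≤ u - s := Real.sinh_nonneg_iff.1 (by nlinarith)
      have c2 : u - t ≤ 0 := Real.sinh_nonpos_iff.1 (by nlinarith)
      exact ⟨u, ⟨by linarith, by linarith⟩, rfl⟩
    · rintro ⟨u, hu, rfl⟩
      rcases hst.eq_or_lt with rfl | hlt
      · rw [le_antisymm hu.2 hu.1]
        exact left_mem_seg _ _
      · refine mem_seg_of_cuts (N := Real.sinh s • v.1 + Real.cosh s • A)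
          (N' := -(Real.sinh t • v.1 + Real.cosh t • A)) hE (cE _) (cE _) (cE _) ?_ ?_ ?_ ?_ ?_ ?_
        · rw [cN, sub_self, Real.sinh_zero]
        · rw [cN]
          exact Real.sinh_pos_iff.2 (by linarith)
        · rw [bf_neg, cN, sub_self, Real.sinh_zero, neg_zero]
        · rw [bf_neg, cN, neg_pos]
          exact Real.sinh_neg_iff.2 (by linarith)
        · rw [cN]
          exact Real.sinh_nonneg_iff.2 (by linarith [hu.1])
        · rw [bf_neg, cN, neg_nonneg]
          exact Real.sinh_nonpos_iff.2 (by linarith [hu.2])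

theorem line_circle {E : V} (hE : Bf E E = 1) (c : X) (R : ℝ) :
    {x | bf E x = 0 ∧ cd c x = R}.Finite := by
  obtain ⟨A, v, hA, h, h1, h2⟩ := Klein2_exists hE
  have a0 := cd_frame hE hA h h1 h2 c c
  rw [cd_self] at a0
  set p := cd v c
  set q := bf A c
  set e := bf E c
  have hD : 0 < p ^ 2 - q ^ 2 := by nlinarith [sq_nonneg e]
  set D := (R * q) ^ 2 - (p ^ 2 - q ^ 2) * (p ^ 2 - R ^ 2) with hDef
  refine Set.Finite.of_injOn (f := bf A)
    (t := {(R * q + √D) / (p ^ 2 - q ^ 2), (R * q - √D) / (p ^ 2 - q ^ 2)}) (fun x hx => ?_)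
    (fun x hx y hy e => Klein2_inj hE hA h h1 h2 hx.1 hy.1 e) (toFinite _)
  have a1 := cd_frame hE hA h h1 h2 x x
  have a2 := cd_frame hE hA h h1 h2 c x
  rw [cd_self, hx.1] at a1
  rw [hx.1, hx.2] at a2
  change R = p * _ - e * 0 - q * _ at a2
  generalize bf A x = τ at *
  generalize cd v x = r at *
  have a3 : D = ((p ^ 2 - q ^ 2) * τ - R * q) ^ 2 := by
    rw [hDef]
    have a4 : R + q * τ = p * r := by linarith
    have a5 : (R + q * τ) ^ 2 = p ^ 2 * (1 + τ ^ 2) := by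
      rw [a4]
      linear_combination (-p ^ 2) * a1
    linear_combination (p ^ 2 - q ^ 2) * a5
  rw [a3, Real.sqrt_sq_eq_abs]
  rcases abs_cases ((p ^ 2 - q ^ 2) * τ - R * q) with b | b <;> rw [b.1]
  · left
    field_simp
    ring
  · right
    rw [mem_singleton_iff]
    field_simp
    ring

end Pool.Agent.MP_4a6971_al.H83

/-!
The Klein chart, segments, lines and discs.
-/

namespace Pool.Agent.MP_4a6971_al.H83

open Set Topology H66

theorem Klein_perp {M : V} {v : X} (h : bf M v = 0) : 0 ≤ Bf M M ∧ (M ≠ 0 → 0 < Bf M M) := by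
  obtain ⟨f, hf⟩ := v.2.exists_frame
  have h1 : Bf (f • M) o = 0 := by rw [← hf, Bf_isom]; exact h
  have h2 : f • M = 0 → M = 0 := fun e => by
    have := congrArg (fun P : V => f⁻¹ • P) e
    simpa using this
  rw [← Bf_isom f]
  generalize f • M = Y at *
  obtain ⟨a, b, c⟩ := Y
  simp only [Bf, o] at *
  have e : c = -a := by linarith
  subst e
  refine ⟨by nlinarith [sq_nonneg a, sq_nonneg b], fun h0 => ?_⟩
  by_contra! hc
  have ha : a = 0 := by nlinarith [sq_nonneg a, sq_nonneg b]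
  have hb : b = 0 := by nlinarith [sq_nonneg a, sq_nonneg b]
  exact h0 (h2 (by simp [ha, hb]))

theorem Klein_H2 {M : V} {v : X} (h : bf M v = 0) : H2 (√(1 + Bf M M) • v.1 + M) := by
  have h0 := (Klein_perp h).1
  have h1 : 0 < 1 + Bf M M := by linarith
  have h2 := Real.mul_self_sqrt h1.le
  have h3 := Real.sqrt_pos.2 h1
  have h4 : Bf M v.1 = 0 := h
  have h5 : Bf v.1 M = 0 := by rw [Bf_comm]; exact h
  refine (H2_or ?_).resolve_right fun h6 => ?_
  · simp only [Bf_add_left, Bf_add_right, Bf_smul_left, Bf_smul_right, v.2.1, h4, h5]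
    linarith
  · have := one_le_ch v.2 h6
    simp only [ch, Bf_neg_right, Bf_add_right, Bf_smul_right, v.2.1, h5] at this
    linarith

/-- At a local maximum of a linear form the form is a multiple of the point. -/
theorem Klein_max {N : V} {x : X} (h : ∀ᶠ y in 𝓝 x, bf N y ≤ bf N x) : N = -bf N x • x.1 := by
  by_contra hne
  have hM : N + bf N x • x.1 ≠ 0 := fun e => hne (by rw [neg_smul]; exact eq_neg_of_add_eq_zero_left e)
  have hp : bf (N + bf N x • x.1) x = 0 := by simp [bf_add_smul, cd_self]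
  have hNM : Bf N (N + bf N x • x.1) = Bf (N + bf N x • x.1) (N + bf N x • x.1) := by
    have : Bf x.1 (N + bf N x • x.1) = 0 := by rw [Bf_comm]; exact hp
    rw [Bf_add_left _ _ (N + bf N x • x.1), Bf_smul_left, this, mul_zero, add_zero]
  generalize N + bf N x • x.1 = M at hM hp hNM
  have hn := (Klein_perp hp).2 hM
  have hs : ∀ s : ℝ, bf (s • M) x = 0 := fun s => by
    rw [bf, Bf_smul_left]; exact mul_eq_zero_of_right _ hp
  let γ : ℝ → X := fun s => ⟨_, Klein_H2 (hs s)⟩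
  have hγ : Continuous γ := by
    refine Continuous.subtype_mk ?_ _
    simp only [Bf_smul_left, Bf_smul_right]
    fun_prop
  have h0 : γ 0 = x := Subtype.ext (by simp [γ, Bf])
  have h1 : ∀ᶠ s in 𝓝 (0 : ℝ), bf N (γ s) ≤ bf N x := by
    rw [← h0] at h
    have := hγ.continuousAt.eventually h
    rwa [h0] at this
  have h2 : ∀ᶠ s in 𝓝 (0 : ℝ), s * |bf N x| < 1 := by
    have : Continuous fun s : ℝ => s * |bf N x| := by fun_prop
    exact this.continuousAt.eventually_lt continuousAt_const (by simp)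
  obtain ⟨s, ⟨a, b⟩, c⟩ := (((h1.and h2).filter_mono nhdsWithin_le_nhds).and
    (self_mem_nhdsWithin (s := Ioi (0 : ℝ)))).exists
  have c : 0 < s := c
  have e : bf N (γ s) = √(1 + s * (s * Bf M M)) * bf N x + s * Bf M M := by
    simp only [γ, bf, Bf_add_right, Bf_smul_right, Bf_smul_left, hNM]
  have hq : 0 ≤ s * (s * Bf M M) := by positivity
  have r1 : 1 ≤ √(1 + s * (s * Bf M M)) := Real.le_sqrt_of_sq_le (by linarith)
  have r2 : √(1 + s * (s * Bf M M)) ≤ 1 + s * (s * Bf M M) :=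
    Real.sqrt_le_iff.2 ⟨by linarith, by nlinarith⟩
  rw [e] at a
  generalize √(1 + s * (s * Bf M M)) = r at *
  have h3 := neg_abs_le (bf N x)
  have h4 := abs_nonneg (bf N x)
  have h5 : (r - 1) * |bf N x| ≤ s * (s * Bf M M) * |bf N x| := by gcongr; linarith
  have h6 : 0 < s * Bf M M * (1 - s * |bf N x|) := mul_pos (mul_pos c hn) (by linarith)
  nlinarith

theorem Klein_unit {E : V} (hE : Bf E E = 1) {x : X} {m : ℝ} (h : x ∈ interior {y | bf E y ≤ m}) :
    bf E x < m := by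
  have h0 := interior_subset h
  refine lt_of_le_of_ne h0 fun e => ?_
  have h1 := Klein_max (N := E) (x := x) (by rw [e]; exact mem_interior_iff_mem_nhds.1 h)
  rw [h1, Bf_smul_left, Bf_smul_right, x.2.1] at hE
  nlinarith [sq_nonneg (bf E x)]

theorem Klein_cd (c x : X) : cd c x = -bf c.1 x := rfl

theorem Klein_cs (x y z : X) :
    (cd x z - cd y x * cd y z) ^ 2 ≤ (cd y x ^ 2 - 1) * (cd y z ^ 2 - 1) := by
  obtain ⟨f, hf⟩ := y.2.exists_frame
  simp only [cd]
  rw [← ch_isom f, ← ch_isom f y.1, ← ch_isom f y.1, hf, ch_o, ch_o]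
  have e := (x.2.smul f).eq
  have e' := (z.2.smul f).eq
  generalize f • x.1 = P at *
  generalize f • z.1 = Q at *
  obtain ⟨a, b, c⟩ := P
  obtain ⟨a', b', c'⟩ := Q
  simp only [ch, Bf] at *
  have h1 : ((a + c) / 2) ^ 2 - 1 = ((a - c) / 2) ^ 2 + b ^ 2 := by linear_combination e
  have h2 : ((a' + c') / 2) ^ 2 - 1 = ((a' - c') / 2) ^ 2 + b' ^ 2 := by linear_combination e'
  have h3 : -(b * b' - (a * c' + a' * c) / 2) - (a + c) / 2 * ((a' + c') / 2) =
      -((a - c) / 2 * ((a' - c') / 2) + b * b') := by ring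
  rw [h1, h2, h3]
  nlinarith [sq_nonneg ((a - c) / 2 * b' - b * ((a' - c') / 2))]

theorem Klein_frame {E : V} (hE : Bf E E = 1) : ∃ A, Bf A A = 1 ∧ Bf E A = 0 := by
  obtain ⟨c, h1, h2, -⟩ := exists_param hE
  have ha : bf E (c 0) = 0 := (h2 ▸ mem_range_self 0 : c 0 ∈ {x | bf E x = 0})
  have hb : bf E (c 1) = 0 := (h2 ▸ mem_range_self 1 : c 1 ∈ {x | bf E x = 0})
  have hab : c 0 ≠ c 1 := fun e => zero_ne_one (h1.injective e)
  generalize c 0 = a at *
  generalize c 1 = b at *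
  have h3 : 1 < cd a b := lt_of_not_ge fun e => hab (eq_of_cd_le e)
  have h4 : 0 < cd a b ^ 2 - 1 := by nlinarith
  have h5 := Real.sqrt_pos.2 h4
  have h6 := Real.mul_self_sqrt h4.le
  have e1 : Bf a.1 b.1 = -cd a b := by simp [cd, ch]
  have e2 : Bf b.1 a.1 = -cd a b := by rw [Bf_comm, e1]
  refine ⟨(√(cd a b ^ 2 - 1))⁻¹ • (b.1 - cd a b • a.1), ?_, ?_⟩
  · simp only [Bf_smul_left, Bf_smul_right, Bf_sub_left, Bf_sub_right, a.2.1, b.2.1, e1, e2]
    generalize √(cd a b ^ 2 - 1) = r at *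
    field_simp
    linarith
  · have ha : Bf E a.1 = 0 := ha
    have hb : Bf E b.1 = 0 := hb
    simp [ha, hb]

theorem pos_of_interior {N : V} (hN : N ≠ 0) {x : X} (h : x ∈ interior {y | 0 ≤ bf N y}) :
    0 < bf N x := by
  have h0 := interior_subset h
  refine lt_of_le_of_ne h0 fun e => hN ?_
  have h1 := Klein_max (N := -N) (x := x) (by
    filter_upwards [mem_interior_iff_mem_nhds.1 h] with y hy
    have hy : 0 ≤ bf N y := hy
    rw [bf_neg, bf_neg, ← e]
    linarith)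
  rw [bf_neg, ← e] at h1
  simpa using h1

theorem preconn_beyond {E : V} (hE : Bf E E = 1) (m : ℝ) : IsPreconnected {x | bf E x < m} := by
  obtain ⟨A, hA, h⟩ := Klein_frame hE
  obtain ⟨v, h1, h2⟩ := exists_corner hE hA h
  have h' : Bf A E = 0 := by rw [Bf_comm, h]
  have g1 : Bf E v.1 = 0 := h1
  have g2 : Bf A v.1 = 0 := h2
  have hs : ∀ p : ℝ × ℝ, bf (p.1 • E + p.2 • A) v = 0 := fun p => by simp [bf, g1, g2]
  let φ : ℝ × ℝ → X := fun p => ⟨_, Klein_H2 (hs p)⟩
  have hφ : Continuous φ := by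
    refine Continuous.subtype_mk ?_ _
    simp only [Bf_smul_left, Bf_smul_right, Bf_add_left, Bf_add_right]
    fun_prop
  have c1 : ∀ p, bf E (φ p) = p.1 := fun p => by simp [φ, bf, g1, hE, h]
  have c2 : ∀ p, bf A (φ p) = p.2 := fun p => by simp [φ, bf, g2, hA, h']
  have e : {x | bf E x < m} = φ '' (Iio m ×ˢ univ) := by
    ext x
    constructor
    · intro hx
      refine ⟨(bf E x, bf A x), ⟨hx, trivial⟩, eq_of_cd_le ?_⟩
      have a := cd_frame hE hA h h1 h2 x x
      have b := cd_frame hE hA h h1 h2 (φ (bf E x, bf A x)) (φ (bf E x, bf A x))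
      have c := cd_frame hE hA h h1 h2 (φ (bf E x, bf A x)) x
      rw [cd_self] at a b
      rw [c1, c2] at b c
      have d1 := one_le_cd v x
      have d2 := one_le_cd v (φ (bf E x, bf A x))
      have : cd v (φ (bf E x, bf A x)) = cd v x := by
        refine (mul_self_inj_of_nonneg (by linarith) (by linarith)).1 ?_
        simp only at b
        linarith
      rw [c, this]
      exact a.ge
    · rintro ⟨p, hp, rfl⟩
      show bf E (φ p) < m
      rw [c1]
      exact hp.1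
  rw [e]
  exact (isPreconnected_Iio.prod isPreconnected_univ).image _ hφ.continuousOn

theorem cvx_half (N : V) : Cvx {x | 0 ≤ bf N x} := by
  intro a ha b hb y hy
  obtain ⟨s, t, hs, ht, -, -, e, -⟩ := seg_coef hy
  have ha : 0 ≤ bf N a := ha
  have hb : 0 ≤ bf N b := hb
  show 0 ≤ bf N y
  rw [e]
  positivity

theorem cvx_half' (N : V) : Cvx {x | 0 < bf N x} := by
  intro a ha b hb y hy
  obtain ⟨s, t, hs, ht, -, e', e, -⟩ := seg_coef hy
  have ha : 0 < bf N a := ha
  have hb : 0 < bf N b := hb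
  show 0 < bf N y
  rw [e]
  rcases hs.eq_or_lt with rfl | hs
  · rcases ht.eq_or_lt with rfl | ht
    · simp at e'
    · positivity
  · positivity

theorem cvx_strip (E : V) (η : ℝ) : Cvx {x | |bf E x| ≤ η} := by
  intro a ha b hb y hy
  obtain ⟨s, t, hs, ht, h1, -, e, -⟩ := seg_coef hy
  have ha : |bf E a| ≤ η := ha
  have hb : |bf E b| ≤ η := hb
  have h0 := (abs_nonneg _).trans ha
  show |bf E y| ≤ η
  rw [e]
  rw [abs_le] at ha hb ⊢
  constructor <;> nlinarith [ha.1, ha.2, hb.1, hb.2]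

theorem cvx_Reg (E N N' : V) (η : ℝ) : Cvx (Reg E N N' η) := by
  exact (cvx_strip E η).inter ((cvx_half N).inter (cvx_half N'))

theorem isClosed_Reg (E N N' : V) (η : ℝ) : IsClosed (Reg E N N' η) := by
  exact (isClosed_le (continuous_bf E).abs continuous_const).inter
    ((isClosed_le continuous_const (continuous_bf N)).inter
      (isClosed_le continuous_const (continuous_bf N')))

theorem interior_Reg {E N N' : V} (hE : Bf E E = 1) (hN : N ≠ 0) (hN' : N' ≠ 0) (η : ℝ) :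
    interior (Reg E N N' η) = {x | |bf E x| < η ∧ 0 < bf N x ∧ 0 < bf N' x} := by
  refine Subset.antisymm (fun x hx => ⟨abs_lt.2 ⟨?_, ?_⟩, ?_, ?_⟩) ?_
  · have := Klein_unit (E := -E) (m := η) (by simpa using hE)
      (interior_mono (fun y hy => by
        have := (abs_le.1 hy.1).1
        show bf (-E) y ≤ η
        rw [bf_neg]
        linarith) hx)
    rw [bf_neg] at this
    linarith
  · exact Klein_unit hE (interior_mono (fun y hy => (abs_le.1 hy.1).2) hx)
  · exact pos_of_interior hN (interior_mono (fun y hy => hy.2.1) hx)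
  · exact pos_of_interior hN' (interior_mono (fun y hy => hy.2.2) hx)
  · refine interior_maximal (fun y hy => ⟨hy.1.le, hy.2.1.le, hy.2.2.le⟩) ?_
    exact (isOpen_lt (continuous_bf E).abs continuous_const).inter
      ((isOpen_lt continuous_const (continuous_bf N)).inter
        (isOpen_lt continuous_const (continuous_bf N')))

theorem smul_mem_Reg (f : Isom) {E N N' : V} {η : ℝ} {x : X} :
    f • x ∈ Reg (f • E) (f • N) (f • N') η ↔ x ∈ Reg E N N' η := by
  simp [Reg]

theorem isCompact_Dsc (c : X) (R : ℝ) : IsCompact (Dsc c R) := by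
  rw [Subtype.isCompact_iff]
  have e : Subtype.val '' Dsc c R = {P : V | Bf P P = -1 ∧ 0 ≤ P.1 ∧ ch c.1 P ≤ R} := by
    ext P
    constructor
    · rintro ⟨x, hx, rfl⟩
      exact ⟨x.2.1, x.2.2.le, hx⟩
    · rintro ⟨h1, h2, h3⟩
      refine ⟨⟨P, (H2_or h1).resolve_right fun h => ?_⟩, h3, rfl⟩
      have := h.2
      simp only [Prod.fst_neg] at this
      linarith
  have hc : IsClosed (Subtype.val '' Dsc c R) := by
    rw [e]
    have c1 : IsClosed {P : V | Bf P P = -1} :=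
      isClosed_eq (by unfold Bf; fun_prop) continuous_const
    have c2 : IsClosed {P : V | 0 ≤ P.1} := isClosed_le continuous_const continuous_fst
    have c3 : IsClosed {P : V | ch c.1 P ≤ R} :=
      isClosed_le (by unfold ch Bf; fun_prop) continuous_const
    exact c1.inter (c2.inter c3)
  set K := 2 * (2 * cd c oX * R)
  refine (isCompact_Icc (a := ((-K, -K, -K) : V)) (b := (K, K, K))).of_isClosed_subset hc ?_
  rintro _ ⟨x, hx, rfl⟩
  have hx : cd c x ≤ R := hx
  have h1 := cd_tri oX x c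
  have h0 := cd_tri oX c x
  have h2 : cd oX x = (x.1.1 + x.1.2.2) / 2 := ch_o _
  have h3 := one_le_cd c oX
  have h4 : x.1.1 + x.1.2.2 ≤ K := by nlinarith
  have a := x.2.2
  have b := x.2.pos
  have d := x.2.eq
  have h5 : |x.1.2.1| ≤ x.1.1 + x.1.2.2 :=
    abs_le.2 (abs_le_of_sq_le_sq' (by nlinarith) (by positivity))
  rw [abs_le] at h5
  refine ⟨⟨?_, ?_, ?_⟩, ?_, ?_, ?_⟩ <;> simp only <;> linarith [h5.1, h5.2]

theorem interior_Dsc (c : X) (R : ℝ) : interior (Dsc c R) = {x | cd c x < R} := by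
  refine Subset.antisymm (fun x hx => ?_)
    (interior_maximal (fun y (hy : cd c y < R) => hy.le) (isOpen_lt (by fun_prop) continuous_const))
  have h0 : x ∈ Dsc c R := interior_subset hx
  refine lt_of_le_of_ne (show cd c x ≤ R from h0) fun e => ?_
  have hn : ∀ᶠ y in 𝓝 x, cd c y ≤ R := mem_interior_iff_mem_nhds.1 hx
  have e1 : ∀ y, bf (-c.1) y = cd c y := fun y => by rw [bf_neg, Klein_cd]
  have h1 := Klein_max (N := -c.1) (x := x) (by simpa only [e1, e] using hn)
  rw [e1, neg_smul, neg_inj] at h1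
  have h2 := c.2.1
  rw [h1, Bf_smul_left, Bf_smul_right, x.2.1] at h2
  have h3 := one_le_cd c x
  have h4 : cd c x ≤ 1 := by nlinarith
  obtain rfl := eq_of_cd_le h4
  rw [cd_self] at e
  have h5 : ({c} : Set X) ∈ 𝓝 c := hn.mono fun y hy => (eq_of_cd_le (e ▸ hy)).symm
  have h6 := kl_emb.image_mem_nhds.2 h5
  rw [image_singleton] at h6
  exact (inferInstance : (𝓝[≠] kl c).NeBot).ne (by
    rw [← isOpen_singleton_iff_punctured_nhds]
    exact isOpen_iff_mem_nhds.2 fun z hz => by rw [hz]; exact h6)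

theorem cvx_Dsc (c : X) (R : ℝ) : Cvx (Dsc c R) := by
  intro a ha b hb y hy
  obtain ⟨s, t, hs, ht, h1, -, e, -⟩ := seg_coef hy
  have ha : cd c a ≤ R := ha
  have hb : cd c b ≤ R := hb
  have h0 := (one_le_cd _ _).trans ha
  show cd c y ≤ R
  rw [Klein_cd] at ha hb ⊢
  rw [e]
  nlinarith

theorem strictConvex_Dsc (c : X) (R : ℝ) : StrictConvex ℝ (kl '' Dsc c R) := by
  rw [strictConvex_iff_openSegment_subset]
  rintro _ ⟨a, ha, rfl⟩ _ ⟨b, hb, rfl⟩ hab z hz
  have hz' := openSegment_subset_segment ℝ _ _ hz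
  rw [← kl_seg] at hz'
  obtain ⟨y, hy, rfl⟩ := hz'
  refine kl_emb.isOpenMap.image_interior_subset _ ⟨y, ?_, rfl⟩
  rw [interior_Dsc]
  obtain ⟨s, t, hs, ht, h1, e', e, p1, p2⟩ := seg_coef hy
  have ht := p1 (by rintro rfl; exact hab (left_mem_openSegment_iff.1 hz))
  have hs := p2 (by rintro rfl; exact hab (right_mem_openSegment_iff.1 hz))
  have h3 : 1 < cd a b := lt_of_not_ge fun e => hab (congrArg kl (eq_of_cd_le e))
  have h4 : s + t < 1 := by
    refine lt_of_le_of_ne h1 fun h5 => ?_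
    have : (s + t) ^ 2 = 1 := by rw [h5, one_pow]
    nlinarith [mul_pos (mul_pos hs ht) (sub_pos.2 h3)]
  have ha : cd c a ≤ R := ha
  have hb : cd c b ≤ R := hb
  have h0 := (one_le_cd _ _).trans ha
  show cd c y < R
  rw [Klein_cd] at ha hb ⊢
  rw [e]
  nlinarith

/-- The discs about `c` form a basis of neighbourhoods. -/
theorem exists_Dsc_subset {c : X} {U : Set X} (h : U ∈ 𝓝 c) : ∃ R > 1, Dsc c R ⊆ U := by
  have hK := (isCompact_Dsc c 2).diff (isOpen_interior (s := U))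
  rcases (Dsc c 2 \ interior U).eq_empty_or_nonempty with e | e
  · exact ⟨2, one_lt_two, (sdiff_eq_empty.1 e).trans interior_subset⟩
  · obtain ⟨y, hy, hm⟩ := hK.exists_isMinOn e (f := cd c) (by fun_prop)
    have h1 : 1 < cd c y := lt_of_not_ge fun e' =>
      hy.2 (eq_of_cd_le e' ▸ mem_interior_iff_mem_nhds.2 h)
    have h2 : cd c y ≤ 2 := hy.1
    refine ⟨(1 + cd c y) / 2, by linarith, fun z hz => ?_⟩
    have hz : cd c z ≤ (1 + cd c y) / 2 := hz
    by_contra hU
    have : cd c y ≤ cd c z := hm ⟨show cd c z ≤ 2 by linarith, fun a => hU (interior_subset a)⟩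
    linarith

theorem subset_Dsc {C : Set X} (h : IsCompact C) (c : X) : ∃ R, C ⊆ Dsc c R := by
  obtain ⟨R, hR⟩ := h.bddAbove_image (f := cd c) (by fun_prop)
  exact ⟨R, fun x hx => hR ⟨x, hx, rfl⟩⟩

theorem cd_near {R R' : ℝ} (h : R < R') :
    ∃ δ > 0, ∀ c y z : X, cd c y ≤ R → cd y z ≤ 1 + δ → cd c z < R' := by
  have hc : Continuous fun δ : ℝ => R * (1 + δ) + √((R ^ 2 - 1) * ((1 + δ) ^ 2 - 1)) := by fun_prop
  have h1 : ∀ᶠ δ in 𝓝 (0 : ℝ), R * (1 + δ) + √((R ^ 2 - 1) * ((1 + δ) ^ 2 - 1)) < R' :=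
    hc.continuousAt.eventually_lt continuousAt_const (by simpa using h)
  obtain ⟨δ, a, b⟩ := ((h1.filter_mono nhdsWithin_le_nhds).and
    (self_mem_nhdsWithin (s := Ioi (0 : ℝ)))).exists
  refine ⟨δ, b, fun c y z h2 h3 => lt_of_le_of_lt ?_ a⟩
  have h4 := Klein_cs c y z
  rw [cd_comm y c] at h4
  have h5 := one_le_cd c y
  have h6 := one_le_cd y z
  have h7 : (cd c y ^ 2 - 1) * (cd y z ^ 2 - 1) ≤ (R ^ 2 - 1) * ((1 + δ) ^ 2 - 1) :=
    mul_le_mul (by nlinarith) (by nlinarith) (by nlinarith) (by nlinarith)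
  have h8 := Real.le_sqrt_of_sq_le (h4.trans h7)
  have h9 : cd c y * cd y z ≤ R * (1 + δ) := mul_le_mul h2 h3 (by linarith) (by linarith)
  linarith

/-- Far out on the line `E` the image under a map of bounded displacement lies beyond any
perpendicular cut. Hint: `x` has coordinates `bf E x = 0`, `bf A x = sinh s`; `cd_frame`. -/
theorem far_sign {E A : V} (hE : Bf E E = 1) (hA : Bf A A = 1) (h : Bf E A = 0) {v : X}
    (h1 : bf E v = 0) (h2 : bf A v = 0) (C : ℝ) {μ : ℝ} (hμ : μ < 1) :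
    ∃ q : ℝ, ∀ x y : X, bf E x = 0 → q ≤ bf A x → cd x y ≤ C → μ * cd v y < bf A y := by
  have h0 : 0 < 1 - μ := by linarith
  refine ⟨|C| / (1 - μ) + 1, fun x y hx hq hC => ?_⟩
  have a := cd_frame hE hA h h1 h2 x x
  have b := cd_frame hE hA h h1 h2 x y
  rw [cd_self] at a
  rw [hx] at a b
  have d1 := one_le_cd v x
  have d2 := one_le_cd v y
  have h3 : 0 ≤ |C| / (1 - μ) := by positivity
  have h4 : 0 < bf A x := by linarith
  have h5 : bf A x ≤ cd v x := by nlinarith
  have h6 : |C| < (1 - μ) * bf A x := by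
    rw [mul_comm, ← div_lt_iff₀ h0]
    linarith
  have h7 := le_abs_self C
  have h8 : bf A x * cd v y ≤ cd v x * cd v y := by gcongr
  have h9 : (1 - μ) * bf A x * 1 ≤ (1 - μ) * bf A x * cd v y := by gcongr
  refine lt_of_mul_lt_mul_left ?_ h4.le
  nlinarith

end Pool.Agent.MP_4a6971_al.H83
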