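import Pool.Agent.MP_4a6971_al.H83.Schoen

/-!
Simultaneous straightening of a two-coloured system of arcs.
-/

namespace Pool.Agent.MP_4a6971_al.H83

open Set Topology Metric

/-- The affine function attached to `l = (a, c)`. -/
def af (l : ℂ × ℝ) (z : ℂ) : ℝ := (l.1 * z).re - l.2

/-- The arc misses the line in its interior and does not have both ends on it. -/
def Miss (γ : ℝ → ℂ) (l : ℂ × ℝ) : Prop :=
  (∀ t ∈ Ioo (0 : ℝ) 1, af l (γ t) ≠ 0) ∧ ¬ (af l (γ 0) = 0 ∧ af l (γ 1) = 0)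

/-- The arc crosses the line exactly once. -/
def Thru (γ : ℝ → ℂ) (l : ℂ × ℝ) : Prop :=
  ∃ t₀ ∈ Ioo (0 : ℝ) 1, af l (γ t₀) = 0 ∧
    ∀ t ∈ Ico (0 : ℝ) t₀, ∀ t' ∈ Ioc t₀ 1, af l (γ t) * af l (γ t') < 0

theorem Two1_cont (l : ℂ × ℝ) : Continuous (af l) := by
  unfold af
  fun_prop

theorem Two1_neg (l : ℂ × ℝ) (z : ℂ) : af (-l) z = -af l z := by
  simp only [af, Prod.fst_neg, Prod.snd_neg, neg_mul, Complex.neg_re]
  ring

theorem Two1_add (l : ℂ × ℝ) (z a b : ℂ) (s : ℝ) :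
    af l (z + s • (b - a)) = af l z + s * (af l b - af l a) := by
  simp only [af, Complex.real_smul, Complex.mul_re, Complex.add_re, Complex.add_im, Complex.mul_im,
    Complex.sub_re, Complex.sub_im, Complex.ofReal_re, Complex.ofReal_im]
  ring

theorem Two1_comb (l : ℂ × ℝ) (a b : ℂ) {s r : ℝ} (e : s + r = 1) :
    af l (s • a + r • b) = s * af l a + r * af l b := by
  have : s = 1 - r := by linarith
  subst this
  simp only [af, Complex.real_smul, Complex.mul_re, Complex.add_re, Complex.add_im, Complex.mul_im,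
    Complex.ofReal_re, Complex.ofReal_im]
  ring

/-- The part of `K` in the closed half plane of `l`. -/
def Two1_K (K : Set ℂ) (l : ℂ × ℝ) : Set ℂ := K ∩ {z | 0 ≤ af l z}

theorem Two1_K_sub (K : Set ℂ) (l : ℂ × ℝ) : Two1_K K l ⊆ K := inter_subset_left

theorem Two1_K_compact {K : Set ℂ} (hK : IsCompact K) (l : ℂ × ℝ) : IsCompact (Two1_K K l) :=
  hK.inter_right (isClosed_le continuous_const (Two1_cont l))

theorem Two1_K_convex {K : Set ℂ} (hK : Convex ℝ K) (l : ℂ × ℝ) : Convex ℝ (Two1_K K l) := by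
  refine hK.inter fun a ha b hb s r hs hr e => ?_
  change 0 ≤ af l (s • a + r • b)
  rw [Two1_comb l a b e]
  exact add_nonneg (mul_nonneg hs ha) (mul_nonneg hr hb)

theorem Two1_int {K : Set ℂ} {l : ℂ × ℝ} {z : ℂ} (h1 : z ∈ interior K) (h2 : 0 < af l z) :
    z ∈ interior (Two1_K K l) := by
  have : interior K ∩ {z | 0 < af l z} ⊆ interior (Two1_K K l) :=
    interior_maximal (fun w hw => ⟨interior_subset hw.1, show 0 ≤ af l w from le_of_lt hw.2⟩)
      (isOpen_interior.inter (isOpen_lt continuous_const (Two1_cont l)))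
  exact this ⟨h1, h2⟩

theorem Two1_pos {K : Set ℂ} {l : ℂ × ℝ} {w z : ℂ} (hw : af l w ≠ 0)
    (h : z ∈ interior (Two1_K K l)) : 0 < af l z := by
  have h0 : 0 ≤ af l z := (interior_subset h).2
  refine lt_of_le_of_ne h0 fun e => ?_
  have hc : Continuous fun s : ℝ => z + (-s * af l w) • (w - z) := by fun_prop
  have h1 : ∀ᶠ s in 𝓝 (0 : ℝ), z + (-s * af l w) • (w - z) ∈ interior (Two1_K K l) := by
    apply hc.continuousAt.eventually_mem
    simpa using isOpen_interior.mem_nhds h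
  obtain ⟨s, hs, hs0⟩ := ((h1.filter_mono nhdsWithin_le_nhds).and
    (self_mem_nhdsWithin : Ioi (0 : ℝ) ∈ 𝓝[>] 0)).exists
  have h2 : 0 ≤ af l (z + (-s * af l w) • (w - z)) := (interior_subset hs).2
  rw [Two1_add, ← e] at h2
  have h3 : 0 < s * (af l w * af l w) := mul_pos hs0 (mul_self_pos.2 hw)
  nlinarith

theorem Two1_fix {K : Set ℂ} {l : ℂ × ℝ} {w : ℂ} (hw : af l w ≠ 0) {f : ℂ ≃ₜ ℂ}
    (hf : Supp f (Two1_K K l)) {z : ℂ} (hz : af l z ≤ 0) : f z = z :=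
  hf z fun c => absurd (Two1_pos hw c) (not_lt.2 hz)

theorem Two1_zero {K : Set ℂ} {l : ℂ × ℝ} {w : ℂ} (hw : af l w ≠ 0) {f : ℂ ≃ₜ ℂ}
    (hf : Supp f (Two1_K K l)) (z : ℂ) : af l (f z) = 0 ↔ af l z = 0 := by
  by_cases c : z ∈ interior (Two1_K K l)
  · exact iff_of_false (Two1_pos hw (hf.mem_interior.2 c)).ne' (Two1_pos hw c).ne'
  · rw [hf z c]

theorem Two1_sign {X : Type} [TopologicalSpace X] {S : Set X} (hS : IsPreconnected S) {F : X → ℝ}
    (hF : ContinuousOn F S) (h : ∀ x ∈ S, F x ≠ 0) {a b : X} (ha : a ∈ S) (hb : b ∈ S) :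
    0 < F a * F b := by
  by_contra c
  have key : ∀ a ∈ S, ∀ b ∈ S, F a < 0 → 0 < F b → False := fun a ha b hb h1 h2 => by
    obtain ⟨x, hx, e⟩ := hS.intermediate_value ha hb hF ⟨h1.le, h2.le⟩
    exact h x hx e
  rcases lt_or_gt_of_ne (h a ha) with h1 | h1 <;> rcases lt_or_gt_of_ne (h b hb) with h2 | h2
  · exact c (mul_pos_of_neg_of_neg h1 h2)
  · exact key a ha b hb h1 h2
  · exact key b hb a ha h2 h1
  · exact c (mul_pos h1 h2)

theorem Two1_cut {K : Set ℂ} {δ : ℝ → ℂ} {l : ℂ × ℝ} (hc : ContinuousOn δ (Icc 0 1))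
    (hi : InjOn δ (Icc 0 1)) (h0 : δ 0 ∈ K) (h1 : δ 1 ∈ K)
    (n0 : δ 0 ∈ interior K → af l (δ 0) = 0) (n1 : δ 1 ∈ interior K → af l (δ 1) = 0)
    (hm : ∀ t ∈ Ioo (0 : ℝ) 1, δ t ∈ interior K ∧ 0 < af l (δ t))
    (hs : openSegment ℝ (δ 0) (δ 1) ⊆ interior K) (hn : ¬ (af l (δ 0) = 0 ∧ af l (δ 1) = 0)) :
    PArc (Two1_K K l) δ ∧ openSegment ℝ (δ 0) (δ 1) ⊆ interior (Two1_K K l) := by
  have hw : af l (δ (1 / 2)) ≠ 0 := (hm _ (by constructor <;> norm_num)).2.ne'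
  have hge : ∀ t ∈ Icc (0 : ℝ) 1, 0 ≤ af l (δ t) := fun t ht => by
    have a : ContinuousWithinAt (fun t => af l (δ t)) (Ioo 0 1) t :=
      (((Two1_cont l).comp_continuousOn hc) t ht).mono Ioo_subset_Icc_self
    have b : t ∈ closure (Ioo (0 : ℝ) 1) := by rwa [closure_Ioo zero_ne_one]
    exact ContinuousWithinAt.closure_le (f := fun _ => (0 : ℝ)) (g := fun t => af l (δ t)) b
      continuousWithinAt_const a fun y hy => (hm y hy).2.le
  have g0 := hge 0 (by simp)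
  have g1 := hge 1 (by simp)
  refine ⟨⟨hc, hi, ⟨h0, g0⟩, fun c => ?_, ⟨h1, g1⟩, fun c => ?_,
    fun t ht => Two1_int (hm t ht).1 (hm t ht).2⟩, fun z hz => Two1_int (hs hz) ?_⟩
  · exact (Two1_pos hw c).ne' (n0 (interior_mono (Two1_K_sub K l) c))
  · exact (Two1_pos hw c).ne' (n1 (interior_mono (Two1_K_sub K l) c))
  · obtain ⟨s, r, hs, hr, e, rfl⟩ := hz
    rw [Two1_comb l _ _ e]
    rcases not_and_or.1 hn with c | c
    · exact add_pos_of_pos_of_nonneg (mul_pos hs (lt_of_le_of_ne g0 (Ne.symm c)))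
        (mul_nonneg hr.le g1)
    · exact add_pos_of_nonneg_of_pos (mul_nonneg hs.le g0)
        (mul_pos hr (lt_of_le_of_ne g1 (Ne.symm c)))

theorem Two1_thru_ne {γ : ℝ → ℂ} {l : ℂ × ℝ} {t₀ : ℝ} (h0 : t₀ ∈ Ioo (0 : ℝ) 1)
    (h : ∀ t ∈ Ico (0 : ℝ) t₀, ∀ t' ∈ Ioc t₀ 1, af l (γ t) * af l (γ t') < 0) {t : ℝ}
    (ht : t ∈ Icc (0 : ℝ) 1) (e : af l (γ t) = 0) : t = t₀ := by
  by_contra c
  rcases lt_or_gt_of_ne c with c | c
  · have := h t ⟨ht.1, c⟩ 1 ⟨h0.2, le_rfl⟩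
    rw [e, zero_mul] at this
    exact lt_irrefl _ this
  · have := h 0 ⟨le_rfl, h0.1⟩ t ⟨c, ht.2⟩
    rw [e, mul_zero] at this
    exact lt_irrefl _ this

theorem Two1_sub {γ : ℝ → ℂ} {l : ℂ × ℝ} (h : Thru γ l) {a b : ℝ} (ha : 0 ≤ a) (hab : a < b)
    (hb : b ≤ 1) :
    Miss (fun t => γ (a + (b - a) * t)) l ∨ Thru (fun t => γ (a + (b - a) * t)) l := by
  obtain ⟨t₁, h1, h2, h3⟩ := h
  have hba : 0 < b - a := sub_pos.2 hab
  by_cases c : a < t₁ ∧ t₁ < b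
  · right
    have e : a + (b - a) * ((t₁ - a) / (b - a)) = t₁ := by field_simp; ring
    refine ⟨(t₁ - a) / (b - a), ⟨div_pos (sub_pos.2 c.1) hba, (div_lt_one hba).2 (by linarith [c.2])⟩,
      by simpa only [e] using h2, fun t ht t' ht' => h3 _ ⟨?_, ?_⟩ _ ⟨?_, ?_⟩⟩
    · have := mul_nonneg hba.le ht.1
      linarith
    · have := mul_lt_mul_of_pos_left ht.2 hba
      linarith
    · have := mul_lt_mul_of_pos_left ht'.1 hba
      linarith
    · have := mul_le_mul_of_nonneg_left ht'.2 hba.le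
      linarith
  · left
    refine ⟨fun t ht e => c ?_, fun e => ?_⟩
    · have u1 := mul_pos hba ht.1
      have u2 := mul_lt_mul_of_pos_left ht.2 hba
      have := Two1_thru_ne h1 h3 (t := a + (b - a) * t) ⟨by linarith, by linarith⟩ e
      constructor <;> linarith
    · have u1 := Two1_thru_ne h1 h3 (t := a + (b - a) * 0) ⟨by linarith, by linarith⟩ e.1
      have u2 := Two1_thru_ne h1 h3 (t := a + (b - a) * 1) ⟨by linarith, by linarith⟩ e.2
      linarith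

theorem Two1_sub_cont {γ : ℝ → ℂ} (hc : ContinuousOn γ (Icc 0 1)) (hi : InjOn γ (Icc 0 1))
    {a b : ℝ} (ha : 0 ≤ a) (hab : a < b) (hb : b ≤ 1) :
    ContinuousOn (fun t => γ (a + (b - a) * t)) (Icc 0 1) ∧
      InjOn (fun t => γ (a + (b - a) * t)) (Icc 0 1) ∧
      (fun t => γ (a + (b - a) * t)) '' Icc 0 1 = γ '' Icc a b := by
  have hba : 0 < b - a := sub_pos.2 hab
  have hm : ∀ t ∈ Icc (0 : ℝ) 1, a + (b - a) * t ∈ Icc a b := fun t ht => by
    have u1 := mul_nonneg hba.le ht.1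
    have u2 := mul_le_mul_of_nonneg_left ht.2 hba.le
    constructor <;> linarith
  have hm' : MapsTo (fun t => a + (b - a) * t) (Icc (0 : ℝ) 1) (Icc (0 : ℝ) 1) :=
    fun t ht => Icc_subset_Icc ha hb (hm t ht)
  refine ⟨hc.comp (by fun_prop) hm', fun t ht t' ht' e => ?_, Subset.antisymm ?_ ?_⟩
  · have := hi (hm' ht) (hm' ht') e
    exact mul_left_cancel₀ hba.ne' (add_left_cancel this)
  · rintro _ ⟨t, ht, rfl⟩
    exact ⟨_, hm t ht, rfl⟩
  · rintro _ ⟨t, ht, rfl⟩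
    have e : a + (b - a) * ((t - a) / (b - a)) = t := by field_simp; ring
    exact ⟨(t - a) / (b - a), ⟨div_nonneg (sub_nonneg.2 ht.1) hba.le,
      (div_le_one hba).2 (by linarith [ht.2])⟩, by simp only [e]⟩

theorem Two1_union (a b : ℂ) {s : ℝ} (hs : s ∈ Icc (0 : ℝ) 1) :
    segment ℝ a (AffineMap.lineMap a b s) ∪ segment ℝ (AffineMap.lineMap a b s) b =
      segment ℝ a b := by
  have e1 := image_segment ℝ (AffineMap.lineMap (k := ℝ) a b) 0 s
  have e2 := image_segment ℝ (AffineMap.lineMap (k := ℝ) a b) s 1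
  rw [AffineMap.lineMap_apply_zero] at e1
  rw [AffineMap.lineMap_apply_one] at e2
  rw [← e1, ← e2, ← image_union, segment_eq_Icc hs.1, segment_eq_Icc hs.2,
    Icc_union_Icc_eq_Icc hs.1 hs.2, segment_eq_image_lineMap]

theorem Two1_base {K : Set ℂ} (hK : IsCompact K) (hKc : Convex ℝ K)
    {γ : ℝ → ℂ} (h : PArc K γ) (hch : openSegment ℝ (γ 0) (γ 1) ⊆ interior K) :
    ∃ f : ℂ ≃ₜ ℂ, Supp f K ∧ f '' (γ '' Icc 0 1) = segment ℝ (γ 0) (γ 1) := by
  have h2 : PArc K (AffineMap.lineMap (k := ℝ) (γ 0) (γ 1)) := by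
    refine ⟨AffineMap.lineMap_continuous.continuousOn,
      (AffineMap.lineMap_injective ℝ h.ne).injOn, ?_, ?_, ?_, ?_, fun t ht => hch ?_⟩
    · simpa using h.m0
    · simpa using h.n0
    · simpa using h.m1
    · simpa using h.n1
    · rw [openSegment_eq_image_lineMap]
      exact ⟨t, ht, rfl⟩
  obtain ⟨f, hf, e⟩ := arc_lemma hK hKc h h2 (by simp) (by simp)
  refine ⟨f, hf, ?_⟩
  rw [segment_eq_image_lineMap, image_image]
  exact image_congr e

/-- The statement proved by induction. -/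
def Two1_P (R : Finset (ℂ × ℝ)) : Prop :=
  ∀ (K : Set ℂ) (γ : ℝ → ℂ), IsCompact K → Convex ℝ K → PArc K γ →
    openSegment ℝ (γ 0) (γ 1) ⊆ interior K → (∀ l ∈ R, Miss γ l ∨ Thru γ l) →
    (∀ l ∈ R, ∀ l' ∈ R, l ≠ l' → Thru γ l → Thru γ l' →
      ∀ z ∈ interior K, af l z = 0 → af l' z ≠ 0) →
    ∃ f : ℂ ≃ₜ ℂ, Supp f K ∧ f '' (γ '' Icc 0 1) = segment ℝ (γ 0) (γ 1) ∧
      ∀ l ∈ R, ∀ z, af l (f z) = 0 ↔ af l z = 0

theorem Two1_miss {R : Finset (ℂ × ℝ)} (ih : Two1_P R) {K : Set ℂ} (hK : IsCompact K)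
    (hKc : Convex ℝ K) {γ : ℝ → ℂ} (h : PArc K γ)
    (hch : openSegment ℝ (γ 0) (γ 1) ⊆ interior K) (hR : ∀ l ∈ R, Miss γ l ∨ Thru γ l)
    (hx : ∀ l ∈ R, ∀ l' ∈ R, l ≠ l' → Thru γ l → Thru γ l' →
      ∀ z ∈ interior K, af l z = 0 → af l' z ≠ 0) {l : ℂ × ℝ} (hl : Miss γ l)
    (hp : 0 < af l (γ (1 / 2))) :
    ∃ f : ℂ ≃ₜ ℂ, Supp f K ∧ f '' (γ '' Icc 0 1) = segment ℝ (γ 0) (γ 1) ∧
      (∀ l ∈ R, ∀ z, af l (f z) = 0 ↔ af l z = 0) ∧ ∀ z, af l (f z) = 0 ↔ af l z = 0 := by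
  have hpos : ∀ t ∈ Ioo (0 : ℝ) 1, 0 < af l (γ t) := fun t ht => by
    have := Two1_sign (F := fun t => af l (γ t)) isPreconnected_Ioo
      (((Two1_cont l).comp_continuousOn h.cont).mono Ioo_subset_Icc_self) hl.1 ht
      (b := 1 / 2) (by constructor <;> norm_num)
    exact (mul_pos_iff_of_pos_right hp).1 this
  obtain ⟨a1, a2⟩ := Two1_cut (l := l) h.cont h.inj h.m0 h.m1 (fun c => absurd c h.n0)
    (fun c => absurd c h.n1) (fun t ht => ⟨h.mid t ht, hpos t ht⟩) hch hl.2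
  obtain ⟨f, f1, f2, f3⟩ := ih _ γ (Two1_K_compact hK l) (Two1_K_convex hKc l) a1 a2 hR
    fun l1 h1 l2 h2 ne t1 t2 z hz => hx l1 h1 l2 h2 ne t1 t2 z (interior_mono (Two1_K_sub K l) hz)
  exact ⟨f, f1.mono (Two1_K_sub K l), f2, f3, Two1_zero hp.ne' f1⟩

theorem Two1_slide {R : Finset (ℂ × ℝ)} {K : Set ℂ} (hKc : Convex ℝ K) {l : ℂ × ℝ} {p q : ℂ}
    (hp : p ∈ interior K) (hq : q ∈ interior K) (ep : af l p = 0) (eq : af l q = 0)
    (hx : ∀ l' ∈ R, ∀ z ∈ interior K, af l z = 0 → af l' z ≠ 0) :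
    ∃ h : ℂ ≃ₜ ℂ, Supp h K ∧ h p = q ∧ (∀ z, af l (h z) = af l z) ∧
      ∀ l' ∈ R, ∀ z, ∃ c, 0 < c ∧ af l' (h z) = c * af l' z := by
  have hU : IsOpen (interior K ∩ ⋂ l' ∈ R, {z | af l' z ≠ 0}) :=
    isOpen_interior.inter (isOpen_biInter_finset fun l' _ => isOpen_ne_fun (Two1_cont l')
      continuous_const)
  have hS : IsCompact (segment ℝ p q) := by
    rw [segment_eq_image_lineMap]
    exact isCompact_Icc.image AffineMap.lineMap_continuous
  have hsub : segment ℝ p q ⊆ interior K ∩ ⋂ l' ∈ R, {z | af l' z ≠ 0} := fun z hz => by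
    have h1 : z ∈ interior K := hKc.interior.segment_subset hp hq hz
    refine ⟨h1, mem_iInter₂.2 fun l' hl' => hx l' hl' z h1 ?_⟩
    obtain ⟨s, r, -, -, e, rfl⟩ := hz
    rw [Two1_comb l _ _ e, ep, eq]
    ring
  obtain ⟨δ, hδ, hC⟩ := hS.exists_cthickening_subset_open hU hsub
  have hCc : Convex ℝ (cthickening δ (segment ℝ p q)) := (convex_segment p q).cthickening δ
  have hin : segment ℝ p q ⊆ interior (cthickening δ (segment ℝ p q)) :=
    (self_subset_thickening hδ _).trans (thickening_subset_interior_cthickening δ _)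
  obtain ⟨h, h1, h2, h3⟩ := slide hS.cthickening hCc (hin (left_mem_segment ℝ p q))
    (hin (right_mem_segment ℝ p q))
  refine ⟨h, h1.mono fun z hz => interior_subset (hC hz).1, h2, fun z => ?_, fun l' hl' z => ?_⟩
  · obtain ⟨s, e⟩ := h3 z
    rw [e, Two1_add, ep, eq]
    ring
  · by_cases c : z ∈ interior (cthickening δ (segment ℝ p q))
    · have hne : ∀ x ∈ cthickening δ (segment ℝ p q), af l' x ≠ 0 := fun x hx =>
        mem_iInter₂.1 (hC hx).2 l' hl'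
      have u := Two1_sign hCc.isPreconnected (Two1_cont l').continuousOn hne
        (interior_subset (h1.mem_interior.2 c)) (interior_subset c)
      have v := hne z (interior_subset c)
      exact ⟨af l' (h z) / af l' z, div_pos_iff.2 (mul_pos_iff.1 u), (div_mul_cancel₀ _ v).symm⟩
    · exact ⟨1, one_pos, by rw [h1 z c, one_mul]⟩

theorem Two1_halves {R : Finset (ℂ × ℝ)} (ih : Two1_P R) {K : Set ℂ} (hK : IsCompact K)
    (hKc : Convex ℝ K) {γ : ℝ → ℂ} (h : PArc K γ) (hR : ∀ l ∈ R, Thru γ l)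
    (hx : ∀ l ∈ R, ∀ l' ∈ R, l ≠ l' → ∀ z ∈ interior K, af l z = 0 → af l' z ≠ 0)
    {l : ℂ × ℝ} {t₀ s : ℝ} (ht : t₀ ∈ Ioo (0 : ℝ) 1) (hs : s ∈ Icc (0 : ℝ) 1)
    (e : γ t₀ = AffineMap.lineMap (γ 0) (γ 1) s) (e0 : af l (γ t₀) = 0)
    (h1 : ∀ t ∈ Ico (0 : ℝ) t₀, 0 < af l (γ t)) (h2 : ∀ t ∈ Ioc t₀ 1, af l (γ t) < 0) :
    ∃ f : ℂ ≃ₜ ℂ, Supp f K ∧ f '' (γ '' Icc 0 1) = segment ℝ (γ 0) (γ 1) ∧
      (∀ l ∈ R, ∀ z, af l (f z) = 0 ↔ af l z = 0) ∧ ∀ z, af l (f z) = 0 ↔ af l z = 0 := by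
  have hq : γ t₀ ∈ interior K := h.mid t₀ ht
  have A : 0 < af l (γ 0) := h1 0 ⟨le_rfl, ht.1⟩
  have B : 0 < af (-l) (γ 1) := by
    rw [Two1_neg]
    exact neg_pos.2 (h2 1 ⟨ht.2, le_rfl⟩)
  obtain ⟨c1, i1, m1⟩ := Two1_sub_cont h.cont h.inj le_rfl ht.1 ht.2.le
  obtain ⟨c2, i2, m2⟩ := Two1_sub_cont h.cont h.inj ht.1.le ht.2 le_rfl
  have x10 : (0 : ℝ) + (t₀ - 0) * 0 = 0 := by ring
  have x11 : (0 : ℝ) + (t₀ - 0) * 1 = t₀ := by ring
  have x20 : t₀ + (1 - t₀) * 0 = t₀ := by ring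
  have x21 : t₀ + (1 - t₀) * 1 = 1 := by ring
  obtain ⟨a1, b1⟩ := Two1_cut (K := K) (l := l) c1 i1 (by simpa only [x10] using h.m0)
    (by simpa only [x11] using interior_subset hq)
    (fun c => absurd (by simpa only [x10] using c) h.n0) (fun _ => by simpa only [x11] using e0)
    (fun t u => by
      have u1 := mul_pos ht.1 u.1
      have u2 := mul_lt_mul_of_pos_left u.2 ht.1
      exact ⟨h.mid _ ⟨by linarith, by linarith [ht.2]⟩, h1 _ ⟨by linarith, by linarith⟩⟩)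
    (by simpa only [x10, x11] using hKc.openSegment_self_interior_subset_interior h.m0 hq)
    (fun c => A.ne' (by simpa only [x10] using c.1))
  obtain ⟨a2, b2⟩ := Two1_cut (K := K) (l := -l) c2 i2
    (by simpa only [x20] using interior_subset hq) (by simpa only [x21] using h.m1)
    (fun _ => by simp only [x20, Two1_neg, e0, neg_zero])
    (fun c => absurd (by simpa only [x21] using c) h.n1)
    (fun t u => by
      have u0 : 0 < 1 - t₀ := sub_pos.2 ht.2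
      have u1 := mul_pos u0 u.1
      have u2 := mul_lt_mul_of_pos_left u.2 u0
      refine ⟨h.mid _ ⟨by linarith [ht.1], by linarith⟩, ?_⟩
      rw [Two1_neg]
      exact neg_pos.2 (h2 _ ⟨by linarith, by linarith⟩))
    (by simpa only [x20, x21] using hKc.openSegment_interior_self_subset_interior hq h.m1)
    (fun c => B.ne' (by simpa only [x21] using c.2))
  obtain ⟨f, f1, f2, f3⟩ := ih _ _ (Two1_K_compact hK l) (Two1_K_convex hKc l) a1 b1
    (fun l' hl' => Two1_sub (hR l' hl') le_rfl ht.1 ht.2.le)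
    fun l1 k1 l2 k2 ne _ _ z hz => hx l1 k1 l2 k2 ne z (interior_mono (Two1_K_sub K l) hz)
  obtain ⟨g, g1, g2, g3⟩ := ih _ _ (Two1_K_compact hK (-l)) (Two1_K_convex hKc (-l)) a2 b2
    (fun l' hl' => Two1_sub (hR l' hl') ht.1.le ht.2 le_rfl)
    fun l1 k1 l2 k2 ne _ _ z hz => hx l1 k1 l2 k2 ne z (interior_mono (Two1_K_sub K (-l)) hz)
  rw [m1] at f2
  rw [m2] at g2
  simp only [x10, x11, x20, x21] at f2 g2
  have f4 : f '' (γ '' Icc t₀ 1) = γ '' Icc t₀ 1 := by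
    refine (image_congr (g := id) ?_).trans (image_id _)
    rintro _ ⟨t, u, rfl⟩
    refine Two1_fix A.ne' f1 ?_
    rcases u.1.eq_or_lt with rfl | v
    · exact e0.le
    · exact (h2 t ⟨v, u.2⟩).le
  have g4 : g '' segment ℝ (γ 0) (γ t₀) = segment ℝ (γ 0) (γ t₀) := by
    refine (image_congr (g := id) ?_).trans (image_id _)
    rintro _ ⟨a, b, ha, -, u, rfl⟩
    refine Two1_fix B.ne' g1 ?_
    rw [Two1_neg, Two1_comb l _ _ u, e0, mul_zero, add_zero]
    exact neg_nonpos.2 (mul_nonneg ha A.le)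
  refine ⟨g * f, (g1.mono (Two1_K_sub K _)).mul (f1.mono (Two1_K_sub K _)), ?_,
    fun l' hl' z => (g3 l' hl' (f z)).trans (f3 l' hl' z), fun z => ?_⟩
  · have : ⇑(g * f) = g ∘ f := rfl
    rw [this, image_comp, ← Icc_union_Icc_eq_Icc ht.1.le ht.2.le, image_union, image_union, f2, f4,
      image_union, g4, g2, e, Two1_union _ _ hs]
  · have u := Two1_zero B.ne' g1 (f z)
    rw [Two1_neg, Two1_neg, neg_eq_zero, neg_eq_zero] at u
    exact u.trans (Two1_zero A.ne' f1 z)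

theorem Two1_thru {R : Finset (ℂ × ℝ)} (ih : Two1_P R) {K : Set ℂ} (hK : IsCompact K)
    (hKc : Convex ℝ K) {γ : ℝ → ℂ} (h : PArc K γ)
    (hch : openSegment ℝ (γ 0) (γ 1) ⊆ interior K) (hR : ∀ l ∈ R, Thru γ l)
    (hx : ∀ l ∈ R, ∀ l' ∈ R, l ≠ l' → ∀ z ∈ interior K, af l z = 0 → af l' z ≠ 0)
    {l : ℂ × ℝ} (hl : Thru γ l) (A : 0 < af l (γ 0))
    (hy : ∀ l' ∈ R, ∀ z ∈ interior K, af l z = 0 → af l' z ≠ 0) :
    ∃ f : ℂ ≃ₜ ℂ, Supp f K ∧ f '' (γ '' Icc 0 1) = segment ℝ (γ 0) (γ 1) ∧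
      (∀ l ∈ R, ∀ z, af l (f z) = 0 ↔ af l z = 0) ∧ ∀ z, af l (f z) = 0 ↔ af l z = 0 := by
  obtain ⟨t₀, ht, e0, hl⟩ := hl
  have h2 : ∀ t ∈ Ioc t₀ 1, af l (γ t) < 0 := fun t u =>
    neg_of_mul_neg_right (hl 0 ⟨le_rfl, ht.1⟩ t u) A.le
  have B := h2 1 ⟨ht.2, le_rfl⟩
  have h1 : ∀ t ∈ Ico (0 : ℝ) t₀, 0 < af l (γ t) := fun t u => by
    have := hl t u 1 ⟨ht.2, le_rfl⟩
    by_contra c
    have := mul_nonneg_of_nonpos_of_nonpos (not_lt.1 c) B.le
    linarith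
  have hAB : 0 < af l (γ 0) - af l (γ 1) := by linarith
  set s := af l (γ 0) / (af l (γ 0) - af l (γ 1)) with hs
  have s1 : s ∈ Ioo (0 : ℝ) 1 := ⟨div_pos A hAB, (div_lt_one hAB).2 (by linarith)⟩
  have hq : AffineMap.lineMap (γ 0) (γ 1) s ∈ interior K := hch (by
    rw [openSegment_eq_image_lineMap]
    exact ⟨s, s1, rfl⟩)
  have eq : af l (AffineMap.lineMap (γ 0) (γ 1) s) = 0 := by
    rw [AffineMap.lineMap_apply_module', add_comm, Two1_add, hs]
    field_simp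
    ring
  obtain ⟨k, k1, k2, k3, k4⟩ := Two1_slide hKc (h.mid t₀ ht) hq e0 eq hy
  have k0 : k (γ 0) = γ 0 := k1 _ h.n0
  have k5 : k (γ 1) = γ 1 := k1 _ h.n1
  obtain ⟨f, f1, f2, f3, f4⟩ := Two1_halves ih hK hKc (h.map k1) (l := l) (t₀ := t₀) (s := s)
    (fun l' hl' => by
      obtain ⟨t₁, u1, u2, u3⟩ := hR l' hl'
      refine ⟨t₁, u1, ?_, fun t v t' v' => ?_⟩
      · obtain ⟨c, -, w⟩ := k4 l' hl' (γ t₁)
        simp only [w, u2, mul_zero]
      · obtain ⟨c, c0, w⟩ := k4 l' hl' (γ t)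
        obtain ⟨c', c0', w'⟩ := k4 l' hl' (γ t')
        simp only [w, w']
        have := mul_neg_of_pos_of_neg (mul_pos c0 c0') (u3 t v t' v')
        linarith)
    hx ht (Ioo_subset_Icc_self s1) (by simp only [k0, k5, k2]) (by simp only [k3, e0])
    (fun t u => by simpa only [k3] using h1 t u) (fun t u => by simpa only [k3] using h2 t u)
  refine ⟨f * k, f1.mul k1, ?_, fun l' hl' z => (f3 l' hl' (k z)).trans ?_,
    fun z => (f4 (k z)).trans (by rw [k3])⟩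
  · have : ⇑(f * k) = f ∘ k := rfl
    rw [this, image_comp, image_image k γ, f2]
    simp only [k0, k5]
  · obtain ⟨c, c0, w⟩ := k4 l' hl' z
    rw [w, mul_eq_zero, or_iff_right c0.ne']

theorem Two1_all (R : Finset (ℂ × ℝ)) : Two1_P R := by
  classical
  induction R using Finset.strongInduction with
  | H R ih =>
  intro K γ hK hKc h hch hR hx
  rcases R.eq_empty_or_nonempty with rfl | ⟨l₀, hl₀⟩
  · obtain ⟨f, f1, f2⟩ := Two1_base hK hKc h hch
    exact ⟨f, f1, f2, fun l hl => absurd hl (Finset.notMem_empty l)⟩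
  have fin : ∀ l ∈ R, ∀ m, (m = l ∨ m = -l) →
      (∃ f : ℂ ≃ₜ ℂ, Supp f K ∧ f '' (γ '' Icc 0 1) = segment ℝ (γ 0) (γ 1) ∧
        (∀ l' ∈ R.erase l, ∀ z, af l' (f z) = 0 ↔ af l' z = 0) ∧
          ∀ z, af m (f z) = 0 ↔ af m z = 0) →
      ∃ f : ℂ ≃ₜ ℂ, Supp f K ∧ f '' (γ '' Icc 0 1) = segment ℝ (γ 0) (γ 1) ∧
        ∀ l ∈ R, ∀ z, af l (f z) = 0 ↔ af l z = 0 := by
    rintro l - m hm ⟨f, f1, f2, f3, f4⟩
    refine ⟨f, f1, f2, fun l' hl' z => ?_⟩
    by_cases c : l' = l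
    · subst c
      rcases hm with rfl | rfl
      · exact f4 z
      · simpa only [Two1_neg, neg_eq_zero] using f4 z
    · exact f3 l' (Finset.mem_erase.2 ⟨c, hl'⟩) z
  by_cases hM : ∃ l ∈ R, Miss γ l
  · obtain ⟨l, hl, hm⟩ := hM
    have ih' := ih _ (Finset.erase_ssubset hl)
    have hR' : ∀ l' ∈ R.erase l, Miss γ l' ∨ Thru γ l' := fun l' u =>
      hR l' (Finset.mem_of_mem_erase u)
    have hx' := fun l1 (u1 : l1 ∈ R.erase l) l2 (u2 : l2 ∈ R.erase l) =>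
      hx l1 (Finset.mem_of_mem_erase u1) l2 (Finset.mem_of_mem_erase u2)
    rcases lt_or_gt_of_ne (hm.1 (1 / 2) (by constructor <;> norm_num)) with c | c
    · refine fin l hl (-l) (Or.inr rfl) (Two1_miss ih' hK hKc h hch hR' hx' ?_ ?_)
      · simpa only [Miss, Two1_neg, neg_eq_zero, ne_eq] using hm
      · rw [Two1_neg]
        exact neg_pos.2 c
    · exact fin l hl l (Or.inl rfl) (Two1_miss ih' hK hKc h hch hR' hx' hm c)
  · have hT : ∀ l ∈ R, Thru γ l := fun l hl => (hR l hl).resolve_left fun c => hM ⟨l, hl, c⟩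
    have ih' := ih _ (Finset.erase_ssubset hl₀)
    have hR' : ∀ l' ∈ R.erase l₀, Thru γ l' := fun l' u => hT l' (Finset.mem_of_mem_erase u)
    have hx' := fun l1 (u1 : l1 ∈ R.erase l₀) l2 (u2 : l2 ∈ R.erase l₀) ne =>
      hx l1 (Finset.mem_of_mem_erase u1) l2 (Finset.mem_of_mem_erase u2) ne (hR' l1 u1) (hR' l2 u2)
    have hy := fun l' (u : l' ∈ R.erase l₀) =>
      hx l₀ hl₀ l' (Finset.mem_of_mem_erase u) (Finset.ne_of_mem_erase u).symm (hT l₀ hl₀) (hR' l' u)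
    have hne : af l₀ (γ 0) ≠ 0 := fun c => by
      obtain ⟨t₀, ht, -, u⟩ := hT l₀ hl₀
      exact ht.1.ne (Two1_thru_ne ht u (by simp) c)
    rcases lt_or_gt_of_ne hne with c | c
    · refine fin l₀ hl₀ (-l₀) (Or.inr rfl) (Two1_thru ih' hK hKc h hch hR' hx' ?_ ?_ ?_)
      · simpa only [Thru, Two1_neg, neg_eq_zero, neg_mul_neg] using hT l₀ hl₀
      · rw [Two1_neg]
        exact neg_pos.2 c
      · simpa only [Two1_neg, neg_eq_zero] using hy
    · exact fin l₀ hl₀ l₀ (Or.inl rfl) (Two1_thru ih' hK hKc h hch hR' hx' (hT l₀ hl₀) c hy)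

/-- Straightening one arc while keeping finitely many lines.
Hint: induction on the number of lines, for all `K` and `γ`. No line: `arc_lemma` with
`t ↦ AffineMap.lineMap (γ 0) (γ 1) t`. If some line is missed, cut `K` by the closed half plane
that contains the arc and drop the line. If all lines are crossed, take one, let `p` be the
crossing point and `q` the point of the chord on the line, `slide` `p` to `q` inside a small
`cthickening` of `segment ℝ p q` (it is convex, compact, inside `interior K`, and misses the other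
lines by `hx`; the slide does not change the value of `af l` and keeps the signs of the others),
then treat the two halves of the arc in the two halves of `K` and compose. -/
theorem arc_lines (R : Finset (ℂ × ℝ)) {K : Set ℂ} (hK : IsCompact K) (hKc : Convex ℝ K)
    {γ : ℝ → ℂ} (h : PArc K γ) (hch : openSegment ℝ (γ 0) (γ 1) ⊆ interior K)
    (hR : ∀ l ∈ R, Miss γ l ∨ Thru γ l)
    (hx : ∀ l ∈ R, ∀ l' ∈ R, l ≠ l' → Thru γ l → Thru γ l' →
      ∀ z ∈ interior K, af l z = 0 → af l' z ≠ 0) :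
    ∃ f : ℂ ≃ₜ ℂ, Supp f K ∧ f '' (γ '' Icc 0 1) = segment ℝ (γ 0) (γ 1) ∧
      ∀ l ∈ R, ∀ z, af l (f z) = 0 ↔ af l z = 0 :=
  Two1_all R K γ hK hKc h hch hR hx

end Pool.Agent.MP_4a6971_al.H83

/-!
Simultaneous straightening of a two-coloured system of arcs.
-/

namespace Pool.Agent.MP_4a6971_al.H83

open Set Topology Metric

theorem Two_map {Z Z' ι : Type} [TopologicalSpace Z] [TopologicalSpace Z'] {φ : Z → Z'}
    (hφ : IsOpenEmbedding φ) {K : Set Z} {K' : Set Z'} {γ : ι → ℝ → Z} {col : ι → ZMod 2}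
    (h : TwoCol K γ col) (ha : ∀ i, PArc K' fun t => φ (γ i t)) :
    TwoCol K' (fun i t => φ (γ i t)) col where
  arc := ha
  same := fun i j e => (h.same i j e).imp
    (fun a => by rw [← image_image φ (γ i), ← image_image φ (γ j), a])
    fun a => ⟨fun t ht t' ht' b => a.1 t ht t' ht' (hφ.injective b), fun b => a.2
      ((image_eq_image hφ.injective).1 (by rw [image_pair, image_pair]; exact b))⟩
  once := fun i j e => by
    rw [← image_image φ (γ i), ← image_image φ (γ j), ← image_inter hφ.injective]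
    exact (h.once i j e).image φ
  cross := fun i j e t ht hm => by
    rw [← image_image φ (γ j)] at hm ⊢
    obtain ⟨N, hN, hc⟩ := h.cross i j e t ht (hφ.injective.mem_set_image.1 hm)
    exact ⟨φ '' N, hφ.isOpenMap.image_mem_nhds hN, fun S hS hp => hc (φ ⁻¹' S) (fun z hz =>
      ⟨hφ.injective.mem_set_image.1 (hS hz).1, fun b => (hS hz).2 (mem_image_of_mem φ b)⟩)
      (hp.preimage_of_isOpenMap hφ.injective hφ.isOpenMap
        fun z hz => image_subset_range _ _ (hS hz).1)⟩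

theorem Two_mid {Z : Type} [TopologicalSpace Z] {K : Set Z} {γ : ℝ → Z} (h : PArc K γ) {z : Z}
    (hz : z ∈ γ '' Icc 0 1) (hi : z ∈ interior K) : ∃ t ∈ Ioo (0 : ℝ) 1, γ t = z := by
  obtain ⟨t, ht, rfl⟩ := hz
  exact ⟨t, ⟨ht.1.lt_of_ne fun e => h.n0 (e ▸ hi), ht.2.lt_of_ne fun e => h.n1 (e ▸ hi)⟩, rfl⟩

theorem Two_ends {Z : Type} [TopologicalSpace Z] {K : Set Z} {γ : ℝ → Z} (h : PArc K γ) :
    γ '' Icc 0 1 \ interior K = {γ 0, γ 1} := by
  refine Subset.antisymm ?_ (pair_subset ⟨⟨0, by simp, rfl⟩, h.n0⟩ ⟨⟨1, by simp, rfl⟩, h.n1⟩)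
  rintro _ ⟨⟨t, ht, rfl⟩, hn⟩
  rcases ht.1.eq_or_lt with rfl | a
  · exact Or.inl rfl
  rcases ht.2.eq_or_lt with rfl | b
  · exact Or.inr rfl
  exact absurd (h.mid t ⟨a, b⟩) hn

theorem Two_line {K : Set ℂ} (hKc : StrictConvex ℝ K) {a b : ℂ} (hab : a ≠ b) (ha : a ∈ K)
    (ha' : a ∉ interior K) (hb : b ∈ K) (hb' : b ∉ interior K) :
    ∃ l, ∀ z ∈ K, af l z = 0 ↔ z ∈ segment ℝ a b := by
  have hd : b - a ≠ 0 := sub_ne_zero.2 hab.symm
  have e : ∀ z, af (Complex.I / (b - a), (Complex.I / (b - a) * a).re) z =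
      -((z - a) / (b - a)).im := fun z => by
    rw [af, ← Complex.sub_re, ← Complex.I_mul_re]
    congr 1
    ring
  refine ⟨(Complex.I / (b - a), (Complex.I / (b - a) * a).re), fun z hz => ?_⟩
  rw [e, neg_eq_zero, segment_eq_image']
  constructor
  · intro h
    have h1 : ((((z - a) / (b - a)).re : ℝ) : ℂ) = (z - a) / (b - a) :=
      Complex.ext rfl (by rw [h, Complex.ofReal_im])
    generalize ((z - a) / (b - a)).re = s at h1
    have h2 : z = a + s * (b - a) := by rw [h1, div_mul_cancel₀ _ hd, add_sub_cancel]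
    refine ⟨s, ⟨not_lt.1 fun hs => ha' ?_, not_lt.1 fun hs => hb' ?_⟩, h2.symm⟩
    · have h3 : (1 - s : ℝ) ≠ 0 := by linarith
      have h4 : (1 - s : ℂ) ≠ 0 := by exact_mod_cast h3
      refine hKc.openSegment_subset hz hb (fun e' => ?_) ⟨1 / (1 - s), -s / (1 - s),
        by apply div_pos <;> linarith, by apply div_pos <;> linarith, by field_simp; ring, ?_⟩
      · refine hd ((mul_eq_zero.1 (?_ : (1 - s : ℂ) * (b - a) = 0)).resolve_left h4)
        linear_combination h2 - e'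
      · simp only [Complex.real_smul]
        push_cast
        field_simp
        linear_combination h2
    · have h3 : s ≠ 0 := by linarith
      have h4 : (s : ℂ) ≠ 0 := by exact_mod_cast h3
      refine hKc.openSegment_subset ha hz (fun e' => ?_) ⟨(s - 1) / s, 1 / s,
        by apply div_pos <;> linarith, by apply div_pos <;> linarith, by field_simp; ring, ?_⟩
      · refine hd ((mul_eq_zero.1 (?_ : (s : ℂ) * (b - a) = 0)).resolve_left h4)
        linear_combination -h2 - e'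
      · simp only [Complex.real_smul]
        push_cast
        field_simp
        linear_combination h2
  · rintro ⟨s, -, rfl⟩
    simp only [Complex.real_smul]
    rw [add_sub_cancel_left, mul_div_cancel_right₀ _ hd, Complex.ofReal_im]

theorem Two_sign {φ : ℝ → ℝ} {A : Set ℝ} (hA : IsPreconnected A) (hc : ContinuousOn φ A)
    (h0 : ∀ t ∈ A, φ t ≠ 0) {a b : ℝ} (ha : a ∈ A) (hb : b ∈ A) (h : 0 < φ a) : 0 < φ b := by
  by_contra hn
  obtain ⟨t, ht, e⟩ := hA.intermediate_value hb ha hc ⟨not_lt.1 hn, h.le⟩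
  exact h0 t ht e

theorem Two_thru {K D : Set ℂ} {γ : ℝ → ℂ} (h : PArc K γ) {l : ℂ × ℝ}
    (hl : ∀ z ∈ K, af l z = 0 ↔ z ∈ D) (hD : D ⊆ K) (h1 : (γ '' Icc 0 1 ∩ D).Subsingleton)
    {t₀ : ℝ} (ht₀ : t₀ ∈ Ioo (0 : ℝ) 1) (hm : γ t₀ ∈ D) (hc : Cross γ D t₀) : Thru γ l := by
  have ht₁ := Ioo_subset_Icc_self ht₀
  have hne : ∀ t ∈ Icc (0 : ℝ) 1, t ≠ t₀ → af l (γ t) ≠ 0 := fun t ht hn e =>
    hn (h.inj ht ht₁ (h1 ⟨mem_image_of_mem γ ht, (hl _ (h.mem ht)).1 e⟩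
      ⟨mem_image_of_mem γ ht₁, hm⟩))
  have s1 : Ico 0 t₀ ⊆ Icc (0 : ℝ) 1 := fun t ht => ⟨ht.1, ht.2.le.trans ht₁.2⟩
  have s2 : Ioc t₀ 1 ⊆ Icc (0 : ℝ) 1 := fun t ht => ⟨ht₁.1.trans ht.1.le, ht.2⟩
  refine ⟨t₀, ht₀, (hl _ (hD hm)).2 hm, fun t ht t' ht' => not_le.1 fun hp => ?_⟩
  have n1 := hne t (s1 ht) ht.2.ne
  have hp' : 0 < af l (γ t) * af l (γ t') :=
    hp.lt_of_ne (mul_ne_zero n1 (hne t' (s2 ht') ht'.1.ne')).symm
  have hp0 : 0 < af l (γ t) * af l (γ t) := mul_self_pos.2 n1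
  generalize hσ : af l (γ t) = σ at hp' n1
  have hp1 : 0 < σ * af l (γ t) := by rw [hσ]; exact mul_self_pos.2 n1
  have ca : Continuous (af l) := by unfold af; fun_prop
  have cφ : ContinuousOn (fun u => σ * af l (γ u)) (Icc 0 1) :=
    continuousOn_const.mul (ca.comp_continuousOn h.cont)
  obtain ⟨N, hN, hc⟩ := hc
  obtain ⟨ε, hε, hB⟩ := Metric.mem_nhds_iff.1 hN
  have hev : ∀ᶠ u in 𝓝 t₀, γ u ∈ ball (γ t₀) ε :=
    (h.cont.continuousAt (Icc_mem_nhds ht₀.1 ht₀.2)).eventually (ball_mem_nhds _ hε)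
  obtain ⟨u, hu, hu'⟩ := ((hev.filter_mono nhdsWithin_le_nhds).and
    (Ico_mem_nhdsLT ht₀.1)).exists
  obtain ⟨v, hv, hv'⟩ := ((hev.filter_mono nhdsWithin_le_nhds).and
    (Ioc_mem_nhdsGT ht₀.2)).exists
  have hcv : Convex ℝ {z : ℂ | 0 < σ * af l z} := fun x hx y hy a b ha hb hab => by
    have e : σ * af l (a • x + b • y) = a * (σ * af l x) + b * (σ * af l y) := by
      simp only [af, Complex.real_smul, Complex.mul_re, Complex.add_re, Complex.add_im,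
        Complex.mul_im, Complex.ofReal_re, Complex.ofReal_im]
      linear_combination σ * l.2 * hab
    change 0 < σ * af l (a • x + b • y)
    rw [e]
    exact (convex_Ioi (0 : ℝ)) hx hy ha hb hab
  refine hc (ball (γ t₀) ε ∩ {z | 0 < σ * af l z}) (fun z hz => ⟨hB hz.1, fun hz' => ?_⟩)
    ((convex_ball _ _).inter hcv).isPreconnected u hu' v hv'
    ⟨hu, Two_sign isPreconnected_Ico (cφ.mono s1)
      (fun w hw => mul_ne_zero n1 (hne w (s1 hw) hw.2.ne)) ht hu' hp1⟩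
    ⟨hv, Two_sign isPreconnected_Ioc (cφ.mono s2)
      (fun w hw => mul_ne_zero n1 (hne w (s2 hw) hw.1.ne')) ht' hv' hp'⟩
  have := hz.2
  rw [mem_ofPred_eq, (hl z (hD hz')).2 hz', mul_zero] at this
  exact lt_irrefl _ this

theorem Two_step {ι : Type} {K : Set ℂ} (hK : IsCompact K) (hKc : StrictConvex ℝ K)
    {γ : ι → ℝ → ℂ} {col : ι → ZMod 2} (h : TwoCol K γ col) {s : Set ι} (hs : s.Finite)
    (h1 : ∀ j ∈ s, γ j '' Icc 0 1 = segment ℝ (γ j 0) (γ j 1)) (i : ι) :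
    ∃ f : ℂ ≃ₜ ℂ, Supp f K ∧
      ∀ j ∈ insert i s, f '' (γ j '' Icc 0 1) = segment ℝ (γ j 0) (γ j 1) := by
  classical
  by_cases hA : ∃ j ∈ s, γ i '' Icc 0 1 = γ j '' Icc 0 1
  · obtain ⟨j, hj, e⟩ := hA
    refine ⟨1, Supp.refl K, forall_mem_insert.2 ⟨(image_id _).trans ?_,
      fun k hk => (image_id _).trans (h1 k hk)⟩⟩
    rw [← convexHull_pair, ← Two_ends (h.arc i), e, Two_ends (h.arc j), convexHull_pair, h1 j hj]
  push Not at hA
  let L : Set ℂ → ℂ × ℝ := fun C => Classical.epsilon fun l => ∀ z ∈ K, af l z = 0 ↔ z ∈ C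
  have hL : ∀ j ∈ s, ∀ z ∈ K, af (L (γ j '' Icc 0 1)) z = 0 ↔ z ∈ γ j '' Icc 0 1 := fun j hj =>
    Classical.epsilon_spec (p := fun l => ∀ z ∈ K, af l z = 0 ↔ z ∈ γ j '' Icc 0 1) (by
      rw [h1 j hj]
      exact Two_line hKc (h.arc j).ne (h.arc j).m0 (h.arc j).n0 (h.arc j).m1 (h.arc j).n1)
  have hsub : ∀ j, γ j '' Icc 0 1 ⊆ K := fun j => by
    rintro _ ⟨t, ht, rfl⟩
    exact (h.arc j).mem ht
  have miss : ∀ j ∈ s, col i = col j → Miss (γ i) (L (γ j '' Icc 0 1)) := fun j hj e => by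
    obtain ⟨a, b⟩ := (h.same i j e).resolve_left (hA j hj)
    refine ⟨fun t ht e' => ?_, fun e' => b ?_⟩
    · have hi := (h.arc i).mid t ht
      obtain ⟨t', ht', e2⟩ := Two_mid (h.arc j) ((hL j hj _ (interior_subset hi)).1 e') hi
      exact a t ht t' ht' e2.symm
    · have a0 : γ i 0 ∈ ({γ j 0, γ j 1} : Set ℂ) := Two_ends (h.arc j) ▸
        ⟨(hL j hj _ (h.arc i).m0).1 e'.1, (h.arc i).n0⟩
      have a1 : γ i 1 ∈ ({γ j 0, γ j 1} : Set ℂ) := Two_ends (h.arc j) ▸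
        ⟨(hL j hj _ (h.arc i).m1).1 e'.2, (h.arc i).n1⟩
      have hn := (h.arc i).ne
      rcases a0 with a0 | a0 <;> rcases a1 with a1 | a1
      · exact absurd (a0.trans a1.symm) hn
      · rw [a0, a1]
      · rw [a0, a1, pair_comm]
      · exact absurd (a0.trans a1.symm) hn
  have thru : ∀ j ∈ s, Thru (γ i) (L (γ j '' Icc 0 1)) → col i ≠ col j := fun j hj ht e => by
    obtain ⟨t, ht, e', -⟩ := ht
    exact (miss j hj e).1 t ht e'
  obtain ⟨f, f1, f2, f3⟩ := arc_lines (hs.toFinset.image fun j => L (γ j '' Icc 0 1)) hK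
    hKc.convex (h.arc i) (hKc.openSegment_subset (h.arc i).m0 (h.arc i).m1 (h.arc i).ne)
    (fun l hl => by
      obtain ⟨j, hj, rfl⟩ := Finset.mem_image.1 hl
      rw [hs.mem_toFinset] at hj
      by_cases e : col i = col j
      · exact Or.inl (miss j hj e)
      by_cases e' : ∃ t ∈ Ioo (0 : ℝ) 1, γ i t ∈ γ j '' Icc 0 1
      · obtain ⟨t, ht, hm⟩ := e'
        exact Or.inr (Two_thru (h.arc i) (hL j hj) (hsub j) (h.once i j e) ht hm
          (h.cross i j e t ht hm))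
      · refine Or.inl ⟨fun t ht e2 => e' ⟨t, ht,
          (hL j hj _ (interior_subset ((h.arc i).mid t ht))).1 e2⟩, fun e2 => (h.arc i).ne ?_⟩
        exact h.once i j e ⟨⟨0, by simp, rfl⟩, (hL j hj _ (h.arc i).m0).1 e2.1⟩
          ⟨⟨1, by simp, rfl⟩, (hL j hj _ (h.arc i).m1).1 e2.2⟩)
    (fun l hl l' hl' hne t1 t2 z hz e1 e2 => by
      obtain ⟨j, hj, rfl⟩ := Finset.mem_image.1 hl
      obtain ⟨k, hk, rfl⟩ := Finset.mem_image.1 hl'
      rw [hs.mem_toFinset] at hj hk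
      have e : col j = col k := by
        have a := thru j hj t1
        have b := thru k hk t2
        revert a b
        generalize col i = x, col j = y, col k = w
        revert x y w
        decide
      obtain ⟨t, ht, e3⟩ := Two_mid (h.arc j) ((hL j hj z (interior_subset hz)).1 e1) hz
      obtain ⟨t', ht', e4⟩ := Two_mid (h.arc k) ((hL k hk z (interior_subset hz)).1 e2) hz
      exact ((h.same j k e).resolve_left fun e5 => hne (by rw [e5])).1 t ht t' ht'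
        (e3.trans e4.symm))
  refine ⟨f, f1, forall_mem_insert.2 ⟨f2, fun j hj => ?_⟩⟩
  have f4 := f3 _ (Finset.mem_image_of_mem _ (hs.mem_toFinset.2 hj))
  have e : f ⁻¹' (γ j '' Icc 0 1) = γ j '' Icc 0 1 := Set.ext fun z =>
    ⟨fun hz => (hL j hj z (f1.mem.1 (hsub j hz))).1 ((f4 z).1 ((hL j hj _ (hsub j hz)).2 hz)),
      fun hz => (hL j hj _ (f1.mem.2 (hsub j hz))).1 ((f4 z).2 ((hL j hj z (hsub j hz)).2 hz))⟩
  rw [← h1 j hj]
  conv_lhs => rw [← e]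
  exact f.surjective.image_preimage _

/-- Straightening all arcs. -/
theorem two_colour {ι : Type} [Finite ι] {K : Set ℂ} (hK : IsCompact K) (hKc : StrictConvex ℝ K)
    {γ : ι → ℝ → ℂ} {col : ι → ZMod 2} (h : TwoCol K γ col) :
    ∃ f : ℂ ≃ₜ ℂ, Supp f K ∧ ∀ i, f '' (γ i '' Icc 0 1) = segment ℝ (γ i 0) (γ i 1) := by
  have key : ∀ s : Set ι, s.Finite →
      ∃ f : ℂ ≃ₜ ℂ, Supp f K ∧ ∀ i ∈ s, f '' (γ i '' Icc 0 1) = segment ℝ (γ i 0) (γ i 1) := by
    intro s hs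
    induction s, hs using Set.Finite.induction_on with
    | empty => exact ⟨1, Supp.refl K, fun _ hi => hi.elim⟩
    | @insert i s _ hs ih =>
      obtain ⟨f, f1, f2⟩ := ih
      have e0 : ∀ j, f (γ j 0) = γ j 0 := fun j => f1 _ (h.arc j).n0
      have e1 : ∀ j, f (γ j 1) = γ j 1 := fun j => f1 _ (h.arc j).n1
      obtain ⟨g, g1, g2⟩ := Two_step hK hKc
        (Two_map f.isOpenEmbedding h fun j => (h.arc j).map f1) hs
        (fun j hj => by rw [← image_image f (γ j), f2 j hj, e0, e1]) i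
      refine ⟨g * f, g1.mul f1, fun j hj => ?_⟩
      have := g2 j hj
      rw [e0, e1, image_image] at this
      rw [image_image]
      exact this
  obtain ⟨f, f1, f2⟩ := key univ finite_univ
  exact ⟨f, f1, fun i => f2 i (mem_univ i)⟩

end Pool.Agent.MP_4a6971_al.H83
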