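import Pool.Agent.MP_4a6971_al.H83.Klein
import Pool.Agent.MP_4a6971_al.H83.Two
import Pool.Agent.MP_4a6971_al.H83.Geo

/-!
The plane lemmas in the hyperbolic plane, and equivariant moves.
-/

namespace Pool.Agent.MP_4a6971_al.H83

open Set Topology H66

theorem Trans1_int {K : Set X} {x : X} : kl x ∈ interior (kl '' K) ↔ x ∈ interior K := by
  rw [← mem_preimage, kl_emb.isOpenMap.preimage_interior_eq_interior_preimage kl_emb.continuous,
    kl_emb.injective.preimage_image]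

theorem Trans1_lift {K : Set X} {h : ℂ ≃ₜ ℂ} (hs : Supp h (kl '' K)) :
    ∃ F : X → X, Continuous F ∧ ∀ x, kl (F x) = h (kl x) := by
  have e : ∀ x, ∃ y, kl y = h (kl x) := fun x => by
    by_cases a : kl x ∈ kl '' K
    · exact (hs.mem.2 a).imp fun _ b => b.2
    · exact ⟨x, (hs _ fun b => a (interior_subset b)).symm⟩
  choose F hF using e
  exact ⟨F, kl_emb.isInducing.continuous_iff.2
    ((h.continuous.comp kl_emb.continuous).congr fun x => (hF x).symm), hF⟩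

theorem Trans1_ext {K : Set X} (hK : IsCompact K) {H : X ≃ₜ X} (hs : Supp H K) :
    ∃ f : ℂ → ℂ, Continuous f ∧ (∀ x, f (kl x) = kl (H x)) ∧ ∀ z, z ∉ range kl → f z = z := by
  have e1 : ∀ x, Function.extend kl (kl ∘ H) id (kl x) = kl (H x) := fun x =>
    kl_emb.injective.extend_apply _ _ x
  have e2 : ∀ z, z ∉ range kl → Function.extend kl (kl ∘ H) id z = z := fun z hz =>
    Function.extend_apply' _ _ z hz
  refine ⟨_, continuous_iff_continuousAt.2 fun z => ?_, e1, e2⟩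
  by_cases a : z ∈ range kl
  · obtain ⟨x, rfl⟩ := a
    refine kl_emb.continuousAt_iff.1 (Continuous.continuousAt ?_)
    exact (kl_emb.continuous.comp H.continuous).congr fun x => (e1 x).symm
  · refine continuousAt_id.congr (Filter.eventually_of_mem
      ((hK.image kl_emb.continuous).isClosed.isOpen_compl.mem_nhds
        fun b => a (image_subset_range _ _ b)) fun w hw => ?_)
    by_cases b : w ∈ range kl
    · obtain ⟨x, rfl⟩ := b
      rw [e1, hs x fun c => hw (mem_image_of_mem kl (interior_subset c)), id]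
    · exact (e2 w b).symm

theorem transport {K : Set X} {h : ℂ ≃ₜ ℂ} (hs : Supp h (kl '' K)) :
    ∃ H : X ≃ₜ X, Supp H K ∧ ∀ x, kl (H x) = h (kl x) := by
  obtain ⟨F, a, b⟩ := Trans1_lift hs
  obtain ⟨F', a', b'⟩ := Trans1_lift hs.inv
  exact ⟨⟨⟨F, F', fun x => kl_emb.injective (by rw [b', b]; exact h.symm_apply_apply _),
    fun x => kl_emb.injective (by rw [b, b']; exact h.apply_symm_apply _)⟩, a, a'⟩,
    fun x hx => kl_emb.injective ((b x).trans (hs _ fun c => hx (Trans1_int.1 c))), b⟩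

theorem transport' {K : Set X} (hK : IsCompact K) {H : X ≃ₜ X} (hs : Supp H K) :
    ∃ h : ℂ ≃ₜ ℂ, Supp h (kl '' K) ∧ ∀ x, kl (H x) = h (kl x) := by
  obtain ⟨f, a, b, c⟩ := Trans1_ext hK hs
  obtain ⟨f', a', b', c'⟩ := Trans1_ext hK hs.inv
  refine ⟨⟨⟨f, f', fun z => ?_, fun z => ?_⟩, a, a'⟩, fun z hz => ?_, fun x => (b x).symm⟩
  · by_cases e : z ∈ range kl
    · obtain ⟨x, rfl⟩ := e
      rw [b, b']
      exact congrArg kl (H.symm_apply_apply x)
    · rw [c z e, c' z e]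
  · by_cases e : z ∈ range kl
    · obtain ⟨x, rfl⟩ := e
      rw [b', b]
      exact congrArg kl (H.apply_symm_apply x)
    · rw [c' z e, c z e]
  · by_cases e : z ∈ range kl
    · obtain ⟨x, rfl⟩ := e
      exact (b x).trans (congrArg kl (hs x fun d => hz (Trans1_int.2 d)))
    · exact c z e

theorem PArc.kl {K : Set X} {γ : ℝ → X} (h : PArc K γ) : PArc (kl '' K) fun t => kl (γ t) :=
  ⟨kl_emb.continuous.comp_continuousOn h.cont, kl_emb.injective.comp_injOn h.inj,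
    mem_image_of_mem _ h.m0, fun a => h.n0 (Trans1_int.1 a), mem_image_of_mem _ h.m1,
    fun a => h.n1 (Trans1_int.1 a), fun t ht => Trans1_int.2 (h.mid t ht)⟩

theorem arcX {K : Set X} (hK : IsCompact K) (hKc : Cvx K) {γ₁ γ₂ : ℝ → X} (h₁ : PArc K γ₁)
    (h₂ : PArc K γ₂) (e0 : γ₁ 0 = γ₂ 0) (e1 : γ₁ 1 = γ₂ 1) :
    ∃ h : X ≃ₜ X, Supp h K ∧ ∀ t ∈ Icc (0 : ℝ) 1, h (γ₁ t) = γ₂ t := by
  obtain ⟨h, a, b⟩ := arc_lemma (hK.image kl_emb.continuous) (cvx_iff.1 hKc) h₁.kl h₂.kl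
    (congrArg kl e0) (congrArg kl e1)
  obtain ⟨H, c, d⟩ := transport a
  exact ⟨H, c, fun t ht => kl_emb.injective ((d _).trans (b t ht))⟩

theorem alexX {K : Set X} (hK : IsCompact K) (hKc : Cvx K) {h : X ≃ₜ X} (hs : Supp h K) :
    ∃ H : ℝ → X ≃ₜ X, Continuous (fun p : ℝ × X => H p.1 p.2) ∧ (∀ t, Supp (H t) K) ∧
      H 0 = 1 ∧ H 1 = h := by
  obtain ⟨f, a, b⟩ := transport' hK hs
  obtain ⟨G, c, d, e0, e1⟩ := alexander (hK.image kl_emb.continuous) (cvx_iff.1 hKc) a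
  choose H h1 h2 using fun t => transport (d t)
  refine ⟨H, kl_emb.isInducing.continuous_iff.2 ((c.comp (continuous_fst.prodMk
    (kl_emb.continuous.comp continuous_snd))).congr fun p => (h2 p.1 p.2).symm), h1,
    Homeomorph.ext fun x => kl_emb.injective ?_, Homeomorph.ext fun x => kl_emb.injective ?_⟩
  · rw [h2, e0]
    rfl
  · rw [h2, e1, b]

theorem slideX {K : Set X} (hK : IsCompact K) (hKc : Cvx K) {p q : X} (hp : p ∈ interior K)
    (hq : q ∈ interior K) : ∃ h : X ≃ₜ X, Supp h K ∧ h p = q ∧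
      ∀ N, bf N p = 0 → bf N q = 0 → ∀ x, bf N (h x) = 0 ↔ bf N x = 0 := by
  obtain ⟨h, a, b, c⟩ := slide (hK.image kl_emb.continuous) (cvx_iff.1 hKc) (Trans1_int.2 hp)
    (Trans1_int.2 hq)
  obtain ⟨H, d, e⟩ := transport a
  refine ⟨H, d, kl_emb.injective ((e p).trans b), fun N h1 h2 x => ?_⟩
  obtain ⟨u, r, hN⟩ := bf_kl N
  have key : ∀ y, bf N y = 0 ↔ (u * kl y).re = r := fun y => by
    rw [hN, mul_eq_zero, sub_eq_zero, or_iff_right (zero_lt_one.trans_le (one_le_cd _ _)).ne']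
  obtain ⟨s, hs⟩ := c (kl x)
  rw [key] at h1 h2
  rw [key, key, e, hs, mul_add, mul_smul_comm, mul_sub, Complex.add_re, Complex.smul_re,
    Complex.sub_re, h1, h2, sub_self, smul_zero, add_zero]

theorem twoX {ι : Type} [Finite ι] {c : X} {R : ℝ} {γ : ι → ℝ → X} {col : ι → ZMod 2}
    (h : TwoCol (Dsc c R) γ col) :
    ∃ f : X ≃ₜ X, Supp f (Dsc c R) ∧ ∀ i, f '' (γ i '' Icc 0 1) = seg (γ i 0) (γ i 1) := by
  obtain ⟨f, a, b⟩ := two_colour ((isCompact_Dsc c R).image kl_emb.continuous)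
    (strictConvex_Dsc c R) (Two_map kl_emb h fun i => (h.arc i).kl)
  obtain ⟨F, d, e⟩ := transport a
  refine ⟨F, d, fun i => (image_eq_image kl_emb.injective).1 ?_⟩
  rw [kl_seg, ← b i]
  simp only [image_image, e]

theorem Pl.mono {S S' : Set X} (h : Pl S) (h' : S' ⊆ S) : Pl S' := fun C hC =>
  (h C hC).imp fun _ a => ⟨a.1, fun y hy => a.2 y ⟨h' hy.1, hy.2⟩⟩

theorem Pl.union {S S' : Set X} (h : Pl S) (h' : Pl S') : Pl (S ∪ S') := by
  classical
  intro C hC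
  obtain ⟨t, a, b⟩ := h C hC
  obtain ⟨t', a', b'⟩ := h' C hC
  refine ⟨t ∪ t', fun N hN => (Finset.mem_union.1 hN).elim (a N) (a' N), fun y hy => ?_⟩
  rcases hy.1 with c | c
  · exact (b y ⟨c, hy.2⟩).imp fun _ d => ⟨Finset.mem_union_left _ d.1, d.2⟩
  · exact (b' y ⟨c, hy.2⟩).imp fun _ d => ⟨Finset.mem_union_right _ d.1, d.2⟩

theorem pl_seg (a b : X) : Pl (seg a b) := fun C _ => by
  obtain ⟨N, h1, h2, h3⟩ := exists_line a b
  refine ⟨{N}, fun M hM => Finset.mem_singleton.1 hM ▸ h1, fun y hy =>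
    ⟨N, Finset.mem_singleton_self N, ?_⟩⟩
  obtain ⟨s, t, -, -, -, -, e, -⟩ := seg_coef hy.1
  rw [e, h2, h3, mul_zero, mul_zero, add_zero]

theorem pl_iUnion {ι : Type} [Finite ι] {S : ι → Set X} (h : ∀ i, Pl (S i)) : Pl (⋃ i, S i) := by
  classical
  intro C hC
  have := Fintype.ofFinite ι
  choose t a b using fun i => h i C hC
  refine ⟨Finset.univ.biUnion t, fun N hN => ?_, fun y hy => ?_⟩
  · obtain ⟨i, -, hi⟩ := Finset.mem_biUnion.1 hN
    exact a i N hi
  · obtain ⟨i, hi⟩ := mem_iUnion.1 hy.1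
    exact (b i y ⟨hi, hy.2⟩).imp fun _ d =>
      ⟨Finset.mem_biUnion.2 ⟨i, Finset.mem_univ i, d.1⟩, d.2⟩

theorem Pl.circle {S : Set X} (h : Pl S) (c : X) (R : ℝ) : {y ∈ S | cd c y = R}.Finite := by
  obtain ⟨t, a, b⟩ := h _ (isCompact_Dsc c R)
  refine (t.finite_toSet.biUnion fun N hN => line_circle (a N hN) c R).subset fun y hy => ?_
  obtain ⟨N, h1, h2⟩ := b y ⟨hy.1, hy.2.le⟩
  exact mem_iUnion₂.2 ⟨N, h1, h2, hy.2⟩

theorem polyX {O : Set X} (hO : IsOpen O) (hc : IsPreconnected O) {a b a' b' : X} (hab : a ≠ b)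
    (ha' : a' ∈ O) (hb' : b' ∈ O) (ha : seg a a' \ {a} ⊆ O) (hb : seg b b' \ {b} ⊆ O) :
    ∃ γ : ℝ → X, ContinuousOn γ (Icc 0 1) ∧ InjOn γ (Icc 0 1) ∧ γ 0 = a ∧ γ 1 = b ∧
      (∀ t ∈ Ioo (0 : ℝ) 1, γ t ∈ O) ∧ Pl (γ '' Icc 0 1) := by
  have key : ∀ {p p' : X}, seg p p' \ {p} ⊆ O → segment ℝ (kl p) (kl p') \ {kl p} ⊆ kl '' O :=
    fun {p p'} h => by
      rw [← kl_seg, ← image_singleton, ← image_sdiff kl_emb.injective]
      exact image_mono h
  obtain ⟨γ, h1, h2, h3, h4, h5, s, h6, h7⟩ := poly_arc (kl_emb.isOpenMap O hO)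
    (hc.image _ kl_emb.continuous.continuousOn) (kl_emb.injective.ne hab)
    (mem_image_of_mem kl ha') (mem_image_of_mem kl hb') (key ha) (key hb)
  have : Nonempty X := ⟨a⟩
  have r : ∀ z ∈ kl '' O ∪ {kl a, kl b}, kl (Function.invFun kl z) = z := fun z hz =>
    Function.invFun_eq (by
      rcases hz with ⟨x, -, e⟩ | e | e
      exacts [⟨x, e⟩, ⟨a, e.symm⟩, ⟨b, e.symm⟩])
  have e : ∀ t ∈ Icc (0 : ℝ) 1, kl (Function.invFun kl (γ t)) = γ t := fun t ht => by
    obtain ⟨p, hp, hp'⟩ := h7 t ht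
    exact r _ (h6 p hp hp')
  refine ⟨fun t => Function.invFun kl (γ t), kl_emb.isInducing.continuousOn_iff.2 (h1.congr e),
    fun t ht t' ht' d => h2 ht ht' (by rw [← e t ht, ← e t' ht']; exact congrArg kl d),
    kl_emb.injective ((e 0 (by simp)).trans h3), kl_emb.injective ((e 1 (by simp)).trans h4),
    fun t ht => kl_emb.injective.mem_set_image.1 ((e t (Ioo_subset_Icc_self ht)).symm ▸ h5 t ht),
    (pl_iUnion fun p : s => pl_seg (Function.invFun kl p.1.1) (Function.invFun kl p.1.2)).mono ?_⟩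
  rintro _ ⟨t, ht, rfl⟩
  obtain ⟨p, hp, hp'⟩ := h7 t ht
  refine mem_iUnion.2 ⟨⟨p, hp⟩, kl_emb.injective.mem_set_image.1 ?_⟩
  rwa [kl_seg, e t ht, r _ (h6 p hp (left_mem_segment _ _ _)),
    r _ (h6 p hp (right_mem_segment _ _ _))]

/-- The image of a segment between two cuts is a proper arc. -/
theorem parc_of_cuts {E N N' : V} (hE : Bf E E = 1) (hN : N ≠ 0) (hN' : N' ≠ 0) {η : ℝ}
    (F : X ≃ₜ X) {a b : X} (ha : bf E a = 0) (hb : bf E b = 0)
    (h1 : ∀ x, bf E x = 0 → (bf N (F x) = 0 ↔ x = a))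
    (h2 : ∀ x, bf E x = 0 → (bf N' (F x) = 0 ↔ x = b))
    (h3 : ∀ x, bf E x = 0 → |bf E (F x)| < η) (h4 : 0 < bf N (F b)) (h5 : 0 < bf N' (F a)) :
    PArc (Reg E N N' η) fun t => F (gp a b t) := by
  have e1 := (h1 a ha).2 rfl
  have e2 := (h2 b hb).2 rfl
  have hab : a ≠ b := fun e => h4.ne' (e ▸ e1)
  have hl : ∀ t ∈ Icc (0 : ℝ) 1, bf E (gp a b t) = 0 := fun t ht => by
    obtain ⟨r, -, -, e⟩ := bf_gp a b ht
    rw [e, ha, hb, mul_zero, mul_zero, add_zero, mul_zero]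
  have hc : Continuous fun t => F (gp a b t) := F.continuous.comp (continuous_gp a b)
  refine ⟨hc.continuousOn, F.injective.comp_injOn (gp_inj hab), ?_, ?_, ?_, ?_, fun t ht => ?_⟩
  · rw [gp_zero]
    exact ⟨(h3 a ha).le, e1.ge, h5.le⟩
  · rw [gp_zero, interior_Reg hE hN hN']
    exact fun c => c.2.1.ne' e1
  · rw [gp_one]
    exact ⟨(h3 b hb).le, h4.le, e2.ge⟩
  · rw [gp_one, interior_Reg hE hN hN']
    exact fun c => c.2.2.ne' e2
  · rw [interior_Reg hE hN hN']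
    refine ⟨h3 _ (hl t (Ioo_subset_Icc_self ht)),
      Two_sign (φ := fun t => bf N (F (gp a b t))) (a := 1) isPreconnected_Ioc
        ((continuous_bf N).comp hc).continuousOn (fun u hu c => hu.1.ne' ?_)
        ⟨zero_lt_one, le_rfl⟩ (Ioo_subset_Ioc_self ht) (by rwa [gp_one]),
      Two_sign (φ := fun t => bf N' (F (gp a b t))) (a := 0) isPreconnected_Ico
        ((continuous_bf N').comp hc).continuousOn (fun u hu c => hu.2.ne ?_)
        ⟨le_rfl, zero_lt_one⟩ (Ioo_subset_Ico_self ht) (by rwa [gp_zero])⟩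
    · exact gp_inj hab (Ioc_subset_Icc_self hu) (by simp)
        (((h1 _ (hl u (Ioc_subset_Icc_self hu))).1 c).trans (gp_zero a b).symm)
    · exact gp_inj hab (Ico_subset_Icc_self hu) (by simp)
        (((h2 _ (hl u (Ico_subset_Icc_self hu))).1 c).trans (gp_one a b).symm)

theorem Trans1_onto {u : ℝ → ℝ} (hc : Continuous u) (hi : Function.Injective u)
    (h : IsClosed (range u)) : range u = univ := by
  refine IsClopen.eq_univ ⟨h, isOpen_iff_mem_nhds.2 ?_⟩ (range_nonempty u)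
  rintro _ ⟨s, rfl⟩
  have h1 : s - 1 < s := sub_one_lt s
  have h2 : s < s + 1 := lt_add_one s
  rcases hc.strictMono_of_inj hi with m | m
  · exact Filter.mem_of_superset (Ioo_mem_nhds (m h1) (m h2))
      ((intermediate_value_Ioo (h1.trans h2).le hc.continuousOn).trans (image_subset_range _ _))
  · exact Filter.mem_of_superset (Ioo_mem_nhds (m h2) (m h1))
      ((intermediate_value_Ioo' (h1.trans h2).le hc.continuousOn).trans (image_subset_range _ _))

/-- A homeomorphism whose image of a line contains the line preserves the line. -/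
theorem line_eq_of_subset {E : V} (hE : Bf E E = 1) (F : X ≃ₜ X)
    (h : ∀ y, bf E y = 0 → ∃ x, bf E x = 0 ∧ F x = y) (x : X) :
    bf E (F x) = 0 ↔ bf E x = 0 := by
  refine ⟨fun a => ?_, fun a => ?_⟩
  · obtain ⟨y, b, e⟩ := h _ a
    exact F.injective e ▸ b
  obtain ⟨c, h1, h2, -⟩ := exists_param hE
  have h3 : ∀ y, y ∈ range c ↔ bf E y = 0 := fun y => by rw [h2]; rfl
  have h4 : ∀ s, ∃ r, c r = F.symm (c s) := fun s => by
    obtain ⟨y, b, e⟩ := h _ ((h3 _).1 (mem_range_self s))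
    rw [← e, F.symm_apply_apply]
    exact (h3 y).2 b
  choose u hu using h4
  have e : range u = c ⁻¹' (F ⁻¹' range c) := Set.ext fun r =>
    ⟨fun ⟨s, e⟩ => ⟨s, by rw [← e, hu, F.apply_symm_apply]⟩,
      fun ⟨s, e⟩ => ⟨s, h1.injective (by rw [hu, e, F.symm_apply_apply])⟩⟩
  have h5 := Trans1_onto (h1.isInducing.continuous_iff.2
    ((F.symm.continuous.comp h1.continuous).congr fun s => (hu s).symm))
    (fun s t d => h1.injective (F.symm.injective (by rw [← hu, ← hu, d])))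
    (e ▸ (h1.isClosed_range.preimage F.continuous).preimage h1.continuous)
  obtain ⟨r, rfl⟩ := (h3 x).2 a
  exact (h3 _).1 (show r ∈ c ⁻¹' (F ⁻¹' range c) from e ▸ h5 ▸ mem_univ r)

end Pool.Agent.MP_4a6971_al.H83

/-!
The plane lemmas in the hyperbolic plane, and equivariant moves.
-/

namespace Pool.Agent.MP_4a6971_al.H83

open Set Topology H66

variable {g : ℕ} {Y : Poly g}

theorem finite_meet {C C' : Set X} (h : IsCompact C) (h' : IsCompact C') :
    {w : W g | ∃ x ∈ C, Y.ρ w • x ∈ C'}.Finite := by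
  obtain ⟨R, hR⟩ := subset_Dsc h oX
  obtain ⟨R', hR'⟩ := subset_Dsc h' oX
  refine (Y.proper_o (2 * R' * R)).subset ?_
  rintro w ⟨x, hx, hx'⟩
  have a : cd oX x ≤ R := hR hx
  have b : cd oX (Y.ρ w • x) ≤ R' := hR' hx'
  have c := cd_tri oX (Y.ρ w • x) (Y.ρ w • oX)
  rw [cd_smul, cd_comm (Y.ρ w • x), cd_comm x] at c
  have d := one_le_cd oX x
  have e := one_le_cd oX (Y.ρ w • x)
  change cd oX (Y.ρ w • oX) ≤ _
  refine c.trans ?_
  have f : cd oX (Y.ρ w • x) * cd oX x ≤ R' * R :=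
    mul_le_mul b a (by linarith) (by linarith)
  linarith

theorem Trans_fin {C C' : Set X} (h : IsCompact C) (h' : IsCompact C') :
    {γ : Gam g | ∃ x ∈ C, Y.σ γ • x ∈ C'}.Finite :=
  (finite_meet (Y := Y) h h').preimage (f := fun γ : Gam g => (γ : W g))
    Subtype.val_injective.injOn

theorem pl_orbit {S : Set X} (h : Pl S) {C : Set X} (hC : IsCompact C) (hS : S ⊆ C) :
    Pl {y | ∃ (γ : Gam g), ∃ x ∈ S, y = Y.σ γ • x} := by
  classical
  intro C' hC'
  obtain ⟨t, t1, t2⟩ := h C hC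
  have hf := Trans_fin (Y := Y) hC hC'
  refine ⟨(hf.toFinset ×ˢ t).image fun p => Y.σ p.1 • p.2, ?_, ?_⟩
  · intro N hN
    obtain ⟨p, hp, rfl⟩ := Finset.mem_image.1 hN
    rw [Bf_isom]
    exact t1 _ (Finset.mem_product.1 hp).2
  · rintro y ⟨⟨γ, x, hx, rfl⟩, hy⟩
    obtain ⟨N, hN, e⟩ := t2 x ⟨hx, hS hx⟩
    refine ⟨Y.σ γ • N, Finset.mem_image.2 ⟨(γ, N), Finset.mem_product.2 ⟨?_, hN⟩, rfl⟩, ?_⟩
    · exact hf.mem_toFinset.2 ⟨x, hS hx, hy⟩
    · rw [bf_smul, e]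

theorem Comm.bdd {F : X ≃ₜ X} (h : Comm Y F) : ∃ C, ∀ x, cd x (F x) ≤ C := by
  obtain ⟨R, hR⟩ := Y.cocompact
  have hc : Continuous fun x : X => cd x (F x) := Continuous.cd' continuous_id F.continuous
  obtain ⟨C, hC⟩ := ((isCompact_Dsc oX R).image hc).bddAbove
  refine ⟨C, fun x => ?_⟩
  obtain ⟨γ, hγ⟩ := hR x.1 x.2
  have a : cd x (Y.σ γ • oX) < R := hγ
  have b : (Y.σ γ)⁻¹ • x ∈ Dsc oX R := by
    change cd oX _ ≤ R
    rw [← cd_smul (Y.σ γ), smul_inv_smul, cd_comm]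
    exact a.le
  have c : cd ((Y.σ γ)⁻¹ • x) (F ((Y.σ γ)⁻¹ • x)) ≤ C := hC (mem_image_of_mem _ b)
  rwa [← cd_smul (Y.σ γ), ← h, smul_inv_smul] at c

theorem Trans_cl {K : Set X} (hc : Cvx K) (hn : (interior K).Nonempty) :
    K ⊆ closure (interior K) := by
  have e : kl ⁻¹' interior (kl '' K) = interior K := by
    rw [kl_emb.isOpenMap.preimage_interior_eq_interior_preimage kl_emb.continuous,
      preimage_image_eq _ kl_emb.injective]
  have hn' : (interior (kl '' K)).Nonempty := by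
    obtain ⟨x, hx⟩ := hn
    rw [← e] at hx
    exact ⟨_, hx⟩
  intro x hx
  rw [← e, ← kl_emb.isOpenMap.preimage_closure_eq_closure_preimage kl_emb.continuous,
    (cvx_iff.1 hc).closure_interior_eq_closure_of_nonempty_interior hn']
  exact subset_closure (mem_image_of_mem _ hx)

open Classical in
/-- The equivariant extension of a family of maps. -/
noncomputable def Trans_ext (Y : Poly g) {ι : Type} (K : ι → Set X) (k : ι → X ≃ₜ X) (x : X) : X :=
  if h : ∃ p : Gam g × ι, (Y.σ p.1)⁻¹ • x ∈ interior (K p.2) then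
    Y.σ h.choose.1 • k h.choose.2 ((Y.σ h.choose.1)⁻¹ • x) else x

section

variable {ι : Type} {K : ι → Set X}

theorem Trans_ext_out {k : ι → X ≃ₜ X} {x : X}
    (h : ∀ (γ : Gam g) i, Y.σ γ • x ∉ interior (K i)) : Trans_ext Y K k x = x := by
  rw [Trans_ext, dif_neg]
  rintro ⟨p, hp⟩
  rw [← map_inv] at hp
  exact h _ _ hp

theorem Trans_cases (Y : Poly g) (K : ι → Set X) (x : X) :
    (∃ (γ : Gam g) (i : ι), ∃ y ∈ K i, x = Y.σ γ • y) ∨
      ∀ (γ : Gam g) i, Y.σ γ • x ∉ interior (K i) := by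
  by_cases h : ∀ (γ : Gam g) i, Y.σ γ • x ∉ interior (K i)
  · exact Or.inr h
  · push Not at h
    obtain ⟨γ, i, h⟩ := h
    exact Or.inl ⟨γ⁻¹, i, _, interior_subset h, by rw [map_inv, inv_smul_smul]⟩

variable (hc : ∀ i, Cvx (K i)) (hn : ∀ i, (interior (K i)).Nonempty)
  (hd : ∀ (γ : Gam g) i j x, x ∈ interior (K i) → Y.σ γ • x ∈ interior (K j) → γ = 1 ∧ i = j)

include hc hn hd

theorem Trans_uniq {γ : Gam g} {i j : ι} {x : X} (hx : x ∈ K i)
    (h : Y.σ γ • x ∈ interior (K j)) : γ = 1 ∧ i = j := by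
  have ho : IsOpen {y : X | Y.σ γ • y ∈ interior (K j)} :=
    isOpen_interior.preimage (continuous_const_smul _)
  obtain ⟨y, a, b⟩ := mem_closure_iff.1 (Trans_cl (hc i) (hn i) hx) _ ho h
  exact hd γ i j y b a

theorem Trans_ext_in {k : ι → X ≃ₜ X} (hs : ∀ i, Supp (k i) (K i)) (γ : Gam g) {i : ι} {y : X}
    (hy : y ∈ K i) : Trans_ext Y K k (Y.σ γ • y) = Y.σ γ • k i y := by
  rw [Trans_ext]
  split_ifs with h
  · have a := h.choose_spec
    generalize h.choose = p at a ⊢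
    rw [← map_inv, ← mul_smul, ← map_mul] at a
    obtain ⟨b, rfl⟩ := Trans_uniq hc hn hd hy a
    rw [inv_mul_eq_one.1 b, inv_smul_smul]
  · rw [hs i y]
    intro a
    exact h ⟨(γ, i), by rwa [inv_smul_smul]⟩

theorem Trans_ext_inv {k k' : ι → X ≃ₜ X} (hs : ∀ i, Supp (k i) (K i))
    (hs' : ∀ i, Supp (k' i) (K i)) (e : ∀ i y, k' i (k i y) = y) (x : X) :
    Trans_ext Y K k' (Trans_ext Y K k x) = x := by
  rcases Trans_cases Y K x with ⟨γ, i, y, hy, rfl⟩ | h
  · rw [Trans_ext_in hc hn hd hs γ hy, Trans_ext_in hc hn hd hs' γ ((hs i).mem.2 hy), e]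
  · rw [Trans_ext_out h, Trans_ext_out h]

theorem Trans_ext_comm {k : ι → X ≃ₜ X} (hs : ∀ i, Supp (k i) (K i)) (δ : Gam g) (x : X) :
    Trans_ext Y K k (Y.σ δ • x) = Y.σ δ • Trans_ext Y K k x := by
  rcases Trans_cases Y K x with ⟨γ, i, y, hy, rfl⟩ | h
  · rw [← mul_smul, ← map_mul, Trans_ext_in hc hn hd hs _ hy, Trans_ext_in hc hn hd hs _ hy,
      map_mul, mul_smul]
  · rw [Trans_ext_out h, Trans_ext_out]
    intro γ i
    rw [← mul_smul, ← map_mul]
    exact h _ i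

theorem Trans_ext_cont [Finite ι] (hK : ∀ i, IsCompact (K i)) {k : ℝ → ι → X ≃ₜ X}
    (hs : ∀ t i, Supp (k t i) (K i)) (hk : ∀ i, Continuous fun p : ℝ × X => k p.1 i p.2) :
    Continuous fun p : ℝ × X => Trans_ext Y K (k p.1) p.2 := by
  let f : Gam g × ι → Set (ℝ × X) := fun q => {p | (Y.σ q.1)⁻¹ • p.2 ∈ K q.2}
  let s : Set (ℝ × X) := {p | ∀ (γ : Gam g) i, Y.σ γ • p.2 ∉ interior (K i)}
  have hf : LocallyFinite f := by
    intro p
    have hD : Dsc p.2 2 ∈ 𝓝 p.2 := by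
      rw [← mem_interior_iff_mem_nhds, interior_Dsc]
      change cd p.2 p.2 < 2
      rw [cd_self]
      norm_num
    refine ⟨Prod.snd ⁻¹' Dsc p.2 2, continuous_snd.continuousAt hD, ?_⟩
    have a := Trans_fin (Y := Y) (isCompact_iUnion hK) (isCompact_Dsc p.2 2)
    refine (a.prod (finite_univ (α := ι))).subset ?_
    rintro q ⟨r, r1, r2⟩
    refine ⟨⟨_, mem_iUnion.2 ⟨q.2, r1⟩, ?_⟩, mem_univ _⟩
    rwa [smul_inv_smul]
  refine (hf.option_elim' s).continuous ?_ ?_ ?_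
  · refine eq_univ_of_forall fun p => mem_iUnion.2 ?_
    rcases Trans_cases Y K p.2 with ⟨γ, i, y, hy, e⟩ | h
    · refine ⟨some (γ, i), ?_⟩
      change (Y.σ γ)⁻¹ • p.2 ∈ K i
      rwa [e, inv_smul_smul]
    · exact ⟨none, h⟩
  · rintro (_ | q)
    · change IsClosed {p : ℝ × X | ∀ (γ : Gam g) i, Y.σ γ • p.2 ∉ interior (K i)}
      simp only [ofPred_forall]
      exact isClosed_iInter fun γ => isClosed_iInter fun i =>
        (isOpen_interior.preimage ((continuous_const_smul (Y.σ γ)).comp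
          continuous_snd)).isClosed_compl
    · exact (hK q.2).isClosed.preimage ((continuous_const_smul (Y.σ q.1)⁻¹).comp continuous_snd)
  · rintro (_ | q)
    · exact continuous_snd.continuousOn.congr fun p hp => Trans_ext_out hp
    · have a : Continuous fun p : ℝ × X => Y.σ q.1 • k p.1 q.2 ((Y.σ q.1)⁻¹ • p.2) :=
        (continuous_const_smul _).comp ((hk q.2).comp (continuous_fst.prodMk
          ((continuous_const_smul (Y.σ q.1)⁻¹).comp continuous_snd)))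
      refine a.continuousOn.congr fun p hp => ?_
      have b := Trans_ext_in hc hn hd (hs p.1) q.1 (i := q.2) (y := (Y.σ q.1)⁻¹ • p.2) hp
      rwa [smul_inv_smul] at b

theorem Trans_ext_cont' [Finite ι] (hK : ∀ i, IsCompact (K i)) {k : ι → X ≃ₜ X}
    (hs : ∀ i, Supp (k i) (K i)) : Continuous (Trans_ext Y K k) :=
  (Trans_ext_cont hc hn hd hK (k := fun _ => k) (fun _ => hs)
    fun i => (k i).continuous.comp continuous_snd).comp
      ((continuous_const (y := (0 : ℝ))).prodMk continuous_id)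

end

/-- Equivariant moves. Hint: for any family `k : ι → X ≃ₜ X` supported in the `K i` define
`ext k x = γ • k i (γ⁻¹ • x)` if `γ⁻¹ • x ∈ interior (K i)` and `x` otherwise; its inverse is
`ext k⁻¹`. Apply this to the isotopies of `alexX`; joint continuity from the locally finite closed
cover by the sets `γ • K i` and the complement of the union of the interiors
(`LocallyFinite.continuous`, `finite_meet`). A convex set with nonempty interior lies in the
closure of its interior, so a point of `K i` is in no other translate of an interior. -/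
theorem move {ι : Type} [Finite ι] (K : ι → Set X) (hK : ∀ i, IsCompact (K i))
    (hc : ∀ i, Cvx (K i)) (hn : ∀ i, (interior (K i)).Nonempty)
    (hd : ∀ (γ : Gam g) i j x, x ∈ interior (K i) → Y.σ γ • x ∈ interior (K j) → γ = 1 ∧ i = j)
    (h : ι → X ≃ₜ X) (hs : ∀ i, Supp (h i) (K i)) :
    ∃ H, Iso0 Y H ∧ (∀ i, ∀ x ∈ K i, H x = h i x) ∧
      ∀ x, (∀ (γ : Gam g) i, Y.σ γ • x ∉ interior (K i)) → H x = x := by
  choose k k1 k2 k3 k4 using fun i => alexX (hK i) (hc i) (hs i)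
  let H : ℝ → X ≃ₜ X := fun t =>
    { toFun := Trans_ext Y K fun i => k i t
      invFun := Trans_ext Y K fun i => (k i t)⁻¹
      left_inv := Trans_ext_inv hc hn hd (fun i => k2 i t) (fun i => (k2 i t).inv)
        fun i y => (k i t).symm_apply_apply y
      right_inv := Trans_ext_inv hc hn hd (fun i => (k2 i t).inv) (fun i => k2 i t)
        fun i y => (k i t).apply_symm_apply y
      continuous_toFun := Trans_ext_cont' hc hn hd hK fun i => k2 i t
      continuous_invFun := Trans_ext_cont' hc hn hd hK fun i => (k2 i t).inv }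
  have hH : ∀ t x, H t x = Trans_ext Y K (fun i => k i t) x := fun _ _ => rfl
  refine ⟨H 1, ⟨H, ?_, fun t γ x => ?_, ?_, rfl⟩, fun i x hx => ?_, fun x hx => ?_⟩
  · exact Trans_ext_cont hc hn hd hK (k := fun t i => k i t) (fun t i => k2 i t) k1
  · exact Trans_ext_comm hc hn hd (fun i => k2 i t) γ x
  · ext1 x
    rw [hH]
    rcases Trans_cases Y K x with ⟨γ, i, y, hy, rfl⟩ | a
    · rw [Trans_ext_in hc hn hd (fun i => k2 i 0) γ hy, k3]
      rfl
    · exact Trans_ext_out a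
  · have a := Trans_ext_in hc hn hd (fun i => k2 i 1) 1 hx
    rw [map_one, one_smul, one_smul, k4] at a
    exact a
  · rw [hH]
    exact Trans_ext_out hx

end Pool.Agent.MP_4a6971_al.H83

/-!
One step of the disc flow.
-/

namespace Pool.Agent.MP_4a6971_al.H83

open Set Topology H66

variable {g : ℕ} {Y : Poly g}

/-- The segment from `a` to `b` is mapped by `F` to a proper arc of the disc. -/
structure Comp (F : X ≃ₜ X) (c : X) (R : ℝ) (a b : X) : Prop where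
  ne : a ≠ b
  ha : cd c (F a) = R
  hb : cd c (F b) = R
  mid : ∀ y ∈ seg a b, y ≠ a → y ≠ b → cd c (F y) < R

theorem Step_exit {φ : ℝ → ℝ} (hφ : Continuous φ) {s₀ s₁ R : ℝ} (h0 : φ s₀ < R) (h1 : s₀ ≤ s₁)
    (h2 : R ≤ φ s₁) : ∃ t, s₀ < t ∧ φ t = R ∧ ∀ s, s₀ ≤ s → s < t → φ s < R := by
  have hc : IsClosed {s | s₀ ≤ s ∧ R ≤ φ s} :=
    (isClosed_le continuous_const continuous_id).inter (isClosed_le continuous_const hφ)
  have hb : BddBelow {s | s₀ ≤ s ∧ R ≤ φ s} := ⟨s₀, fun s hs => hs.1⟩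
  have hm := hc.csInf_mem ⟨s₁, h1, h2⟩ hb
  set t := sInf {s | s₀ ≤ s ∧ R ≤ φ s}
  have hl : ∀ s, s₀ ≤ s → s < t → φ s < R := fun s a b => by
    by_contra c
    exact absurd (csInf_le hb ⟨a, not_lt.1 c⟩) (not_le.2 b)
  have ht : s₀ < t := hm.1.lt_of_ne fun e => absurd (e ▸ hm.2) (not_le.2 h0)
  refine ⟨t, ht, ?_, hl⟩
  obtain ⟨u, hu, e⟩ := intermediate_value_Icc ht.le hφ.continuousOn ⟨h0.le, hm.2⟩
  rcases hu.2.eq_or_lt with rfl | a
  · exact e
  · exact absurd e (hl u hu.1 a).ne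

theorem Comp.symm {F : X ≃ₜ X} {c : X} {R : ℝ} {a b : X} (h : Comp F c R a b) : Comp F c R b a :=
  ⟨h.ne.symm, h.hb, h.ha, fun y hy h1 h2 => h.mid y (seg_comm a b ▸ hy) h2 h1⟩

/-- Hint: `exists_param`; `s ↦ cd c (F (c s))` tends to infinity at both ends; take the first
exits on both sides. -/
theorem exists_comp {E : V} (hE : Bf E E = 1) (F : X ≃ₜ X) {c : X} {R : ℝ} {x : X}
    (hx : bf E x = 0) (h : cd c (F x) < R) :
    ∃ a b, bf E a = 0 ∧ bf E b = 0 ∧ Comp F c R a b ∧ x ∈ seg a b := by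
  obtain ⟨p, hp, hr, hs⟩ := exists_param hE
  obtain ⟨ξ, rfl⟩ : x ∈ range p := by rw [hr]; exact hx
  have hon : ∀ s, bf E (p s) = 0 := fun s => by
    have : p s ∈ range p := mem_range_self s
    rwa [hr] at this
  have hφ : Continuous fun s => cd c (F (p s)) :=
    Continuous.cd' continuous_const (F.continuous.comp hp.continuous)
  have hK : IsCompact {s | cd c (F (p s)) ≤ R} :=
    (F.isClosedEmbedding.comp hp).isCompact_preimage (isCompact_Dsc c R)
  obtain ⟨u, hu⟩ := hK.bddAbove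
  obtain ⟨l, hl⟩ := hK.bddBelow
  have e1 : R ≤ cd c (F (p (u + 1))) := by
    by_contra a
    have := hu (not_le.1 a).le
    linarith
  have e2 : R ≤ cd c (F (p (-(-l + 1)))) := by
    by_contra a
    have := hl (not_le.1 a).le
    linarith
  have e3 := hu h.le
  have e4 := hl h.le
  obtain ⟨β, b1, b2, b3⟩ := Step_exit hφ h (by linarith) e1
  obtain ⟨α, a1, a2, a3⟩ := Step_exit (φ := fun s => cd c (F (p (-s)))) (s₀ := -ξ)
    (hφ.comp continuous_neg) (by simpa using h) (by linarith) e2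
  have hab : -α ≤ β := by linarith
  refine ⟨p (-α), p β, hon _, hon _, ⟨fun e => ?_, a2, b2, ?_⟩, ?_⟩
  · have := hp.injective e
    linarith
  · rw [hs _ _ hab]
    rintro _ ⟨s, hs', rfl⟩ n1 n2
    have m1 : -α < s := hs'.1.lt_of_ne fun e => n1 (e ▸ rfl)
    have m2 : s < β := hs'.2.lt_of_ne fun e => n2 (e ▸ rfl)
    rcases le_total ξ s with d | d
    · exact b3 s d m2
    · simpa using a3 (-s) (by linarith) (by linarith)
  · rw [hs _ _ hab]
    exact ⟨ξ, ⟨by linarith, b1.le⟩, rfl⟩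

theorem Step_uniq {p : ℝ → X} (hp : Function.Injective p)
    (hs : ∀ s t, s ≤ t → seg (p s) (p t) = p '' Icc s t) {F : X ≃ₜ X} {c : X} {R α β α' β' ξ : ℝ}
    (h : Comp F c R (p α) (p β)) (h' : Comp F c R (p α') (p β')) (l : α ≤ β) (l' : α' ≤ β')
    (hx : p ξ ∈ seg (p α) (p β)) (hx' : p ξ ∈ seg (p α') (p β')) (hr : cd c (F (p ξ)) < R) :
    α' ≤ α ∧ β ≤ β' := by
  rw [hs _ _ l, hp.mem_set_image] at hx
  rw [hs _ _ l', hp.mem_set_image] at hx'
  have a1 : α < ξ := hx.1.lt_of_ne fun e => absurd h.ha (e ▸ hr.ne)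
  have a2 : ξ < β := hx.2.lt_of_ne fun e => absurd h.hb (e ▸ hr.ne)
  have key : ∀ s, α < s → s < β → cd c (F (p s)) < R := fun s b1 b2 =>
    h.mid _ (by rw [hs _ _ l]; exact ⟨s, ⟨b1.le, b2.le⟩, rfl⟩) (fun e => b1.ne' (hp e))
      (fun e => b2.ne (hp e))
  constructor
  · by_contra d
    exact absurd h'.ha (key α' (not_le.1 d) (hx'.1.trans_lt a2)).ne
  · by_contra d
    exact absurd h'.hb (key β' (a1.trans_le hx'.2) (not_le.1 d)).ne

/-- Two components on the same line with a common inner point coincide. -/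
theorem Comp.unique {E : V} (hE : Bf E E = 1) {F : X ≃ₜ X} {c : X} {R : ℝ} {a b a' b' x : X}
    (h : Comp F c R a b) (h' : Comp F c R a' b') (ha : bf E a = 0) (hb : bf E b = 0)
    (ha' : bf E a' = 0) (hb' : bf E b' = 0) (hx : x ∈ seg a b) (hx' : x ∈ seg a' b')
    (hr : cd c (F x) < R) : (a = a' ∧ b = b') ∨ (a = b' ∧ b = a') := by
  obtain ⟨p, hp, hg, hs⟩ := exists_param hE
  obtain ⟨α, rfl⟩ : a ∈ range p := by rw [hg]; exact ha
  obtain ⟨β, rfl⟩ : b ∈ range p := by rw [hg]; exact hb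
  obtain ⟨α', rfl⟩ : a' ∈ range p := by rw [hg]; exact ha'
  obtain ⟨β', rfl⟩ : b' ∈ range p := by rw [hg]; exact hb'
  obtain ⟨ξ, rfl⟩ : x ∈ range p := by
    rw [hg]
    obtain ⟨s, t, -, -, -, -, e, -⟩ := seg_coef hx
    change bf E x = 0
    rw [e, ha, hb]
    simp
  have key : ∀ {α β α' β' : ℝ}, Comp F c R (p α) (p β) → Comp F c R (p α') (p β') → α ≤ β →
      α' ≤ β' → p ξ ∈ seg (p α) (p β) → p ξ ∈ seg (p α') (p β') → p α = p α' ∧ p β = p β' := by
    intro α β α' β' h h' l l' hx hx'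
    have a := Step_uniq hp.injective hs h h' l l' hx hx' hr
    have b := Step_uniq hp.injective hs h' h l' l hx' hx hr
    rw [le_antisymm a.1 b.1, le_antisymm a.2 b.2]
    exact ⟨rfl, rfl⟩
  rcases le_total α β with l | l <;> rcases le_total α' β' with l' | l'
  · exact Or.inl (key h h' l l' hx hx')
  · exact Or.inr (key h h'.symm l l' hx (seg_comm _ _ ▸ hx'))
  · exact Or.inr (key h.symm h' l l' (seg_comm _ _ ▸ hx) hx').symm
  · exact Or.inl (key h.symm h'.symm l l' (seg_comm _ _ ▸ hx) (seg_comm _ _ ▸ hx')).symm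

theorem Step_on {E : V} {a b x : X} (ha : bf E a = 0) (hb : bf E b = 0) (hx : x ∈ seg a b) :
    bf E x = 0 := by
  obtain ⟨s, t, -, -, -, -, e, -⟩ := seg_coef hx
  rw [e, ha, hb]
  simp

theorem Step_nhds {E : V} (hE : Bf E E = 1) {a b x : X} (ha : bf E a = 0) (hb : bf E b = 0)
    (hx : x ∈ seg a b) (h1 : x ≠ a) (h2 : x ≠ b) :
    ∃ U ∈ 𝓝 x, ∀ y ∈ U, bf E y = 0 → y ∈ seg a b := by
  obtain ⟨p, hp, hg, hs⟩ := exists_param hE
  obtain ⟨α, rfl⟩ : a ∈ range p := by rw [hg]; exact ha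
  obtain ⟨β, rfl⟩ : b ∈ range p := by rw [hg]; exact hb
  have key : ∀ {α β : ℝ}, α ≤ β → x ∈ seg (p α) (p β) → x ≠ p α → x ≠ p β →
      ∃ U ∈ 𝓝 x, ∀ y ∈ U, bf E y = 0 → y ∈ seg (p α) (p β) := by
    intro α β l hx h1 h2
    rw [hs _ _ l] at hx ⊢
    obtain ⟨ξ, hξ, rfl⟩ := hx
    have hc : IsClosed (p '' (Ioo α β)ᶜ) := hp.isClosedMap _ isOpen_Ioo.isClosed_compl
    refine ⟨(p '' (Ioo α β)ᶜ)ᶜ, hc.isOpen_compl.mem_nhds ?_, fun y hy e => ?_⟩
    · rw [mem_compl_iff, hp.injective.mem_set_image, mem_compl_iff, not_not]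
      exact ⟨hξ.1.lt_of_ne fun e => h1 (e ▸ rfl), hξ.2.lt_of_ne fun e => h2 (e ▸ rfl)⟩
    · obtain ⟨s, rfl⟩ : y ∈ range p := by rw [hg]; exact e
      rw [mem_compl_iff, hp.injective.mem_set_image, mem_compl_iff, not_not] at hy
      exact ⟨s, Ioo_subset_Icc_self hy, rfl⟩
  rcases le_total α β with l | l
  · exact key l hx h1 h2
  · rw [seg_comm] at hx ⊢
    exact key l hx h2 h1

theorem Step_img (F : X ≃ₜ X) (a b : X) :
    (fun t => F (gp a b t)) '' Icc 0 1 = F '' seg a b := by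
  rw [seg_eq, image_image]

theorem Comp.gp_lt {F : X ≃ₜ X} {c : X} {R : ℝ} {a b : X} (h : Comp F c R a b) {t : ℝ}
    (ht : t ∈ Ioo (0 : ℝ) 1) : cd c (F (gp a b t)) < R := by
  have hi := gp_inj h.ne
  refine h.mid _ (by rw [seg_eq]; exact ⟨t, Ioo_subset_Icc_self ht, rfl⟩) (fun e => ht.1.ne' ?_)
    (fun e => ht.2.ne ?_)
  · exact hi (Ioo_subset_Icc_self ht) (by simp) (by rw [e, gp_zero])
  · exact hi (Ioo_subset_Icc_self ht) (by simp) (by rw [e, gp_one])

theorem Comp.parc {F : X ≃ₜ X} {c : X} {R : ℝ} {a b : X} (h : Comp F c R a b) :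
    PArc (Dsc c R) fun t => F (gp a b t) where
  cont := (F.continuous.comp (continuous_gp a b)).continuousOn
  inj := F.injective.comp_injOn (gp_inj h.ne)
  m0 := by simp [Dsc, h.ha]
  n0 := by simp [interior_Dsc, h.ha]
  m1 := by simp [Dsc, h.hb]
  n1 := by simp [interior_Dsc, h.hb]
  mid := fun t ht => by
    rw [interior_Dsc]
    exact h.gp_lt ht

theorem Comp.subset {F : X ≃ₜ X} {c : X} {R : ℝ} {a b : X} (h : Comp F c R a b) :
    F '' seg a b ⊆ Dsc c R := by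
  rw [← Step_img]
  rintro _ ⟨t, ht, rfl⟩
  exact h.parc.mem ht

theorem Comp.cross {E E' : V} (hE' : Bf E' E' = 1)
    (hs : {x | bf E x = 0 ∧ bf E' x = 0}.Subsingleton) {F : X ≃ₜ X} {c : X} {R : ℝ}
    {a b a' b' : X} (h : Comp F c R a b) (h' : Comp F c R a' b') (ha : bf E a = 0)
    (hb : bf E b = 0) (ha' : bf E' a' = 0) (hb' : bf E' b' = 0) {t : ℝ} (ht : t ∈ Ioo (0 : ℝ) 1)
    (hm : F (gp a b t) ∈ F '' seg a' b') :
    Cross (fun t => F (gp a b t)) (F '' seg a' b') t := by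
  rw [F.injective.mem_set_image] at hm
  have hlt := h.gp_lt ht
  obtain ⟨U, hU, hU'⟩ := Step_nhds hE' ha' hb' hm (fun e => absurd h'.ha (e ▸ hlt.ne))
    (fun e => absurd h'.hb (e ▸ hlt.ne))
  have h0 := Step_on ha' hb' hm
  obtain ⟨r, r0, -, hr⟩ := bf_gp a b (Ioo_subset_Icc_self ht)
  rw [hr] at h0
  have h1 : (1 - t) * bf E' a + t * bf E' b = 0 := (mul_eq_zero.1 h0).resolve_left r0.ne'
  have h2 : bf E' b - bf E' a ≠ 0 := fun e => by
    have e1 : bf E' b = bf E' a := by linarith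
    have e2 : bf E' a = 0 := by rw [e1] at h1; linarith
    exact h.ne (hs ⟨ha, e2⟩ ⟨hb, e1.trans e2⟩)
  refine ⟨F '' U, F.isOpenMap.image_mem_nhds hU, fun S hS hc u hu v hv m1 m2 => ?_⟩
  have hψ : Continuous fun y => bf E' (F.symm y) := (continuous_bf E').comp F.symm.continuous
  obtain ⟨ru, ru0, -, hru⟩ := bf_gp a b (t := u) ⟨hu.1, (hu.2.trans ht.2).le⟩
  obtain ⟨rv, rv0, -, hrv⟩ := bf_gp a b (t := v) ⟨(ht.1.trans hv.1).le, hv.2⟩
  have eu : bf E' (F.symm (F (gp a b u))) = ru * ((u - t) * (bf E' b - bf E' a)) := by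
    rw [F.symm_apply_apply, hru]
    congr 1
    linarith
  have ev : bf E' (F.symm (F (gp a b v))) = rv * ((v - t) * (bf E' b - bf E' a)) := by
    rw [F.symm_apply_apply, hrv]
    congr 1
    linarith
  have p1 : 0 < ru * (t - u) := mul_pos ru0 (by linarith [hu.2])
  have p2 : 0 < rv * (v - t) := mul_pos rv0 (by linarith [hv.1])
  have : ∃ y ∈ S, bf E' (F.symm y) = 0 := by
    rcases h2.lt_or_gt with d | d
    · exact hc.intermediate_value m2 m1 hψ.continuousOn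
        ⟨by rw [ev]; nlinarith, by rw [eu]; nlinarith⟩
    · exact hc.intermediate_value m1 m2 hψ.continuousOn
        ⟨by rw [eu]; nlinarith, by rw [ev]; nlinarith⟩
  obtain ⟨y, hy, e⟩ := this
  obtain ⟨⟨z, hz, rfl⟩, n⟩ := hS hy
  rw [F.symm_apply_apply] at e
  exact n ⟨z, hU' z hz e, rfl⟩

/-- The components inside one disc. -/
def Step_J (Y : Poly g) (F : X ≃ₜ X) (c : X) (R : ℝ) : Set (ZMod 2 × X × X) :=
  {t | ∃ w k, par k = t.1 ∧ bf (nr Y w k) t.2.1 = 0 ∧ bf (nr Y w k) t.2.2 = 0 ∧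
    Comp F c R t.2.1 t.2.2}

theorem Step_fin {F : X ≃ₜ X} (hP : Pl (F '' TT Y)) (c : X) (R : ℝ) :
    (Step_J Y F c R).Finite := by
  have hA : (F ⁻¹' {y ∈ F '' TT Y | cd c y = R}).Finite :=
    (hP.circle c R).preimage F.injective.injOn
  refine ((finite_univ (α := ZMod 2)).prod (hA.prod hA)).subset ?_
  rintro ⟨k, a, b⟩ ⟨w, j, -, ha, hb, h⟩
  exact ⟨trivial, ⟨⟨a, ⟨w, j, ha⟩, rfl⟩, h.ha⟩, ⟨⟨b, ⟨w, j, hb⟩, rfl⟩, h.hb⟩⟩

theorem Step_two (Y : Poly g) (F : X ≃ₜ X) (c : X) (R : ℝ) :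
    TwoCol (Dsc c R) (fun (t : Step_J Y F c R) τ => F (gp t.1.2.1 t.1.2.2 τ)) fun t => t.1.1 := by
  obtain ⟨η, hη⟩ := exists_thin Y
  have hsub : ∀ {w w' : W g} {k k' : I g}, par k ≠ par k' →
      {x | bf (nr Y w k) x = 0 ∧ bf (nr Y w' k') x = 0}.Subsingleton := fun {w w' k k'} n =>
    have d := walls_diff (Y := Y) (w := w) (w' := w') (fun e : k = k' => n (e ▸ rfl))
    two_lines (nr_unit _ _) (nr_unit _ _) d.1 d.2
  constructor
  · rintro ⟨t, w, k, -, -, -, h⟩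
    exact h.parc
  · rintro ⟨⟨κ, a, b⟩, m⟩ ⟨⟨κ', a', b'⟩, m'⟩ e
    simp only [Step_img, gp_zero, gp_one] at e ⊢
    obtain ⟨w, k, p, ha, hb, h⟩ := m
    obtain ⟨w', k', p', ha', hb', h'⟩ := m'
    dsimp only at p ha hb h p' ha' hb' h'
    subst p p'
    by_cases d : (a = a' ∧ b = b') ∨ (a = b' ∧ b = a')
    · left
      rcases d with ⟨rfl, rfl⟩ | ⟨rfl, rfl⟩
      · rfl
      · rw [seg_comm]
    · right
      refine ⟨fun t ht t' ht' q => d ?_, fun q => d ?_⟩
      · have q' := F.injective q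
        have m : gp a b t ∈ seg a b := by
          rw [seg_eq]; exact ⟨t, Ioo_subset_Icc_self ht, rfl⟩
        have m' : gp a b t ∈ seg a' b' := by
          rw [q', seg_eq]; exact ⟨t', Ioo_subset_Icc_self ht', rfl⟩
        have s := (hη.same e (w := w) (w' := w') (x := gp a b t)
          (by rw [Step_on ha hb m, abs_zero]; exact hη.pos.le)
          (by rw [Step_on ha' hb' m', abs_zero]; exact hη.pos.le)).2
        have z : ∀ y, bf (nr Y w' k') y = 0 → bf (nr Y w k) y = 0 := fun y hy => by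
          rcases s with s | s <;> rw [s] at hy
          · exact hy
          · simpa using hy
        exact h.unique (nr_unit w k) h' ha hb (z _ ha') (z _ hb') m m' (h.gp_lt ht)
      · rw [← image_pair, ← image_pair, F.injective.image_injective.eq_iff] at q
        exact pair_eq_pair_iff.1 q
  · rintro ⟨⟨κ, a, b⟩, m⟩ ⟨⟨κ', a', b'⟩, m'⟩ e
    simp only [Step_img] at e ⊢
    obtain ⟨w, k, p, ha, hb, h⟩ := m
    obtain ⟨w', k', p', ha', hb', h'⟩ := m'
    dsimp only at p ha hb h p' ha' hb' h'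
    subst p p'
    rw [← image_inter F.injective]
    exact ((hsub e).anti fun x hx => ⟨Step_on ha hb hx.1, Step_on ha' hb' hx.2⟩).image F
  · rintro ⟨⟨κ, a, b⟩, m⟩ ⟨⟨κ', a', b'⟩, m'⟩ e t ht hm
    simp only [Step_img] at e hm ⊢
    obtain ⟨w, k, p, ha, hb, h⟩ := m
    obtain ⟨w', k', p', ha', hb', h'⟩ := m'
    dsimp only at p ha hb h p' ha' hb' h'
    subst p p'
    exact h.cross (nr_unit w' k') (hsub e) h' ha hb ha' hb' ht hm

theorem Step_seg_smul (f : Isom) (a b : X) : seg (f • a) (f • b) = (fun y => f • y) '' seg a b := by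
  ext y
  constructor
  · intro h
    refine ⟨f⁻¹ • y, (smul_mem_seg f).1 ?_, smul_inv_smul f y⟩
    rwa [smul_inv_smul]
  · rintro ⟨x, hx, rfl⟩
    exact (smul_mem_seg f).2 hx

theorem Step_pull {F : X ≃ₜ X} (hF : Comm Y F) {γ : Gam g} {c : X} {R : ℝ} {w : W g} {k : I g}
    {a b : X} (ha : bf (nr Y w k) (Y.σ γ • a) = 0) (hb : bf (nr Y w k) (Y.σ γ • b) = 0)
    (h : Comp F (Y.σ γ • c) R (Y.σ γ • a) (Y.σ γ • b)) : (par k, a, b) ∈ Step_J Y F c R := by
  have e : ∀ x, bf (nr Y ((γ⁻¹ : Gam g) * w) k) x = bf (nr Y w k) (Y.σ γ • x) := fun x => by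
    rw [← nr_smul, ← bf_smul (Y.σ γ), map_inv, smul_inv_smul]
  refine ⟨(γ⁻¹ : Gam g) * w, k, rfl, (e a).trans ha, (e b).trans hb, fun q => h.ne (congrArg _ q),
    ?_, ?_, fun y hy n1 n2 => ?_⟩
  · have := h.ha
    rwa [hF, cd_smul] at this
  · have := h.hb
    rwa [hF, cd_smul] at this
  · have := h.mid (Y.σ γ • y) ((smul_mem_seg _).2 hy) (fun q => n1 (smul_left_cancel _ q))
      (fun q => n2 (smul_left_cancel _ q))
    rwa [hF, cd_smul] at this

/-- The step. Hint: for each `i` the index set of triples `(colour, a, b)` with `a, b` on a wall of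
that colour and `Comp F (c i) R a b` is finite (`Pl.circle`); the arcs `t ↦ F (gp a b t)` form a
`TwoCol` system (`Thin.same`, `Comp.unique`, `walls_diff`, `two_lines`; for `Cross` use the
function `bf E' ∘ F⁻¹`, whose zero set near the crossing point lies in the other arc); `twoX`,
`move`; `pl_orbit`. -/
theorem step {ι : Type} [Finite ι] (c : ι → X) {R : ℝ} (hR : 1 < R)
    (hd : ∀ (γ : Gam g) i j x, x ∈ Dsc (c i) R → Y.σ γ • x ∈ Dsc (c j) R → γ = 1 ∧ i = j)
    {F : X ≃ₜ X} (hF : Comm Y F) (hP : Pl (F '' TT Y)) :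
    ∃ F', Red Y F F' ∧ Pl (F' '' TT Y) ∧
      (∀ x, (∀ (γ : Gam g) i, R ≤ cd (Y.σ γ • c i) (F x)) → F' x = F x) ∧
      ∀ w k (γ : Gam g) i a b, bf (nr Y w k) a = 0 → bf (nr Y w k) b = 0 →
        Comp F (Y.σ γ • c i) R a b → F' '' seg a b = seg (F a) (F b) := by
  have hfin : ∀ i, Finite (Step_J Y F (c i) R) := fun i => (Step_fin hP (c i) R).to_subtype
  choose f hf hf' using fun i => twoX (Step_two Y F (c i) R)
  obtain ⟨H, h0, h1, h2⟩ := move (Y := Y) (fun i => Dsc (c i) R) (fun i => isCompact_Dsc _ _)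
    (fun i => cvx_Dsc _ _) (fun i => ⟨c i, by rw [interior_Dsc]; simpa [cd_self] using hR⟩)
    (fun γ i j x a b => hd γ i j x (interior_subset a) (interior_subset b)) f hf
  have hred := Red.left hF h0
  have base : ∀ i a b k, (k, a, b) ∈ Step_J Y F (c i) R →
      (H * F) '' seg a b = seg (F a) (F b) := by
    intro i a b k m
    have e := hf' i ⟨_, m⟩
    simp only [Step_img, gp_zero, gp_one] at e
    obtain ⟨w, j, -, -, -, h⟩ := m
    rw [← e, image_image]
    exact image_congr fun x hx => h1 i _ (h.subset ⟨x, hx, rfl⟩)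
  have out : ∀ x, (∀ (γ : Gam g) i, R ≤ cd (Y.σ γ • c i) (F x)) → (H * F) x = F x := by
    intro x hx
    refine h2 _ fun γ i => ?_
    have := hx γ⁻¹ i
    rw [← cd_smul (Y.σ γ), map_inv, smul_inv_smul] at this
    rw [interior_Dsc]
    exact not_lt.2 this
  have main : ∀ (γ : Gam g) i a b k, (k, a, b) ∈ Step_J Y F (c i) R →
      (H * F) '' seg (Y.σ γ • a) (Y.σ γ • b) = (fun y => Y.σ γ • y) '' seg (F a) (F b) := by
    intro γ i a b k m
    rw [← base i a b k m, Step_seg_smul, image_image, image_image]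
    exact image_congr fun x _ => hred.1 γ x
  refine ⟨H * F, hred, ?_, out, ?_⟩
  · have hS : Pl (⋃ t : Σ i, Step_J Y F (c i) R, seg (F t.2.1.2.1) (F t.2.1.2.2)) :=
      pl_iUnion fun t => pl_seg _ _
    have hC : IsCompact (⋃ i, Dsc (c i) R) := isCompact_iUnion fun i => isCompact_Dsc _ _
    refine (hP.union (pl_orbit (Y := Y) hS hC ?_)).mono ?_
    · refine iUnion_subset ?_
      rintro ⟨i, ⟨k, a, b⟩, w, j, -, -, -, h⟩
      exact subset_iUnion_of_subset i (cvx_Dsc _ _ _ h.ha.le _ h.hb.le)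
    · rintro _ ⟨x, ⟨w, k, hx⟩, rfl⟩
      by_cases d : ∀ (γ : Gam g) i, R ≤ cd (Y.σ γ • c i) (F x)
      · exact Or.inl ⟨x, ⟨w, k, hx⟩, (out x d).symm⟩
      · simp only [not_forall, not_le] at d
        obtain ⟨γ, i, d⟩ := d
        obtain ⟨a, b, ha, hb, h, m⟩ := exists_comp (nr_unit w k) F hx d
        obtain ⟨a, rfl⟩ : ∃ a', a = Y.σ γ • a' := ⟨_, (smul_inv_smul _ a).symm⟩
        obtain ⟨b, rfl⟩ : ∃ b', b = Y.σ γ • b' := ⟨_, (smul_inv_smul _ b).symm⟩
        have j := Step_pull hF ha hb h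
        obtain ⟨y, hy, e⟩ := (main γ i a b _ j).subset ⟨x, m, rfl⟩
        exact Or.inr ⟨γ, y, mem_iUnion.2 ⟨⟨i, _, j⟩, hy⟩, e.symm⟩
  · intro w k γ i a b ha hb h
    obtain ⟨a, rfl⟩ : ∃ a', a = Y.σ γ • a' := ⟨_, (smul_inv_smul _ a).symm⟩
    obtain ⟨b, rfl⟩ : ∃ b', b = Y.σ γ • b' := ⟨_, (smul_inv_smul _ b).symm⟩
    rw [main γ i a b _ (Step_pull hF ha hb h), hF, hF, Step_seg_smul]

end Pool.Agent.MP_4a6971_al.H83

/-!
The disc flow pushes the images of the walls into thin strips.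
-/

namespace Pool.Agent.MP_4a6971_al.H83

open Set Topology H66

variable {g : ℕ} {Y : Poly g}

theorem Sweep_abs {E : V} (hE : Bf E E = 1) (x y : X) (h : bf E y * bf E x ≤ 0) :
    |bf E y| ≤ cd x y := abs_Bf_le_of_sign hE y.2 x.2 h

/-- Hint: `Comm.bdd`, `abs_Bf_le`. -/
theorem Comm.exists_bd {F : X ≃ₜ X} (h : Comm Y F) : ∃ m, ∀ c, Bd Y c F m := by
  obtain ⟨C, hC⟩ := h.bdd
  refine ⟨C, fun c w i x _ hx => (Sweep_abs (nr_unit w i) x (F x) ?_).trans (hC x)⟩
  rw [hx, mul_zero]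

theorem Sweep_side {F : X ≃ₜ X} {C m : ℝ} (hC : ∀ x, cd x (F x) ≤ C) {E A : V} (hE : Bf E E = 1)
    (hA : Bf A A = 1) (hEA : Bf E A = 0) (h : ∀ x, bf E x = 0 → |bf E (F x)| ≤ m) {x : X}
    (hx : 0 ≤ bf E x) : -m ≤ bf E (F x) := by
  by_contra! hc
  obtain ⟨y, hy, -⟩ := exists_of_frame hE hA hEA (-(|m| + |C| + 1)) 0
  have a1 := le_abs_self m
  have a2 := le_abs_self C
  have a3 := abs_nonneg m
  have a4 := abs_nonneg C
  have hy1 : bf E (F.symm y) ≤ 0 := by
    by_contra! hp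
    have b1 := Sweep_abs hE (F.symm y) y (by nlinarith)
    have b2 := hC (F.symm y)
    rw [F.apply_symm_apply] at b2
    rw [hy, abs_of_neg (by linarith)] at b1
    linarith
  have hf : ContinuousOn (fun z => bf E (F.symm z)) {z | bf E z < -m} :=
    ((continuous_bf E).comp F.symm.continuous).continuousOn
  obtain ⟨z, hz, hz0⟩ := (preconn_beyond hE (-m)).intermediate_value (a := y) (b := F x)
    (show bf E y < -m by linarith) hc hf (show (0 : ℝ) ∈ Icc _ _ from ⟨hy1, by simpa using hx⟩)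
  have b := h _ hz0
  rw [F.apply_symm_apply] at b
  exact absurd (abs_le.1 b).1 (not_le.2 hz)

/-- Sides are respected up to `m`. Hint: `{bf E · < -m}` is preconnected (`preconn_beyond`) and
misses the image of the wall, so `bf E ∘ F⁻¹` has constant sign on it; at a point far away the sign
is negative (`Comm.bdd`, `abs_Bf_le_of_sign`). -/
theorem Bd.side {F : X ≃ₜ X} (hF : Comm Y F) {c : ZMod 2} {m : ℝ} (h : Bd Y c F m) {w : W g}
    {i : I g} (hi : par i = c) (x : X) :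
    (0 ≤ bf (nr Y w i) x → -m ≤ bf (nr Y w i) (F x)) ∧
      (bf (nr Y w i) x ≤ 0 → bf (nr Y w i) (F x) ≤ m) := by
  obtain ⟨C, hC⟩ := hF.bdd
  have hEA : Bf (nr Y w i) (nr Y w (i + 1)) = 0 := by simp [nr, Y.adj]
  refine ⟨fun hx => Sweep_side hC (nr_unit w i) (nr_unit w (i + 1)) hEA
    (fun z hz => h w i z hi hz) hx, fun hx => ?_⟩
  have := Sweep_side (E := -nr Y w i) (m := m) (x := x) hC (by simp [nr_unit])
    (nr_unit (Y := Y) w (i + 1))
    (by simp [hEA]) (fun z hz => by simpa using h w i z hi (by simpa using hz)) (by simpa using hx)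
  simpa using this

theorem Sweep_cd (x y : X) : cd y x = -bf x.1 y := by rw [cd, ch, bf, Bf_comm]

/-- Contraction on a chord. Hint: `seg_coef` gives `y = s P + t Q`, `cd y P = s + t cd P Q`,
`cd y Q = s cd P Q + t`. If `1 + δ ≤ cd y Q` then `δ ≤ s (cd P Q - 1)`, so `δ / S ≤ s`; if both
ends are far then `(s + t)² ≤ 1 - 2 δ² / S`. -/
theorem chord_contract {δ S l : ℝ} (hδ : 0 < δ) (hl : l < 1) (hl0 : 0 ≤ l) :
    ∃ l', 0 ≤ l' ∧ l' < 1 ∧ l ≤ l' ∧ ∀ (N : V) (P Q y : X) (m : ℝ), y ∈ seg P Q → cd P Q ≤ S →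
      |bf N P| ≤ m → |bf N Q| ≤ m → (cd y P ≤ 1 + δ → |bf N P| ≤ l * m) →
      (cd y Q ≤ 1 + δ → |bf N Q| ≤ l * m) → |bf N y| ≤ l' * m := by
  have hS : 0 < max S 1 := lt_max_of_lt_right one_pos
  obtain ⟨κ, κ0, hκ⟩ : ∃ κ : ℝ, 0 < κ ∧ κ * max S 1 = δ := ⟨δ / max S 1, by positivity, by field_simp⟩
  have p1 : 0 < (1 - l) * κ := mul_pos (by linarith) κ0
  have p2 : 0 < δ * κ := mul_pos hδ κ0
  refine ⟨max l (max (1 - (1 - l) * κ) (1 - δ * κ)), le_max_of_le_left hl0,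
    max_lt hl (max_lt (by linarith) (by linarith)), le_max_left _ _, ?_⟩
  intro N P Q y m hy hPQ hP hQ hP' hQ'
  have l1 : l ≤ max l (max (1 - (1 - l) * κ) (1 - δ * κ)) := le_max_left _ _
  have l2 : 1 - (1 - l) * κ ≤ max l (max (1 - (1 - l) * κ) (1 - δ * κ)) :=
    le_max_of_le_right (le_max_left _ _)
  have l3 : 1 - δ * κ ≤ max l (max (1 - (1 - l) * κ) (1 - δ * κ)) :=
    le_max_of_le_right (le_max_right _ _)
  generalize max l (max (1 - (1 - l) * κ) (1 - δ * κ)) = l' at *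
  obtain ⟨s, t, s0, t0, st, e, hN, -⟩ := seg_coef hy
  have m0 : 0 ≤ m := (abs_nonneg _).trans hP
  have d1 := one_le_cd P Q
  have d2 : cd P Q - 1 ≤ max S 1 := by linarith [le_max_left S 1]
  have c1 : cd y P = s + t * cd P Q := by
    rw [Sweep_cd, hN, ← neg_neg (bf P.1 P), ← neg_neg (bf P.1 Q), ← Sweep_cd, ← Sweep_cd, cd_self,
      cd_comm Q P]
    ring
  have c2 : cd y Q = s * cd P Q + t := by
    rw [Sweep_cd, hN, ← neg_neg (bf Q.1 P), ← neg_neg (bf Q.1 Q), ← Sweep_cd, ← Sweep_cd, cd_self]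
    ring
  have key : |bf N y| ≤ s * |bf N P| + t * |bf N Q| := by
    rw [hN]
    refine (abs_add_le _ _).trans (le_of_eq ?_)
    rw [abs_mul, abs_mul, abs_of_nonneg s0, abs_of_nonneg t0]
  generalize cd P Q = D at *
  generalize max S 1 = T at *
  have far : ∀ u : ℝ, 0 ≤ u → δ ≤ u * (D - 1) → κ ≤ u := fun u u0 hu => by
    by_contra! hc
    nlinarith
  have fin : ∀ a b k : ℝ, |bf N P| ≤ a * m → |bf N Q| ≤ b * m → s * a + t * b ≤ k → k ≤ l' →
      |bf N y| ≤ l' * m := fun a b k ha hb h1 h2 => by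
    have := mul_le_mul_of_nonneg_left ha s0
    have := mul_le_mul_of_nonneg_left hb t0
    have := mul_le_mul_of_nonneg_right (h1.trans h2) m0
    linarith
  rcases le_or_gt (cd y P) (1 + δ) with a | a <;> rcases le_or_gt (cd y Q) (1 + δ) with b | b
  · exact fin l l l (hP' a) (hQ' b) (by nlinarith) l1
  · have := far s s0 (by nlinarith)
    exact fin l 1 _ (hP' a) (by linarith) (by nlinarith) l2
  · have := far t t0 (by nlinarith)
    exact fin 1 l _ (by linarith) (hQ' b) (by nlinarith) l2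
  · have h1 := far s s0 (by nlinarith)
    have h2 : δ ≤ t * (D - 1) := by nlinarith
    have h3 : δ * κ ≤ t * (D - 1) * s := mul_le_mul h2 h1 κ0.le (hδ.le.trans h2)
    exact fin 1 1 _ (by linarith) (by linarith) (by nlinarith [sq_nonneg (s + t - 1)]) l3

/-- The images of all walls stay within `m` of the walls. -/
def Sweep_B (Y : Poly g) (F : X ≃ₜ X) (m : ℝ) : Prop :=
  ∀ w i x, bf (nr Y w i) x = 0 → |bf (nr Y w i) (F x)| ≤ m

theorem Sweep_cd_move (γ : Gam g) (c x : X) : cd c (Y.σ γ • x) = cd (Y.σ γ⁻¹ • c) x := by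
  rw [← cd_smul (Y.σ γ) _ x, map_inv, smul_inv_smul]

theorem Sweep_round {R : ℝ} (hR : 1 < R)
    (hd : ∀ (c : X) (γ : Gam g) x, x ∈ Dsc c R → Y.σ γ • x ∈ Dsc c R → γ = 1) (C : Finset X) :
    ∀ R' < R, ∃ l, 0 ≤ l ∧ l < 1 ∧ ∀ F m, Comm Y F → Pl (F '' TT Y) → Sweep_B Y F m →
      ∃ F', Red Y F F' ∧ Pl (F' '' TT Y) ∧ Sweep_B Y F' m ∧ ∀ w i x, bf (nr Y w i) x = 0 →
        ∀ γ : Gam g, ∀ c ∈ C, cd c (Y.σ γ • F' x) ≤ R' → |bf (nr Y w i) (F' x)| ≤ l * m := by
  classical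
  induction C using Finset.induction_on with
  | empty =>
    exact fun R' _ => ⟨0, le_rfl, one_pos, fun F m hF hP hB =>
      ⟨F, Red.refl hF, hP, hB, fun _ _ _ _ _ c hc => by simp at hc⟩⟩
  | insert c0 C _ ih =>
    intro R' hR'
    obtain ⟨l, l0, l1, hl⟩ := ih ((R' + R) / 2) (by linarith)
    obtain ⟨δ, δ0, hδ⟩ := cd_near (R := R') (R' := (R' + R) / 2) (by linarith)
    obtain ⟨l', l0', l1', ll, hl'⟩ := chord_contract (S := 2 * R * R) δ0 l1 l0
    refine ⟨l', l0', l1', fun F m hF hP hB => ?_⟩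
    obtain ⟨F1, r1, p1, b1, c1⟩ := hl F m hF hP hB
    obtain ⟨F2, r2, p2, o2, s2⟩ := step (Y := Y) (ι := Unit) (fun _ => c0) hR
      (fun γ _ _ x h1 h2 => ⟨hd c0 γ x h1 h2, rfl⟩) r1.1 p1
    have key : ∀ w i x, bf (nr Y w i) x = 0 → |bf (nr Y w i) (F2 x)| ≤ m ∧
        ∀ γ : Gam g, ∀ c ∈ insert c0 C, cd c (Y.σ γ • F2 x) ≤ R' →
          |bf (nr Y w i) (F2 x)| ≤ l' * m := by
      intro w i x hx
      have m0 : 0 ≤ m := (abs_nonneg _).trans (hB w i x hx)
      by_cases hc : ∀ γ : Gam g, R ≤ cd (Y.σ γ • c0) (F1 x)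
      · rw [o2 x fun γ _ => hc γ]
        refine ⟨b1 w i x hx, fun γ c hcC h => ?_⟩
        rcases Finset.mem_insert.1 hcC with rfl | hcC
        · have := hc γ⁻¹
          rw [← Sweep_cd_move] at this
          linarith
        · exact (c1 w i x hx γ c hcC (by linarith)).trans (mul_le_mul_of_nonneg_right ll m0)
      · push Not at hc
        obtain ⟨γ, hγ⟩ := hc
        obtain ⟨a, b, ha, hb, hab, hx'⟩ := exists_comp (nr_unit w i) F1 hx hγ
        have hy : F2 x ∈ seg (F1 a) (F1 b) := s2 w i γ () a b ha hb hab ▸ mem_image_of_mem _ hx'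
        refine ⟨cvx_strip _ _ _ (b1 w i a ha) _ (b1 w i b hb) hy, fun γ' c hcC h => ?_⟩
        have near : ∀ z, bf (nr Y w i) z = 0 → cd (Y.σ γ • c0) (F1 z) = R →
            cd (F2 x) (F1 z) ≤ 1 + δ → |bf (nr Y w i) (F1 z)| ≤ l * m := by
          intro z hz hzR hn
          have h1 := hδ c _ (Y.σ γ' • F1 z) h (by rwa [cd_smul])
          rcases Finset.mem_insert.1 hcC with rfl | hcC
          · exfalso
            have h2 : cd c (Y.σ γ⁻¹ • F1 z) = R := by rw [Sweep_cd_move, inv_inv, hzR]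
            have h3 := hd c (γ' * γ) _ h2.le (by
              rw [map_mul, map_inv, mul_smul, smul_inv_smul]
              exact h1.le.trans (by linarith))
            rw [← eq_inv_of_mul_eq_one_left h3] at h2
            linarith
          · exact c1 w i z hz γ' c hcC h1.le
        refine hl' _ _ _ _ m hy ?_ (b1 w i a ha) (b1 w i b hb) (near a ha hab.ha) (near b hb hab.hb)
        have := cd_tri (F1 a) (Y.σ γ • c0) (F1 b)
        rwa [hab.ha, hab.hb] at this
    exact ⟨F2, r1.trans r2, p2, fun w i x hx => (key w i x hx).1, fun w i x hx => (key w i x hx).2⟩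

/-- The flow. Hint: with the discs of `exists_discs` prove by induction on a finite set `C` of
centres, for all `R' < R`: there is `l < 1` such that for all `F`, `m` with `∀ c, Bd c F m` some
`F'` has `Red`, `Pl`, `∀ c, Bd c F' m`, and `|bf E (F' x)| ≤ l * m` for all points `x` of a wall
`E` with `F' x` in a translate of `Dsc c R'`, `c ∈ C`. In the step use the induction hypothesis for
`(R' + R) / 2`, `step` with `ι = Unit`, `exists_comp`, `cd_near`, `chord_contract`. Then iterate. -/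
theorem sweep {F : X ≃ₜ X} (hF : Comm Y F) (hP : Pl (F '' TT Y)) {ε : ℝ} (hε : 0 < ε) :
    ∃ F', Red Y F F' ∧ Pl (F' '' TT Y) ∧ ∀ c, Bd Y c F' ε := by
  obtain ⟨R', R, C, hR', hR, hd, hc⟩ := exists_discs Y
  obtain ⟨l, l0, l1, hl⟩ := Sweep_round hR hd C R' hR'
  obtain ⟨m, hm⟩ := hF.exists_bd
  have it : ∀ n : ℕ, ∃ F', Red Y F F' ∧ Pl (F' '' TT Y) ∧ Sweep_B Y F' (l ^ n * |m|) := by
    intro n
    induction n with
    | zero =>
      exact ⟨F, Red.refl hF, hP, fun w i x hx =>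
        (hm _ w i x rfl hx).trans (by simpa using le_abs_self m)⟩
    | succ n ih =>
      obtain ⟨F1, r1, p1, b1⟩ := ih
      obtain ⟨F2, r2, p2, -, c2⟩ := hl F1 _ r1.1 p1 b1
      refine ⟨F2, r1.trans r2, p2, fun w i x hx => ?_⟩
      obtain ⟨γ, c, hcC, h⟩ := hc (F2 x)
      exact (c2 w i x hx γ c hcC h).trans (le_of_eq (by ring))
  have m0 := abs_nonneg m
  obtain ⟨n, hn⟩ := exists_pow_lt_of_lt_one (x := ε / (|m| + 1)) (by positivity) l1
  obtain ⟨F', r, p, b⟩ := it n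
  refine ⟨F', r, p, fun c w i x _ hx => (b w i x hx).trans ?_⟩
  rw [lt_div_iff₀ (by positivity)] at hn
  nlinarith [pow_nonneg l0 n]

end Pool.Agent.MP_4a6971_al.H83
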